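import Pool.Agent.H24.DR3.Cas2

/-!
# DR3: parallel copies: the closed direction

`PcOk.cas1`: if the long bodies of the copies over one height and base are parallel off a small event,
then the direction of the body is almost a function of the line and almost a function of the height
and the base.
-/

set_option autoImplicit false

namespace Pool.DR24

open Finset Real Matrix
open Pool.Agent.H49.Ent Pool.Agent.H32.Dense Pool.STK Pool.POT Pool.FAD Pool.SLO Pool.TQ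
open Pool.K2S (Pe)
open Pool.BFL (Pb)
open Pool.DIR21 (Pb_Pe Pb_mono Pb_or Pb_nonneg Pb_im sel)
open Pool.DIR16 (Pe_cc Pe_le_one)

variable {Ω Λ τ B β ρ σ : Type} [Fintype Ω] {p : Ω → ℝ} {L : Ω → Λ} {th : Ω → τ}
  {b : Ω → B} {hgt nu : Ω → Fin 3 → ℤ} {S : Ω → ρ} {Wd : Ω → β} {Z : Ω → Fin 3 → ℤ} {Bs : Ω → σ}
  {X : ℕ} {C d : ℝ}

open Classical in
/-- The direction of a body, always a unit vector. -/
noncomputable def uv (A : Matrix (Fin 3) (Fin 3) ℝ) : Fin 3 → ℝ :=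
  if 0 < nb A then un A else Pi.single 0 1

theorem uv_u3 (A : Matrix (Fin 3) (Fin 3) ℝ) : U3 (uv A) := by
  classical
  unfold uv
  split_ifs with h
  · exact un_u3 h
  · constructor
    · intro i
      fin_cases i <;> simp
    · exact ⟨0, by simp⟩

theorem uv_eq {A : Matrix (Fin 3) (Fin 3) ℝ} (h : 0 < nb A) : uv A = un A := by
  unfold uv
  rw [if_pos h]

/-- An event of the first samples and an event of the other ones. -/
theorem Pb_cond_le {Γ : Type} [Fintype Γ] {t : Γ → ℝ} (ht : IsLaw t) {E : Γ → Prop}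
    (hE : 0 < Pe t E) (G : Γ → Prop) : Pb t (fun w => E w ∧ G w) ≤ Pb (cond t E True) G := by
  rw [Pb_Pe, Pe_cc hE, Pb_Pe]
  have h1 := Pe_le_one ht E
  have h2 : 0 ≤ Pe (cond t E True) G := by
    rw [← Pb_Pe]
    exact Pb_nonneg (cond_law ht.nonneg hE).nonneg G
  exact mul_le_of_le_one_left h2 h1

/-- **The closed direction.** -/
theorem dir_closed {a : ℕ} (hp : IsLaw p) {κ ρ₁ δ₁ δ₂ : ℝ} (hκ : 0 < κ)
    (hδ₂ : 0 < δ₂) {A0 : (Fin (a + 1) → τ) → Matrix (Fin 3) (Fin 3) ℝ}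
    (hE : 0 < Pe (tup p L (a + 1)) (evE th (EB A0 κ)))
    (hpar : Pb (cE p L th (EB A0 κ) Z Bs 1)
      (fun W => ¬ PA ρ₁ (un (bdy th A0 (W 0))) (un (bdy th A0 (W 1)))) ≤ δ₁) :
    ∃ (φ : Λ → Fin 3 → ℝ) (ψ : (Fin 3 → ℤ) × σ → Fin 3 → ℝ), (∀ x, U3 (φ x)) ∧
      (∀ x, U3 (ψ x)) ∧
      Pb (tup p L (a + 1)) (fun w => EB A0 κ (fun j => th (w j.succ)) ∧
        ¬ PA (8 * ρ₁) (un (bdy th A0 w)) (φ (L (w 0)))) ≤ δ₂ + (δ₁ + δ₁) / δ₂ ∧
      Pb (tup p L (a + 1)) (fun w => EB A0 κ (fun j => th (w j.succ)) ∧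
        ¬ PA ρ₁ (un (bdy th A0 w)) (ψ (Z (w 0), Bs (w 0)))) ≤ δ₁ := by
  classical
  have hp0 := hp.nonneg
  have htl := tup_isLaw hp L (a + 1)
  have hq := qE_law (E := EB A0 κ) hp hE
  -- the copies
  obtain ⟨gz, gz1, gz2⟩ := sel1 hq (fun v : Fin (a + 1 + 1) → Ω => (Z (v 0), Bs (v 0)))
    (fun v v' => ¬ PA ρ₁ (un (bdy th A0 v)) (un (bdy th A0 v')))
  have gz3 := gz2.trans hpar
  have gzb : ∀ v, 0 < qE p L th (EB A0 κ) v → 0 < nb (bdy th A0 (gz (Z (v 0), Bs (v 0)))) :=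
    fun v hv => hκ.trans_le (qE_pos hp (gz1 v hv).1).2
  obtain ⟨ψ, hψ⟩ : ∃ ψ : (Fin 3 → ℤ) × σ → Fin 3 → ℝ, ψ = fun y => uv (bdy th A0 (gz y)) :=
    ⟨_, rfl⟩
  have hψu : ∀ x, U3 (ψ x) := fun x => by
    rw [hψ]
    exact uv_u3 _
  have kψ : Pb (tup p L (a + 1)) (fun w => EB A0 κ (fun j => th (w j.succ)) ∧
      ¬ PA ρ₁ (un (bdy th A0 w)) (ψ (Z (w 0), Bs (w 0)))) ≤ δ₁ := by
    refine (Pb_cond_le htl hE _).trans (le_trans (Pb_mono hq.nonneg fun v hv h => ?_) gz3)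
    rw [hψ] at h
    simp only [uv_eq (gzb v hv)] at h
    exact h
  -- two tuples with the same first sample
  obtain ⟨s₁, hs₁⟩ : ∃ s₁ : Fin (a + 1 + 1) → Fin (a + 1 + a + 1 + 1),
      s₁ = fun j => Fin.cases 0 (fun i : Fin (a + 1) => (Fin.castAdd (a + 1) i).succ) j := ⟨_, rfl⟩
  obtain ⟨s₂, hs₂⟩ : ∃ s₂ : Fin (a + 1 + 1) → Fin (a + 1 + a + 1 + 1),
      s₂ = fun j => Fin.cases 0 (fun i : Fin (a + 1) => (Fin.natAdd (a + 1) i).succ) j := ⟨_, rfl⟩
  have i₁ : Function.Injective s₁ := by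
    intro x y e
    rw [hs₁] at e
    refine Fin.cases ?_ (fun i => ?_) x e <;> refine Fin.cases ?_ (fun j => ?_) y
    · intro _
      rfl
    · intro e
      simp only [Fin.cases_zero, Fin.cases_succ] at e
      exact absurd e.symm (Fin.succ_ne_zero _)
    · intro e
      simp only [Fin.cases_zero, Fin.cases_succ] at e
      exact absurd e (Fin.succ_ne_zero _)
    · intro e
      simp only [Fin.cases_succ] at e
      have := Fin.castAdd_injective _ _ (Fin.succ_injective _ e)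
      rw [this]
  have i₂ : Function.Injective s₂ := by
    intro x y e
    rw [hs₂] at e
    refine Fin.cases ?_ (fun i => ?_) x e <;> refine Fin.cases ?_ (fun j => ?_) y
    · intro _
      rfl
    · intro e
      simp only [Fin.cases_zero, Fin.cases_succ] at e
      exact absurd e.symm (Fin.succ_ne_zero _)
    · intro e
      simp only [Fin.cases_zero, Fin.cases_succ] at e
      exact absurd e (Fin.succ_ne_zero _)
    · intro e
      simp only [Fin.cases_succ] at e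
      have := Fin.natAdd_injective _ _ (Fin.succ_injective _ e)
      rw [this]
  have ht2 := tup_isLaw hp L (a + 1 + a + 1)
  have m₁ : Im (tup p L (a + 1 + a + 1)) (tup p L (a + 1)) (fun w => w ∘ s₁) :=
    im_of_marg (tup_sub hp0 L s₁ i₁)
  have m₂ : Im (tup p L (a + 1 + a + 1)) (tup p L (a + 1)) (fun w => w ∘ s₂) :=
    im_of_marg (tup_sub hp0 L s₂ i₂)
  have mS : Im (tup p L (a + 1 + a + 1)) (tup p L (a + 1 + a)) (fun w => w ∘ Fin.succ) :=
    im_of_marg (tup_sub hp0 L Fin.succ (Fin.succ_injective _))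
  obtain ⟨Rl, hRl⟩ : ∃ Rl : (Fin (a + 1) → Ω) → (Fin (a + 1) → Ω) → Prop, Rl = fun v u =>
      EB A0 κ (fun j => th (v j)) ∧ EB A0 κ (fun j => th (u j)) ∧
      ¬ PA (8 * ρ₁) (un (A0 fun j => th (v j))) (un (A0 fun j => th (u j))) := ⟨_, rfl⟩
  have kR : Pb (tup p L (a + 1 + a)) (fun w => Rl (fun i => w (Fin.castAdd (a + 1) i))
      (fun j => w (Fin.natAdd (a + 1) j))) ≤ δ₁ + δ₁ := by
    rw [Pb_im mS]
    have k1 := kψ
    have k2 := kψ
    rw [Pb_im m₁] at k1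
    rw [Pb_im m₂] at k2
    refine le_trans (Pb_mono ht2.nonneg fun w _ h => ?_) ((Pb_or ht2.nonneg _ _).trans
      (add_le_add k1 k2))
    rw [hRl] at h
    obtain ⟨h1, h2, h3⟩ := h
    by_contra hcon
    push Not at hcon
    obtain ⟨c1, c2⟩ := hcon
    have z1 : (w ∘ s₁) 0 = w 0 := by rw [hs₁]; rfl
    have z2 : (w ∘ s₂) 0 = w 0 := by rw [hs₂]; rfl
    have b1 : (fun j : Fin (a + 1) => th ((w ∘ s₁) j.succ)) =
        fun i => th ((w ∘ Fin.succ) (Fin.castAdd (a + 1) i)) := by rw [hs₁]; rfl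
    have b2 : (fun j : Fin (a + 1) => th ((w ∘ s₂) j.succ)) =
        fun i => th ((w ∘ Fin.succ) (Fin.natAdd (a + 1) i)) := by rw [hs₂]; rfl
    rw [z1, b1] at c1
    rw [z2, b2] at c2
    have d1 := c1 h1
    have d2 := c2 h2
    have f1 : bdy th A0 (w ∘ s₁) = A0 fun i => th ((w ∘ Fin.succ) (Fin.castAdd (a + 1) i)) := by
      unfold bdy
      rw [b1]
    have f2 : bdy th A0 (w ∘ s₂) = A0 fun i => th ((w ∘ Fin.succ) (Fin.natAdd (a + 1) i)) := by
      unfold bdy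
      rw [b2]
    rw [f1] at d1
    rw [f2] at d2
    refine h3 ?_
    have e8 : 8 * ρ₁ = 4 * (ρ₁ + ρ₁) := by ring
    rw [e8]
    exact PA.trans (un_u3 (hκ.trans_le h1)) (hψu _) (un_u3 (hκ.trans_le h2)) d1 d2.symm
  -- the line
  obtain ⟨T, f, hf, hT1, hT2, -⟩ := sel hp L a (fun v => EB A0 κ (fun j => th (v j))) Rl hδ₂
  have hT3 := hT2.trans kR
  have hT4 : Pb (tup p L a) (fun v => EB A0 κ (fun j => th (v j)) ∧ T (L (v 0)) ∧
      Rl v (f (L (v 0)))) ≤ (δ₁ + δ₁) / δ₂ := by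
    rw [le_div_iff₀ hδ₂, mul_comm]
    exact hT3
  have mv : Im (tup p L (a + 1)) (tup p L a) (fun w => w ∘ Fin.succ) :=
    im_of_marg (tup_sub hp0 L (M := a) (N := a + 1) Fin.succ (Fin.succ_injective _))
  refine ⟨fun x => uv (A0 fun j => th (f x j)), ψ, fun x => uv_u3 _, hψu, ?_, kψ⟩
  rw [Pb_im mv] at hT1 hT4
  refine le_trans (Pb_mono htl.nonneg fun w hw h => ?_) ((Pb_or htl.nonneg _ _).trans
    (add_le_add hT1 hT4))
  obtain ⟨h1, h2⟩ := h
  have hl : L (w (Fin.succ 0)) = L (w 0) := ((tup_pos_iff hp0 L _ w).1 hw).2 _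
  have hw0 : 0 < p (w 0) := ((tup_pos_iff hp0 L _ w).1 hw).1 0
  have hl' : L ((w ∘ Fin.succ) 0) = L (w 0) := hl
  by_cases hT : T (L (w 0))
  · right
    rw [hl']
    refine ⟨h1, hT, ?_⟩
    have hb := (hf _ hw0 hT).1
    rw [hRl]
    refine ⟨h1, hb, ?_⟩
    beta_reduce at h2
    rw [uv_eq (hκ.trans_le hb)] at h2
    exact h2
  · left
    rw [hl']
    exact ⟨h1, hT⟩

end Pool.DR24
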