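import Pool.Agent.H24.DR3.Al2
import Pool.Agent.H24.DR3.Cas1

/-!
# DR3: the covector, parallel copies

`dir_pc`: if the copies are parallel off a small event, the direction of the body is almost a function
of the line and almost a function of the height and the base. `alt1`: the covector.
-/

set_option autoImplicit false

namespace Pool.DR24

open Finset Real Matrix
open Pool.Agent.H49.Ent Pool.Agent.H32.Dense Pool.STK Pool.POT Pool.FAD Pool.SLO Pool.TQ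
open Pool.K2S (Pe)
open Pool.BFL (Pb)
open Pool.DIR21 (Pb_Pe Pb_mono Pb_or Pb_nonneg Pb_im sel Pb_ci ci_nonneg ci_mono)
open Pool.DIR16 (Pe_cc Pe_le_one)

variable {Ω Λ τ B β ρ σ : Type} [Fintype Ω] {p : Ω → ℝ} {L : Ω → Λ} {th : Ω → τ}
  {b : Ω → B} {hgt nu : Ω → Fin 3 → ℤ} {S : Ω → ρ} {Wd : Ω → β} {Z : Ω → Fin 3 → ℤ} {Bs : Ω → σ}
  {X : ℕ} {C d : ℝ}

/-- **The closed direction**, all columns. -/
theorem dir_pc {a : ℕ} (hp : IsLaw p) {κ ρ₁ δ₁ δ₂ K₁ : ℝ} (hκ : 0 < κ)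
    (hδ₂ : 0 < δ₂) {A0 : (Fin (a + 1) → τ) → Matrix (Fin 3) (Fin 3) ℝ}
    (hK : ∀ t i c, |A0 t i c| ≤ K₁)
    (hE : 0 < Pe (tup p L (a + 1)) (evE th (EB A0 κ)))
    (hpar : Pb (cE p L th (EB A0 κ) Z Bs 1)
      (fun W => ρ₁ ≤ mx (vc (bdy th A0 (W 0)) (bdy th A0 (W 1)))) ≤ δ₁) :
    ∃ (φ : Λ → Fin 3 → ℝ) (ψ : (Fin 3 → ℤ) × σ → Fin 3 → ℝ), (∀ x, U3 (φ x)) ∧
      (∀ x, U3 (ψ x)) ∧
      Pb (tup p L (a + 1)) (fun w => EB A0 κ (fun j => th (w j.succ)) ∧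
        ¬ PC (ρ₁ / κ + 4 * (K₁ * (ρ₁ / κ / κ))) (bdy th A0 w) (φ (L (w 0)))) ≤
          δ₂ + (δ₁ + δ₁) / δ₂ ∧
      Pb (qE p L th (EB A0 κ)) (fun w =>
        ¬ PC (ρ₁ / κ) (bdy th A0 w) (ψ (Z (w 0), Bs (w 0)))) ≤ δ₁ := by
  classical
  have hp0 := hp.nonneg
  have htl := tup_isLaw hp L (a + 1)
  have hq := qE_law (E := EB A0 κ) hp hE
  -- the copies
  obtain ⟨gz, gz1, gz2⟩ := sel1 hq (fun v : Fin (a + 1 + 1) → Ω => (Z (v 0), Bs (v 0)))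
    (fun v v' => ρ₁ ≤ mx (vc (bdy th A0 v) (bdy th A0 v')))
  have gz3 := gz2.trans hpar
  have gzb : ∀ v, 0 < qE p L th (EB A0 κ) v → κ ≤ nb (bdy th A0 (gz (Z (v 0), Bs (v 0)))) :=
    fun v hv => (qE_pos hp (gz1 v hv).1).2
  obtain ⟨ψ, hψ⟩ : ∃ ψ : (Fin 3 → ℤ) × σ → Fin 3 → ℝ, ψ = fun y => uv (bdy th A0 (gz y)) :=
    ⟨_, rfl⟩
  have hψu : ∀ x, U3 (ψ x) := fun x => by
    rw [hψ]
    exact uv_u3 _
  have kψ0 : Pb (qE p L th (EB A0 κ)) (fun w =>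
      ¬ PC (ρ₁ / κ) (bdy th A0 w) (ψ (Z (w 0), Bs (w 0)))) ≤ δ₁ := by
    refine le_trans (Pb_mono hq.nonneg fun v hv h => ?_) gz3
    by_contra hn
    refine h ?_
    rw [hψ]
    simp only [uv_eq (hκ.trans_le (gzb v hv))]
    exact pc_of_vc hκ (gzb v hv) (not_le.1 hn).le
  have kψ : Pb (tup p L (a + 1)) (fun w => EB A0 κ (fun j => th (w j.succ)) ∧
      ¬ PC (ρ₁ / κ) (bdy th A0 w) (ψ (Z (w 0), Bs (w 0)))) ≤ δ₁ :=
    (Pb_cond_le htl hE _).trans kψ0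
  -- two tuples with the same first sample
  obtain ⟨s₁, hs₁⟩ : ∃ s₁ : Fin (a + 1 + 1) → Fin (a + 1 + a + 1 + 1),
      s₁ = fun j => Fin.cases 0 (fun i : Fin (a + 1) => (Fin.castAdd (a + 1) i).succ) j := ⟨_, rfl⟩
  obtain ⟨s₂, hs₂⟩ : ∃ s₂ : Fin (a + 1 + 1) → Fin (a + 1 + a + 1 + 1),
      s₂ = fun j => Fin.cases 0 (fun i : Fin (a + 1) => (Fin.natAdd (a + 1) i).succ) j := ⟨_, rfl⟩
  have i₁ : Function.Injective s₁ := by
    intro x y e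
    rw [hs₁] at e
    refine Fin.cases ?_ (fun i => ?_) x e <;> refine Fin.cases ?_ (fun j => ?_) y
    · intro _
      rfl
    · intro e
      simp only [Fin.cases_zero, Fin.cases_succ] at e
      exact absurd e.symm (Fin.succ_ne_zero _)
    · intro e
      simp only [Fin.cases_zero, Fin.cases_succ] at e
      exact absurd e (Fin.succ_ne_zero _)
    · intro e
      simp only [Fin.cases_succ] at e
      have := Fin.castAdd_injective _ _ (Fin.succ_injective _ e)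
      rw [this]
  have i₂ : Function.Injective s₂ := by
    intro x y e
    rw [hs₂] at e
    refine Fin.cases ?_ (fun i => ?_) x e <;> refine Fin.cases ?_ (fun j => ?_) y
    · intro _
      rfl
    · intro e
      simp only [Fin.cases_zero, Fin.cases_succ] at e
      exact absurd e.symm (Fin.succ_ne_zero _)
    · intro e
      simp only [Fin.cases_zero, Fin.cases_succ] at e
      exact absurd e (Fin.succ_ne_zero _)
    · intro e
      simp only [Fin.cases_succ] at e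
      have := Fin.natAdd_injective _ _ (Fin.succ_injective _ e)
      rw [this]
  have ht2 := tup_isLaw hp L (a + 1 + a + 1)
  have m₁ : Im (tup p L (a + 1 + a + 1)) (tup p L (a + 1)) (fun w => w ∘ s₁) :=
    im_of_marg (tup_sub hp0 L s₁ i₁)
  have m₂ : Im (tup p L (a + 1 + a + 1)) (tup p L (a + 1)) (fun w => w ∘ s₂) :=
    im_of_marg (tup_sub hp0 L s₂ i₂)
  have mS : Im (tup p L (a + 1 + a + 1)) (tup p L (a + 1 + a)) (fun w => w ∘ Fin.succ) :=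
    im_of_marg (tup_sub hp0 L Fin.succ (Fin.succ_injective _))
  obtain ⟨Rl, hRl⟩ : ∃ Rl : (Fin (a + 1) → Ω) → (Fin (a + 1) → Ω) → Prop, Rl = fun v u =>
      EB A0 κ (fun j => th (v j)) ∧ EB A0 κ (fun j => th (u j)) ∧
      ¬ PC (ρ₁ / κ + 4 * (K₁ * (ρ₁ / κ / κ))) (A0 fun j => th (v j))
        (un (A0 fun j => th (u j))) := ⟨_, rfl⟩
  have kR : Pb (tup p L (a + 1 + a)) (fun w => Rl (fun i => w (Fin.castAdd (a + 1) i))
      (fun j => w (Fin.natAdd (a + 1) j))) ≤ δ₁ + δ₁ := by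
    rw [Pb_im mS]
    have k1 := kψ
    have k2 := kψ
    rw [Pb_im m₁] at k1
    rw [Pb_im m₂] at k2
    refine le_trans (Pb_mono ht2.nonneg fun w _ h => ?_) ((Pb_or ht2.nonneg _ _).trans
      (add_le_add k1 k2))
    rw [hRl] at h
    obtain ⟨h1, h2, h3⟩ := h
    by_contra hcon
    push Not at hcon
    obtain ⟨c1, c2⟩ := hcon
    have z1 : (w ∘ s₁) 0 = w 0 := by rw [hs₁]; rfl
    have z2 : (w ∘ s₂) 0 = w 0 := by rw [hs₂]; rfl
    have b1 : (fun j : Fin (a + 1) => th ((w ∘ s₁) j.succ)) =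
        fun i => th ((w ∘ Fin.succ) (Fin.castAdd (a + 1) i)) := by rw [hs₁]; rfl
    have b2 : (fun j : Fin (a + 1) => th ((w ∘ s₂) j.succ)) =
        fun i => th ((w ∘ Fin.succ) (Fin.natAdd (a + 1) i)) := by rw [hs₂]; rfl
    rw [z1, b1] at c1
    rw [z2, b2] at c2
    have d1 := c1 h1
    have d2 := c2 h2
    have f1 : bdy th A0 (w ∘ s₁) = A0 fun i => th ((w ∘ Fin.succ) (Fin.castAdd (a + 1) i)) := by
      unfold bdy
      rw [b1]
    have f2 : bdy th A0 (w ∘ s₂) = A0 fun i => th ((w ∘ Fin.succ) (Fin.natAdd (a + 1) i)) := by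
      unfold bdy
      rw [b2]
    rw [f1] at d1
    rw [f2] at d2
    exact h3 (PC.trans (hK _) (hψu _) (un_u3 (hκ.trans_le h2)) d1
      ((d2.un hκ h2).symm))
  -- the line
  obtain ⟨T, f, hf, hT1, hT2, -⟩ := sel hp L a (fun v => EB A0 κ (fun j => th (v j))) Rl hδ₂
  have hT3 := hT2.trans kR
  have hT4 : Pb (tup p L a) (fun v => EB A0 κ (fun j => th (v j)) ∧ T (L (v 0)) ∧
      Rl v (f (L (v 0)))) ≤ (δ₁ + δ₁) / δ₂ := by
    rw [le_div_iff₀ hδ₂, mul_comm]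
    exact hT3
  have mv : Im (tup p L (a + 1)) (tup p L a) (fun w => w ∘ Fin.succ) :=
    im_of_marg (tup_sub hp0 L (M := a) (N := a + 1) Fin.succ (Fin.succ_injective _))
  refine ⟨fun x => uv (A0 fun j => th (f x j)), ψ, fun x => uv_u3 _, hψu, ?_, kψ0⟩
  rw [Pb_im mv] at hT1 hT4
  refine le_trans (Pb_mono htl.nonneg fun w hw h => ?_) ((Pb_or htl.nonneg _ _).trans
    (add_le_add hT1 hT4))
  obtain ⟨h1, h2⟩ := h
  have hl : L (w (Fin.succ 0)) = L (w 0) := ((tup_pos_iff hp0 L _ w).1 hw).2 _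
  have hw0 : 0 < p (w 0) := ((tup_pos_iff hp0 L _ w).1 hw).1 0
  have hl' : L ((w ∘ Fin.succ) 0) = L (w 0) := hl
  by_cases hT : T (L (w 0))
  · right
    rw [hl']
    refine ⟨h1, hT, ?_⟩
    have hb := (hf _ hw0 hT).1
    rw [hRl]
    refine ⟨h1, hb, ?_⟩
    beta_reduce at h2
    rw [uv_eq (hκ.trans_le hb)] at h2
    exact h2
  · left
    rw [hl']
    exact ⟨h1, hT⟩

/-- **The covector, parallel copies.** -/
theorem alt1 {a : ℕ} (hp : IsLaw p) {κ ρ₁ δ₁ δ₂ K₁ F₀ : ℝ} (hκ : 0 < κ) (hF : 0 < F₀)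
    (hδ₂ : 0 < δ₂) {A0 : (Fin (a + 1) → τ) → Matrix (Fin 3) (Fin 3) ℝ}
    (hK : ∀ t i c, |A0 t i c| ≤ K₁)
    (hE : 1 / F₀ ≤ Pe (tup p L (a + 1)) (evE th (EB A0 κ)))
    (hNP : Pe (cE p L th (EB A0 κ) Z Bs 2) (fun W => TR th A0 ρ₁ fun j => W j.succ) ≤ δ₁)
    {ρs ρc e ε' ε₃ Wt η : ℝ} {Y m' : ℕ} (hρs : ρs = ρ₁ / κ + 4 * (K₁ * (ρ₁ / κ / κ)))
    (hρc : ρc = 4 * (ρs / κ + ρ₁ / κ / κ)) (he1 : 3 * κ ≤ e)
    (he2 : ρs + 1 / 2 ^ Y * K₁ ≤ e) (h4 : ρc ≤ 1 / 4) (hY : 2 ^ Y * (2 * ρc) ≤ ε₃)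
    (hε₃ : 0 ≤ ε₃) (hm' : 1 ≤ m') (hε' : 0 < ε')
    (hη : η = F₀ * (δ₂ + (δ₁ + δ₁) / δ₂))
    (hnum : 1 / 2 + (η + δ₁) + 9 * ((η + δ₁) + ε₃ + 1 / m') + η / ε' < 1)
    (hW : Wt * ε' ≤ 1 / 6 / F₀) (hW0 : 0 ≤ Wt) (he3 : 0 ≤ e) :
    Alt p L th Z Bs A0 e (1 / 6 / F₀) Wt := by
  classical
  have hE0 : 0 < Pe (tup p L (a + 1)) (evE th (EB A0 κ)) := lt_of_lt_of_le (by positivity) hE
  have hq := qE_law (E := EB A0 κ) hp hE0
  have htl := tup_isLaw hp L (a + 1)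
  have hpar : Pb (cE p L th (EB A0 κ) Z Bs 1)
      (fun W => ρ₁ ≤ mx (vc (bdy th A0 (W 0)) (bdy th A0 (W 1)))) ≤ δ₁ := by
    have him : Im (cE p L th (EB A0 κ) Z Bs 2) (cE p L th (EB A0 κ) Z Bs 1)
        (fun W => W ∘ Fin.succ) :=
      im_of_marg (tup_sub hq.nonneg (fun v : Fin (a + 1 + 1) → Ω => (Z (v 0), Bs (v 0)))
        (M := 1) (N := 2) Fin.succ (Fin.succ_injective _))
    rw [Pb_im him, Pb_Pe]
    exact hNP
  obtain ⟨φ, ψ, hφ, hψ, h1, h2⟩ := dir_pc hp hκ hδ₂ hK hE0 hpar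
  rw [← hρs] at h1
  -- the own law
  have h3 : Pb (qE p L th (EB A0 κ)) (fun w => ¬ PC ρs (bdy th A0 w) (φ (L (w 0)))) ≤ η := by
    rw [hη]
    refine le_trans ?_ (mul_le_mul_of_nonneg_left h1 hF.le)
    rw [Pb_ci, Pb_ci, Finset.mul_sum]
    refine Finset.sum_le_sum fun w _ => ?_
    rcases (hq.nonneg w).eq_or_lt with h0 | h0
    · rw [← h0, zero_mul]
      exact mul_nonneg hF.le (mul_nonneg (htl.nonneg w) (ci_nonneg _))
    · have g1 := (qE_pos hp h0).2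
      have g2 := qE_le hp hF hE w
      rw [← mul_assoc]
      exact mul_le_mul g2 (ci_mono fun hn => ⟨g1, hn⟩) (ci_nonneg _)
        (mul_nonneg hF.le (htl.nonneg w))
  have hbig : ∀ v, 0 < qE p L th (EB A0 κ) v → κ ≤ nb (bdy th A0 v) := fun v hv =>
    (qE_pos hp hv).2
  refine alt_of hp hq (f := fun v => v 0) hF
    (mg_le (im_tup hp.nonneg L (a + 1) 0) (qE_le hp hF hE)) hφ hψ (E := EB A0 κ) (A0 := A0)
    (fun x A => PC ρs A x) (ρ₀ := ρc) (η := η + δ₁) (M := η) ?_ ?_ h4 hε₃ hY hm' hε' hnum pp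
    (fun j e he => pp_le he) (fun j e _ => ⟨j + 1, pp_one j e⟩) ?_ ?_ hW hW0 he3
  · refine le_trans (Pb_mono hq.nonneg fun v hv hn => ?_) ((Pb_or hq.nonneg _ _).trans
      (add_le_add h3 h2))
    by_contra hcon
    push Not at hcon
    refine hn ?_
    have hb := hbig v hv
    have g1 := (hcon.1.un hκ hb).symm
    have g2 := hcon.2.un hκ hb
    rw [hρc]
    exact PA.trans (hφ _) (un_u3 (hκ.trans_le hb)) (hψ _) g1 g2
  · refine (qE_own' hp hE0 (fun l v => EB A0 κ (fun j => th (v j)) ∧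
      ¬ PC ρs (A0 fun j : Fin (a + 1) => th (v j)) (φ l)) (fun l v hv => hv.1)).trans ?_
    refine le_trans (Pb_mono hq.nonneg fun v hv hn => ?_) h3
    exact hn.2
  · intro t ht e' he' c
    have hs : ∀ i, |A0 t i c| ≤ κ := fun i => (nb_le _ i c).trans (not_le.1 ht).le
    exact (dp_le he' hs).trans he1
  · intro x e' t j hg hj hx c
    exact (pp_small (hK t) hj hg (hx _) c).trans he2

/-- **The covector, small bodies.** -/
theorem alt0 {N : ℕ} (hp : IsLaw p) {κ F₀ : ℝ}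
    {A0 : (Fin N → τ) → Matrix (Fin 3) (Fin 3) ℝ}
    (hE : Pe (tup p L N) (evE th (EB A0 κ)) ≤ 1 / F₀) {e Wt m₀ : ℝ} (he1 : 3 * κ ≤ e)
    (hm₀ : m₀ ≤ 1) (hW : Wt * (1 / F₀) ≤ m₀) (hW0 : 0 ≤ Wt) :
    Alt p L th Z Bs A0 e m₀ Wt := by
  classical
  refine ⟨fun _ => Pi.single 0 1, fun _ => Pi.single 0 1, fun _ => True, ?_, ?_, ?_, ?_, ?_, ?_, ?_⟩
  · intro x i
    fin_cases i <;> simp
  · intro x i
    fin_cases i <;> simp
  · rw [Pool.K2S.Pe_univ hp]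
    exact hm₀
  · intro x
    exact Or.inl ⟨0, by simp⟩
  · intro ω _
    exact ⟨0, by simp⟩
  · intro ω _
    rfl
  · refine le_trans (mul_le_mul_of_nonneg_left ?_ hW0) hW
    refine le_trans ?_ hE
    rw [← Pb_Pe]
    refine Pb_mono (tup_isLaw hp L N).nonneg fun w _ hw => ?_
    obtain ⟨c, hc⟩ := hw
    by_contra hn
    have hs : ∀ i, |bdy th A0 w i c| ≤ κ := fun i => (nb_le _ i c).trans (not_le.1 hn).le
    have h1 : ∀ i, |(Pi.single 0 1 : Fin 3 → ℝ) i| ≤ 1 := fun i => by fin_cases i <;> simp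
    exact absurd hc (not_lt.2 ((dp_le h1 hs).trans he1))

end Pool.DR24
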