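import Pool.Agent.H24.DR3.Alt

/-!
# DR3: the covector, transversal copies

`PcOk.alt2`: if two copies of a sample are transversal with a constant mass, the normal of the copies is
the covector.
-/

set_option autoImplicit false

namespace Pool.DR24

open Finset Real Matrix
open Pool.Agent.H49.Ent Pool.Agent.H32.Dense Pool.STK Pool.POT Pool.FAD Pool.SLO Pool.TQ
open Pool.K2S (Pe)
open Pool.BFL (Pb)
open Pool.DIR21 (Pb_Pe Pb_mono Pb_or Pb_nonneg)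

variable {Ω Λ τ B β ρ σ : Type} [Fintype Ω] {p : Ω → ℝ} {L : Ω → Λ} {th : Ω → τ}
  {b : Ω → B} {hgt nu : Ω → Fin 3 → ℤ} {S : Ω → ρ} {Wd : Ω → β} {Z : Ω → Fin 3 → ℤ} {Bs : Ω → σ}
  {X : ℕ} {C d : ℝ} {N : ℕ}

theorem rT_den (h : PcOk p L th b hgt nu S Wd Z Bs X C d) {F₀ F₁ ρ₁ : ℝ} (hF : 0 < F₀)
    (hF₁ : 0 < F₁) {E : (Fin N → τ) → Prop} {A0 : (Fin N → τ) → Matrix (Fin 3) (Fin 3) ℝ}
    (hE : 1 / F₀ ≤ Pe (tup p L N) (evE th E))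
    (hNP : 1 / F₁ ≤ Pe (cE p L th E Z Bs 2) (fun W => TR th A0 ρ₁ fun j => W j.succ)) (ω : Ω) :
    mg (rT p L th E Z Bs A0 ρ₁) (fun W => W 0 0) ω ≤ F₁ * F₀ * p ω := by
  classical
  have zz : TsOk p Bs Z (cE p L th E Z Bs 2) (fun W => W 0 0)
      (fun W => (Z (W 0 0), Bs (W 0 0))) (fun W (j : Fin (2 + 1)) => dt Wd b th (W j)) F₀
      (((2 : ℕ) + 1) * (F₀ * ((N + 1) * d))) := (h.z_sys hF hE).tup 2
  have hP : 0 < Pe (cE p L th E Z Bs 2) (fun W => TR th A0 ρ₁ fun j => W j.succ) :=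
    lt_of_lt_of_le (by positivity) hNP
  have h1 : ∀ W, rT p L th E Z Bs A0 ρ₁ W ≤ F₁ * cE p L th E Z Bs 2 W := fun W => by
    refine (cond_le zz.lawr.nonneg W).trans (mul_le_mul_of_nonneg_right ?_ (zz.lawr.nonneg W))
    rw [div_le_iff₀ hP]
    have : F₁ * (1 / F₁) ≤ F₁ * _ := mul_le_mul_of_nonneg_left hNP hF₁.le
    rwa [mul_one_div_cancel hF₁.ne'] at this
  have h2 := mg_le (im_mg (cE p L th E Z Bs 2) fun W => W 0 0) h1 ω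
  have h3 := mul_le_mul_of_nonneg_left (zz.den ω) hF₁.le
  linarith

/-- The product with small entries. -/
theorem dp_le {x y : Fin 3 → ℝ} {κ : ℝ} (hx : ∀ i, |x i| ≤ 1) (hy : ∀ i, |y i| ≤ κ) :
    |dp x y| ≤ 3 * κ := by
  have g : ∀ i, |x i * y i| ≤ κ := fun i => by
    rw [abs_mul]
    have h0 : 0 ≤ κ := (abs_nonneg _).trans (hy i)
    calc |x i| * |y i| ≤ 1 * κ := mul_le_mul (hx i) (hy i) (abs_nonneg _) zero_le_one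
      _ = κ := one_mul κ
  unfold dp
  have g1 := abs_add_le (x 0 * y 0 + x 1 * y 1) (x 2 * y 2)
  have g2 := abs_add_le (x 0 * y 0) (x 1 * y 1)
  linarith [g 0, g 1, g 2]

/-- **The covector, transversal copies.** -/
theorem PcOk.alt2 (h : PcOk p L th b hgt nu S Wd Z Bs X C d) {F₀ F₁ ρ₁ : ℝ} (hF : 0 < F₀)
    (hF₁ : 0 < F₁) (hρ₁ : 0 < ρ₁) {E : (Fin N → τ) → Prop}
    {A0 : (Fin N → τ) → Matrix (Fin 3) (Fin 3) ℝ}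
    (hE : 1 / F₀ ≤ Pe (tup p L N) (evE th E))
    (hNP : 1 / F₁ ≤ Pe (cE p L th E Z Bs 2) (fun W => TR th A0 ρ₁ fun j => W j.succ))
    {h₀ κ₁ δ η ϖ : ℝ} {X0 : ℕ} (hm : MNN 2 h₀ κ₁ δ (F₁ * F₀) η ϖ C ((3 : ℕ) + 1) X0)
    (hX : X0 ≤ X) (hϖ : 0 < ϖ) {R : ℝ}
    (nf : ∀ G : Ω → Prop, ϖ ≤ Pe p G → 0 < Pe p G →
      CH (cond p G True) Z (fun ω => (Wd ω, S ω)) ≤ R)
    (hR : R + (3 : ℕ) * Real.log (2 * C + 1) + (2 * d + Real.log 2) / ϖ ≤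
      ((2 : ℕ) + 1 - h₀) * X * Real.log 2 + η * X) (hC : 0 ≤ C)
    (hA : ∀ t, (A0 t).det ≠ 0) {K₁ : ℝ} (hK : ∀ t i a, |A0 t i a| ≤ K₁)
    (hinv : ∀ t i j, |(A0 t)⁻¹ i j| ≤ 2 ^ X) {e₀ : ℝ}
    (hbody : DF (tup p L N) (fun _ => Tx 3 X) (fun w => A0 fun j => th (w j.succ))
      (fun w => xv X (hgt (w 0)))
      (fun w => (b (w 0), (th (w 0), fun j : Fin N => th (w j.succ)))) ≤ e₀)
    (he : e3 N C d F₀ F₁ e₀ + F₁ * (((2 : ℕ) + 1) * (F₀ * ((N + 1) * d))) ≤ η * X)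
    {κ e ε' ε₃ Wt : ℝ} {Y m' : ℕ} (hsm : ∀ t, ¬ E t → ∀ i a, |A0 t i a| ≤ κ)
    (he1 : 3 * κ ≤ e) (he2 : (2 : ℝ) ^ (-(κ₁ * X)) / ρ₁ + 3 * (1 / 2 ^ Y * K₁) ≤ e)
    (h4 : 8 * (2 * (K₁ * (2 : ℝ) ^ (-(κ₁ * X))) / (ρ₁ * ρ₁)) ≤ 1 / 4)
    (hY : 2 ^ Y * (2 * (8 * (2 * (K₁ * (2 : ℝ) ^ (-(κ₁ * X))) / (ρ₁ * ρ₁)))) ≤ ε₃)
    (hε₃ : 0 ≤ ε₃) (hm' : 1 ≤ m') (hε' : 0 < ε')
    (hnum : 1 / 2 + 6 * δ + 9 * (6 * δ + ε₃ + 1 / m') + 3 * δ / ε' < 1)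
    (hW : Wt * ε' ≤ 1 / 6 / (F₁ * F₀)) (hW0 : 0 ≤ Wt) (he3 : 0 ≤ e) :
    Alt p L th Z Bs A0 e (1 / 6 / (F₁ * F₀)) Wt := by
  classical
  obtain ⟨φ, ψ, hφ, hψ, h1, h2, h3⟩ := h.two hF hF₁ hρ₁ hE hNP hm hX hϖ nf hR hC hA hK hinv
    hbody he
  have hE0 : 0 < Pe (tup p L N) (evE th E) := lt_of_lt_of_le (by positivity) hE
  have hP0 : 0 < Pe (cE p L th E Z Bs 2) (fun W => TR th A0 ρ₁ fun j => W j.succ) :=
    lt_of_lt_of_le (by positivity) hNP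
  have hr := rT_law h.law hE0 hP0
  obtain ⟨ρ', hρ'⟩ : ∃ ρ' : ℝ, ρ' = 2 * (K₁ * (2 : ℝ) ^ (-(κ₁ * X))) / (ρ₁ * ρ₁) := ⟨_, rfl⟩
  rw [← hρ'] at h1 h2 h4 hY
  refine alt_of h.law hr (f := fun W => W 0 0) (mul_pos hF₁ hF) (rT_den h hF hF₁ hE hNP) hφ hψ
    (E := E) (A0 := A0) (fun x A => ∀ c, |dp x (fun i => A i c)| ≤ (2 : ℝ) ^ (-(κ₁ * X)) / ρ₁)
    (ρ₀ := 8 * ρ') (η := 6 * δ) (M := 3 * δ) ?_ ?_ h4 hε₃ hY hm' hε' hnum (fun _ e => e)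
    (fun _ e he => he) (fun j e he => ⟨j, he⟩) ?_ ?_ hW hW0 he3
  · refine le_trans (Pb_mono hr.nonneg fun W hW hn => ?_) ((Pb_or hr.nonneg _ _).trans
      ((add_le_add h1 h2).trans (le_of_eq (by ring))))
    by_contra hcon
    push Not at hcon
    refine hn ?_
    have := PA.trans (hφ _) (nc_u3 _ _) (hψ _) hcon.1.symm hcon.2
    refine this.mono (le_of_eq ?_)
    ring
  · refine (cE_own (K := 2) h.law hE0 (fun W' => TR th A0 ρ₁ W') hP0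
      (fun l v => E (fun j => th (v j)) ∧ ¬ ∀ c, |dp (φ l)
        (fun i => (A0 fun j : Fin N => th (v j)) i c)| ≤ (2 : ℝ) ^ (-(κ₁ * X)) / ρ₁)
      (fun l v hv => hv.1)).trans ?_
    refine le_trans (Pb_mono hr.nonneg fun W hW hn => ?_) (h3.trans (le_of_eq (by ring)))
    exact hn.2
  · intro t ht e' he' c
    exact (dp_le he' fun i => hsm t ht i c).trans he1
  · intro x e' t j hg hj hx c
    exact (kv_small (fun i => hK t i c) hj (hg c) hx).trans he2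

end Pool.DR24
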