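import Pool.Agent.H24.DR3.Al1

/-!
# DR3: the covector, the three cases

`alt_all`: the covector, with numbers in powers of `t = 2 ^ (-(h / 32) X)`.
-/

set_option autoImplicit false

namespace Pool.DR24

open Finset Real Matrix
open Pool.Agent.H49.Ent Pool.Agent.H32.Dense Pool.STK Pool.POT Pool.FAD Pool.SLO Pool.TQ
open Pool.K2S (Pe)
open Pool.BFL (Pb)
open Pool.DIR21 (Pb_Pe Pb_mono Pb_or Pb_nonneg)

theorem num_two {t K₁ : ℝ} {Y : ℕ} (t0 : 0 < t) (t1 : t ≤ 1) (hK : 1 ≤ K₁)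
    (hY1 : 2 ^ Y * (t * t) ≤ 1) (hY2 : 1 / 2 ^ Y ≤ 2 * (t * t))
    (hs : (16 + 32 * K₁) * t ≤ 1 / 100) :
    8 * (2 * (K₁ * t ^ 24) / (t ^ 8 * t ^ 8)) ≤ 1 / 4 ∧
    2 ^ Y * (2 * (8 * (2 * (K₁ * t ^ 24) / (t ^ 8 * t ^ 8)))) ≤ 1 / 100 ∧
    t ^ 24 / t ^ 8 + 3 * (1 / 2 ^ Y * K₁) ≤ (6 + 12 * K₁) * t := by
  have e1 : 2 * (K₁ * t ^ 24) / (t ^ 8 * t ^ 8) = 2 * K₁ * t ^ 8 := by
    field_simp
  have e2 : t ^ 24 / t ^ 8 = t ^ 16 := by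
    rw [div_eq_iff (by positivity)]
    ring
  have p8 : t ^ 8 ≤ t := by
    have := pow_le_pow_of_le_one t0.le t1 (show 1 ≤ 8 by norm_num)
    rwa [pow_one] at this
  have p6 : t ^ 6 ≤ t := by
    have := pow_le_pow_of_le_one t0.le t1 (show 1 ≤ 6 by norm_num)
    rwa [pow_one] at this
  have p16 : t ^ 16 ≤ t := by
    have := pow_le_pow_of_le_one t0.le t1 (show 1 ≤ 16 by norm_num)
    rwa [pow_one] at this
  have p2 : t * t ≤ t := mul_le_of_le_one_right t0.le t1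
  have q8 := mul_le_mul_of_nonneg_left p8 (by linarith : 0 ≤ K₁)
  have q6 := mul_le_mul_of_nonneg_left p6 (by linarith : 0 ≤ K₁)
  rw [e1, e2]
  refine ⟨by nlinarith, ?_, ?_⟩
  · have e3 : 2 ^ Y * (2 * (8 * (2 * K₁ * t ^ 8))) = 32 * (K₁ * t ^ 6) * (2 ^ Y * (t * t)) := by
      ring
    rw [e3]
    have h0 : 0 ≤ 32 * (K₁ * t ^ 6) := by positivity
    have h1 := mul_le_mul_of_nonneg_left hY1 h0
    nlinarith
  · have h1 := mul_le_mul_of_nonneg_right hY2 (by linarith : 0 ≤ K₁)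
    have h2 := mul_le_mul_of_nonneg_left p2 (by linarith : 0 ≤ K₁)
    nlinarith

theorem num_one {t K₁ : ℝ} {Y : ℕ} (t0 : 0 < t) (t1 : t ≤ 1) (hK : 1 ≤ K₁)
    (hY1 : 2 ^ Y * (t * t) ≤ 1) (hY2 : 1 / 2 ^ Y ≤ 2 * (t * t))
    (hs : (16 + 32 * K₁) * t ≤ 1 / 100) {ρs ρc : ℝ}
    (hρs : ρs = t ^ 8 / t + 4 * (K₁ * (t ^ 8 / t / t)))
    (hρc : ρc = 4 * (ρs / t + t ^ 8 / t / t)) :
    ρc ≤ 1 / 4 ∧ 2 ^ Y * (2 * ρc) ≤ 1 / 100 ∧ ρs + 1 / 2 ^ Y * K₁ ≤ (6 + 12 * K₁) * t := by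
  have e1 : t ^ 8 / t = t ^ 7 := by
    rw [div_eq_iff t0.ne']
    ring
  have e2 : t ^ 7 / t = t ^ 6 := by
    rw [div_eq_iff t0.ne']
    ring
  rw [e1, e2] at hρs
  rw [e1, e2] at hρc
  have e3 : ρs / t = t ^ 6 + 4 * (K₁ * t ^ 5) := by
    rw [hρs, div_eq_iff t0.ne']
    ring
  rw [e3] at hρc
  have hp : ∀ m : ℕ, 1 ≤ m → t ^ m ≤ t := fun m hm => by
    have := pow_le_pow_of_le_one t0.le t1 hm
    rwa [pow_one] at this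
  have p2 : t * t ≤ t := mul_le_of_le_one_right t0.le t1
  have hK0 : 0 ≤ K₁ := by linarith
  have q6 := mul_le_mul_of_nonneg_left (hp 6 (by norm_num)) hK0
  have q5 := mul_le_mul_of_nonneg_left (hp 5 (by norm_num)) hK0
  have q3 := mul_le_mul_of_nonneg_left (hp 3 (by norm_num)) hK0
  have h6 := hp 6 (by norm_num)
  have h7 := hp 7 (by norm_num)
  have h4 := hp 4 (by norm_num)
  refine ⟨by rw [hρc]; nlinarith, ?_, ?_⟩
  · have e4 : 2 ^ Y * (2 * ρc) = (16 * t ^ 4 + 32 * (K₁ * t ^ 3)) * (2 ^ Y * (t * t)) := by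
      rw [hρc]
      ring
    rw [e4]
    have h0 : 0 ≤ 16 * t ^ 4 + 32 * (K₁ * t ^ 3) := by positivity
    have h1 := mul_le_mul_of_nonneg_left hY1 h0
    nlinarith
  · have h1 := mul_le_mul_of_nonneg_right hY2 hK0
    have h2 := mul_le_mul_of_nonneg_left p2 hK0
    rw [hρs]
    nlinarith

variable {Ω Λ τ B β ρ σ : Type} [Fintype Ω] {p : Ω → ℝ} {L : Ω → Λ} {th : Ω → τ}
  {b : Ω → B} {hgt nu : Ω → Fin 3 → ℤ} {S : Ω → ρ} {Wd : Ω → β} {Z : Ω → Fin 3 → ℤ} {Bs : Ω → σ}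
  {X : ℕ} {C d : ℝ}

/-- **The covector.** -/
theorem PcOk.alt_all {a : ℕ} (h : PcOk p L th b hgt nu S Wd Z Bs X C d) {Wt F₀ F₁ ε₁ ε₂ δ₁ δ₂ δ : ℝ}
    (hWt : 1 ≤ Wt) (hF₀ : F₀ = Wt) (hε₁ : ε₁ = 1 / (6 * F₀ * Wt)) (hδ₂ : δ₂ = ε₁ / (200 * F₀))
    (hδ₁ : δ₁ = δ₂ ^ 2 / 4) (hF₁ : F₁ = 1 / δ₁) (hε₂ : ε₂ = 1 / (6 * (F₁ * F₀) * Wt))
    (hδ : δ = ε₂ / 1000)
    {A0 : (Fin (a + 1) → τ) → Matrix (Fin 3) (Fin 3) ℝ}
    {h₀ κ₁ η ϖ : ℝ} {X0 : ℕ} (hm : MNN 2 h₀ κ₁ δ (F₁ * F₀) η ϖ C ((3 : ℕ) + 1) X0)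
    (hX : X0 ≤ X) (hϖ : 0 < ϖ) {R : ℝ}
    (nf : ∀ G : Ω → Prop, ϖ ≤ Pe p G → 0 < Pe p G →
      CH (cond p G True) Z (fun ω => (Wd ω, S ω)) ≤ R)
    (hR : R + (3 : ℕ) * Real.log (2 * C + 1) + (2 * d + Real.log 2) / ϖ ≤
      ((2 : ℕ) + 1 - h₀) * X * Real.log 2 + η * X) (hC : 0 ≤ C)
    (hA : ∀ t, (A0 t).det ≠ 0) {K₁ : ℝ} (hK : ∀ t i a, |A0 t i a| ≤ K₁) (hK1 : 1 ≤ K₁)
    (hinv : ∀ t i j, |(A0 t)⁻¹ i j| ≤ 2 ^ X) {e₀ : ℝ}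
    (hbody : DF (tup p L (a + 1)) (fun _ => Tx 3 X) (fun w => A0 fun j => th (w j.succ))
      (fun w => xv X (hgt (w 0)))
      (fun w => (b (w 0), (th (w 0), fun j : Fin (a + 1) => th (w j.succ)))) ≤ e₀)
    (he : e3 (a + 1) C d F₀ F₁ e₀ +
      F₁ * (((2 : ℕ) + 1) * (F₀ * (((a + 1 : ℕ) + 1) * d))) ≤ η * X)
    {t : ℝ} {Y : ℕ} (t0 : 0 < t) (t1 : t ≤ 1) (ht : (2 : ℝ) ^ (-(κ₁ * X)) = t ^ 24)
    (hY1 : 2 ^ Y * (t * t) ≤ 1) (hY2 : 1 / 2 ^ Y ≤ 2 * (t * t))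
    (hs : (16 + 32 * K₁) * t ≤ 1 / 100) :
    ∃ m, 1 / 6 / (F₁ * F₀) ≤ m ∧ Alt p L th Z Bs A0 ((6 + 12 * K₁) * t) m Wt := by
  classical
  have hWt0 : 0 < Wt := by linarith
  have hF0 : 0 < F₀ := by rw [hF₀]; exact hWt0
  have hF01 : 1 ≤ F₀ := by rw [hF₀]; exact hWt
  have hε₁0 : 0 < ε₁ := by rw [hε₁]; positivity
  have hε₁1 : ε₁ ≤ 1 / 6 := by
    rw [hε₁]
    refine one_div_le_one_div_of_le (by norm_num) ?_
    nlinarith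
  have hδ₂0 : 0 < δ₂ := by rw [hδ₂]; positivity
  have hδ₂1 : δ₂ ≤ 1 / 1200 := by
    rw [hδ₂, div_le_div_iff₀ (by positivity) (by norm_num)]
    nlinarith
  have hδ₁0 : 0 < δ₁ := by rw [hδ₁]; positivity
  have hδ₁1 : δ₁ ≤ 1 / 1000 := by
    rw [hδ₁]
    nlinarith
  have hF10 : 0 < F₁ := by rw [hF₁]; positivity
  have hF11 : 1 ≤ F₁ := by
    rw [hF₁, le_div_iff₀ hδ₁0]
    linarith
  have hε₂0 : 0 < ε₂ := by rw [hε₂]; positivity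
  have hε₂1 : ε₂ ≤ 1 / 6 := by
    rw [hε₂]
    refine one_div_le_one_div_of_le (by norm_num) ?_
    have h1 : 1 ≤ F₁ * F₀ := one_le_mul_of_one_le_of_one_le hF11 hF01
    nlinarith
  have hδ0 : 0 < δ := by rw [hδ]; positivity
  have he0 : 0 ≤ (6 + 12 * K₁) * t := by positivity
  have he3 : 3 * t ≤ (6 + 12 * K₁) * t := mul_le_mul_of_nonneg_right (by linarith) t0.le
  obtain ⟨n1, n2, n3⟩ := num_two (K₁ := K₁) t0 t1 hK1 hY1 hY2 hs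
  by_cases c0 : Pe (tup p L (a + 1)) (evE th (EB A0 t)) ≤ 1 / F₀
  · refine ⟨1, ?_, alt0 h.law c0 he3 le_rfl ?_ hWt0.le⟩
    · rw [div_div, div_le_one (by positivity)]
      have h1 : 1 ≤ F₁ * F₀ := one_le_mul_of_one_le_of_one_le hF11 hF01
      linarith
    · rw [hF₀]
      exact (mul_one_div_cancel hWt0.ne').le
  · have hE := (not_le.1 c0).le
    by_cases c1 : Pe (cE p L th (EB A0 t) Z Bs 2) (fun W => TR th A0 (t ^ 8)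
        fun j => W j.succ) ≤ δ₁
    · refine ⟨1 / 6 / F₀, ?_, ?_⟩
      · refine div_le_div_of_nonneg_left (by norm_num) hF0 ?_
        exact le_mul_of_one_le_left hF0.le hF11
      · obtain ⟨ρs, hρs⟩ : ∃ ρs : ℝ, ρs = t ^ 8 / t + 4 * (K₁ * (t ^ 8 / t / t)) := ⟨_, rfl⟩
        obtain ⟨ρc, hρc⟩ : ∃ ρc : ℝ, ρc = 4 * (ρs / t + t ^ 8 / t / t) := ⟨_, rfl⟩
        obtain ⟨m1, m2, m3⟩ := num_one (K₁ := K₁) t0 t1 hK1 hY1 hY2 hs hρs hρc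
        have e1 : (δ₁ + δ₁) / δ₂ = δ₂ / 2 := by
          rw [hδ₁]
          field_simp
          ring
        have e2 : F₀ * (δ₂ + (δ₁ + δ₁) / δ₂) = ε₁ * (3 / 400) := by
          rw [e1, hδ₂]
          field_simp
          ring
        refine alt1 h.law (κ := t) (ρ₁ := t ^ 8) (δ₁ := δ₁) (δ₂ := δ₂) (K₁ := K₁) (F₀ := F₀)
          (ε' := ε₁) (ε₃ := 1 / 100) (Y := Y) (m' := 100)
          t0 hF0 hδ₂0 hK hE c1 hρs hρc he3 m3 m1 m2 (by norm_num) (by norm_num) hε₁0 rfl ?_ ?_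
          hWt0.le he0
        · rw [e2]
          have e3 : ε₁ * (3 / 400) / ε₁ = 3 / 400 := by field_simp
          rw [e3]
          push_cast
          linarith
        · rw [hε₁]
          refine le_of_eq ?_
          field_simp
    · have hNP : 1 / F₁ ≤ Pe (cE p L th (EB A0 t) Z Bs 2) (fun W => TR th A0 (t ^ 8)
          fun j => W j.succ) := by
        rw [hF₁, one_div_one_div]
        exact (not_le.1 c1).le
      refine ⟨1 / 6 / (F₁ * F₀), le_rfl, ?_⟩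
      refine h.alt2 hF0 hF10 (by positivity : 0 < t ^ 8) (E := EB A0 t) hE hNP hm hX hϖ nf hR hC
        hA hK hinv hbody he (κ := t) (e := (6 + 12 * K₁) * t) (ε' := ε₂) (ε₃ := 1 / 100)
        (Y := Y) (m' := 100) ?_ he3 ?_ ?_ ?_ (by norm_num) (by norm_num) hε₂0 ?_ ?_ hWt0.le he0
      · intro x hx i c
        exact (nb_le _ i c).trans (not_le.1 hx).le
      · rw [ht]
        exact n3
      · rw [ht]
        exact n1
      · rw [ht]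
        exact n2
      · have e3 : 3 * δ / ε₂ = 3 / 1000 := by
          rw [hδ]
          field_simp
        rw [e3, hδ]
        push_cast
        linarith
      · rw [hε₂]
        refine le_of_eq ?_
        field_simp

end Pool.DR24
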