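import Pool.Agent.H24.DR3.Tw2

/-!
# DR3: the covector

`Alt`: a covector which is a function of the line, on an event it is a function of the height and the
base, and it is almost orthogonal to the bodies of the line. `alt_of`: from two closed unit vectors.
-/

set_option autoImplicit false

namespace Pool.DR24

open Finset Real Matrix
open Pool.Agent.H49.Ent Pool.Agent.H32.Dense Pool.STK Pool.POT Pool.FAD Pool.SLO Pool.TQ
open Pool.K2S (Pe)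
open Pool.BFL (Pb)
open Pool.DIR21 (Pb_Pe Pb_mono Pb_or Pb_nonneg Pb_ci Pe_ci ci ci0 ci1 ci_nonneg ci_mono mg_ci_sum)

section gen

variable {Γ Ω : Type} [Fintype Γ] [Fintype Ω] {r : Γ → ℝ}

/-- A function with a small mean is small off a small event. -/
theorem mark (hr : ∀ w, 0 ≤ r w) {f : Γ → ℝ} (hf : ∀ w, 0 ≤ f w) {s M : ℝ} (hs : 0 < s)
    (h : ∑ w, r w * f w ≤ M) : Pb r (fun w => s < f w) ≤ M / s := by
  rw [Pb_ci, le_div_iff₀ hs, Finset.sum_mul]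
  refine (Finset.sum_le_sum fun w _ => ?_).trans h
  by_cases hw : s < f w
  · rw [ci1 hw, mul_one]
    exact mul_le_mul_of_nonneg_left hw.le (hr w)
  · rw [ci0 hw, mul_zero, zero_mul]
    exact mul_nonneg (hr w) (hf w)

theorem Pe_compl' (hr : IsLaw r) (G : Γ → Prop) : Pe r (fun w => ¬ G w) = 1 - Pe r G := by
  rw [Pe_ci, Pe_ci, ← hr.sum_one, ← Finset.sum_sub_distrib]
  refine Finset.sum_congr rfl fun w _ => ?_
  by_cases h : G w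
  · rw [ci1 h, ci0 (not_not.2 h)]
    ring
  · rw [ci0 h, ci1 h]
    ring

theorem Pe_mg (f : Γ → Ω) (G : Ω → Prop) : Pe (mg r f) G = Pe r (fun w => G (f w)) := by
  have h := (im_mg r f).Ex (fun ω => ci (G ω))
  unfold Pool.Agent.H32.Dense.Ex at h
  rw [Pe_ci, Pe_ci, h]

/-- The mass of an event of the image. -/
theorem Pe_den {p : Ω → ℝ} {f : Γ → Ω} {F : ℝ} (h : ∀ ω, mg r f ω ≤ F * p ω) (G : Ω → Prop) :
    Pe r (fun w => G (f w)) ≤ F * Pe p G := by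
  rw [← Pe_mg, Pe_ci, Pe_ci, Finset.mul_sum]
  refine Finset.sum_le_sum fun ω _ => ?_
  rw [← mul_assoc]
  exact mul_le_mul_of_nonneg_right (h ω) (ci_nonneg _)

end gen

variable {Ω Λ τ B β ρ σ : Type} [Fintype Ω] {p : Ω → ℝ} {L : Ω → Λ} {th : Ω → τ}
  {b : Ω → B} {hgt nu : Ω → Fin 3 → ℤ} {S : Ω → ρ} {Wd : Ω → β} {Z : Ω → Fin 3 → ℤ} {Bs : Ω → σ}
  {X : ℕ} {C d : ℝ} {N : ℕ}

/-- **The conclusion.** -/
def Alt (p : Ω → ℝ) (L : Ω → Λ) (th : Ω → τ) (Z : Ω → Fin 3 → ℤ) (Bs : Ω → σ) {N : ℕ}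
    (A0 : (Fin N → τ) → Matrix (Fin 3) (Fin 3) ℝ) (e m₀ W : ℝ) : Prop :=
  ∃ (lam : Λ → Fin 3 → ℝ) (lamP : (Fin 3 → ℤ) × σ → Fin 3 → ℝ) (G : Ω → Prop),
    (∀ x i, |lam x i| ≤ 1) ∧ (∀ x i, |lamP x i| ≤ 1) ∧ m₀ ≤ Pe p G ∧
    (∀ x, (∃ j, lam x j = 1) ∨ lam x = fun _ => 0) ∧
    (∀ ω, G ω → ∃ j, lam (L ω) j = 1) ∧ (∀ ω, G ω → lam (L ω) = lamP (Z ω, Bs ω)) ∧
    W * Pb (tup p L N) (fun w => ∃ c, e < |dp (lam (L (w 0))) (fun i => bdy th A0 w i c)|) ≤ m₀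

theorem dp_zero (x : Fin 3 → ℝ) : dp (fun _ => 0) x = 0 := by
  unfold dp
  ring

/-- **The covector from two closed unit vectors.** -/
theorem alt_of {Θ : Type} [Fintype Θ] {r : Θ → ℝ} (hp : IsLaw p) (hr : IsLaw r) {f : Θ → Ω}
    {F : ℝ} (hF : 0 < F) (hden : ∀ ω, mg r f ω ≤ F * p ω) {φ : Λ → Fin 3 → ℝ}
    {ψ : (Fin 3 → ℤ) × σ → Fin 3 → ℝ} (hφ : ∀ x, U3 (φ x)) (hψ : ∀ x, U3 (ψ x))
    {E : (Fin N → τ) → Prop} {A0 : (Fin N → τ) → Matrix (Fin 3) (Fin 3) ℝ}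
    (Gd : (Fin 3 → ℝ) → Matrix (Fin 3) (Fin 3) ℝ → Prop) {ρ₀ η ε₃ ε' M e : ℝ} {Y m' : ℕ}
    (hPA : Pb r (fun w => ¬ PA ρ₀ (φ (L (f w))) (ψ (Z (f w), Bs (f w)))) ≤ η)
    (hfib : ∑ w, r w * fib p L (fun l v => E (fun j => th (v j)) ∧
      ¬ Gd (φ l) (A0 fun j : Fin N => th (v j))) (L (f w)) ≤ M)
    (hρ : ρ₀ ≤ 1 / 4) (hε₃ : 0 ≤ ε₃) (hY : 2 ^ Y * (2 * ρ₀) ≤ ε₃) (hm' : 1 ≤ m') (hε' : 0 < ε')
    (hnum : 1 / 2 + η + 9 * (η + ε₃ + 1 / m') + M / ε' < 1)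
    (cv : Fin 3 → (Fin 3 → ℝ) → Fin 3 → ℝ)
    (cv1 : ∀ j e, (∀ i, |e i| ≤ 1) → ∀ i, |cv j e i| ≤ 1)
    (cv2 : ∀ j e, e j = 1 → ∃ i, cv j e i = 1)
    (hE : ∀ t, ¬ E t → ∀ e' : Fin 3 → ℝ, (∀ i, |e' i| ≤ 1) → ∀ c,
      |dp e' (fun i => A0 t i c)| ≤ e)
    (hG : ∀ (x e' : Fin 3 → ℝ) (t : Fin N → τ) (j : Fin 3), Gd x (A0 t) → |x j| = 1 →
      (∀ i, |x i / x j - e' i| ≤ 1 / 2 ^ Y) → ∀ c, |dp (cv j e') (fun i => A0 t i c)| ≤ e)
    {W : ℝ} (hW : W * ε' ≤ 1 / 6 / F) (hW0 : 0 ≤ W) (he : 0 ≤ e) :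
    Alt p L th Z Bs A0 e (1 / 6 / F) W := by
  classical
  have hp0 := hp.nonneg
  obtain ⟨Gb, hGb⟩ : ∃ Gb : Λ → (Fin N → Ω) → Prop, Gb = fun l v => E (fun j => th (v j)) ∧
      ¬ Gd (φ l) (A0 fun j : Fin N => th (v j)) := ⟨_, rfl⟩
  rw [← hGb] at hfib
  have hmk := mark hr.nonneg (f := fun w => fib p L Gb (L (f w)))
    (fun w => fib_nonneg hp0 Gb _) hε' hfib
  obtain ⟨G₀, hG₀⟩ : ∃ G₀ : Θ → Prop, G₀ = fun w => ¬ ε' < fib p L Gb (L (f w)) := ⟨_, rfl⟩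
  have hG₀m : 1 - M / ε' ≤ Pe r G₀ := by
    rw [hG₀, Pe_compl' hr]
    rw [Pb_Pe] at hmk
    linarith
  obtain ⟨j, s, hjs⟩ := codes hr (fun w => L (f w)) (fun w => (Z (f w), Bs (f w))) hφ hψ hρ hε₃
    hPA Y hY hm' G₀ (m := 1 / 6) (by linarith)
  obtain ⟨lam, hlam⟩ : ∃ lam : Λ → Fin 3 → ℝ, lam = fun x =>
      if ¬ ε' < fib p L Gb x ∧ |φ x j| = 1 then cv j (kval Y j s (kcode Y j s (φ x)))
      else fun _ => 0 := ⟨_, rfl⟩
  have hl1 : ∀ x, ¬ ε' < fib p L Gb x ∧ |φ x j| = 1 →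
      lam x = cv j (kval Y j s (kcode Y j s (φ x))) := fun x hx => by
    rw [hlam]
    simp only
    rw [if_pos hx]
  have hl2 : ∀ x, ¬ (¬ ε' < fib p L Gb x ∧ |φ x j| = 1) → lam x = fun _ => 0 := fun x hx => by
    rw [hlam]
    simp only
    rw [if_neg hx]
  have hlb : ∀ x i, |lam x i| ≤ 1 := fun x i => by
    by_cases hx : ¬ ε' < fib p L Gb x ∧ |φ x j| = 1
    · rw [hl1 x hx]
      exact cv1 _ _ (kval_le Y j s _) i
    · rw [hl2 x hx, abs_zero]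
      exact zero_le_one
  refine ⟨lam, fun z => cv j (kval Y j s (kcode Y j s (ψ z))), fun ω =>
    (¬ ε' < fib p L Gb (L ω) ∧ |φ (L ω) j| = 1) ∧
      kcode Y j s (φ (L ω)) = kcode Y j s (ψ (Z ω, Bs ω)), hlb,
    fun z i => cv1 _ _ (kval_le Y j s _) i, ?_, ?_, ?_, ?_, ?_⟩
  · have h1 := Pe_den hden (fun ω => (¬ ε' < fib p L Gb (L ω) ∧ |φ (L ω) j| = 1) ∧
      kcode Y j s (φ (L ω)) = kcode Y j s (ψ (Z ω, Bs ω)))
    rw [div_le_iff₀ hF]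
    refine hjs.trans (le_trans ?_ (h1.trans (le_of_eq (mul_comm _ _))))
    rw [← Pb_Pe, ← Pb_Pe]
    refine Pb_mono hr.nonneg fun w _ hw => ?_
    rw [hG₀] at hw
    exact ⟨⟨hw.1, hw.2.1⟩, hw.2.2.2⟩
  · intro x
    by_cases hx : ¬ ε' < fib p L Gb x ∧ |φ x j| = 1
    · rw [hl1 x hx]
      exact Or.inl (cv2 _ _ (kval_j Y j s _))
    · exact Or.inr (hl2 x hx)
  · intro ω hω
    rw [hl1 _ hω.1]
    exact cv2 _ _ (kval_j Y j s _)
  · intro ω hω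
    rw [hl1 _ hω.1, hω.2]
  · refine le_trans (mul_le_mul_of_nonneg_left ?_ hW0) hW
    -- the tuples
    have h2 := tup_fib (p := p) (L := L)
      (fun ω => if ¬ ε' < fib p L Gb (L ω) then (1 : ℝ) else 0) Gb
    have h3 : ∑ ω, p ω * ((if ¬ ε' < fib p L Gb (L ω) then (1 : ℝ) else 0) *
        fib p L Gb (L ω)) ≤ ε' := by
      calc _ ≤ ∑ ω, p ω * ε' := by
            refine Finset.sum_le_sum fun ω _ => mul_le_mul_of_nonneg_left ?_ (hp0 ω)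
            by_cases h : ε' < fib p L Gb (L ω)
            · rw [if_neg (not_not.2 h), zero_mul]
              exact hε'.le
            · rw [if_pos h, one_mul]
              exact not_lt.1 h
        _ = ε' := by rw [← Finset.sum_mul, hp.sum_one, one_mul]
    rw [← h2] at h3
    refine le_trans ?_ h3
    rw [Pb_ci]
    have ht0 := (tup_isLaw hp L N).nonneg
    refine Finset.sum_le_sum fun w _ => mul_le_mul_of_nonneg_left ?_ (ht0 w)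
    by_cases hbad : ∃ c, e < |dp (lam (L (w 0))) (fun i => bdy th A0 w i c)|
    · rw [ci1 hbad]
      obtain ⟨c, hc⟩ := hbad
      have hx : ¬ ε' < fib p L Gb (L (w 0)) ∧ |φ (L (w 0)) j| = 1 := by
        by_contra hx
        rw [hl2 _ hx, dp_zero, abs_zero] at hc
        linarith
      have hEE : E fun j => th (w j.succ) := by
        by_contra hn
        exact absurd hc (not_lt.2 (hE _ hn _ (hlb _) c))
      have hGG : ¬ Gd (φ (L (w 0))) (A0 fun j : Fin N => th (w j.succ)) := by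
        intro hg
        rw [hl1 _ hx] at hc
        exact absurd hc (not_lt.2 (hG _ _ _ j hg hx.2
          (kval_near Y s (fun i => (hφ _).1 i) hx.2) c))
      rw [if_pos hx.1, ci1 (by rw [hGb]; exact ⟨hEE, hGG⟩), one_mul]
    · rw [ci0 hbad]
      by_cases h : ε' < fib p L Gb (L (w 0))
      · rw [if_neg (not_not.2 h), zero_mul]
      · rw [if_pos h, one_mul]
        exact ci_nonneg _

end Pool.DR24
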