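import Pool.Agent.H24.DR3.Pc

/-!
# DR3: samples with copies

`qE`: the tuples of samples of one line whose times have a property `E`. `cE`: `K` copies with the same
height and the same base. `z_sys`, `z_df`: the system of the copies. `l_sys`, `l_df`: the system of the
line with the copies as test data.
-/

set_option autoImplicit false

namespace Pool.DR24

open Finset Real Matrix
open Pool.Agent.H49.Ent Pool.Agent.H32.Dense Pool.STK Pool.POT Pool.FAD Pool.SLO Pool.TQ
open Pool.K2S (Pe)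
open Pool.BFL (Pb)
open Pool.DIR21 (Pb_Pe mg_cond mi_evg mi_tup mi_link)

section cop

variable {Γ S T U α σ : Type} [Fintype Γ] {q : Γ → ℝ}

/-- **The data of the copies say little about the first sample**, given own data which determine the
base. -/
theorem cop (hq : ∀ v, 0 ≤ q v) (Z : Γ → S) (Bs : Γ → σ) (a : Γ → T) {m : ℝ}
    (ha : MI q a (fun v => (Z v, Bs v)) Bs ≤ m) (V : Γ → U) (A : Γ → α) (hA : Det q A Bs)
    (K : ℕ) :
    MI (tup q (fun v => (Z v, Bs v)) K) (fun W => V (W 0)) (fun W (i : Fin K) => a (W i.succ))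
      (fun W => A (W 0)) ≤ K * m := by
  cases K with
  | zero =>
    have h0 : ∀ W, 0 ≤ tup q (fun v => (Z v, Bs v)) 0 W := fun W => tup_nonneg hq _ _ W
    rw [MI_symm h0, MI_zero h0]
    · simp
    · intro W W' _ _ _
      funext j
      exact j.elim0
  | succ K =>
    have h0 : ∀ W, 0 ≤ tup q (fun v => (Z v, Bs v)) (K + 1) W := fun W => tup_nonneg hq _ _ W
    have him := im_tup hq (fun v => (Z v, Bs v)) (K + 1) 0
    have hAW : Det (tup q (fun v => (Z v, Bs v)) (K + 1)) (fun W => A (W 0)) (fun W => Bs (W 0)) :=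
      him.det h0 hA
    obtain ⟨Y, hY⟩ : ∃ Y : (Fin (K + 1 + 1) → Γ) → Fin (K + 1) → T,
      Y = fun W i => a (W i.succ) := ⟨_, rfl⟩
    have hYe : (fun W (i : Fin (K + 1)) => a (W i.succ)) = Y := hY.symm
    rw [hYe]
    -- independence
    have ci : ∀ {R : Type} (X : Γ → R), MI (tup q (fun v => (Z v, Bs v)) (K + 1))
        (fun W => X (W 0)) Y (fun W => (Z (W 0), Bs (W 0))) = 0 := fun X => by
      have := tup_ci0 hq (fun v => (Z v, Bs v)) K X
        (fun (w : Fin (K + 1) → Γ) (i : Fin (K + 1)) => a (w i))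
      rw [hY]
      exact this
    have s1 : MI (tup q (fun v => (Z v, Bs v)) (K + 1)) (fun W => V (W 0)) Y
        (fun W => A (W 0)) ≤ MI (tup q (fun v => (Z v, Bs v)) (K + 1))
        (fun W => (Z (W 0), V (W 0))) Y (fun W => A (W 0)) :=
      MI_le_left h0 (X := fun W => (Z (W 0), V (W 0))) (fun _ _ _ _ e =>
        (Prod.ext_iff.mp (Prod.ext_iff.mp e).1).2)
    rw [MI_chain_left h0] at s1
    have s2 : MI (tup q (fun v => (Z v, Bs v)) (K + 1)) (fun W => V (W 0)) Y
        (fun W => (Z (W 0), A (W 0))) ≤ 0 := by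
      have k1 := MI_data h0 (A := fun W => V (W 0)) (B := fun W => A (W 0))
        (X := fun W => (V (W 0), A (W 0))) (Y := Y) (Z := fun W => (Z (W 0), Bs (W 0)))
        (fun _ _ _ _ e => (Prod.ext_iff.mp (Prod.ext_iff.mp e).1).1)
        (fun _ _ _ _ e => (Prod.ext_iff.mp (Prod.ext_iff.mp e).1).2)
      have k2 := ci (fun v => (V v, A v))
      refine le_trans (le_of_eq ?_) (k1.trans k2.le)
      refine MI_congr h0 ?_ ?_ ?_ ?_ ?_ ?_
      · intro W W' x y e
        simp only [Prod.mk.injEq] at e ⊢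
        exact ⟨e.1, e.2.2, e.2.1, hAW W W' x y e.2.2⟩
      · intro W W' _ _ e
        simp only [Prod.mk.injEq] at e ⊢
        exact ⟨e.1, e.2.2.1, e.2.1⟩
      · intro W W' x y e
        simp only [Prod.mk.injEq] at e ⊢
        exact ⟨e.1, e.2.2, e.2.1, hAW W W' x y e.2.2⟩
      · intro W W' _ _ e
        simp only [Prod.mk.injEq] at e ⊢
        exact ⟨e.1, e.2.2.1, e.2.1⟩
      · intro W W' x y e
        simp only [Prod.mk.injEq] at e ⊢
        exact ⟨e.2, e.1, hAW W W' x y e.2⟩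
      · intro W W' _ _ e
        simp only [Prod.mk.injEq] at e ⊢
        exact ⟨e.2.1, e.1⟩
    have s3 := mi_link h0 (Z := fun W => Z (W 0)) (a := fun W => A (W 0)) (a' := Y)
      (B := fun W => Bs (W 0)) hAW (ci A)
    have s4 : MI (tup q (fun v => (Z v, Bs v)) (K + 1)) (fun W => Z (W 0)) Y
        (fun W => Bs (W 0)) ≤ ((K + 1 : ℕ) : ℝ) * m := by
      have k1 := tup_cost hq (L := fun v => (Z v, Bs v)) (b := Bs) a
        (fun _ _ _ _ e => (Prod.ext_iff.mp e).2) ha (K + 1)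
      rw [hYe] at k1
      refine le_trans ?_ k1
      exact MI_le_left h0 (X := fun W => (Z (W 0), Bs (W 0))) (fun _ _ _ _ e =>
        (Prod.ext_iff.mp (Prod.ext_iff.mp e).1).1)
    linarith

end cop

variable {Ω Λ τ B β ρ σ : Type} [Fintype Ω] {c : ℕ} {p : Ω → ℝ} {L : Ω → Λ} {th : Ω → τ}
  {b : Ω → B} {hgt nu : Ω → Fin c → ℤ} {S : Ω → ρ} {Wd : Ω → β} {Z : Ω → Fin c → ℤ} {Bs : Ω → σ}
  {X : ℕ} {C d : ℝ}

/-- The event of the times. -/
def evE (th : Ω → τ) {N : ℕ} (E : (Fin N → τ) → Prop) (v : Fin (N + 1) → Ω) : Prop :=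
  E fun j => th (v j.succ)

/-- The tuples of samples of one line whose times have the property `E`. -/
noncomputable def qE (p : Ω → ℝ) (L : Ω → Λ) (th : Ω → τ) {N : ℕ} (E : (Fin N → τ) → Prop) :
    (Fin (N + 1) → Ω) → ℝ := cond (tup p L N) (evE th E) True

/-- The copies with the same height and the same base. -/
noncomputable def cE (p : Ω → ℝ) (L : Ω → Λ) (th : Ω → τ) {N : ℕ} (E : (Fin N → τ) → Prop)
    (Z : Ω → Fin c → ℤ) (Bs : Ω → σ) (K : ℕ) : (Fin (K + 1) → Fin (N + 1) → Ω) → ℝ :=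
  tup (qE p L th E) (fun v => (Z (v 0), Bs (v 0))) K

variable {N : ℕ} {E : (Fin N → τ) → Prop} {F₀ : ℝ}

theorem qE_law (hp : IsLaw p) (hE : 0 < Pe (tup p L N) (evE th E)) : IsLaw (qE p L th E) :=
  cond_law (tup_isLaw hp L N).nonneg hE

theorem qE_le (hp : IsLaw p) (hF : 0 < F₀) (hE : 1 / F₀ ≤ Pe (tup p L N) (evE th E))
    (v : Fin (N + 1) → Ω) : qE p L th E v ≤ F₀ * tup p L N v := by
  have h0 := (tup_isLaw hp L N).nonneg
  have hP : 0 < Pe (tup p L N) (evE th E) := lt_of_lt_of_le (by positivity) hE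
  refine (cond_le h0 v).trans (mul_le_mul_of_nonneg_right ?_ (h0 v))
  rw [div_le_iff₀ hP]
  calc (1 : ℝ) = F₀ * (1 / F₀) := by field_simp
    _ ≤ _ := mul_le_mul_of_nonneg_left hE hF.le

theorem qE_pos (hp : IsLaw p) {v : Fin (N + 1) → Ω} (h : 0 < qE p L th E v) :
    0 < tup p L N v ∧ evE th E v := by
  have := (cond_pos_iff (tup_isLaw hp L N).nonneg _ True v).1 h
  exact ⟨this.1, of_eq_true this.2⟩

/-- Quotients by the mass of the event. -/
theorem div_F {x y P : ℝ} (hF : 0 < F₀) (hE : 1 / F₀ ≤ P) (hy : 0 ≤ y) (h : x ≤ y) :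
    x / P ≤ F₀ * y := by
  have hP : 0 < P := lt_of_lt_of_le (by positivity) hE
  rw [div_le_iff₀ hP]
  have h1 : (1 : ℝ) ≤ F₀ * P := by
    calc (1 : ℝ) = F₀ * (1 / F₀) := by field_simp
      _ ≤ _ := mul_le_mul_of_nonneg_left hE hF.le
  calc x ≤ y := h
    _ = 1 * y := (one_mul y).symm
    _ ≤ F₀ * P * y := mul_le_mul_of_nonneg_right h1 hy
    _ = F₀ * y * P := by ring

/-- **The system of the copies.** -/
theorem PcOk.z_sys (h : PcOk p L th b hgt nu S Wd Z Bs X C d) (hF : 0 < F₀)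
    (hE : 1 / F₀ ≤ Pe (tup p L N) (evE th E)) :
    TsOk p Bs Z (qE p L th E) (fun v => v 0) (fun v => (Z (v 0), Bs (v 0))) (dt Wd b th) F₀
      (F₀ * ((N + 1) * d)) where
  law := h.law
  lawr := qE_law h.law (lt_of_lt_of_le (by positivity) hE)
  den := mg_le (im_tup h.law.nonneg L N 0) (qE_le h.law hF hE)
  Lb := fun _ _ _ _ e => (Prod.ext_iff.mp e).2
  Ln := fun _ _ _ _ e => (Prod.ext_iff.mp e).1
  h0 := by
    have hq := tup_isLaw h.law L N
    have hP : 0 < Pe (tup p L N) (evE th E) := lt_of_lt_of_le (by positivity) hE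
    have hc0 := (cond_law (G := evE th E) hq.nonneg hP).nonneg
    have h1 := MI_ev hq (G := evE th E) (fun v => Z (v 0)) (dt Wd b th) (fun v => Bs (v 0))
      (fun v v' _ _ e => by
        simp only [dt, Prod.mk.injEq] at e
        unfold evE
        rw [e.1.2.2.2]) hP
    have h2 := h.mi_few N
    have h3 : 0 ≤ ((N : ℝ) + 1) * d := by
      have := h.d0
      positivity
    have h4 := div_F hF hE h3 h2
    refine le_trans (le_of_eq ?_) (h1.trans h4)
    unfold qE
    rw [MI_symm hc0]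
    refine MI_congr hc0 ?_ ?_ (fun _ _ _ _ e => e) (fun _ _ _ _ e => e) (fun _ _ _ _ e => e)
      (fun _ _ _ _ e => e)
    · intro v v' _ _ e
      simp only [Prod.mk.injEq] at e ⊢
      exact ⟨e.1.1, e.2⟩
    · intro v v' _ _ e
      simp only [Prod.mk.injEq] at e ⊢
      exact ⟨⟨e.1, e.2⟩, e.2⟩

/-- The deficit. -/
noncomputable def e1 (c N : ℕ) (C d F₀ e₀ : ℝ) : ℝ :=
  F₀ * (|e₀| + (N + 1) * d + |Pool.POT64.Cch c 1 C| + |Cc c (c + 1)|)

/-- **Fullness in the system of the copies.** -/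
theorem PcOk.z_df (h : PcOk p L th b hgt nu S Wd Z Bs X C d) (hF : 0 < F₀)
    (hE : 1 / F₀ ≤ Pe (tup p L N) (evE th E)) {A0 : (Fin N → τ) → Matrix (Fin c) (Fin c) ℝ}
    (hA : ∀ t, (A0 t).det ≠ 0) (hinv : ∀ t i j, |(A0 t)⁻¹ i j| ≤ 2 ^ X) {e₀ : ℝ}
    (hbody : DF (tup p L N) (fun _ => Tx c X) (fun w => A0 fun j => th (w j.succ))
      (fun w => xv X (hgt (w 0)))
      (fun w => (b (w 0), (th (w 0), fun j : Fin N => th (w j.succ)))) ≤ e₀) :
    DF (qE p L th E) (fun _ => Tx c X) (fun v => A0 fun j => th (v j.succ))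
      (fun v => xv X (Z (v 0))) (fun v => (Bs (v 0), dt Wd b th v)) ≤ e1 c N C d F₀ e₀ := by
  have hq := tup_isLaw h.law L N
  have hP : 0 < Pe (tup p L N) (evE th E) := lt_of_lt_of_le (by positivity) hE
  have hd := h.d0
  have him : Im (tup p L N) p (fun w => w 0) := im_tup h.law.nonneg L N 0
  have h1 := h.df_Z hinv hbody
  have h2 := DF_ev hq (G := evE th E) (T := fun _ => Tx c X)
    (V := fun v => A0 fun j => th (v j.succ)) (fun v => xv X (Z (v 0))) (dt Wd b th)
    (fun v v' _ _ e => by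
      simp only [dt, Prod.mk.injEq] at e
      unfold evE
      rw [e.2.2.2]) (fun _ _ _ _ _ => rfl) (fun v v' _ _ e => by
      simp only [dt, Prod.mk.injEq] at e
      simp only [e.2.2.2]) (fun _ => Tx_det c X) (fun v => hA _) (c := (c : ℝ) + 1) (by positivity)
    (fun v => inc_of_inv (hinv _)) hP
  have h3 : 0 ≤ |e₀| + (N + 1) * d + |Pool.POT64.Cch c 1 C| + |Cc c (c + 1)| := by positivity
  have h5 := le_abs_self e₀
  have h6 := le_abs_self (Pool.POT64.Cch c 1 C)
  have h4 := div_F hF hE h3 (x := DF (tup p L N) (fun _ => Tx c X)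
    (fun v => A0 fun j => th (v j.succ)) (fun v => xv X (Z (v 0))) (dt Wd b th) +
    |Cc c ((c : ℝ) + 1)|) (by linarith)
  refine le_trans (le_of_eq ?_) (h2.trans h4)
  have hc0 := (cond_law (G := evE th E) hq.nonneg hP).nonneg
  have hcp : ∀ v, 0 < cond (tup p L N) (evE th E) True v → 0 < p (v 0) := fun v hv =>
    him.pos hq.nonneg ((cond_pos_iff hq.nonneg _ True v).1 hv).1
  refine Pool.TQ64.DF_cg hc0 X (fun _ _ => rfl) (fun _ _ => rfl) ?_ ?_
  · intro v v' _ _ e
    exact (Prod.ext_iff.mp e).2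
  · intro v v' x y e
    refine Prod.ext ?_ e
    simp only [dt, Prod.mk.injEq] at e
    exact h.BY _ _ (hcp v x) (hcp v' y) (by
      simp only [Prod.mk.injEq]
      exact ⟨e.1, e.2.2.1, e.2.1⟩)

/-- The test datum of the line. -/
def td (th : Ω → τ) (Bs : Ω → σ) (Wd : Ω → β) (b : Ω → B) {N K : ℕ}
    (W : Fin (K + 1) → Fin (N + 1) → Ω) :
    ((τ × σ) × (Fin N → τ)) × (Fin K → β × (B × (τ × (Fin N → τ)))) :=
  (((th (W 0 0), Bs (W 0 0)), fun j : Fin N => th (W 0 j.succ)),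
    fun i : Fin K => dt Wd b th (W i.succ))

/-- **The system of the line with the copies as test data.** -/
theorem PcOk.l_sys (h : PcOk p L th b hgt nu S Wd Z Bs X C d) (hF : 0 < F₀)
    (hE : 1 / F₀ ≤ Pe (tup p L N) (evE th E)) (K : ℕ) :
    TsOk p b nu (cE p L th E Z Bs K) (fun W => W 0 0) (fun W => L (W 0 0))
      (td th Bs Wd b) F₀ ((K + 1) * (F₀ * ((N + 1) * d))) := by
  classical
  have hq := qE_law (E := E) h.law (lt_of_lt_of_le (by positivity) hE)
  have hq0 := hq.nonneg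
  have hc : IsLaw (cE p L th E Z Bs K) :=
    tup_isLaw hq (fun v : Fin (N + 1) → Ω => (Z (v 0), Bs (v 0))) K
  have hc0 := hc.nonneg
  have hP : 0 < Pe (tup p L N) (evE th E) := lt_of_lt_of_le (by positivity) hE
  have him0 : Im (cE p L th E Z Bs K) (qE p L th E) (fun W => W 0) :=
    im_tup hq0 (fun v : Fin (N + 1) → Ω => (Z (v 0), Bs (v 0))) K 0
  have hqp : ∀ v : Fin (N + 1) → Ω, 0 < qE p L th E v → 0 < p (v 0) := fun v hv =>
    (im_tup h.law.nonneg L N 0).pos (tup_isLaw h.law L N).nonneg (qE_pos h.law hv).1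
  have hcp : ∀ W : Fin (K + 1) → Fin (N + 1) → Ω, 0 < cE p L th E Z Bs K W → 0 < p (W 0 0) :=
    fun W hW => hqp _ (him0.pos hc0 hW)
  refine ⟨h.law, hc, ?_, ?_, ?_, ?_⟩
  · intro ω
    have e1 : mg (cE p L th E Z Bs K) (fun W => W 0 0) ω = mg (qE p L th E)
        (fun v => v 0) ω := by
      have g3 := him0.Ex (fun v => if v 0 = ω then 1 else 0)
      unfold Pool.Agent.H32.Dense.Ex at g3
      simp only [mul_ite, mul_one, mul_zero] at g3
      have g1 : mg (cE p L th E Z Bs K) (fun W => W 0 0) ω = ∑ W, if W 0 0 = ω then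
          cE p L th E Z Bs K W else 0 := by
        unfold mg
        exact Finset.sum_congr rfl fun w _ => by congr
      have g2 : mg (qE p L th E) (fun v => v 0) ω = ∑ v, if v 0 = ω then
          qE p L th E v else 0 := by
        unfold mg
        exact Finset.sum_congr rfl fun w _ => by congr
      rw [g1, g2, g3]
    rw [e1]
    exact mg_le (im_tup h.law.nonneg L N 0) (qE_le h.law hF hE) ω
  · intro W W' x y e
    exact h.Lb _ _ (hcp W x) (hcp W' y) e
  · intro W W' x y e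
    exact h.Ln _ _ (hcp W x) (hcp W' y) e
  · -- the cost
    have hd := h.d0
    have hm0 : 0 ≤ ((N : ℝ) + 1) * d := by positivity
    have e0 : (td th Bs Wd b : (Fin (K + 1) → Fin (N + 1) → Ω) → _) = fun W =>
        (((th (W 0 0), Bs (W 0 0)), fun j : Fin N => th (W 0 j.succ)),
          fun i : Fin K => dt Wd b th (W i.succ)) := rfl
    rw [MI_symm hc0, e0, MI_chain hc0]
    have k1 : MI (cE p L th E Z Bs K) (fun W => L (W 0 0))
        (fun W => ((th (W 0 0), Bs (W 0 0)), fun j : Fin N => th (W 0 j.succ)))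
        (fun W => b (W 0 0)) ≤ F₀ * ((N + 1) * d) := by
      rw [him0.MI (fun v => L (v 0))
        (fun v => ((th (v 0), Bs (v 0)), fun j : Fin N => th (v j.succ))) (fun v => b (v 0))]
      have a1 := MI_ev (tup_isLaw h.law L N) (G := evE th E) (fun v => L (v 0))
        (fun v => ((th (v 0), Bs (v 0)), fun j : Fin N => th (v j.succ))) (fun v => b (v 0))
        (fun v v' _ _ e => by
          simp only [Prod.mk.injEq] at e
          unfold evE
          rw [e.1.2]) hP
      exact a1.trans (div_F hF hE hm0 (h.own_cost N))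
    have k2 := cop hq0 (fun v : Fin (N + 1) → Ω => Z (v 0)) (fun v => Bs (v 0)) (dt Wd b th)
      (h.z_sys hF hE).h0 (fun v => L (v 0))
      (fun v => (((th (v 0), Bs (v 0)), fun j : Fin N => th (v j.succ)), b (v 0)))
      (fun v v' _ _ e => by
        simp only [Prod.mk.injEq] at e
        exact e.1.1.2) K
    have e9 : ((K : ℝ) + 1) * (F₀ * ((N + 1) * d)) =
        F₀ * ((N + 1) * d) + K * (F₀ * ((N + 1) * d)) := by ring
    rw [e9]
    exact add_le_add k1 k2

/-- The bodies. -/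
def bk {K : ℕ} (A0 : (Fin N → τ) → Matrix (Fin c) (Fin c) ℝ) (k : Fin (K + 1))
    (x : ((τ × σ) × (Fin N → τ)) × (Fin K → β × (B × (τ × (Fin N → τ))))) :
    Matrix (Fin c) (Fin c) ℝ :=
  Fin.cases (motive := fun _ => Matrix (Fin c) (Fin c) ℝ) (A0 x.1.2)
    (fun i => A0 (x.2 i).2.2.2) k

omit [Fintype Ω] in
theorem bk_td {K : ℕ} (A0 : (Fin N → τ) → Matrix (Fin c) (Fin c) ℝ) (k : Fin (K + 1))
    (W : Fin (K + 1) → Fin (N + 1) → Ω) :
    bk A0 k (td th Bs Wd b W) = A0 fun j => th (W k j.succ) := by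
  refine Fin.cases rfl (fun i => rfl) k

theorem bk_P {K : ℕ} {A0 : (Fin N → τ) → Matrix (Fin c) (Fin c) ℝ}
    {P : Matrix (Fin c) (Fin c) ℝ → Prop} (h : ∀ t, P (A0 t)) (k : Fin (K + 1))
    (x : ((τ × σ) × (Fin N → τ)) × (Fin K → β × (B × (τ × (Fin N → τ))))) : P (bk A0 k x) := by
  refine Fin.cases ?_ (fun i => ?_) k
  · exact h _
  · exact h _

/-- **Fullness in the system of the line.** -/
theorem PcOk.l_df (h : PcOk p L th b hgt nu S Wd Z Bs X C d) (hF : 0 < F₀)
    (hE : 1 / F₀ ≤ Pe (tup p L N) (evE th E)) {A0 : (Fin N → τ) → Matrix (Fin c) (Fin c) ℝ}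
    (hA : ∀ t, (A0 t).det ≠ 0) (hinv : ∀ t i j, |(A0 t)⁻¹ i j| ≤ 2 ^ X) {e₀ : ℝ}
    (hbody : DF (tup p L N) (fun _ => Tx c X) (fun w => A0 fun j => th (w j.succ))
      (fun w => xv X (hgt (w 0)))
      (fun w => (b (w 0), (th (w 0), fun j : Fin N => th (w j.succ)))) ≤ e₀) (K : ℕ)
    (k : Fin (K + 1)) :
    DF (cE p L th E Z Bs K) (fun _ => Tx c X) (fun W => bk A0 k (td th Bs Wd b W))
      (fun W => xv X (nu (W 0 0))) (fun W => (b (W 0 0), td th Bs Wd b W)) ≤
      e1 c N C d F₀ e₀ + K * (F₀ * ((N + 1) * d)) + Pool.POT64.Cch c 1 C := by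
  have hq := qE_law (E := E) h.law (lt_of_lt_of_le (by positivity) hE)
  have hq0 := hq.nonneg
  have hc := tup_isLaw hq (fun v : Fin (N + 1) → Ω => (Z (v 0), Bs (v 0))) K
  have hc0 : ∀ W, 0 ≤ cE p L th E Z Bs K W := hc.nonneg
  have him : ∀ k : Fin (K + 1), Im (cE p L th E Z Bs K) (qE p L th E) (fun W => W k) := fun k =>
    im_tup hq0 (fun v : Fin (N + 1) → Ω => (Z (v 0), Bs (v 0))) K k
  have hqp : ∀ v : Fin (N + 1) → Ω, 0 < qE p L th E v → 0 < p (v 0) := fun v hv =>
    (im_tup h.law.nonneg L N 0).pos (tup_isLaw h.law L N).nonneg (qE_pos h.law hv).1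
  have hcp : ∀ W : Fin (K + 1) → Fin (N + 1) → Ω, 0 < cE p L th E Z Bs K W →
      ∀ k, 0 < p (W k 0) := fun W hW k => hqp _ ((him k).pos hc0 hW)
  -- all data
  have s1 := ts_df (h.z_sys (E := E) hF hE) (A := fun x => A0 x.2.2.2) (h.z_df hF hE hA hinv hbody)
    K k
  -- the chart
  have s2 := Pool.POT64.DF_chart (p := cE p L th E Z Bs K) hc X
    (A := fun W => A0 fun j => th (W k j.succ)) (M := fun _ => 1)
    (n := fun W => Z (W 0 0)) (n' := fun W => nu (W 0 0))
    (Z := fun W => (Bs (W 0 0), fun j : Fin (K + 1) => dt Wd b th (W j)))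
    (L := 1) (R := C) zero_le_one (by
      intro W W' _ _ e
      have e1 := congrFun (Prod.ext_iff.mp e).2 k
      simp only [dt, Prod.mk.injEq] at e1
      simp only [e1.2.2.2]) (fun _ _ _ _ _ => rfl) (fun w i j => hinv _ i j)
    (fun w => by rw [Matrix.det_one, abs_one])
    (fun w i j => by
      rw [inv_one, Matrix.one_apply]
      split_ifs <;> simp) (by
      intro W W' x y e i
      have e1 := congrFun (Prod.ext_iff.mp e).2 0
      simp only [dt, Prod.mk.injEq] at e1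
      have h1 : ∑ j, (1 : Matrix (Fin c) (Fin c) ℝ) i j * ((Z (W 0 0) j : ℝ) - Z (W' 0 0) j) =
          (Z (W 0 0) i : ℝ) - Z (W' 0 0) i := by
        simp [Matrix.one_apply]
      rw [h1, abs_sub_comm]
      exact h.rel' (hcp W x 0) (hcp W' y 0) e1.1 e1.2.2.1 e1.2.1 i)
  simp only [one_mul] at s2
  -- less context
  have s3 := DF_less hc0 X (A := fun W => A0 fun j => th (W k j.succ)) (n := fun W => nu (W 0 0))
    (Z := fun W => (b (W 0 0), td th Bs Wd b W))
    (Z' := fun W => (Bs (W 0 0), fun j : Fin (K + 1) => dt Wd b th (W j))) (by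
      intro W W' _ _ e
      have e0 := (Prod.ext_iff.mp e).1
      have e1 := fun j => congrFun (Prod.ext_iff.mp e).2 j
      have e2 := e1 0
      simp only [dt, Prod.mk.injEq] at e0 e2
      unfold td
      simp only [Prod.mk.injEq]
      refine ⟨e2.2.1, ⟨⟨⟨e2.2.2.1, e0⟩, e2.2.2.2⟩, ?_⟩⟩
      funext i
      exact e1 i.succ)
  have s4 : DF (cE p L th E Z Bs K) (fun _ => Tx c X) (fun W => bk A0 k (td th Bs Wd b W))
      (fun W => xv X (nu (W 0 0))) (fun W => (b (W 0 0), td th Bs Wd b W)) =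
      DF (cE p L th E Z Bs K) (fun _ => Tx c X) (fun W => A0 fun j => th (W k j.succ))
      (fun W => xv X (nu (W 0 0))) (fun W => (b (W 0 0), td th Bs Wd b W)) := by
    simp only [bk_td]
  rw [s4]
  refine s3.trans (s2.trans ?_)
  have s5 : DF (cE p L th E Z Bs K) (fun _ => Tx c X) (fun W => A0 fun j => th (W k j.succ))
      (fun W => xv X (Z (W 0 0))) (fun W => (Bs (W 0 0), fun j : Fin (K + 1) =>
        dt Wd b th (W j))) ≤ e1 c N C d F₀ e₀ + K * (F₀ * ((N + 1) * d)) := s1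
  linarith

end Pool.DR24
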