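import Pool.Agent.H24.DR3.Vec3
import Pool.Agent.H24.DR3.Ext
import Pool.Agent.H16.DIR.Sel

/-!
# DR3: the codes of closed unit vectors

`FI1`, `FI2`: the fullness of one image and of the pair of images, for closed coefficients. `sel1`: the
choice of a sample as a function of a variable. `kcode`, `kval`: the code of a unit vector with pivot
`j`. `codes`: two almost parallel unit vectors have the same code off a small event, for a suitable
grid.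
-/

set_option autoImplicit false

namespace Pool.DR24

open Finset Real Matrix
open Pool.Agent.H49.Ent Pool.Agent.H32.Dense Pool.STK Pool.POT Pool.FAD Pool.SLO Pool.TQ
open Pool.K2S (Pe)
open Pool.BFL (Pb)
open Pool.DIR21 (Pb_Pe Pb_mono Pb_or Pb_nonneg)
open Pool.PR46 (glue_select)


/-- **Fullness of one image** with closed coefficients. -/
def FI1 {Ω Λ σ σ' : Type} [Fintype Ω] (p : Ω → ℝ) (L : Ω → Λ) (WS : Ω → σ) (Z : Ω → Fin 3 → ℤ)
    (Bs : Ω → σ') (t : ℕ) (b₁ ϖ₂ : ℝ) : Prop :=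
  ∀ (j : Fin 3) (kL : Λ → Fin 3 → ℤ) (kP : (Fin 3 → ℤ) × σ' → Fin 3 → ℤ)
    (ka : (Fin 3 → ℤ) → Fin 3 → ℝ) (B : Ω → Prop), (∀ k, ka k j = 1) → (∀ k i, |ka k i| ≤ 1) →
    (∀ ω, 0 < p ω → B ω → kL (L ω) = kP (Z ω, Bs ω)) → ϖ₂ ≤ Pe p B → 0 < Pe p B →
    b₁ ≤ CH (cond p B True) (fun ω => ⌊(∑ i, ka (kL (L ω)) i * (Z ω i : ℝ)) / 2 ^ t⌋)
      (fun ω => (kL (L ω), WS ω))

/-- **Fullness of the pair of images** with closed coefficients. -/
def FI2 {Ω Λ σ σ' : Type} [Fintype Ω] (p : Ω → ℝ) (L : Ω → Λ) (WS : Ω → σ) (Z : Ω → Fin 3 → ℤ)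
    (Bs : Ω → σ') (t : ℕ) (b₁ ϖ₂ : ℝ) : Prop :=
  ∀ (j : Fin 3) (kL : Λ → Fin 3 → ℤ) (kP : (Fin 3 → ℤ) × σ' → Fin 3 → ℤ)
    (ka : (Fin 3 → ℤ) → Fin 3 → ℝ) (B : Ω → Prop), (∀ k, ka k j = 1) → (∀ k i, |ka k i| ≤ 1) →
    (∀ ω, 0 < p ω → B ω → kL (L ω) = kP (Z ω, Bs ω)) → ϖ₂ ≤ Pe p B → 0 < Pe p B →
    b₁ ≤ CH (cond p B True)
      (fun ω (i : Fin 3) => ⌊((Z ω i : ℝ) - ka (kL (L ω)) i * (Z ω j : ℝ)) / 2 ^ t⌋)
      (fun ω => (kL (L ω), WS ω))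

section sel

variable {Γ V : Type} [Fintype Γ] {q : Γ → ℝ}

/-- **The choice of a sample.** -/
theorem sel1 (hq : IsLaw q) (ζ : Γ → V) (Bad : Γ → Γ → Prop) :
    ∃ sl : V → Γ, (∀ w, 0 < q w → 0 < q (sl (ζ w)) ∧ ζ (sl (ζ w)) = ζ w) ∧
      Pb q (fun w => Bad w (sl (ζ w))) ≤ Pb (tup q ζ 1) (fun W => Bad (W 0) (W 1)) := by
  classical
  obtain ⟨sl, h1, h2⟩ := glue_select hq hq (X := ζ) (Y := ζ) (fun _ => rfl) Bad
  refine ⟨sl, h1, h2.trans (le_of_eq ?_)⟩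
  unfold Pb
  have e3 := (finTwoArrowEquiv Γ).sum_comp (fun w : Γ × Γ => if Bad w.1 w.2 then
    glue q q ζ ζ w else 0)
  rw [← e3]
  refine Finset.sum_congr rfl fun W _ => ?_
  have e4 : finTwoArrowEquiv Γ W = (W 0, W 1) := rfl
  rw [e4]
  simp only
  by_cases h : Bad (W 0) (W 1)
  · rw [if_pos h, if_pos h]
    show glue q q ζ ζ (W 0, W 1) = q (W 0) * ∏ j : Fin 1, cond q ζ (ζ (W 0)) (W j.succ)
    unfold glue
    simp only [Finset.univ_unique, Fin.default_eq_zero, Finset.prod_singleton]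
    have e5 : W (Fin.succ 0) = W 1 := rfl
    rw [e5]
    unfold Pool.Agent.H49.Ent.cond
    by_cases h2 : ζ (W 0) = ζ (W 1)
    · rw [if_pos h2, if_pos h2.symm, mul_div_assoc]
    · rw [if_neg h2, if_neg (fun h => h2 h.symm), mul_zero]
  · rw [if_neg h, if_neg h]

end sel

/-! ### Ratios of the coordinates -/

/-- The pivot of an almost parallel unit vector. -/
theorem piv_big {u v : Fin 3 → ℝ} {ρ : ℝ} (hu : U3 u) (hv : U3 v) (h : PA ρ u v) {j : Fin 3}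
    (hj : |u j| = 1) (hρ : ρ ≤ 1 / 4) : 1 / 2 ≤ |v j| := by
  obtain ⟨s, hs, h1⟩ := nsg3 hu hv h
  have h2 := h1 j
  have h3 : |s * v j| = |v j| := by
    rcases hs with rfl | rfl
    · rw [one_mul]
    · rw [neg_one_mul, abs_neg]
  have h4 := abs_sub_abs_le_abs_sub (u j) (s * v j)
  rw [h3, hj] at h4
  linarith

/-- The ratios of almost parallel unit vectors. -/
theorem ratio_near {u v : Fin 3 → ℝ} {ρ a b : ℝ} (h : PA ρ u v) {j : Fin 3} (ha : 0 < a)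
    (hb : 0 < b) (hj : a ≤ |u j|) (hj' : b ≤ |v j|) (i : Fin 3) :
    |u i / u j - v i / v j| ≤ ρ / (a * b) := by
  have h0 : 0 < |u j| := ha.trans_le hj
  have h0' : 0 < |v j| := hb.trans_le hj'
  have n0 : u j ≠ 0 := abs_pos.1 h0
  have n0' : v j ≠ 0 := abs_pos.1 h0'
  have hρ : 0 ≤ ρ := (abs_nonneg _).trans (h 0)
  have e1 : u i / u j - v i / v j = (u i * v j - u j * v i) / (u j * v j) := by
    field_simp
  rw [e1, abs_div, abs_mul]
  have h2 := two_ix v u h j i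
  exact div_le_div₀ hρ h2 (by positivity) (mul_le_mul hj hj' hb.le h0.le)

/-! ### Codes -/

/-- The code of a vector with pivot `j`. -/
noncomputable def kcode (Y : ℕ) (j : Fin 3) (s : Fin 3 → ℝ) (v : Fin 3 → ℝ) (i : Fin 3) : ℤ :=
  ⌊2 ^ Y * (v i / v j) + s i⌋

open Classical in
/-- The coefficients of a code. -/
noncomputable def kval (Y : ℕ) (j : Fin 3) (s : Fin 3 → ℝ) (k : Fin 3 → ℤ) (i : Fin 3) : ℝ :=
  if i = j then 1 else max (-1) (min 1 (((k i : ℝ) - s i) / 2 ^ Y))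

theorem kval_j (Y : ℕ) (j : Fin 3) (s : Fin 3 → ℝ) (k : Fin 3 → ℤ) : kval Y j s k j = 1 := by
  unfold kval
  rw [if_pos rfl]

theorem kval_le (Y : ℕ) (j : Fin 3) (s : Fin 3 → ℝ) (k : Fin 3 → ℤ) (i : Fin 3) :
    |kval Y j s k i| ≤ 1 := by
  unfold kval
  split_ifs
  · rw [abs_one]
  · rw [abs_le]
    exact ⟨le_max_left _ _, max_le (by norm_num) (min_le_left _ _)⟩

/-- The coefficients of the code of a vector. -/
theorem kval_near (Y : ℕ) {j : Fin 3} (s : Fin 3 → ℝ) {v : Fin 3 → ℝ} (hv : ∀ i, |v i| ≤ 1)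
    (hj : |v j| = 1) (i : Fin 3) : |v i / v j - kval Y j s (kcode Y j s v) i| ≤ 1 / 2 ^ Y := by
  have hY0 : (0 : ℝ) < 2 ^ Y := by positivity
  have hn : v j ≠ 0 := by
    intro h
    rw [h, abs_zero] at hj
    exact zero_ne_one hj
  have hz : |v i / v j| ≤ 1 := by
    rw [abs_div, hj, div_one]
    exact hv i
  unfold kval
  split_ifs with h
  · rw [h, div_self hn, sub_self, abs_zero]
    positivity
  · obtain ⟨r, hr⟩ : ∃ r : ℝ, r = v i / v j := ⟨_, rfl⟩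
    have hk : kcode Y j s v i = ⌊2 ^ Y * r + s i⌋ := by rw [hr]; rfl
    rw [← hr] at hz ⊢
    rw [hk]
    have h1 := Int.floor_le (2 ^ Y * r + s i)
    have h2 := Int.lt_floor_add_one (2 ^ Y * r + s i)
    obtain ⟨x, hx⟩ : ∃ x : ℝ, x = ((⌊2 ^ Y * r + s i⌋ : ℤ) - s i) / 2 ^ Y := ⟨_, rfl⟩
    have h3 : |r - x| ≤ 1 / 2 ^ Y := by
      have e1 : r - x = (2 ^ Y * r + s i - (⌊2 ^ Y * r + s i⌋ : ℤ)) / 2 ^ Y := by
        rw [hx]
        field_simp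
        ring
      rw [e1, abs_div, abs_of_pos hY0]
      refine div_le_div_of_nonneg_right ?_ hY0.le
      rw [abs_le]
      constructor <;> linarith
    rw [← hx]
    refine le_trans ?_ h3
    have hz' := abs_le.1 hz
    rcases le_total x 1 with c1 | c1
    · rw [min_eq_right c1]
      rcases le_total (-1) x with c2 | c2
      · rw [max_eq_right c2]
      · rw [max_eq_left c2, abs_of_nonneg (by linarith [hz'.1]),
          abs_of_nonneg (by linarith [hz'.1])]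
        linarith
    · rw [min_eq_left c1, max_eq_right (by norm_num), abs_of_nonpos (by linarith [hz'.2]),
        abs_of_nonpos (by linarith [hz'.2])]
      linarith

/-- The codes of near vectors. -/
theorem kcode_near (Y : ℕ) {j : Fin 3} (s : Fin 3 → ℝ) {u v : Fin 3 → ℝ} {D : ℝ} (i : Fin 3)
    (h : 2 ^ Y * |u i / u j - v i / v j| ≤ D) :
    |(kcode Y j s u i : ℝ) - kcode Y j s v i| ≤ D + 1 := by
  have hY0 : (0 : ℝ) < 2 ^ Y := by positivity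
  have c5 : |2 ^ Y * (u i / u j) - 2 ^ Y * (v i / v j)| ≤ D := by
    rw [← mul_sub, abs_mul, abs_of_pos hY0]
    exact h
  have f1 := Int.floor_le (2 ^ Y * (u i / u j) + s i)
  have f2 := Int.lt_floor_add_one (2 ^ Y * (u i / u j) + s i)
  have f3 := Int.floor_le (2 ^ Y * (v i / v j) + s i)
  have f4 := Int.lt_floor_add_one (2 ^ Y * (v i / v j) + s i)
  unfold kcode
  rw [abs_le] at c5 ⊢
  constructor <;> linarith [c5.1, c5.2]

/-- **Almost parallel unit vectors have the same code**, for one pivot and one grid. -/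
theorem codes {Γ Λ ζ : Type} [Fintype Γ] {r : Γ → ℝ} (hr : IsLaw r) (l : Γ → Λ) (z : Γ → ζ)
    {φ : Λ → Fin 3 → ℝ} {ψ : ζ → Fin 3 → ℝ} (hφ : ∀ x, U3 (φ x)) (hψ : ∀ x, U3 (ψ x))
    {ρ η ε₃ : ℝ} (hρ : ρ ≤ 1 / 4) (hε : 0 ≤ ε₃)
    (h : Pb r (fun w => ¬ PA ρ (φ (l w)) (ψ (z w))) ≤ η) (Y : ℕ) (hY : 2 ^ Y * (2 * ρ) ≤ ε₃)
    {m' : ℕ} (hm' : 1 ≤ m') (G₀ : Γ → Prop) {m : ℝ}
    (hm : 3 * m + η + 9 * (η + ε₃ + 1 / m') < Pe r G₀) :
    ∃ (j : Fin 3) (s : Fin 3 → ℝ), m ≤ Pe r (fun w => G₀ w ∧ |φ (l w) j| = 1 ∧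
      PA ρ (φ (l w)) (ψ (z w)) ∧ kcode Y j s (φ (l w)) = kcode Y j s (ψ (z w))) := by
  classical
  have h0 := hr.nonneg
  have hY0 : (0 : ℝ) < 2 ^ Y := by positivity
  -- the grid
  have key : ∀ j i : Fin 3, ∃ s : ℝ, Pb r (fun w => |φ (l w) j| = 1 ∧ PA ρ (φ (l w)) (ψ (z w)) ∧
      ⌊2 ^ Y * (φ (l w) i / φ (l w) j) + s⌋ ≠ ⌊2 ^ Y * (ψ (z w) i / ψ (z w) j) + s⌋) ≤
        η + ε₃ + 1 / m' := by
    intro j i
    obtain ⟨Q, hQ⟩ : ∃ Q : Γ → Prop, Q = fun w => |φ (l w) j| = 1 ∧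
      PA ρ (φ (l w)) (ψ (z w)) := ⟨_, rfl⟩
    obtain ⟨a, -, ha⟩ := Pool.PR46.shift_eq hr
      (fun w => if Q w then 2 ^ Y * (φ (l w) i / φ (l w) j) else 0)
      (fun w => if Q w then 2 ^ Y * (ψ (z w) i / ψ (z w) j) else 0) (θ := ε₃) (η := η) hε (by
        refine le_trans (Pb_mono h0 fun w _ hw => ?_) h
        by_cases hQw : Q w
        · exfalso
          simp only [if_pos hQw] at hw
          rw [hQ] at hQw
          have g1 := piv_big (hφ _) (hψ _) hQw.2 hQw.1 hρ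
          have g2 := ratio_near hQw.2 one_pos (by norm_num : (0 : ℝ) < 1 / 2) hQw.1.ge g1 i
          have g3 : |φ (l w) i / φ (l w) j - ψ (z w) i / ψ (z w) j| ≤ 2 * ρ := by
            refine g2.trans (le_of_eq ?_)
            ring
          rw [← mul_sub, abs_mul, abs_of_pos hY0] at hw
          have := mul_le_mul_of_nonneg_left g3 hY0.le
          linarith
        · simp only [if_neg hQw, sub_zero, abs_zero] at hw
          linarith) m' hm'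
    refine ⟨(a : ℝ) / m', le_trans (Pb_mono h0 fun w _ hw => ?_) ha⟩
    have hQw : Q w := by
      rw [hQ]
      exact ⟨hw.1, hw.2.1⟩
    simp only [if_pos hQw]
    exact hw.2.2
  choose s hs using key
  by_contra hcon
  push Not at hcon
  have hc := fun j => hcon j (s j)
  -- the events
  obtain ⟨G, hG⟩ : ∃ G : Fin 3 → Γ → Prop, G = fun j w => G₀ w ∧ |φ (l w) j| = 1 ∧
      PA ρ (φ (l w)) (ψ (z w)) ∧ kcode Y j (s j) (φ (l w)) = kcode Y j (s j) (ψ (z w)) := ⟨_, rfl⟩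
  obtain ⟨M, hM⟩ : ∃ M : Fin 3 → Fin 3 → Γ → Prop, M = fun j i w => |φ (l w) j| = 1 ∧
      PA ρ (φ (l w)) (ψ (z w)) ∧ ⌊2 ^ Y * (φ (l w) i / φ (l w) j) + s j i⌋ ≠
        ⌊2 ^ Y * (ψ (z w) i / ψ (z w) j) + s j i⌋ := ⟨_, rfl⟩
  have hGm : ∀ j, Pb r (G j) < m := fun j => by
    rw [Pb_Pe, hG]
    exact hc j
  have hMm : ∀ j i, Pb r (M j i) ≤ η + ε₃ + 1 / m' := fun j i => by
    rw [hM]
    exact hs j i
  have hor : ∀ j, Pb r (fun w => G j w ∨ (M j 0 w ∨ (M j 1 w ∨ M j 2 w))) ≤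
      m + 3 * (η + ε₃ + 1 / m') := fun j => by
    have a1 := Pb_or h0 (G j) (fun w => M j 0 w ∨ (M j 1 w ∨ M j 2 w))
    have a2 := Pb_or h0 (M j 0) (fun w => M j 1 w ∨ M j 2 w)
    have a3 := Pb_or h0 (M j 1) (M j 2)
    have := hGm j
    have := hMm j 0
    have := hMm j 1
    have := hMm j 2
    linarith
  have hsub : Pb r G₀ ≤ η + (m + 3 * (η + ε₃ + 1 / m')) + (m + 3 * (η + ε₃ + 1 / m')) +
      (m + 3 * (η + ε₃ + 1 / m')) := by
    have b1 := Pb_or h0 (fun w => ¬ PA ρ (φ (l w)) (ψ (z w)))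
      (fun w => (G 0 w ∨ (M 0 0 w ∨ (M 0 1 w ∨ M 0 2 w))) ∨
        ((G 1 w ∨ (M 1 0 w ∨ (M 1 1 w ∨ M 1 2 w))) ∨
        (G 2 w ∨ (M 2 0 w ∨ (M 2 1 w ∨ M 2 2 w)))))
    have b2 := Pb_or h0 (fun w => G 0 w ∨ (M 0 0 w ∨ (M 0 1 w ∨ M 0 2 w)))
      (fun w => (G 1 w ∨ (M 1 0 w ∨ (M 1 1 w ∨ M 1 2 w))) ∨
        (G 2 w ∨ (M 2 0 w ∨ (M 2 1 w ∨ M 2 2 w))))
    have b3 := Pb_or h0 (fun w => G 1 w ∨ (M 1 0 w ∨ (M 1 1 w ∨ M 1 2 w)))
      (fun w => G 2 w ∨ (M 2 0 w ∨ (M 2 1 w ∨ M 2 2 w)))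
    have := hor 0
    have := hor 1
    have := hor 2
    refine le_trans (Pb_mono h0 (G' := fun w => ¬ PA ρ (φ (l w)) (ψ (z w)) ∨
      ((G 0 w ∨ (M 0 0 w ∨ (M 0 1 w ∨ M 0 2 w))) ∨
        ((G 1 w ∨ (M 1 0 w ∨ (M 1 1 w ∨ M 1 2 w))) ∨
        (G 2 w ∨ (M 2 0 w ∨ (M 2 1 w ∨ M 2 2 w)))))) fun w _ hw => ?_) (by linarith)
    by_cases hP : PA ρ (φ (l w)) (ψ (z w))
    · right
      obtain ⟨j, hj⟩ := (hφ (l w)).2
      have hall : G j w ∨ (M j 0 w ∨ (M j 1 w ∨ M j 2 w)) := by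
        by_contra hn
        push Not at hn
        obtain ⟨n1, n2, n3, n4⟩ := hn
        refine n1 ?_
        rw [hG]
        refine ⟨hw, hj, hP, ?_⟩
        have hi : ∀ i, ¬ M j i w := fun i => by fin_cases i; exacts [n2, n3, n4]
        funext i
        by_contra hne
        refine hi i ?_
        rw [hM]
        exact ⟨hj, hP, hne⟩
      fin_cases j
      · exact Or.inl hall
      · exact Or.inr (Or.inl hall)
      · exact Or.inr (Or.inr hall)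
    · exact Or.inl hP
  rw [Pb_Pe] at hsub
  have e9 : (9 : ℝ) * (η + ε₃ + 1 / m') = 3 * (η + ε₃ + 1 / m') + 3 * (η + ε₃ + 1 / m') +
    3 * (η + ε₃ + 1 / m') := by ring
  linarith

end Pool.DR24
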