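import Pool.Agent.H24.DR3.Sys
import Pool.Agent.H24.DR3.Cod

/-!
# DR3: two transversal copies: the closed normal

`NP`: the two bodies of a sample and of its copy are transversal. `PcOk.cas2`: if this event has a
constant mass, the normal of the two bodies is almost a function of the line and almost a function of
the height and the base.
-/

set_option autoImplicit false

namespace Pool.DR24

open Finset Real Matrix
open Pool.Agent.H49.Ent Pool.Agent.H32.Dense Pool.STK Pool.POT Pool.FAD Pool.SLO Pool.TQ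
open Pool.K2S (Pe)
open Pool.BFL (Pb)
open Pool.DIR21 (Pb_Pe Pb_mono Pb_or Pb_nonneg)

variable {Ω Λ τ B β ρ σ : Type} [Fintype Ω] {p : Ω → ℝ} {L : Ω → Λ} {th : Ω → τ}
  {b : Ω → B} {hgt nu : Ω → Fin 3 → ℤ} {S : Ω → ρ} {Wd : Ω → β} {Z : Ω → Fin 3 → ℤ} {Bs : Ω → σ}
  {X : ℕ} {C d : ℝ} {N : ℕ}

/-- The body of a tuple. -/
def bdy (th : Ω → τ) (A0 : (Fin N → τ) → Matrix (Fin 3) (Fin 3) ℝ) (v : Fin (N + 1) → Ω) :
    Matrix (Fin 3) (Fin 3) ℝ := A0 fun j => th (v j.succ)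

/-- **The two bodies are transversal.** -/
def NP (th : Ω → τ) (A0 : (Fin N → τ) → Matrix (Fin 3) (Fin 3) ℝ) (ρ₁ : ℝ)
    (W : Fin (1 + 1) → Fin (N + 1) → Ω) : Prop :=
  ρ₁ ≤ mx (cr (un (bdy th A0 (W 0))) (un (bdy th A0 (W 1))))

/-- The event of the long bodies. -/
def EB (A0 : (Fin N → τ) → Matrix (Fin 3) (Fin 3) ℝ) (κ : ℝ) (t : Fin N → τ) : Prop :=
  κ ≤ nb (A0 t)

/-- The deficit. -/
noncomputable def e2 (N : ℕ) (C d F₀ F₁ e₀ : ℝ) : ℝ :=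
  F₁ * (e1 3 N C d F₀ e₀ + (1 : ℕ) * (F₀ * ((N + 1) * d)) + |Pool.POT64.Cch 3 1 C| +
    |Cc 3 ((3 : ℕ) + 1)|)

/-- **The closed normal.** -/
theorem PcOk.cas2 (h : PcOk p L th b hgt nu S Wd Z Bs X C d) {F₀ F₁ κ ρ₁ : ℝ} (hF : 0 < F₀)
    (hF₁ : 0 < F₁) (hκ : 0 < κ) (hρ₁ : 0 < ρ₁)
    {A0 : (Fin N → τ) → Matrix (Fin 3) (Fin 3) ℝ}
    (hE : 1 / F₀ ≤ Pe (tup p L N) (evE th (EB A0 κ)))
    (hNP : 1 / F₁ ≤ Pe (cE p L th (EB A0 κ) Z Bs 1) (NP th A0 ρ₁))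
    {h₀ κ₁ δ η ϖ C' : ℝ} {X0 : ℕ} (hm : MNN 2 h₀ κ₁ δ (F₁ * F₀) η ϖ C' ((3 : ℕ) + 1) X0)
    (hX : X0 ≤ X) (hCC : C ≤ C') (hϖ : 0 < ϖ) {R : ℝ}
    (nf : ∀ G : Ω → Prop, ϖ ≤ Pe p G → 0 < Pe p G →
      CH (cond p G True) Z (fun ω => (Wd ω, S ω)) ≤ R)
    (hR : R + (3 : ℕ) * Real.log (2 * C + 1) + (2 * d + Real.log 2) / ϖ ≤
      ((2 : ℕ) + 1 - h₀) * X * Real.log 2 + η * X) (hC : 0 ≤ C)
    (hA : ∀ t, (A0 t).det ≠ 0)
    (hinv : ∀ t i j, |(A0 t)⁻¹ i j| ≤ 2 ^ X) {e₀ : ℝ}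
    (hbody : DF (tup p L N) (fun _ => Tx 3 X) (fun w => A0 fun j => th (w j.succ))
      (fun w => xv X (hgt (w 0)))
      (fun w => (b (w 0), (th (w 0), fun j : Fin N => th (w j.succ)))) ≤ e₀)
    (he : e2 N C d F₀ F₁ e₀ + F₁ * (((1 : ℕ) + 1) * (F₀ * ((N + 1) * d))) ≤ η * X) :
    ∃ (φ : Λ → Fin 3 → ℝ) (ψ : (Fin 3 → ℤ) × σ → Fin 3 → ℝ), (∀ x, U3 (φ x)) ∧
      (∀ x, U3 (ψ x)) ∧
      Pb (cond (cE p L th (EB A0 κ) Z Bs 1) (NP th A0 ρ₁) True) (fun W => ¬ PA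
        (2 * ((2 : ℝ) ^ (-(κ₁ * X)) / (κ * κ * κ)) / (ρ₁ * ρ₁))
        (nrm (bdy th A0 (W 0)) (bdy th A0 (W 1))) (φ (L (W 0 0)))) ≤ δ + δ ∧
      Pb (cond (cE p L th (EB A0 κ) Z Bs 1) (NP th A0 ρ₁) True) (fun W => ¬ PA
        (2 * ((2 : ℝ) ^ (-(κ₁ * X)) / (κ * κ * κ)) / (ρ₁ * ρ₁))
        (nrm (bdy th A0 (W 0)) (bdy th A0 (W 1))) (ψ (Z (W 0 0), Bs (W 0 0)))) ≤ δ + δ := by
  classical
  have hd0 := h.d0
  have hq := qE_law (E := EB A0 κ) h.law (lt_of_lt_of_le (by positivity) hE)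
  have hq0 := hq.nonneg
  have hc : IsLaw (cE p L th (EB A0 κ) Z Bs 1) :=
    tup_isLaw hq (fun v : Fin (N + 1) → Ω => (Z (v 0), Bs (v 0))) 1
  have hc0 := hc.nonneg
  have hP : 0 < Pe (cE p L th (EB A0 κ) Z Bs 1) (NP th A0 ρ₁) :=
    lt_of_lt_of_le (by positivity) hNP
  have hr : IsLaw (cond (cE p L th (EB A0 κ) Z Bs 1) (NP th A0 ρ₁) True) := cond_law hc0 hP
  have hpos : ∀ W, 0 < cond (cE p L th (EB A0 κ) Z Bs 1) (NP th A0 ρ₁) True W →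
      0 < cE p L th (EB A0 κ) Z Bs 1 W ∧ NP th A0 ρ₁ W := fun W hW => by
    have := (cond_pos_iff hc0 _ True W).1 hW
    exact ⟨this.1, of_eq_true this.2⟩
  have him : ∀ k : Fin (1 + 1), Im (cE p L th (EB A0 κ) Z Bs 1) (qE p L th (EB A0 κ))
      (fun W => W k) := fun k =>
    im_tup hq0 (fun v : Fin (N + 1) → Ω => (Z (v 0), Bs (v 0))) 1 k
  have hbig : ∀ W, 0 < cond (cE p L th (EB A0 κ) Z Bs 1) (NP th A0 ρ₁) True W →
      ∀ k : Fin (1 + 1), κ ≤ nb (bdy th A0 (W k)) := fun W hW k =>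
    (qE_pos h.law ((him k).pos hc0 (hpos W hW).1)).2
  have hF10 : 0 ≤ F₁ * (((1 : ℕ) + 1) * (F₀ * ((N + 1) * d))) := by positivity
  -- the deficits
  have z1 := h.z_df hF hE hA hinv hbody
  have zz : TsOk p Bs Z (cE p L th (EB A0 κ) Z Bs 1) (fun W => W 0 0)
      (fun W => (Z (W 0 0), Bs (W 0 0))) (fun W (j : Fin (1 + 1)) => dt Wd b th (W j)) F₀
      (((1 : ℕ) + 1) * (F₀ * ((N + 1) * d))) := (h.z_sys hF hE).tup 1
  have zd : ∀ k : Fin (1 + 1), DF (cE p L th (EB A0 κ) Z Bs 1) (fun _ => Tx 3 X)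
      (fun W => A0 fun j => th (W k j.succ)) (fun W => xv X (Z (W 0 0)))
      (fun W => (Bs (W 0 0), fun j : Fin (1 + 1) => dt Wd b th (W j))) ≤
      e1 3 N C d F₀ e₀ + (1 : ℕ) * (F₀ * ((N + 1) * d)) := fun k =>
    ts_df (h.z_sys (E := EB A0 κ) hF hE) (A := fun x => A0 x.2.2.2) z1 1 k
  have ld := fun k => h.l_df hF hE hA hinv hbody 1 k
  have hGz : Det (cE p L th (EB A0 κ) Z Bs 1) (fun W (j : Fin (1 + 1)) => dt Wd b th (W j))
      (NP th A0 ρ₁) := by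
    intro W W' _ _ e
    have e1 := congrFun e 0
    have e2 := congrFun e 1
    simp only [dt, Prod.mk.injEq] at e1 e2
    unfold NP bdy
    rw [e1.2.2.2, e2.2.2.2]
  have hGl : Det (cE p L th (EB A0 κ) Z Bs 1) (td th Bs Wd b) (NP th A0 ρ₁) := by
    intro W W' _ _ e
    simp only [td, Prod.mk.injEq] at e
    have e2 := congrFun e.2 0
    simp only [dt, Prod.mk.injEq] at e2
    unfold NP bdy
    have e3 : (fun j : Fin N => th (W 1 j.succ)) = fun j : Fin N => th (W' 1 j.succ) :=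
      e2.2.2.2
    rw [e.1.2, e3]
  have hinc : ∀ t, Inc ((3 : ℕ) + 1 : ℝ) (Tx 3 X) (A0 t) := fun t => inc_of_inv (hinv t)
  have hc4 : (0 : ℝ) ≤ (3 : ℕ) + 1 := by positivity
  -- the copies
  have kz := ts_nrm (zz.ev hGz hF₁ hNP) hm hX (fun k x => A0 (x k).2.2.2) (fun k x => hA _)
    (fun k x => hinc _) (e := e2 N C d F₀ F₁ e₀) (fun k => by
      refine (ts_df_ev zz hGz hF₁ hNP (A := fun x => A0 (x k).2.2.2) (fun x => hA _) hc4
        (fun x => hinc _) (zd k)).trans ?_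
      unfold e2
      refine mul_le_mul_of_nonneg_left (add_le_add ?_ le_rfl) hF₁.le
      have g0 : 0 ≤ e1 3 N C d F₀ e₀ + (1 : ℕ) * (F₀ * ((N + 1) * d)) := by
        unfold e1
        positivity
      rw [abs_of_nonneg g0]
      linarith [abs_nonneg (Pool.POT64.Cch 3 1 C)])
    (fun ω i => (h.Z_b ω i).trans (by gcongr))
    (fun G hG hG0 => by
      refine (h.nf_Z hϖ hG hG0 (nf G hG hG0)).trans (le_trans ?_ hR)
      have g1 : (d + Real.log 2) / ϖ ≤ (2 * d + Real.log 2) / ϖ :=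
        div_le_div_of_nonneg_right (by linarith) hϖ.le
      have g2 : 0 ≤ (3 : ℕ) * Real.log (2 * C + 1) := by
        have := Real.log_nonneg (show (1 : ℝ) ≤ 2 * C + 1 by linarith)
        positivity
      exact add_le_add (le_add_of_nonneg_right g2) g1) he hκ hρ₁
    (fun W hW k => hbig W hW k) (fun W hW => (hpos W hW).2)
  -- the line
  have kl := ts_nrm ((h.l_sys hF hE 1).ev hGl hF₁ hNP) hm hX (fun k x => bk A0 k x)
    (fun k x => bk_P (P := fun A => A.det ≠ 0) hA k x)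
    (fun k x => bk_P (P := fun A => Inc ((3 : ℕ) + 1 : ℝ) (Tx 3 X) A) hinc k x)
    (e := e2 N C d F₀ F₁ e₀) (fun k => by
      refine (ts_df_ev (h.l_sys hF hE 1) hGl hF₁ hNP (A := fun x => bk A0 k x)
        (fun x => bk_P (P := fun A => A.det ≠ 0) hA k x) hc4
        (fun x => bk_P (P := fun A => Inc ((3 : ℕ) + 1 : ℝ) (Tx 3 X) A) hinc k x)
        (n := fun W => nu (W 0 0)) (ld k)).trans ?_
      unfold e2
      refine mul_le_mul_of_nonneg_left (add_le_add ?_ le_rfl) hF₁.le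
      have g0 : 0 ≤ e1 3 N C d F₀ e₀ + (1 : ℕ) * (F₀ * ((N + 1) * d)) := by
        unfold e1
        positivity
      refine (abs_add_le _ _).trans (add_le_add ?_ le_rfl)
      rw [abs_of_nonneg g0])
    (fun ω i => (h.nu_b ω i).trans (by gcongr))
    (fun G hG hG0 => (h.nf_nu hϖ hG hG0 (nf G hG hG0)).trans hR) he hκ hρ₁
    (fun W hW k => by
      rw [bk_td]
      exact hbig W hW k) (fun W hW => by
      rw [bk_td, bk_td]
      exact (hpos W hW).2)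
  -- the choice
  obtain ⟨gz, -, gz2⟩ := sel1 hr (fun W => (Z (W 0 0), Bs (W 0 0)))
    (fun W W' => ¬ PA (2 * ((2 : ℝ) ^ (-(κ₁ * X)) / (κ * κ * κ)) / (ρ₁ * ρ₁))
      (nrm (bdy th A0 (W 0)) (bdy th A0 (W 1))) (nrm (bdy th A0 (W' 0)) (bdy th A0 (W' 1))))
  obtain ⟨gl, -, gl2⟩ := sel1 hr (fun W => L (W 0 0))
    (fun W W' => ¬ PA (2 * ((2 : ℝ) ^ (-(κ₁ * X)) / (κ * κ * κ)) / (ρ₁ * ρ₁))
      (nrm (bdy th A0 (W 0)) (bdy th A0 (W 1))) (nrm (bdy th A0 (W' 0)) (bdy th A0 (W' 1))))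
  refine ⟨fun x => nrm (bdy th A0 (gl x 0)) (bdy th A0 (gl x 1)),
    fun x => nrm (bdy th A0 (gz x 0)) (bdy th A0 (gz x 1)), fun x => nrm_u3 _ _,
    fun x => nrm_u3 _ _, gl2.trans ?_, gz2.trans kz⟩
  refine le_trans (le_of_eq ?_) kl
  simp only [bk_td]
  rfl

end Pool.DR24
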