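import Pool.Agent.H24.DR3.Vec3

/-!
# DR3: the columns of two bodies

`vc`: the largest vector product of a column of the first and a column of the second body. `nc`: the
normal. `dp_nc`: all columns of a third body are orthogonal to the normal. `PC`: all columns of a body
are almost parallel to a vector.
-/

set_option autoImplicit false

namespace Pool.DR24

open Finset Real Matrix
open Pool.SLO Pool.POT Pool.FAD

/-- The vector product of two columns. -/
def cc (A B : Matrix (Fin 3) (Fin 3) ℝ) (a b : Fin 3) : Fin 3 → ℝ :=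
  cr (fun i => A i a) (fun i => B i b)

theorem ex_cc (A B : Matrix (Fin 3) (Fin 3) ℝ) :
    ∃ z : Fin 3 × Fin 3, ∀ a b, mx (cc A B a b) ≤ mx (cc A B z.1 z.2) := by
  obtain ⟨z, -, h⟩ := Finset.exists_max_image univ
    (fun z : Fin 3 × Fin 3 => mx (cc A B z.1 z.2)) ⟨((0 : Fin 3), (0 : Fin 3)), Finset.mem_univ _⟩
  exact ⟨z, fun a b => h (a, b) (Finset.mem_univ _)⟩

/-- The two columns. -/
noncomputable def pc (A B : Matrix (Fin 3) (Fin 3) ℝ) : Fin 3 × Fin 3 :=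
  Classical.choose (ex_cc A B)

/-- The largest vector product of two columns. -/
noncomputable def vc (A B : Matrix (Fin 3) (Fin 3) ℝ) : Fin 3 → ℝ := cc A B (pc A B).1 (pc A B).2

/-- The normal. -/
noncomputable def nc (A B : Matrix (Fin 3) (Fin 3) ℝ) : Fin 3 → ℝ := nz (vc A B)

theorem le_vc (A B : Matrix (Fin 3) (Fin 3) ℝ) (a b : Fin 3) : mx (cc A B a b) ≤ mx (vc A B) :=
  Classical.choose_spec (ex_cc A B) a b

theorem nc_u3 (A B : Matrix (Fin 3) (Fin 3) ℝ) : U3 (nc A B) := nz_u3 _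

theorem dp_vc {A B D : Matrix (Fin 3) (Fin 3) ℝ} {ρ : ℝ} (h : ¬ RN ρ ![A, B, D]) (c : Fin 3) :
    |dp (vc A B) (fun i => D i c)| ≤ ρ := by
  have h1 : |dc ![A, B, D] ![(pc A B).1, (pc A B).2, c]| ≤ ρ := by
    by_contra hc
    exact h ⟨_, not_le.1 hc⟩
  rw [dc_three] at h1
  exact h1

/-- **The columns of the third body.** -/
theorem dp_nc {A B D : Matrix (Fin 3) (Fin 3) ℝ} {ρ ρ₁ : ℝ} (h0 : 0 < ρ₁)
    (hx : ρ₁ ≤ mx (vc A B)) (h : ¬ RN ρ ![A, B, D]) (c : Fin 3) :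
    |dp (nc A B) (fun i => D i c)| ≤ ρ / ρ₁ := by
  have h1 := dp_vc h c
  have hm : 0 < mx (vc A B) := h0.trans_le hx
  unfold nc
  rw [dp_nz hm, abs_div, abs_of_pos hm]
  exact div_le_div₀ ((abs_nonneg _).trans h1) h1 h0 hx

/-- Two pairs of vectors which are almost in one plane. -/
theorem nrm_parK {u v u' v' : Fin 3 → ℝ} {ρ₁ ρ₃ K : ℝ} (h1 : 0 < ρ₁) (hu' : ∀ i, |u' i| ≤ K)
    (hv' : ∀ i, |v' i| ≤ K) (hx : ρ₁ ≤ mx (cr u v)) (hx' : ρ₁ ≤ mx (cr u' v'))
    (hu : |dp (cr u v) u'| ≤ ρ₃) (hv : |dp (cr u v) v'| ≤ ρ₃) :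
    PA (2 * (K * ρ₃) / (ρ₁ * ρ₁)) (nz (cr u v)) (nz (cr u' v')) := by
  have hρ₃ : 0 ≤ ρ₃ := (abs_nonneg _).trans hu
  have hK : 0 ≤ K := (abs_nonneg _).trans (hu' 0)
  have p1 : 0 < mx (cr u v) := h1.trans_le hx
  have p2 : 0 < mx (cr u' v') := h1.trans_le hx'
  intro i
  rw [cr_nz p1 p2, abs_div, abs_of_pos (mul_pos p1 p2)]
  have k1 : |cr (cr u v) (cr u' v') i| ≤ 2 * (K * ρ₃) := by
    rw [cr_cr]
    refine (abs_sub _ _).trans ?_
    rw [abs_mul, abs_mul]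
    have e1 := mul_le_mul (hu' i) hv (abs_nonneg _) hK
    have e2 := mul_le_mul (hv' i) hu (abs_nonneg _) hK
    linarith
  exact div_le_div₀ (by positivity) k1 (by positivity) (mul_le_mul hx hx' h1.le p1.le)

/-- **The normals of two pairs of bodies.** -/
theorem nc_par {A B A' B' : Matrix (Fin 3) (Fin 3) ℝ} {ρ ρ₁ K : ℝ} (h0 : 0 < ρ₁)
    (hA : ∀ i a, |A' i a| ≤ K) (hB : ∀ i a, |B' i a| ≤ K) (hx : ρ₁ ≤ mx (vc A B))
    (hx' : ρ₁ ≤ mx (vc A' B')) (ha : ¬ RN ρ ![A, B, A']) (hb : ¬ RN ρ ![A, B, B']) :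
    PA (2 * (K * ρ) / (ρ₁ * ρ₁)) (nc A B) (nc A' B') := by
  have k1 := dp_vc ha (pc A' B').1
  have k2 := dp_vc hb (pc A' B').2
  obtain ⟨a, hae⟩ : ∃ a, a = pc A B := ⟨_, rfl⟩
  obtain ⟨a', hae'⟩ : ∃ a', a' = pc A' B' := ⟨_, rfl⟩
  have e1 : vc A B = cr (fun i => A i a.1) (fun i => B i a.2) := by rw [hae]; rfl
  have e2 : vc A' B' = cr (fun i => A' i a'.1) (fun i => B' i a'.2) := by rw [hae']; rfl
  rw [← hae'] at k1 k2
  unfold nc
  rw [e1] at hx k1 k2 ⊢
  rw [e2] at hx' ⊢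
  exact nrm_parK h0 (fun i => hA i a'.1) (fun i => hB i a'.2) hx hx' k1 k2

/-! ### Parallel columns -/

/-- All columns of the body are almost parallel to the vector. -/
def PC (ρ : ℝ) (A : Matrix (Fin 3) (Fin 3) ℝ) (e : Fin 3 → ℝ) : Prop :=
  ∀ a, PA ρ (fun i => A i a) e

theorem PC.mono {ρ ρ' : ℝ} {A : Matrix (Fin 3) (Fin 3) ℝ} {e : Fin 3 → ℝ} (h : PC ρ A e)
    (hr : ρ ≤ ρ') : PC ρ' A e := fun a => (h a).mono hr

/-- Bodies whose columns are not transversal. -/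
theorem pc_of_vc {A B : Matrix (Fin 3) (Fin 3) ℝ} {ρ κ : ℝ} (hκ : 0 < κ) (hB : κ ≤ nb B)
    (h : mx (vc A B) ≤ ρ) : PC (ρ / κ) A (un B) := by
  intro a i
  have b0 : 0 < nb B := hκ.trans_le hB
  have e1 : cr (fun i => A i a) (un B) i = cc A B a (lc B).2 i / nb B := by
    unfold cc cr un
    fin_cases i
    all_goals
      simp only [Fin.zero_eta, Fin.mk_one, Fin.reduceFinMk, Matrix.cons_val_zero,
        Matrix.cons_val_one, Matrix.cons_val]
      field_simp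
  have h1 : |cc A B a (lc B).2 i| ≤ ρ := (le_mx _ i).trans ((le_vc A B a _).trans h)
  rw [e1, abs_div, abs_of_pos b0]
  exact div_le_div₀ ((abs_nonneg _).trans h1) h1 hκ hB

/-- The long column. -/
theorem PC.un {A : Matrix (Fin 3) (Fin 3) ℝ} {e : Fin 3 → ℝ} {ρ κ : ℝ} (hκ : 0 < κ)
    (hA : κ ≤ nb A) (h : PC ρ A e) : PA (ρ / κ) (un A) e := by
  intro i
  have b0 : 0 < nb A := hκ.trans_le hA
  have e1 : cr (Pool.DR24.un A) e i = cr (fun i => A i (lc A).2) e i / nb A := by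
    unfold cr Pool.DR24.un
    fin_cases i
    all_goals
      simp only [Fin.zero_eta, Fin.mk_one, Fin.reduceFinMk, Matrix.cons_val_zero,
        Matrix.cons_val_one, Matrix.cons_val]
      field_simp
  have h1 := h (lc A).2 i
  rw [e1, abs_div, abs_of_pos b0]
  exact div_le_div₀ ((abs_nonneg _).trans h1) h1 hκ hA

/-- Another vector. -/
theorem PC.trans {A : Matrix (Fin 3) (Fin 3) ℝ} {e e' : Fin 3 → ℝ} {ρ ρ' K : ℝ}
    (hK : ∀ i a, |A i a| ≤ K) (he : U3 e) (he' : U3 e') (h : PC ρ A e) (h' : PA ρ' e e') :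
    PC (ρ + 4 * (K * ρ')) A e' := by
  obtain ⟨s, hs, h1⟩ := nsg3 he he' h'
  have hs1 : |s| = 1 := by rcases hs with rfl | rfl <;> simp
  have hss : s * s = 1 := by rcases hs with rfl | rfl <;> norm_num
  have hK0 : 0 ≤ K := (abs_nonneg _).trans (hK 0 0)
  have hρ' : 0 ≤ ρ' := (abs_nonneg _).trans (h' 0)
  intro a i
  obtain ⟨x, hx⟩ : ∃ x : Fin 3 → ℝ, x = fun i => A i a := ⟨_, rfl⟩
  have hxK : ∀ i, |x i| ≤ K := fun i => by rw [hx]; exact hK i a
  have h2 := h a i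
  rw [← hx] at h2 ⊢
  have h3 : ∀ j l, |x j * (e l - s * e' l) - x l * (e j - s * e' j)| ≤ 4 * (K * ρ') :=
    fun j l => by
      refine (abs_sub _ _).trans ?_
      rw [abs_mul, abs_mul]
      have g1 := mul_le_mul (hxK j) (h1 l) (abs_nonneg _) hK0
      have g2 := mul_le_mul (hxK l) (h1 j) (abs_nonneg _) hK0
      linarith
  have e1 : |cr x e' i| ≤ |cr x e i| + 4 * (K * ρ') := by
    have key : ∀ j l, |x j * e' l - x l * e' j| ≤ |x j * e l - x l * e j| + 4 * (K * ρ') :=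
      fun j l => by
        have e2 : |x j * e' l - x l * e' j| = |s * (x j * e' l - x l * e' j)| := by
          rw [abs_mul, hs1, one_mul]
        have e3 : s * (x j * e' l - x l * e' j) = (x j * e l - x l * e j) -
            (x j * (e l - s * e' l) - x l * (e j - s * e' j)) := by ring
        rw [e2, e3]
        refine (abs_sub _ _).trans ?_
        linarith [h3 j l]
    unfold cr
    fin_cases i
    · exact key 1 2
    · exact key 2 0
    · exact key 0 1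
  linarith

/-! ### The covector -/

/-- The covector which is orthogonal to a vector with pivot `j`. -/
def pp (j : Fin 3) (e : Fin 3 → ℝ) (i : Fin 3) : ℝ :=
  if i = j + 1 then 1 else if i = j then - e (j + 1) else 0

theorem j_ne (j : Fin 3) : j ≠ j + 1 := by fin_cases j <;> decide

theorem pp_one (j : Fin 3) (e : Fin 3 → ℝ) : pp j e (j + 1) = 1 := by
  unfold pp
  rw [if_pos rfl]

theorem pp_le {j : Fin 3} {e : Fin 3 → ℝ} (he : ∀ i, |e i| ≤ 1) (i : Fin 3) : |pp j e i| ≤ 1 := by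
  unfold pp
  split_ifs
  · rw [abs_one]
  · rw [abs_neg]
    exact he _
  · rw [abs_zero]
    exact zero_le_one

theorem dp_pp (j : Fin 3) (e x : Fin 3 → ℝ) : dp (pp j e) x = x (j + 1) - e (j + 1) * x j := by
  unfold dp pp
  fin_cases j
  · simp
    ring
  · simp
    ring
  · simp
    ring

theorem dp_sum (u v : Fin 3 → ℝ) : dp u v = ∑ i, u i * v i := by
  unfold dp
  rw [Fin.sum_univ_three]

/-- **The covector of a direction.** -/
theorem pp_small {A : Matrix (Fin 3) (Fin 3) ℝ} {e e' : Fin 3 → ℝ} {ρ ε K : ℝ}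
    (hK : ∀ i a, |A i a| ≤ K) {j : Fin 3} (hj : |e j| = 1) (h : PC ρ A e)
    (he' : |e (j + 1) / e j - e' (j + 1)| ≤ ε) (a : Fin 3) :
    |dp (pp j e') (fun i => A i a)| ≤ ρ + ε * K := by
  have hn : e j ≠ 0 := by
    intro h
    rw [h, abs_zero] at hj
    exact zero_ne_one hj
  have hε : 0 ≤ ε := (abs_nonneg _).trans he'
  rw [dp_pp]
  have h1 := two_ix e (fun i => A i a) (h a) j (j + 1)
  have e1 : A (j + 1) a - e' (j + 1) * A j a = (A (j + 1) a * e j - A j a * e (j + 1)) / e j +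
      (e (j + 1) / e j - e' (j + 1)) * A j a := by
    field_simp
    ring
  rw [e1]
  refine (abs_add_le _ _).trans (add_le_add ?_ ?_)
  · rw [abs_div, hj, div_one]
    exact h1
  · rw [abs_mul]
    exact mul_le_mul he' (hK _ _) (abs_nonneg _) hε

/-- **The covector of a normal.** -/
theorem kv_small {x e e' : Fin 3 → ℝ} {ρ ε K : ℝ} (hK : ∀ i, |x i| ≤ K) {j : Fin 3}
    (hj : |e j| = 1) (h : |dp e x| ≤ ρ) (he' : ∀ i, |e i / e j - e' i| ≤ ε) :
    |dp e' x| ≤ ρ + 3 * (ε * K) := by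
  have hn : e j ≠ 0 := by
    intro h
    rw [h, abs_zero] at hj
    exact zero_ne_one hj
  have hε : 0 ≤ ε := (abs_nonneg _).trans (he' 0)
  have e1 : dp e' x = dp e x / e j - ((e 0 / e j - e' 0) * x 0 + (e 1 / e j - e' 1) * x 1 +
      (e 2 / e j - e' 2) * x 2) := by
    unfold dp
    field_simp
    ring
  have g : ∀ i, |(e i / e j - e' i) * x i| ≤ ε * K := fun i => by
    rw [abs_mul]
    exact mul_le_mul (he' i) (hK i) (abs_nonneg _) hε
  rw [e1]
  refine (abs_sub _ _).trans ?_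
  rw [abs_div, hj, div_one]
  have g1 := abs_add_le ((e 0 / e j - e' 0) * x 0 + (e 1 / e j - e' 1) * x 1)
    ((e 2 / e j - e' 2) * x 2)
  have g2 := abs_add_le ((e 0 / e j - e' 0) * x 0) ((e 1 / e j - e' 1) * x 1)
  linarith [g 0, g 1, g 2]

end Pool.DR24
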