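import Pool.Agent.H24.DR3.Tw2
import Pool.Agent.H21.FS.Qh
import Pool.Agent.H21.BD.Fin

/-!
# DR3: the pictures of degree `n` with three coordinates

`D3H`: the hypotheses: the row of the height. `D3H.pc`: the hypotheses at the level of laws, where the
data `v` of the line belong to the context. `D3H.body`: the deficit of the bodies in this context.
-/

set_option autoImplicit false

namespace Pool.DR24

open Finset Real Matrix
open Pool.Agent.H49.Ent Pool.Agent.H32.Dense Pool.STK Pool.POT Pool.FAD Pool.SLO Pool.TQ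
open Pool.K2S (Pe)
open Pool.BFL (Pb)
open Pool.DIR21 (Pb_Pe Pb_mono Pb_or Pb_nonneg mi_tup)
open Pool.BD64 (QHd body_dcs)
open Pool.TT37 (dd)
open Pool.FS21 (okd_mi line_det okd_mono)

variable {k n : ℕ}

/-- **The hypotheses.** -/
structure D3H (H : QHd 3 k n) {ρ β σ : Type} (S : H.Ω → ρ) (Wd : H.Ω → β) (Z : H.Ω → Fin 3 → ℤ)
    (Bs : H.Ω → σ) (X : ℕ) (C d h ϖ : ℝ) : Prop where
  ok : H.OkNS X C d
  Z_b : ∀ ω i, |(Z ω i : ℝ)| ≤ C * 2 ^ X
  nu_b : ∀ ω i, |(H.nu ω i : ℝ)| ≤ C * 2 ^ X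
  rel : ∀ ω ω', 0 < H.p ω → 0 < H.p ω' → Wd ω = Wd ω' → H.th ω = H.th ω' → H.b ω = H.b ω' → ∀ i,
    |((Z ω i : ℝ) - Z ω' i) - ((H.hgt ω i : ℝ) - H.hgt ω' i)| ≤ C
  vd : CH H.p Wd (fun ω => (H.th ω, (H.v ω, H.b ω))) ≤ d
  SY : Det H.p (fun ω => (Wd ω, (H.th ω, H.b ω))) S
  BY : Det H.p (fun ω => (Wd ω, (H.th ω, H.b ω))) Bs
  few : MI H.p Z (fun ω => (Wd ω, (H.th ω, H.b ω))) Bs ≤ d
  nf : ∀ G : H.Ω → Prop, ϖ ≤ Pe H.p G → 0 < Pe H.p G →
    CH (cond H.p G True) Z (fun ω => (Wd ω, S ω)) ≤ (3 - h) * X * Real.log 2 + d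

theorem D3H.mono {H : QHd 3 k n} {ρ β σ : Type} {S : H.Ω → ρ} {Wd : H.Ω → β}
    {Z : H.Ω → Fin 3 → ℤ} {Bs : H.Ω → σ} {X : ℕ} {C d d' h ϖ : ℝ}
    (hH : D3H H S Wd Z Bs X C d h ϖ) (hd : d ≤ d') : D3H H S Wd Z Bs X C d' h ϖ :=
  { hH with
    ok := okd_mono hH.ok hd
    vd := hH.vd.trans hd
    few := hH.few.trans hd
    nf := fun G h1 h2 => (hH.nf G h1 h2).trans (by linarith) }

/-- The constant of the hypotheses at the level of laws. -/
noncomputable def dpc (C d : ℝ) : ℝ := 3 * d + 6 * Real.log (2 * C + 1)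

/-- The information of a variable about integer vectors which are near given the context. -/
theorem mi_vec {Ω α γ : Type} [Fintype Ω] {p : Ω → ℝ} (hp : IsLaw p) {c : ℕ}
    {Z Z' : Ω → Fin c → ℤ} (v : Ω → α) (W : Ω → γ) {C : ℝ}
    (h : ∀ ω ω', 0 < p ω → 0 < p ω' → W ω = W ω' → ∀ i,
      |((Z ω i : ℝ) - Z ω' i) - ((Z' ω i : ℝ) - Z' ω' i)| ≤ C) :
    MI p Z v W ≤ MI p Z' v W + 2 * (c * Real.log (2 * C + 1)) := by
  have h0 := hp.nonneg
  have k1 := CH_le_add h0 Z Z' W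
  have k2 : CH p Z (fun ω => (Z' ω, W ω)) ≤ c * Real.log (2 * C + 1) := by
    have := CH_le_vec h0 hp.sum_one Z (fun ω => (Z' ω, W ω)) (fun _ => C) (by
      intro ω ω' x y e i
      simp only [Prod.mk.injEq] at e
      have k := h ω ω' x y e.2 i
      rw [e.1, sub_self, sub_zero] at k
      push_cast
      exact k)
    rwa [Ex_const hp.sum_one] at this
  have k3 := CH_le_add h0 Z' Z (fun ω => (v ω, W ω))
  have k4 : CH p Z' (fun ω => (Z ω, (v ω, W ω))) ≤ c * Real.log (2 * C + 1) := by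
    have := CH_le_vec h0 hp.sum_one Z' (fun ω => (Z ω, (v ω, W ω))) (fun _ => C) (by
      intro ω ω' x y e i
      simp only [Prod.mk.injEq] at e
      have k := h ω ω' x y e.2.2 i
      rw [e.1, sub_self, zero_sub, abs_neg] at k
      push_cast
      exact k)
    rwa [Ex_const hp.sum_one] at this
  unfold MI
  linarith

/-- **The hypotheses at the level of laws.** -/
theorem D3H.pc {H : QHd 3 k n} {ρ β σ : Type} {S : H.Ω → ρ} {Wd : H.Ω → β}
    {Z : H.Ω → Fin 3 → ℤ} {Bs : H.Ω → σ} {X : ℕ} {C d h ϖ : ℝ} (hC : 0 ≤ C)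
    (hH : D3H H S Wd Z Bs X C d h ϖ) :
    PcOk H.p H.line H.th (fun ω => (H.v ω, H.b ω)) H.hgt H.nu S Wd Z Bs X C (dpc C d) := by
  have hl := hH.ok.law
  have h0 := hl.nonneg
  have hd0 : 0 ≤ d := (MI_nonneg h0 _ _ _).trans (okd_mi hH.ok)
  have hL : 0 ≤ Real.log (2 * C + 1) := Real.log_nonneg (by linarith)
  refine ⟨hl, fun ω ω' _ _ e => (Prod.ext_iff.mp e).2, fun ω ω' _ _ e => (Prod.ext_iff.mp e).1,
    ?_, ?_, hH.Z_b, hH.nu_b, ?_, ?_, ?_, ?_, ?_⟩
  · intro ω ω' _ _ e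
    simp only [Prod.mk.injEq] at e
    have e1 : H.hgt ω - H.nu ω = H.g (H.th ω) (H.v ω) := by
      unfold QHd.hgt
      abel
    have e2 : H.hgt ω' - H.nu ω' = H.g (H.th ω') (H.v ω') := by
      unfold QHd.hgt
      abel
    show H.hgt ω - H.nu ω = H.hgt ω' - H.nu ω'
    rw [e1, e2, e.1, e.2.1]
  · -- the line and the data at the time
    rw [MI_chain_left h0]
    have k1 : MI H.p H.th H.line (fun ω => (H.v ω, H.b ω)) ≤ d := by
      refine le_trans ?_ (okd_mi hH.ok)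
      exact MI_cond_right h0 fun ω ω' _ _ e =>
        (Prod.ext_iff.mp (Prod.ext_iff.mp (Prod.ext_iff.mp e).1).2).1
    have k2 : MI H.p Bs H.line (fun ω => (H.th ω, (H.v ω, H.b ω))) ≤ d := by
      refine (MI_le_CH h0 _ _ _).trans (le_trans ?_ hH.vd)
      refine CH_mono_left h0 ?_
      intro ω ω' x y e
      simp only [Prod.mk.injEq] at e
      exact hH.BY ω ω' x y (by
        simp only [Prod.mk.injEq]
        exact ⟨e.1, e.2.1, e.2.2.2⟩)
    unfold dpc
    linarith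
  · intro ω ω' x y e1 e2 e3 i
    exact hH.rel ω ω' x y e1 e2 (Prod.ext_iff.mp e3).2 i
  · refine le_trans ?_ (show d ≤ dpc C d by unfold dpc; linarith)
    rw [MI_symm h0]
    exact (MI_le_CH h0 _ _ _).trans hH.vd
  · intro ω ω' x y e
    simp only [Prod.mk.injEq] at e
    exact hH.SY ω ω' x y (by
      simp only [Prod.mk.injEq]
      exact ⟨e.1, e.2.1, e.2.2.2⟩)
  · intro ω ω' x y e
    simp only [Prod.mk.injEq] at e
    exact hH.BY ω ω' x y (by
      simp only [Prod.mk.injEq]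
      exact ⟨e.1, e.2.1, e.2.2.2⟩)
  · have k0 : MI H.p Z (fun ω => (Wd ω, (H.th ω, (H.v ω, H.b ω)))) Bs =
        MI H.p Z (fun ω => ((Wd ω, (H.th ω, H.b ω)), H.v ω)) Bs := by
      refine MI_congr h0 (fun _ _ _ _ e => e) (fun _ _ _ _ e => e) ?_ ?_ (fun _ _ _ _ e => e)
        (fun _ _ _ _ e => e)
      · intro ω ω' _ _ e
        simp only [Prod.mk.injEq] at e ⊢
        tauto
      · intro ω ω' _ _ e
        simp only [Prod.mk.injEq] at e ⊢
        tauto
    rw [k0, MI_chain h0]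
    have k1 := hH.few
    have k2 : MI H.p Z H.v (fun ω => ((Wd ω, (H.th ω, H.b ω)), Bs ω)) =
        MI H.p Z H.v (fun ω => (Wd ω, (H.th ω, H.b ω))) := by
      refine MI_congr h0 ?_ ?_ ?_ ?_ (fun ω ω' _ _ e => (Prod.ext_iff.mp e).1) ?_
      · intro ω ω' _ _ e
        simp only [Prod.mk.injEq] at e ⊢
        exact ⟨e.1, e.2.1⟩
      · intro ω ω' x y e
        simp only [Prod.mk.injEq] at e ⊢
        exact ⟨e.1, e.2, hH.BY ω ω' x y (by
          simp only [Prod.mk.injEq]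
          exact e.2)⟩
      · intro ω ω' _ _ e
        simp only [Prod.mk.injEq] at e ⊢
        exact ⟨e.1, e.2.1⟩
      · intro ω ω' x y e
        simp only [Prod.mk.injEq] at e ⊢
        exact ⟨e.1, e.2, hH.BY ω ω' x y (by
          simp only [Prod.mk.injEq]
          exact e.2)⟩
      · intro ω ω' x y e
        exact Prod.ext e (hH.BY ω ω' x y e)
    have k3 := mi_vec hl (Z := Z) (Z' := H.hgt) H.v (fun ω => (Wd ω, (H.th ω, H.b ω)))
      (C := C) (by
        intro ω ω' x y e i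
        simp only [Prod.mk.injEq] at e
        exact hH.rel ω ω' x y e.1 e.2.1 e.2.2 i)
    have k4 : MI H.p H.hgt H.v (fun ω => (Wd ω, (H.th ω, H.b ω))) ≤ 2 * d := by
      have a1 : MI H.p H.hgt H.v (fun ω => (Wd ω, (H.th ω, H.b ω))) ≤
          MI H.p H.hgt (fun ω => (H.v ω, Wd ω)) (fun ω => (H.th ω, H.b ω)) := by
        refine le_trans (MI_le_right h0 (X := fun ω => (H.v ω, Wd ω)) ?_) (MI_cond_right h0 ?_)
        · exact fun ω ω' _ _ e => (Prod.ext_iff.mp (Prod.ext_iff.mp e).1).1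
        · exact fun ω ω' _ _ e => (Prod.ext_iff.mp (Prod.ext_iff.mp e).1).2
      rw [MI_chain h0] at a1
      have a2 : MI H.p H.hgt H.v (fun ω => (H.th ω, H.b ω)) ≤ d := hH.ok.h2
      have a3 : MI H.p H.hgt Wd (fun ω => (H.v ω, (H.th ω, H.b ω))) ≤ d := by
        rw [MI_symm h0]
        refine (MI_le_CH h0 _ _ _).trans (le_trans (CH_mono_cond h0 ?_) hH.vd)
        intro ω ω' _ _ e
        simp only [Prod.mk.injEq] at e ⊢
        tauto
      linarith
    rw [k2]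
    push_cast at k3
    unfold dpc
    linarith

/-- **The deficit of the bodies.** -/
theorem D3H.body {H : QHd 3 k n} {ρ β σ : Type} {S : H.Ω → ρ} {Wd : H.Ω → β}
    {Z : H.Ω → Fin 3 → ℤ} {Bs : H.Ω → σ} {X : ℕ} {C d h ϖ : ℝ}
    (hH : D3H H S Wd Z Bs X C d h ϖ) {N : ℕ}
    {A0 : (Fin N → H.Tt) → Matrix (Fin 3) (Fin 3) ℝ} {e₀ : ℝ}
    (hb : DF (tup H.p H.line N) (fun _ => Tx 3 X) (fun w => A0 fun j => H.th (w j.succ))
      (fun w => xv X (H.hgt (w 0)))
      (fun w => (H.b (w 0), (H.th (w 0), fun j : Fin N => H.th (w j.succ)))) ≤ e₀) :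
    DF (tup H.p H.line N) (fun _ => Tx 3 X) (fun w => A0 fun j => H.th (w j.succ))
      (fun w => xv X (H.hgt (w 0)))
      (fun w => ((H.v (w 0), H.b (w 0)), (H.th (w 0), fun j : Fin N => H.th (w j.succ)))) ≤
      e₀ + (N + 1) * d := by
  have hl := hH.ok.law
  have ht0 := (tup_isLaw hl H.line N).nonneg
  have k1 := DF_more (c := 3) ht0 X (A := fun w => A0 fun j => H.th (w j.succ))
    (n := fun w => H.hgt (w 0))
    (Z := fun w => (H.b (w 0), (H.th (w 0), fun j : Fin N => H.th (w j.succ))))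
    (fun w => H.v (w 0)) (by
      intro w w' _ _ e
      simp only [Prod.mk.injEq] at e
      show A0 _ = A0 _
      rw [e.2.2])
  have k2 := mi_tup hl.nonneg (line_det H) (okd_mi hH.ok) H.hgt H.v N
  have k3 : MI H.p H.hgt H.v (fun ω => (H.th ω, H.b ω)) ≤ d := hH.ok.h2
  have k4 : DF (tup H.p H.line N) (fun _ => Tx 3 X) (fun w => A0 fun j => H.th (w j.succ))
      (fun w => xv X (H.hgt (w 0)))
      (fun w => ((H.v (w 0), H.b (w 0)), (H.th (w 0), fun j : Fin N => H.th (w j.succ)))) =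
      DF (tup H.p H.line N) (fun _ => Tx 3 X) (fun w => A0 fun j => H.th (w j.succ))
      (fun w => xv X (H.hgt (w 0)))
      (fun w => (H.v (w 0), (H.b (w 0), (H.th (w 0), fun j : Fin N => H.th (w j.succ))))) := by
    rw [DF_xv, DF_xv]
    congr 1
    refine CH_congr ht0 ?_ ?_ ?_ ?_
    all_goals
      intro w w' _ _ e
      simp only [Prod.mk.injEq] at e ⊢
      tauto
  rw [k4]
  linarith

end Pool.DR24
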