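import Pool.Agent.H24.DR3.Al3
import Pool.Agent.H24.DR3.D3
import Pool.Agent.H21.BD.Fin
import Pool.Agent.H21.FS.Pl

/-!
# DR3: the covector of a picture

`qh_cov`: a picture of degree `n` with three coordinates whose row is not full has a closed covector
which is almost orthogonal to the vectors of `n + 2` times.
-/

set_option autoImplicit false

namespace Pool.DR24

open Finset Real Matrix
open Pool.Agent.H49.Ent Pool.Agent.H32.Dense Pool.STK Pool.POT Pool.FAD Pool.SLO Pool.TQ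
open Pool.K2S (Pe)
open Pool.BFL (Pb)
open Pool.DIR21 (Pb_Pe Pb_mono Pb_or Pb_nonneg)
open Pool.BD64 (QHd body_dcs)
open Pool.TT37 (dd)
open Pool.FS21 (okd_mi line_det okd_mono ex_pow)

variable {k n : ℕ}

/-- The deficits. -/
theorem num_e3 {F₀ F₁ C e₀ d A Lc M : ℝ} {N : ℕ} (hF : 1 ≤ F₀) (hF₁ : 1 ≤ F₁) (he₀ : 0 ≤ e₀)
    (hd : 0 ≤ d) (hA : A = |Pool.POT64.Cch 3 1 C| + |Cc 3 ((3 : ℕ) + 1)|)
    (hLc : Lc = 6 * Real.log (2 * C + 1)) (hC : 0 ≤ C) (hM : M = (N : ℝ) + 1) :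
    e3 N C (dpc C d) F₀ F₁ (e₀ + M * d) +
      F₁ * (((2 : ℕ) + 1) * (F₀ * (M * dpc C d))) ≤
        F₁ * F₀ * (e₀ + 19 * (M * d) + 6 * (M * Lc) + 2 * A) := by
  have hN : (0 : ℝ) ≤ N := Nat.cast_nonneg N
  have hM0 : 0 ≤ M := by rw [hM]; linarith
  have hL : 0 ≤ Lc := by
    rw [hLc]
    have := Real.log_nonneg (show (1 : ℝ) ≤ 2 * C + 1 by linarith)
    positivity
  have hA0 : 0 ≤ A := by rw [hA]; positivity
  obtain ⟨D, hD⟩ : ∃ D : ℝ, D = M * d := ⟨_, rfl⟩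
  obtain ⟨E, hE⟩ : ∃ E : ℝ, E = M * Lc := ⟨_, rfl⟩
  have hD0 : 0 ≤ D := by rw [hD]; positivity
  have hE0 : 0 ≤ E := by rw [hE]; positivity
  have e3' : M * dpc C d = 3 * D + E := by
    unfold dpc
    rw [hD, hE, hLc]
    ring
  have hE1 : e1 3 N C (dpc C d) F₀ (e₀ + M * d) = F₀ * (e₀ + 4 * D + E + A) := by
    unfold e1
    rw [← hM, e3', ← hD, abs_of_nonneg (by positivity), hA]
    push_cast
    ring
  have hE3 : e3 N C (dpc C d) F₀ F₁ (e₀ + M * d) =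
      F₁ * (F₀ * (e₀ + 4 * D + E + A) + 2 * (F₀ * (3 * D + E)) + A) := by
    unfold e3
    rw [hE1, ← hM, e3', hA]
    push_cast
    ring
  rw [hE3, e3', ← hD, ← hE]
  have hF0 : 0 ≤ F₀ := by linarith
  have hF10 : 0 ≤ F₁ := by linarith
  have h1 : A ≤ F₀ * A := le_mul_of_one_le_left hA0 hF
  have h2 : F₁ * (F₀ * (e₀ + 4 * D + E + A) + 2 * (F₀ * (3 * D + E)) + A) ≤
      F₁ * (F₀ * (e₀ + 4 * D + E + A) + 2 * (F₀ * (3 * D + E)) + F₀ * A) :=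
    mul_le_mul_of_nonneg_left (by linarith) hF10
  have h3 : F₁ * (F₀ * (e₀ + 4 * D + E + A) + 2 * (F₀ * (3 * D + E)) + F₀ * A) +
      F₁ * (((2 : ℕ) + 1) * (F₀ * (3 * D + E))) =
      F₁ * F₀ * (e₀ + 19 * D + 6 * E + 2 * A) := by
    push_cast
    ring
  linarith

/-- The product of a covector with a vector in the body. -/
theorem cov_dd {A : Matrix (Fin 3) (Fin 3) ℝ} (hA : A.det ≠ 0) {v l : Fin 3 → ℝ} {K e : ℝ}
    (hv : ∀ b, |(A⁻¹ *ᵥ v) b| ≤ K) (h : ∀ a, |dp l (fun i => A i a)| ≤ e) :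
    |∑ i, l i * v i| ≤ 3 * K * e := by
  have hK : 0 ≤ K := (abs_nonneg _).trans (hv 0)
  have he : 0 ≤ e := (abs_nonneg _).trans (h 0)
  obtain ⟨x, hx⟩ : ∃ x : Fin 3 → ℝ, x = A⁻¹ *ᵥ v := ⟨_, rfl⟩
  have hAx : v = A *ᵥ x := by
    rw [hx, Matrix.mulVec_mulVec, Matrix.mul_nonsing_inv _ (isUnit_iff_ne_zero.2 hA),
      Matrix.one_mulVec]
  rw [← hx] at hv
  have e1 : ∑ i, l i * v i = dp l (fun i => A i 0) * x 0 + dp l (fun i => A i 1) * x 1 +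
      dp l (fun i => A i 2) * x 2 := by
    rw [hAx]
    unfold dp
    simp only [Matrix.mulVec, dotProduct, Fin.sum_univ_three]
    ring
  have g : ∀ a, |dp l (fun i => A i a) * x a| ≤ e * K := fun a => by
    rw [abs_mul]
    exact mul_le_mul (h a) (hv a) (abs_nonneg _) he
  rw [e1]
  have g1 := abs_add_le (dp l (fun i => A i 0) * x 0 + dp l (fun i => A i 1) * x 1)
    (dp l (fun i => A i 2) * x 2)
  have g2 := abs_add_le (dp l (fun i => A i 0) * x 0) (dp l (fun i => A i 1) * x 1)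
  linarith [g 0, g 1, g 2]

/-- The entries of a vector in the body. -/
theorem ent_dd {A : Matrix (Fin 3) (Fin 3) ℝ} (hA : A.det ≠ 0) {v : Fin 3 → ℝ} {K : ℝ}
    (hv : ∀ b, |(A⁻¹ *ᵥ v) b| ≤ K) (h : ∀ i a, |A i a| ≤ K) (i : Fin 3) :
    |v i| ≤ 3 * K * K := by
  have h1 := cov_dd hA (l := Pi.single i 1) hv (e := K) (fun a => by
    have e1 : dp (Pi.single i 1) (fun j => A j a) = A i a := by
      unfold dp
      fin_cases i <;> simp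
    rw [e1]
    exact h i a)
  have e2 : ∑ j, (Pi.single i 1 : Fin 3 → ℝ) j * v j = v i := by
    rw [Finset.sum_eq_single i]
    · simp
    · intro j _ hj
      simp [hj]
    · intro hi
      exact absurd (Finset.mem_univ i) hi
  rwa [e2] at h1

/-- The row. -/
theorem num_r3 {η ϖ io X h C Lc : ℝ} (hϖ : 0 < ϖ) (hη : 0 < η) (hX : 0 < X) (hC : 0 ≤ C)
    (hi3 : io ≤ η / 4) (hi4 : io ≤ η * ϖ / 24) (hLc : Lc = 6 * Real.log (2 * C + 1))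
    (hX4 : Lc + (2 * Lc + Real.log 2) / ϖ ≤ η / 4 * X) :
    (3 - h) * X * Real.log 2 + io * X + (3 : ℕ) * Real.log (2 * C + 1) +
      (2 * dpc C (io * X) + Real.log 2) / ϖ ≤ ((2 : ℕ) + 1 - h) * X * Real.log 2 + η * X := by
  have h1 : io * X ≤ η / 4 * X := mul_le_mul_of_nonneg_right hi3 hX.le
  have h2 : 6 * (io * X) / ϖ ≤ η / 4 * X := by
    rw [div_le_iff₀ hϖ]
    have := mul_le_mul_of_nonneg_right hi4 hX.le
    linarith
  have h3 : (2 * dpc C (io * X) + Real.log 2) / ϖ = 6 * (io * X) / ϖ +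
      (2 * Lc + Real.log 2) / ϖ := by
    unfold dpc
    rw [hLc]
    ring
  have h0 := Real.log_nonneg (show (1 : ℝ) ≤ 2 * C + 1 by linarith)
  have h4 : 3 * Real.log (2 * C + 1) ≤ Lc := by
    rw [hLc]
    linarith
  have h6 : 0 ≤ η * X := by positivity
  rw [h3]
  push_cast
  linarith

/-- The deficit of the bodies. -/
theorem num_d3 {η F io ib X M Lc A : ℝ} (hF : 0 < F) (hη : 0 < η) (hX : 0 < X) (hM : 0 < M)
    (hib : ib = η / (4 * F)) (hi2 : io ≤ η / (4 * F * (19 * M)))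
    (hX3 : F * (6 * (M * Lc) + 2 * A) ≤ η / 4 * X) :
    F * (ib * X + 19 * (M * (io * X)) + 6 * (M * Lc) + 2 * A) ≤ η * X := by
  have h1 : F * (ib * X) = η / 4 * X := by
    rw [hib]
    field_simp
  have h2 : F * (19 * (M * (io * X))) ≤ η / 4 * X := by
    have h5 : 0 < 4 * F * (19 * M) := by positivity
    rw [le_div_iff₀ h5] at hi2
    have := mul_le_mul_of_nonneg_right hi2 hX.le
    linarith
  have h3 : F * (ib * X + 19 * (M * (io * X)) + 6 * (M * Lc) + 2 * A) =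
      F * (ib * X) + F * (19 * (M * (io * X))) + F * (6 * (M * Lc) + 2 * A) := by ring
  rw [h3, h1]
  have h6 : 0 ≤ η * X := by positivity
  linarith

theorem le_of_one_aux {K : ℝ} (h : 1 ≤ K) : K ≤ 6 + 12 * K := by linarith

theorem one_le_aux {K : ℝ} (h : 1 ≤ K) : 1 ≤ 3 * K * (6 + 12 * K) := by nlinarith

/-- **The covector of a picture.** -/
theorem qh_cov (k n : ℕ) (hn : 1 ≤ n) {h Wt : ℝ} (hh : 0 < h) (hh1 : h ≤ 1) (hW : 1 ≤ Wt) :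
    ∃ io ϖ m₀ : ℝ, 0 < io ∧ 0 < ϖ ∧ 0 < m₀ ∧ ∀ C : ℝ, 1 ≤ C → ∃ (K : ℝ) (X0 : ℕ), 1 ≤ K ∧
    ∀ (H : QHd 3 k n) (ρ β σ' : Type) (S : H.Ω → ρ) (Wd : H.Ω → β) (Z : H.Ω → Fin 3 → ℤ)
      (Bs : H.Ω → σ') (X : ℕ), X0 ≤ X → D3H H S Wd Z Bs X C (io * X) h ϖ →
      ∃ (lam : (Fin 3 → ℤ) × (H.Vt × H.B) → Fin 3 → ℝ) (lamP : (Fin 3 → ℤ) × σ' → Fin 3 → ℝ)
        (G : H.Ω → Prop), (∀ x i, |lam x i| ≤ 1) ∧ (∀ x i, |lamP x i| ≤ 1) ∧
        (∀ x, (∃ j, lam x j = 1) ∨ lam x = fun _ => 0) ∧ m₀ ≤ Pe H.p G ∧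
        (∀ ω, G ω → ∃ j, lam (H.line ω) j = 1) ∧
        (∀ ω, G ω → lam (H.line ω) = lamP (Z ω, Bs ω)) ∧
        (∀ (v : Fin (n + 2) → H.Ω) u i, |dd n H.tau H.E u (fun j => H.th (v j)) i| ≤ K) ∧
        Wt * Pb (tup H.p H.line (n + 2)) (fun w => ∃ u, K * (2 : ℝ) ^ (-(h / 32 * X)) <
          |∑ i, lam (H.line (w 0)) i * dd n H.tau H.E u (fun j => H.th (w j.succ)) i|) ≤
            Pe H.p G := by
  classical
  have hL2 : 0 < Real.log 2 := Real.log_pos (by norm_num)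
  have hL1 : Real.log 2 ≤ 1 := by
    have := Real.log_two_lt_d9
    linarith
  have hn0 : (0 : ℝ) ≤ n := Nat.cast_nonneg n
  -- the masses
  obtain ⟨F₀, hF₀⟩ : ∃ F₀ : ℝ, F₀ = Wt := ⟨_, rfl⟩
  obtain ⟨ε₁, hε₁⟩ : ∃ ε₁ : ℝ, ε₁ = 1 / (6 * F₀ * Wt) := ⟨_, rfl⟩
  obtain ⟨δ₂, hδ₂⟩ : ∃ δ₂ : ℝ, δ₂ = ε₁ / (200 * F₀) := ⟨_, rfl⟩
  obtain ⟨δ₁, hδ₁⟩ : ∃ δ₁ : ℝ, δ₁ = δ₂ ^ 2 / 4 := ⟨_, rfl⟩
  obtain ⟨F₁, hF₁⟩ : ∃ F₁ : ℝ, F₁ = 1 / δ₁ := ⟨_, rfl⟩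
  obtain ⟨ε₂, hε₂⟩ : ∃ ε₂ : ℝ, ε₂ = 1 / (6 * (F₁ * F₀) * Wt) := ⟨_, rfl⟩
  obtain ⟨δ, hδ⟩ : ∃ δ : ℝ, δ = ε₂ / 1000 := ⟨_, rfl⟩
  have hWt0 : 0 < Wt := by linarith
  have hF01 : 1 ≤ F₀ := by rw [hF₀]; exact hW
  have hF00 : 0 < F₀ := by linarith
  have hε₁0 : 0 < ε₁ := by rw [hε₁]; positivity
  have hε₁1 : ε₁ ≤ 1 := by
    rw [hε₁, div_le_one (by positivity)]
    nlinarith
  have hδ₂0 : 0 < δ₂ := by rw [hδ₂]; positivity
  have hδ₂1 : δ₂ ≤ 1 := by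
    rw [hδ₂, div_le_one (by positivity)]
    linarith
  have hδ₁0 : 0 < δ₁ := by rw [hδ₁]; positivity
  have hδ₁1 : δ₁ ≤ 1 := by
    rw [hδ₁]
    nlinarith
  have hF10 : 0 < F₁ := by rw [hF₁]; positivity
  have hF11 : 1 ≤ F₁ := by
    rw [hF₁, le_div_iff₀ hδ₁0]
    linarith
  have hFF1 : 1 ≤ F₁ * F₀ := one_le_mul_of_one_le_of_one_le hF11 hF01
  have hFF0 : 0 < F₁ * F₀ := by linarith
  have hε₂0 : 0 < ε₂ := by rw [hε₂]; positivity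
  have hε₂1 : ε₂ ≤ 1 := by
    rw [hε₂, div_le_one (by positivity)]
    nlinarith
  have hδ0 : 0 < δ := by rw [hδ]; positivity
  have hδ1 : δ ≤ 1 := by rw [hδ]; linarith
  obtain ⟨κ₁, hκ₁⟩ : ∃ κ₁ : ℝ, κ₁ = 3 / 4 * h := ⟨_, rfl⟩
  obtain ⟨η, ϖ, hη0, hϖ0, hMN⟩ := massN_num (N := 2) (h := h) (κ₁ := κ₁) (δ := δ)
    (F₀ := F₁ * F₀) (by rw [hκ₁]; linarith) hh1 (by rw [hκ₁]; positivity) hδ0 hδ1 hFF1
  obtain ⟨M, hM⟩ : ∃ M : ℝ, M = ((n + 2 : ℕ) : ℝ) + 1 := ⟨_, rfl⟩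
  have hM1 : 1 ≤ M := by
    rw [hM]
    push_cast
    linarith
  obtain ⟨ib, hib⟩ : ∃ ib : ℝ, ib = η / (4 * (F₁ * F₀)) := ⟨_, rfl⟩
  have hib0 : 0 < ib := by rw [hib]; positivity
  obtain ⟨io1, hio1, hB⟩ := body_dcs 3 k n hn ib hib0
  obtain ⟨io, hio⟩ : ∃ io : ℝ, io = min (min io1 (η / (4 * (F₁ * F₀) * (19 * M))))
    (min (η / 4) (η * ϖ / 24)) := ⟨_, rfl⟩
  have hio0 : 0 < io := by
    rw [hio]
    exact lt_min (lt_min hio1 (by positivity)) (lt_min (by positivity) (by positivity))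
  have hi1 : io ≤ io1 := by rw [hio]; exact (min_le_left _ _).trans (min_le_left _ _)
  have hi2 : io ≤ η / (4 * (F₁ * F₀) * (19 * M)) := by
    rw [hio]
    exact (min_le_left _ _).trans (min_le_right _ _)
  have hi3 : io ≤ η / 4 := by rw [hio]; exact (min_le_right _ _).trans (min_le_left _ _)
  have hi4 : io ≤ η * ϖ / 24 := by rw [hio]; exact (min_le_right _ _).trans (min_le_right _ _)
  refine ⟨io, ϖ, 1 / 6 / (F₁ * F₀), hio0, hϖ0, by positivity, fun C hC => ?_⟩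
  have hC0 : 0 ≤ C := by linarith
  obtain ⟨K1, r, X1, hB⟩ := hB C hC
  obtain ⟨X2, hMN⟩ := hMN C ((3 : ℕ) + 1) hC (by positivity)
  obtain ⟨K2, hK2⟩ : ∃ K2 : ℝ, K2 = max K1 1 := ⟨_, rfl⟩
  have hK21 : 1 ≤ K2 := by rw [hK2]; exact le_max_right _ _
  have hK12 : K1 ≤ K2 := by rw [hK2]; exact le_max_left _ _
  obtain ⟨A, hA⟩ : ∃ A : ℝ, A = |Pool.POT64.Cch 3 1 C| + |Cc 3 ((3 : ℕ) + 1)| := ⟨_, rfl⟩
  obtain ⟨Lc, hLc⟩ : ∃ Lc : ℝ, Lc = 6 * Real.log (2 * C + 1) := ⟨_, rfl⟩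
  obtain ⟨X3, hX3⟩ := ex_lin (a := η / 4) (b := F₁ * F₀ * (6 * (M * Lc) + 2 * A)) (by positivity)
  obtain ⟨X4, hX4⟩ := ex_lin (a := η / 4) (b := Lc + (2 * Lc + Real.log 2) / ϖ) (by positivity)
  obtain ⟨X5, hX5⟩ := ex_pow (a := h / 32) (b := 100 * (16 + 32 * K2)) (by positivity)
  refine ⟨3 * K2 * (6 + 12 * K2), max (max X1 (max X2 X3)) (max X4 (max X5 1)),
    one_le_aux hK21, fun H ρ β σ' S Wd Z Bs X hX hH => ?_⟩
  obtain ⟨b1, b2⟩ := max_le_iff.1 hX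
  obtain ⟨b1, b3⟩ := max_le_iff.1 b1
  obtain ⟨b3, b4⟩ := max_le_iff.1 b3
  obtain ⟨b5, b6⟩ := max_le_iff.1 b2
  obtain ⟨b7, b8⟩ := max_le_iff.1 b6
  have hX1' : (1 : ℝ) ≤ X := by exact_mod_cast b8
  have hX0 : (0 : ℝ) < X := by linarith
  replace hX3 := hX3 X b4
  replace hX4 := hX4 X b5
  replace hX5 := hX5 X b7
  obtain ⟨A0, hA0, hA2, -, hbody⟩ := hB H X b1
    (okd_mono hH.ok (mul_le_mul_of_nonneg_right hi1 hX0.le))
  have hK : ∀ t i a, |A0 t i a| ≤ K2 := fun t i a => ((hA0 t).2.1 i a).trans hK12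
  have hd0 : 0 ≤ io * X := by positivity
  have hib0' : 0 ≤ ib * X := by positivity
  have hpc := hH.pc hC0
  have hbd := hH.body hbody
  -- the power
  obtain ⟨t, ht⟩ : ∃ t : ℝ, t = (2 : ℝ) ^ (-(h / 32 * X)) := ⟨_, rfl⟩
  have hhX : 0 < h / 32 * X := by positivity
  have t0 : 0 < t := by rw [ht]; positivity
  have t1 : t ≤ 1 := by
    rw [ht]
    exact Real.rpow_le_one_of_one_le_of_nonpos (by norm_num) (by linarith)
  have ht24 : (2 : ℝ) ^ (-(κ₁ * X)) = t ^ 24 := by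
    rw [ht, ← Real.rpow_natCast, ← Real.rpow_mul (by norm_num), hκ₁]
    congr 1
    push_cast
    ring
  have hs : (16 + 32 * K2) * t ≤ 1 / 100 := by
    have h1 : t * (2 : ℝ) ^ (h / 32 * X) = 1 := by
      rw [ht, ← Real.rpow_add (by norm_num)]
      norm_num
    have h2 := mul_le_mul_of_nonneg_left hX5 t0.le
    rw [h1] at h2
    linarith
  obtain ⟨Y, hY⟩ : ∃ Y : ℕ, Y = ⌊h / 16 * X⌋₊ := ⟨_, rfl⟩
  have hY1 : (Y : ℝ) ≤ h / 16 * X := by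
    rw [hY]
    exact Nat.floor_le (by positivity)
  have hY2 : h / 16 * X < Y + 1 := by
    rw [hY]
    exact Nat.lt_floor_add_one _
  have htt : t * t = (2 : ℝ) ^ (-(h / 16 * X)) := by
    rw [ht, ← Real.rpow_add (by norm_num)]
    congr 1
    ring
  have hY3 : 2 ^ Y * (t * t) ≤ 1 := by
    rw [htt, ← Real.rpow_natCast, ← Real.rpow_add (by norm_num)]
    exact Real.rpow_le_one_of_one_le_of_nonpos (by norm_num) (by linarith)
  have hY4 : 1 / 2 ^ Y ≤ 2 * (t * t) := by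
    rw [htt, div_le_iff₀ (by positivity)]
    have h1 : (1 : ℝ) ≤ (2 : ℝ) ^ ((Y : ℝ) + 1 - h / 16 * X) :=
      Real.one_le_rpow (by norm_num) (by linarith)
    refine h1.trans (le_of_eq ?_)
    rw [show (Y : ℝ) + 1 - h / 16 * X = 1 + (-(h / 16 * X)) + Y by ring,
      Real.rpow_add (by norm_num), Real.rpow_add (by norm_num), Real.rpow_one,
      Real.rpow_natCast]
  -- the row
  have hR : (3 - h) * X * Real.log 2 + io * X + (3 : ℕ) * Real.log (2 * C + 1) +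
      (2 * dpc C (io * X) + Real.log 2) / ϖ ≤
      ((2 : ℕ) + 1 - h) * X * Real.log 2 + η * X := by
    exact num_r3 hϖ0 hη0 hX0 hC0 hi3 hi4 hLc hX4
  have he : e3 (n + 1 + 1) C (dpc C (io * X)) F₀ F₁ (ib * X + M * (io * X)) +
      F₁ * (((2 : ℕ) + 1) * (F₀ * (M * dpc C (io * X)))) ≤ η * X :=
    (num_e3 (N := n + 1 + 1) hF01 hF11 hib0' hd0 hA hLc hC0 hM).trans
      (num_d3 hFF0 hη0 hX0 (zero_lt_one.trans_le hM1) hib hi2 hX3)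
  rw [hM] at he
  obtain ⟨m, hm, lam, lamP, G, g1, g2, g3, g4, g5, g6, g7⟩ := hpc.alt_all (a := n + 1) (A0 := A0)
    hW hF₀ hε₁ hδ₂ hδ₁ hF₁ hε₂ hδ hMN b3 hϖ0 hH.nf hR hC0 (fun t => (hA0 t).1) (K₁ := K2) hK hK21
    (fun t => (hA0 t).2.2) hbd he t0 t1 ht24 hY3 hY4 hs
  refine ⟨lam, lamP, G, g1, g2, g4, hm.trans g3, g5, g6, ?_, ?_⟩
  · intro v u i
    have h1 := ent_dd (hA0 fun j => H.th (v j)).1 (v := dd n H.tau H.E u fun j => H.th (v j))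
      (K := K2) (fun b => (hA2 v u b).trans hK12) (hK _) i
    refine h1.trans (mul_le_mul_of_nonneg_left ?_ (by positivity))
    exact le_of_one_aux hK21
  · refine (le_trans (mul_le_mul_of_nonneg_left ?_ hWt0.le) g7).trans g3
    refine Pb_mono (tup_isLaw hH.ok.law H.line (n + 2)).nonneg ?_
    rintro w - ⟨u, hu⟩
    by_contra hcon
    push Not at hcon
    have h1 := cov_dd (hA0 fun j => H.th (w j.succ)).1 (l := lam (H.line (w 0)))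
      (v := dd n H.tau H.E u fun j => H.th (w j.succ)) (K := K2)
      (e := (6 + 12 * K2) * t) (fun b => (hA2 (fun j => w j.succ) u b).trans hK12)
      (fun a => hcon a)
    rw [← ht] at hu
    refine absurd hu (not_lt.2 (h1.trans (le_of_eq ?_)))
    ring

end Pool.DR24
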