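import Pool.Agent.H24.DR3.Out

/-!
# DR3: the inequality in the two cases

`PcOk.end1`: parallel copies. `PcOk.end2`: transversal copies.
-/

set_option autoImplicit false

namespace Pool.DR24

open Finset Real Matrix
open Pool.Agent.H49.Ent Pool.Agent.H32.Dense Pool.STK Pool.POT Pool.FAD Pool.SLO Pool.TQ
open Pool.K2S (Pe)
open Pool.BFL (Pb)
open Pool.DIR21 (Pb_Pe Pb_mono Pb_or Pb_nonneg)
open Pool.DIR16 (Pe_cc Pe_le_one)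

theorem un_rat {A : Matrix (Fin 3) (Fin 3) ℝ} (h : 0 < nb A) (i j : Fin 3) :
    A i (lc A).2 / A j (lc A).2 = un A i / un A j := by
  unfold un
  rw [div_div_div_cancel_right₀ h.ne']

theorem un_low {A : Matrix (Fin 3) (Fin 3) ℝ} (h : 0 < nb A) (j : Fin 3) :
    |A j (lc A).2| = nb A * |un A j| := by
  unfold un
  rw [abs_div, abs_of_pos h]
  field_simp

theorem cr_col {A B : Matrix (Fin 3) (Fin 3) ℝ} (hA : 0 < nb A) (hB : 0 < nb B) (i : Fin 3) :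
    cr (fun i => A i (lc A).2) (fun i => B i (lc B).2) i = nb A * nb B * cr (un A) (un B) i := by
  unfold cr un
  fin_cases i
  all_goals
    simp only [Fin.zero_eta, Fin.mk_one, Fin.reduceFinMk, Matrix.cons_val_zero,
      Matrix.cons_val_one, Matrix.cons_val]
    field_simp

theorem cr_rat {A B : Matrix (Fin 3) (Fin 3) ℝ} (hA : 0 < nb A) (hB : 0 < nb B)
    (hx : 0 < mx (cr (un A) (un B))) (i j : Fin 3) :
    cr (fun i => A i (lc A).2) (fun i => B i (lc B).2) i /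
      cr (fun i => A i (lc A).2) (fun i => B i (lc B).2) j = nrm A B i / nrm A B j := by
  rw [cr_col hA hB, cr_col hA hB]
  unfold nrm
  rw [nz_val hx, nz_val hx, div_div_div_cancel_right₀ hx.ne',
    mul_div_mul_left _ _ (mul_pos hA hB).ne']

theorem cr_low {A B : Matrix (Fin 3) (Fin 3) ℝ} (hA : 0 < nb A) (hB : 0 < nb B)
    (hx : 0 < mx (cr (un A) (un B))) (j : Fin 3) :
    |cr (fun i => A i (lc A).2) (fun i => B i (lc B).2) j| =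
      nb A * nb B * (mx (cr (un A) (un B)) * |nrm A B j|) := by
  rw [cr_col hA hB, abs_mul, abs_of_pos (mul_pos hA hB)]
  unfold nrm
  rw [nz_val hx, abs_div, abs_of_pos hx]
  field_simp

variable {Ω Λ τ B β ρ σ : Type} [Fintype Ω] {p : Ω → ℝ} {L : Ω → Λ} {th : Ω → τ}
  {b : Ω → B} {hgt nu : Ω → Fin 3 → ℤ} {S : Ω → ρ} {Wd : Ω → β} {Z : Ω → Fin 3 → ℤ} {Bs : Ω → σ}
  {X : ℕ} {C d : ℝ}

/-- **Parallel copies.** -/
theorem PcOk.end1 (h : PcOk p L th b hgt nu S Wd Z Bs X C d) {a : ℕ} {F₀ κ ρ₁ δ₁ δ₂ ε₃ : ℝ}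
    (hF : 0 < F₀) (hκ : 0 < κ) (hδ₂ : 0 < δ₂)
    {A0 : (Fin (a + 1) → τ) → Matrix (Fin 3) (Fin 3) ℝ}
    (hE : 1 / F₀ ≤ Pe (tup p L (a + 1)) (evE th (EB A0 κ)))
    (hpar : Pb (cE p L th (EB A0 κ) Z Bs 1)
      (fun W => ¬ PA ρ₁ (un (bdy th A0 (W 0))) (un (bdy th A0 (W 1)))) ≤ δ₁)
    (hρ₁ : 0 ≤ ρ₁) (hρ : 8 * ρ₁ ≤ 1 / 32) (hε : 0 ≤ ε₃) (hε1 : ε₃ ≤ 1) {t : ℕ} (htX : t ≤ X)
    (hY : 2 ^ (X - t) * (16 * (8 * ρ₁)) ≤ ε₃) {m' : ℕ} (hm' : 1 ≤ m')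
    (hη : 48 * (F₀ * (δ₂ + (δ₁ + δ₁) / δ₂ + δ₁)) + 18 * ε₃ + 18 * (1 / m') < 1)
    (hA : ∀ t, (A0 t).det ≠ 0)
    (hinv : ∀ t i j, |(A0 t)⁻¹ i j| ≤ 2 ^ X) {e₀ : ℝ}
    (hbody : DF (tup p L (a + 1)) (fun _ => Tx 3 X) (fun w => A0 fun j => th (w j.succ))
      (fun w => xv X (hgt (w 0)))
      (fun w => (b (w 0), (th (w 0), fun j : Fin (a + 1) => th (w j.succ)))) ≤ e₀)
    {b₁ ϖ₁ ϖ₂ m₀ R₂ : ℝ} (hb₁ : 0 ≤ b₁) (hϖ₁ : 0 ≤ ϖ₁) (hm₀ : 0 ≤ m₀)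
    (hϖ₂ : ϖ₂ ≤ m₀ * (1 / (F₀ / (1 / 6))))
    (hFI : FI2 p L (fun ω => (Wd ω, S ω)) Z Bs t b₁ ϖ₂) (hC : 0 ≤ C) (hR₂ : 0 ≤ R₂)
    (hrow : ∀ G : Ω → Prop, ϖ₁ ≤ Pe p G → 0 < Pe p G →
      CH (cond p G True) (fun ω i => Z ω i / 2 ^ t) (fun ω => (Wd ω, S ω)) ≤ R₂) {K : ℕ}
    (hK : 0 < K) :
    (1 - F₀ / (1 / 6) * m₀) * b₁ + (((X : ℝ) - t) * Real.log 2 + Real.log (κ * (1 / 2))) ≤
      R₂ + (F₀ / (1 / 6) / K + F₀ / (1 / 6) * ϖ₁) * (3 * Real.log (4 * (C * 2 ^ X) + 1)) +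
        Real.log (K + 1) + (|e1 3 (a + 1) C d F₀ e₀| + Real.log 2 + |Cc 3 ((3 : ℕ) + 1)|) /
          (1 / 6) + Kk C ((3 : ℕ) + 1) 2 := by
  classical
  have hp := h.law
  have hE0 : 0 < Pe (tup p L (a + 1)) (evE th (EB A0 κ)) := lt_of_lt_of_le (by positivity) hE
  have htl := tup_isLaw hp L (a + 1)
  have hq := qE_law (E := EB A0 κ) hp hE0
  have hq0 := hq.nonneg
  have hqp : ∀ v : Fin (a + 1 + 1) → Ω, 0 < qE p L th (EB A0 κ) v → 0 < p (v 0) := fun v hv =>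
    (im_tup hp.nonneg L (a + 1) 0).pos htl.nonneg (qE_pos hp hv).1
  have hbig : ∀ v, 0 < qE p L th (EB A0 κ) v → κ ≤ nb (bdy th A0 v) := fun v hv =>
    (qE_pos hp hv).2
  obtain ⟨φ, ψ, hφ, hψ, k1, k2⟩ := dir_closed (Z := Z) (Bs := Bs) hp hκ hδ₂ hE0 hpar
  have hδ₁ : 0 ≤ δ₁ := (Pb_nonneg (tup_isLaw hq _ 1).nonneg _).trans hpar
  -- on the tuples with a long body
  have up : ∀ (G : (Fin (a + 1 + 1) → Ω) → Prop) (x : ℝ), Pb (tup p L (a + 1))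
      (fun w => EB A0 κ (fun j => th (w j.succ)) ∧ G w) ≤ x →
      Pb (qE p L th (EB A0 κ)) G ≤ F₀ * x := by
    intro G x hx0
    have hx : Pb (tup p L (a + 1)) (fun w => evE th (EB A0 κ) w ∧ G w) ≤ x := hx0
    rw [Pb_Pe, Pe_cc hE0] at hx
    have h2 : 0 ≤ Pe (qE p L th (EB A0 κ)) G := by
      rw [← Pb_Pe]
      exact Pb_nonneg hq0 G
    rw [Pb_Pe]
    have h3 : 1 ≤ F₀ * Pe (tup p L (a + 1)) (evE th (EB A0 κ)) := by
      have := mul_le_mul_of_nonneg_left hE hF.le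
      rwa [mul_one_div_cancel hF.ne'] at this
    calc Pe (qE p L th (EB A0 κ)) G ≤
          F₀ * Pe (tup p L (a + 1)) (evE th (EB A0 κ)) * Pe (qE p L th (EB A0 κ)) G :=
          le_mul_of_one_le_left h2 h3
      _ = F₀ * (Pe (tup p L (a + 1)) (evE th (EB A0 κ)) * Pe (qE p L th (EB A0 κ)) G) := by ring
      _ ≤ _ := mul_le_mul_of_nonneg_left hx hF.le
  have hη2 : 0 ≤ (δ₁ + δ₁) / δ₂ := by positivity
  have c1 : Pb (qE p L th (EB A0 κ)) (fun w => ¬ PA (8 * ρ₁) (un (bdy th A0 w)) (φ (L (w 0)))) ≤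
      F₀ * (δ₂ + (δ₁ + δ₁) / δ₂ + δ₁) :=
    (up _ _ k1).trans (mul_le_mul_of_nonneg_left (by linarith) hF.le)
  have c2 : Pb (qE p L th (EB A0 κ)) (fun w => ¬ PA (8 * ρ₁) (un (bdy th A0 w))
      (ψ (Z (w 0), Bs (w 0)))) ≤ F₀ * (δ₂ + (δ₁ + δ₁) / δ₂ + δ₁) := by
    refine (up _ _ (le_trans (Pb_mono htl.nonneg fun w _ hw => ⟨hw.1, fun hn => hw.2
      (hn.mono (by linarith))⟩) k2)).trans (mul_le_mul_of_nonneg_left (by linarith) hF.le)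
  obtain ⟨j, s, hG⟩ := codes2 hq (fun w => L (w 0)) (fun w => (Z (w 0), Bs (w 0)))
    (x := fun w => un (bdy th A0 w)) (fun w hw => un_u3 (hκ.trans_le (hbig w hw))) hφ hψ hρ hε
    c1 c2 (X - t) hY hm' hη
  obtain ⟨G, hGd⟩ : ∃ G : (Fin (a + 1 + 1) → Ω) → Prop, G = fun w => |φ (L (w 0)) j| = 1 ∧
    PA (8 * ρ₁) (un (bdy th A0 w)) (φ (L (w 0))) ∧ kcode (X - t) j s (φ (L (w 0))) =
      kcode (X - t) j s (ψ (Z (w 0), Bs (w 0))) := ⟨_, rfl⟩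
  rw [← hGd] at hG
  have hG0 : 0 < Pe (qE p L th (EB A0 κ)) G := lt_of_lt_of_le (by norm_num) hG
  obtain ⟨q, hqd⟩ : ∃ q, q = cond (qE p L th (EB A0 κ)) G True := ⟨_, rfl⟩
  have hql : IsLaw q := by rw [hqd]; exact cond_law hq0 hG0
  have hqq : ∀ w, 0 < q w → 0 < qE p L th (EB A0 κ) w ∧ G w := fun w hw => by
    rw [hqd] at hw
    have := (cond_pos_iff hq0 _ True w).1 hw
    exact ⟨this.1, of_eq_true this.2⟩
  have hY1 : 2 ^ (X - t) * (16 * (8 * ρ₁)) ≤ 1 := hY.trans hε1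
  have hdA : Det (qE p L th (EB A0 κ)) (fun v => (Bs (v 0), dt Wd b th v)) (bdy th A0) := by
    intro v v' _ _ e
    have e1 := (Prod.ext_iff.mp e).2
    simp only [dt, Prod.mk.injEq] at e1
    unfold bdy
    rw [e1.2.2.2]
  have hinc : ∀ t, Inc ((3 : ℕ) + 1 : ℝ) (Tx 3 X) (A0 t) := fun t => inc_of_inv (hinv t)
  have hDq := df_evg hq (n := fun v => Z (v 0)) hdA (fun v => hA _) (c₀ := (3 : ℕ) + 1)
    (by positivity) (fun v => hinc _) (h.z_df hF hE hA hinv hbody) (m := 1 / 6) (by norm_num) hG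
  rw [← hqd] at hDq
  have hb : ∀ w, 0 < q w → 1 / 2 ≤ |un (bdy th A0 w) j| := fun w hw => by
    obtain ⟨a1, a2⟩ := hqq w hw
    rw [hGd] at a2
    exact (rat_near (un_u3 (hκ.trans_le (hbig w a1))) (hφ _) hρ a2.2.1 a2.1 0).1
  refine key1 hp hql (f := fun v => v 0) (F := F₀ / (1 / 6)) (by positivity) ?_
    (ka := kval (X - t) j s) (k := fun ω => kcode (X - t) j s (φ (L ω)))
    (fun k i => kval_le _ _ _ _ _) j (A := bdy th A0)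
    (fun v => (Bs (v 0), dt Wd b th v)) ?_ ?_ (fun v => hA _) (c₀ := (3 : ℕ) + 1) (by norm_num)
    (fun v => hinc _) hDq (by positivity) ?_ (c1 := 2) (by norm_num) ?_ ?_
    (E := fun ω => kcode (X - t) j s (φ (L ω)) = kcode (X - t) j s (ψ (Z ω, Bs ω))) ?_ hm₀ hb₁
    ?_ hC hR₂ hϖ₁ h.Z_b hrow hK
  · intro ω
    rw [hqd]
    exact den_ev hq0 (h.z_sys hF hE).den (by norm_num) hG ω
  · exact fun v v' x y e => hdA v v' (hqq v x).1 (hqq v' y).1 e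
  · intro v v' x y e
    have e1 := (Prod.ext_iff.mp e).2
    simp only [dt, Prod.mk.injEq] at e1
    exact Prod.ext e1.1 (h.SY _ _ (hqp _ (hqq v x).1) (hqp _ (hqq v' y).1) (by
      simp only [Prod.mk.injEq]
      exact ⟨e1.1, e1.2.2.1, e1.2.1⟩))
  · intro w hw
    have n0 := hbig w (hqq w hw).1
    rw [un_low (hκ.trans_le n0)]
    exact mul_le_mul n0 (hb w hw) (by norm_num) (hκ.le.trans n0)
  · intro w hw i
    obtain ⟨a1, a2⟩ := hqq w hw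
    rw [hGd] at a2
    have n0 := hbig w a1
    rw [un_rat (hκ.trans_le n0)]
    exact cod_facts (un_u3 (hκ.trans_le n0)) (hφ _) hρ a2.2.1 a2.1 s htX hY1 i
  · intro w w' x y e i
    obtain ⟨a1, a2⟩ := hqq w x
    obtain ⟨b1, b2⟩ := hqq w' y
    rw [hGd] at a2 b2
    have e1 : bdy th A0 w = bdy th A0 w' := hdA w w' a1 b1 e
    rw [← e1] at b2
    exact cod_two (un_u3 (hκ.trans_le (hbig w a1))) (hφ _) (hφ _) hρ a2.2.1 b2.2.1 a2.1 b2.1 s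
      hY1 i
  · intro w hw
    obtain ⟨-, a2⟩ := hqq w hw
    rw [hGd] at a2
    exact a2.2.2
  · intro B' hB h1 h2
    exact hFI j (fun y => kcode (X - t) j s (φ y)) (fun y => kcode (X - t) j s (ψ y))
      (kval (X - t) j s) B' (fun k => kval_j _ _ _ _) (fun k i => kval_le _ _ _ _ _)
      (fun ω _ hω => hB ω hω) (hϖ₂.trans h1) h2

/-- **Transversal copies.** -/
theorem PcOk.end2 (h : PcOk p L th b hgt nu S Wd Z Bs X C d) {N : ℕ} {F₀ F₁ κ ρ₁ ε₃ : ℝ}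
    (hF : 0 < F₀) (hF₁ : 0 < F₁) (hκ : 0 < κ) (hρ₁ : 0 < ρ₁)
    {A0 : (Fin N → τ) → Matrix (Fin 3) (Fin 3) ℝ}
    (hE : 1 / F₀ ≤ Pe (tup p L N) (evE th (EB A0 κ)))
    (hNP : 1 / F₁ ≤ Pe (cE p L th (EB A0 κ) Z Bs 1) (NP th A0 ρ₁))
    {h₀ κ₁ δ η ϖ : ℝ} {X0 : ℕ} (hm : MNN 2 h₀ κ₁ δ (F₁ * F₀) η ϖ C ((3 : ℕ) + 1) X0)
    (hX : X0 ≤ X) (hϖ : 0 < ϖ) {R : ℝ}
    (nf : ∀ G : Ω → Prop, ϖ ≤ Pe p G → 0 < Pe p G →
      CH (cond p G True) Z (fun ω => (Wd ω, S ω)) ≤ R)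
    (hR : R + (3 : ℕ) * Real.log (2 * C + 1) + (2 * d + Real.log 2) / ϖ ≤
      ((2 : ℕ) + 1 - h₀) * X * Real.log 2 + η * X) (hC : 0 ≤ C)
    (hA : ∀ t, (A0 t).det ≠ 0)
    (hinv : ∀ t i j, |(A0 t)⁻¹ i j| ≤ 2 ^ X) {e₀ : ℝ}
    (hbody : DF (tup p L N) (fun _ => Tx 3 X) (fun w => A0 fun j => th (w j.succ))
      (fun w => xv X (hgt (w 0)))
      (fun w => (b (w 0), (th (w 0), fun j : Fin N => th (w j.succ)))) ≤ e₀)
    (he : e2 N C d F₀ F₁ e₀ + F₁ * (((1 : ℕ) + 1) * (F₀ * ((N + 1) * d))) ≤ η * X)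
    {ρ' : ℝ} (hρ' : 2 * ((2 : ℝ) ^ (-(κ₁ * X)) / (κ * κ * κ)) / (ρ₁ * ρ₁) ≤ ρ')
    (hρ : ρ' ≤ 1 / 32) (hε : 0 ≤ ε₃) (hε1 : ε₃ ≤ 1) {t : ℕ} (htX : t ≤ X)
    (hY : 2 ^ (X - t) * (16 * ρ') ≤ ε₃) {m' : ℕ} (hm' : 1 ≤ m')
    (hη : 48 * (δ + δ) + 18 * ε₃ + 18 * (1 / m') < 1)
    {b₁ ϖ₁ ϖ₂ m₀ R₂ : ℝ} (hb₁ : 0 ≤ b₁) (hϖ₁ : 0 ≤ ϖ₁) (hm₀ : 0 ≤ m₀)
    (hϖ₂ : ϖ₂ ≤ m₀ * (1 / (F₁ * F₀ / (1 / 6))))
    (hFI : FI1 p L (fun ω => (Wd ω, S ω)) Z Bs t b₁ ϖ₂) (hR₂ : 0 ≤ R₂)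
    (hrow : ∀ G : Ω → Prop, ϖ₁ ≤ Pe p G → 0 < Pe p G →
      CH (cond p G True) (fun ω i => Z ω i / 2 ^ t) (fun ω => (Wd ω, S ω)) ≤ R₂) {K : ℕ}
    (hK : 0 < K) :
    (1 - F₁ * F₀ / (1 / 6) * m₀) * b₁ + (2 * (((X : ℝ) - t) * Real.log 2) +
      Real.log (κ * κ * (ρ₁ * (1 / 2)))) ≤
      R₂ + (F₁ * F₀ / (1 / 6) / K + F₁ * F₀ / (1 / 6) * ϖ₁) *
        (3 * Real.log (4 * (C * 2 ^ X) + 1)) + Real.log (K + 1) +
        2 * ((|e2 N C d F₀ F₁ e₀| + Real.log 2 + |Cc 3 ((3 : ℕ) + 1)|) / (1 / 6)) +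
          Kk C ((3 : ℕ) + 1) 2 := by
  classical
  have hp := h.law
  have hd0 := h.d0
  have hq := qE_law (E := EB A0 κ) h.law (lt_of_lt_of_le (by positivity) hE)
  have hq0 := hq.nonneg
  have hc : IsLaw (cE p L th (EB A0 κ) Z Bs 1) :=
    tup_isLaw hq (fun v : Fin (N + 1) → Ω => (Z (v 0), Bs (v 0))) 1
  have hc0 := hc.nonneg
  have hP : 0 < Pe (cE p L th (EB A0 κ) Z Bs 1) (NP th A0 ρ₁) :=
    lt_of_lt_of_le (by positivity) hNP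
  obtain ⟨r, hrd⟩ : ∃ r, r = cond (cE p L th (EB A0 κ) Z Bs 1) (NP th A0 ρ₁) True := ⟨_, rfl⟩
  have hr : IsLaw r := by rw [hrd]; exact cond_law hc0 hP
  have hpos : ∀ W, 0 < r W → 0 < cE p L th (EB A0 κ) Z Bs 1 W ∧ NP th A0 ρ₁ W := fun W hW => by
    rw [hrd] at hW
    have := (cond_pos_iff hc0 _ True W).1 hW
    exact ⟨this.1, of_eq_true this.2⟩
  have him : ∀ k : Fin (1 + 1), Im (cE p L th (EB A0 κ) Z Bs 1) (qE p L th (EB A0 κ))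
      (fun W => W k) := fun k =>
    im_tup hq0 (fun v : Fin (N + 1) → Ω => (Z (v 0), Bs (v 0))) 1 k
  have hbig : ∀ W, 0 < r W → ∀ k : Fin (1 + 1), κ ≤ nb (bdy th A0 (W k)) := fun W hW k =>
    (qE_pos h.law ((him k).pos hc0 (hpos W hW).1)).2
  have hrp : ∀ W, 0 < r W → 0 < p (W 0 0) := fun W hW =>
    (im_tup hp.nonneg L N 0).pos (tup_isLaw hp L N).nonneg
      (qE_pos h.law ((him 0).pos hc0 (hpos W hW).1)).1
  obtain ⟨φ, ψ, hφ, hψ, k1, k2⟩ := h.cas2 hF hF₁ hκ hρ₁ hE hNP hm hX le_rfl hϖ nf hR hC hA hinv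
    hbody he
  rw [← hrd] at k1 k2
  have c1 : Pb r (fun W => ¬ PA ρ' (nrm (bdy th A0 (W 0)) (bdy th A0 (W 1)))
      (φ (L (W 0 0)))) ≤ δ + δ :=
    le_trans (Pb_mono hr.nonneg fun W _ hW (hn : PA _ _ _) => hW (hn.mono hρ')) k1
  have c2 : Pb r (fun W => ¬ PA ρ' (nrm (bdy th A0 (W 0)) (bdy th A0 (W 1)))
      (ψ (Z (W 0 0), Bs (W 0 0)))) ≤ δ + δ :=
    le_trans (Pb_mono hr.nonneg fun W _ hW (hn : PA _ _ _) => hW (hn.mono hρ')) k2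
  obtain ⟨j, s, hG⟩ := codes2 hr (fun W => L (W 0 0)) (fun W => (Z (W 0 0), Bs (W 0 0)))
    (x := fun W => nrm (bdy th A0 (W 0)) (bdy th A0 (W 1))) (fun W _ => nrm_u3 _ _) hφ hψ hρ hε
    c1 c2 (X - t) hY hm' hη
  obtain ⟨G, hGd⟩ : ∃ G : (Fin (1 + 1) → Fin (N + 1) → Ω) → Prop, G = fun W =>
    |φ (L (W 0 0)) j| = 1 ∧ PA ρ' (nrm (bdy th A0 (W 0)) (bdy th A0 (W 1))) (φ (L (W 0 0))) ∧
      kcode (X - t) j s (φ (L (W 0 0))) = kcode (X - t) j s (ψ (Z (W 0 0), Bs (W 0 0))) :=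
    ⟨_, rfl⟩
  rw [← hGd] at hG
  have hG0 : 0 < Pe r G := lt_of_lt_of_le (by norm_num) hG
  obtain ⟨q, hqd⟩ : ∃ q, q = cond r G True := ⟨_, rfl⟩
  have hql : IsLaw q := by rw [hqd]; exact cond_law hr.nonneg hG0
  have hqq : ∀ w, 0 < q w → 0 < r w ∧ G w := fun w hw => by
    rw [hqd] at hw
    have := (cond_pos_iff hr.nonneg _ True w).1 hw
    exact ⟨this.1, of_eq_true this.2⟩
  have hY1 : 2 ^ (X - t) * (16 * ρ') ≤ 1 := hY.trans hε1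
  have hinc : ∀ t, Inc ((3 : ℕ) + 1 : ℝ) (Tx 3 X) (A0 t) := fun t => inc_of_inv (hinv t)
  have hc4 : (0 : ℝ) ≤ (3 : ℕ) + 1 := by positivity
  -- the deficits
  have zz : TsOk p Bs Z (cE p L th (EB A0 κ) Z Bs 1) (fun W => W 0 0)
      (fun W => (Z (W 0 0), Bs (W 0 0))) (fun W (j : Fin (1 + 1)) => dt Wd b th (W j)) F₀
      (((1 : ℕ) + 1) * (F₀ * ((N + 1) * d))) := (h.z_sys hF hE).tup 1
  have zd : ∀ k : Fin (1 + 1), DF (cE p L th (EB A0 κ) Z Bs 1) (fun _ => Tx 3 X)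
      (fun W => A0 fun j => th (W k j.succ)) (fun W => xv X (Z (W 0 0)))
      (fun W => (Bs (W 0 0), fun j : Fin (1 + 1) => dt Wd b th (W j))) ≤
      e1 3 N C d F₀ e₀ + (1 : ℕ) * (F₀ * ((N + 1) * d)) := fun k =>
    ts_df (h.z_sys (E := EB A0 κ) hF hE) (A := fun x => A0 x.2.2.2)
      (h.z_df hF hE hA hinv hbody) 1 k
  have hGz : Det (cE p L th (EB A0 κ) Z Bs 1) (fun W (j : Fin (1 + 1)) => dt Wd b th (W j))
      (NP th A0 ρ₁) := by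
    intro W W' _ _ e
    have e1 := congrFun e 0
    have e2 := congrFun e 1
    simp only [dt, Prod.mk.injEq] at e1 e2
    unfold NP bdy
    rw [e1.2.2.2, e2.2.2.2]
  have hDr : ∀ k : Fin (1 + 1), DF r (fun _ => Tx 3 X) (fun W => bdy th A0 (W k))
      (fun W => xv X (Z (W 0 0))) (fun W => (Bs (W 0 0), fun j : Fin (1 + 1) =>
        dt Wd b th (W j))) ≤ e2 N C d F₀ F₁ e₀ := fun k => by
    rw [hrd]
    refine (ts_df_ev zz hGz hF₁ hNP (A := fun x => A0 (x k).2.2.2) (fun x => hA _) hc4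
      (fun x => hinc _) (zd k)).trans ?_
    unfold e2
    refine mul_le_mul_of_nonneg_left (add_le_add ?_ le_rfl) hF₁.le
    have g0 : 0 ≤ e1 3 N C d F₀ e₀ + (1 : ℕ) * (F₀ * ((N + 1) * d)) := by
      unfold e1
      positivity
    rw [abs_of_nonneg g0]
    linarith [abs_nonneg (Pool.POT64.Cch 3 1 C)]
  have hdA : ∀ k : Fin (1 + 1), Det r (fun W => (Bs (W 0 0), fun j : Fin (1 + 1) =>
      dt Wd b th (W j))) (fun W => bdy th A0 (W k)) := by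
    intro k W W' _ _ e
    have e1 := congrFun (Prod.ext_iff.mp e).2 k
    simp only [dt, Prod.mk.injEq] at e1
    unfold bdy
    simp only [e1.2.2.2]
  have hDq : ∀ k : Fin (1 + 1), DF q (fun _ => Tx 3 X) (fun W => bdy th A0 (W k))
      (fun W => xv X (Z (W 0 0))) (fun W => (Bs (W 0 0), fun j : Fin (1 + 1) =>
        dt Wd b th (W j))) ≤ (|e2 N C d F₀ F₁ e₀| + Real.log 2 + |Cc 3 ((3 : ℕ) + 1)|) /
          (1 / 6) := fun k => by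
    rw [hqd]
    exact df_evg hr (n := fun W => Z (W 0 0)) (hdA k) (fun W => hA _) (c₀ := (3 : ℕ) + 1)
      (by positivity) (fun W => hinc _) (hDr k) (by norm_num) hG
  have hnp : ∀ W, 0 < q W → ρ₁ ≤ mx (cr (un (bdy th A0 (W 0))) (un (bdy th A0 (W 1)))) :=
    fun W hW => (hpos W (hqq W hW).1).2
  have hb : ∀ W, 0 < q W → 1 / 2 ≤ |nrm (bdy th A0 (W 0)) (bdy th A0 (W 1)) j| := fun W hW => by
    obtain ⟨a1, a2⟩ := hqq W hW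
    rw [hGd] at a2
    exact (rat_near (nrm_u3 _ _) (hφ _) hρ a2.2.1 a2.1 0).1
  refine key2 hp hql (f := fun W => W 0 0) (F := F₁ * F₀ / (1 / 6)) (by positivity) ?_
    (ka := kval (X - t) j s) (k := fun ω => kcode (X - t) j s (φ (L ω)))
    (fun k i => kval_le _ _ _ _ _) j (A := fun W => bdy th A0 (W 0))
    (B := fun W => bdy th A0 (W 1))
    (fun W => (Bs (W 0 0), fun j : Fin (1 + 1) => dt Wd b th (W j))) ?_ ?_ ?_ (fun W => hA _)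
    (fun W => hA _) (c₀ := (3 : ℕ) + 1) (by norm_num) (fun W => hinc _) (fun W => hinc _)
    (hDq 0) (hDq 1) (by positivity) ?_ (c1 := 2) (by norm_num) ?_ ?_
    (E := fun ω => kcode (X - t) j s (φ (L ω)) = kcode (X - t) j s (ψ (Z ω, Bs ω))) ?_ hm₀ hb₁
    ?_ hC hR₂ hϖ₁ h.Z_b hrow hK
  · intro ω
    rw [hqd]
    refine den_ev hr.nonneg (fun ω => ?_) (by norm_num) hG ω
    rw [hrd]
    exact (zz.ev hGz hF₁ hNP).den ω
  · exact fun v v' x y e => hdA 0 v v' (hqq v x).1 (hqq v' y).1 e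
  · exact fun v v' x y e => hdA 1 v v' (hqq v x).1 (hqq v' y).1 e
  · intro v v' x y e
    have e1 := congrFun (Prod.ext_iff.mp e).2 0
    simp only [dt, Prod.mk.injEq] at e1
    exact Prod.ext e1.1 (h.SY _ _ (hrp _ (hqq v x).1) (hrp _ (hqq v' y).1) (by
      simp only [Prod.mk.injEq]
      exact ⟨e1.1, e1.2.2.1, e1.2.1⟩))
  · intro W hW
    have n0 := hbig W (hqq W hW).1 0
    have n1 := hbig W (hqq W hW).1 1
    rw [cr_low (hκ.trans_le n0) (hκ.trans_le n1) (hρ₁.trans_le (hnp W hW))]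
    refine mul_le_mul (mul_le_mul n0 n1 hκ.le (hκ.le.trans n0))
      (mul_le_mul (hnp W hW) (hb W hW) (by norm_num) (hρ₁.le.trans (hnp W hW)))
      (by positivity) (mul_nonneg (hκ.le.trans n0) (hκ.le.trans n1))
  · intro W hW i
    obtain ⟨a1, a2⟩ := hqq W hW
    rw [hGd] at a2
    have n0 := hbig W a1 0
    have n1 := hbig W a1 1
    rw [cr_rat (hκ.trans_le n0) (hκ.trans_le n1) (hρ₁.trans_le (hnp W hW))]
    exact cod_facts (nrm_u3 _ _) (hφ _) hρ a2.2.1 a2.1 s htX hY1 i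
  · intro w w' x y e i
    obtain ⟨a1, a2⟩ := hqq w x
    obtain ⟨b1, b2⟩ := hqq w' y
    rw [hGd] at a2 b2
    have e1 : bdy th A0 (w 0) = bdy th A0 (w' 0) := hdA 0 w w' a1 b1 e
    have e2 : bdy th A0 (w 1) = bdy th A0 (w' 1) := hdA 1 w w' a1 b1 e
    rw [← e1, ← e2] at b2
    exact cod_two (nrm_u3 _ _) (hφ _) (hφ _) hρ a2.2.1 b2.2.1 a2.1 b2.1 s hY1 i
  · intro w hw
    obtain ⟨-, a2⟩ := hqq w hw
    rw [hGd] at a2
    exact a2.2.2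
  · intro B' hB h1 h2
    exact hFI j (fun y => kcode (X - t) j s (φ y)) (fun y => kcode (X - t) j s (ψ y))
      (kval (X - t) j s) B' (fun k => kval_j _ _ _ _) (fun k i => kval_le _ _ _ _ _)
      (fun ω _ hω => hB ω hω) (hϖ₂.trans h1) h2

end Pool.DR24
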