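import Pool.Agent.H24.DR3.Ext
import Pool.Agent.H21.DIR.Trf

/-!
# DR3: the other samples of a line

`fib`: the mass of an event of the other samples, a function of the line. `tup_fib`, `own_le`: the sum
over the tuples. `qE_fib`, `cE_fib`: the tuples with an event, and the copies.
-/

set_option autoImplicit false

namespace Pool.DR24

open Finset Real Matrix
open Pool.Agent.H49.Ent Pool.Agent.H32.Dense Pool.STK Pool.POT Pool.FAD Pool.SLO Pool.TQ
open Pool.K2S (Pe)
open Pool.BFL (Pb)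
open Pool.DIR21 (Pb_Pe Pb_mono Pb_or Pb_nonneg Pb_ci ci ci0 ci1 ci_nonneg ci_mono cond_ci)

variable {Ω Λ : Type} [Fintype Ω] {p : Ω → ℝ} {L : Ω → Λ}

/-- The mass of an event of the other samples. -/
noncomputable def fib (p : Ω → ℝ) (L : Ω → Λ) {N : ℕ} (G : Λ → (Fin N → Ω) → Prop) (l : Λ) : ℝ :=
  ∑ v : Fin N → Ω, (∏ j, cond p L l (v j)) * ci (G l v)

theorem ci_le_one (P : Prop) : ci P ≤ 1 := by
  by_cases h : P
  · rw [ci1 h]
  · rw [ci0 h]
    exact zero_le_one

theorem fib_nonneg (hp : ∀ ω, 0 ≤ p ω) {N : ℕ} (G : Λ → (Fin N → Ω) → Prop) (l : Λ) :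
    0 ≤ fib p L G l :=
  Finset.sum_nonneg fun _ _ => mul_nonneg
    (Finset.prod_nonneg fun _ _ => cond_nonneg hp _ _ _) (ci_nonneg _)

theorem fib_le_one (hp : ∀ ω, 0 ≤ p ω) {N : ℕ} (G : Λ → (Fin N → Ω) → Prop) (l : Λ) :
    fib p L G l ≤ 1 := by
  classical
  have h1 : fib p L G l ≤ ∑ v : Fin N → Ω, ∏ j, cond p L l (v j) :=
    Finset.sum_le_sum fun v _ => mul_le_of_le_one_right
      (Finset.prod_nonneg fun _ _ => cond_nonneg hp _ _ _) (ci_le_one _)
  have h2 : ∑ v : Fin N → Ω, ∏ j, cond p L l (v j) = (∑ ω, cond p L l ω) ^ N := by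
    rw [← Fintype.piFinset_univ]
    have := Finset.prod_univ_sum (fun _ : Fin N => (univ : Finset Ω))
      (fun _ ω => cond p L l ω)
    rw [← this, Finset.prod_const, Finset.card_univ, Fintype.card_fin]
  rw [h2] at h1
  refine h1.trans (pow_le_one₀ (Finset.sum_nonneg fun _ _ => cond_nonneg hp _ _ _) ?_)
  by_cases h3 : law p L l = 0
  · have : ∑ ω, cond p L l ω = 0 := Finset.sum_eq_zero fun ω _ => by
      unfold Pool.Agent.H49.Ent.cond
      rw [h3, div_zero, ite_self]
    rw [this]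
    exact zero_le_one
  · rw [sum_cond p L h3]

/-- **The sum over the tuples.** -/
theorem tup_fib {N : ℕ} (f : Ω → ℝ) (G : Λ → (Fin N → Ω) → Prop) :
    ∑ w, tup p L N w * (f (w 0) * ci (G (L (w 0)) fun j => w j.succ)) =
      ∑ ω, p ω * (f ω * fib p L G (L ω)) := by
  classical
  rw [← (Fin.consEquiv (fun _ : Fin (N + 1) => Ω)).sum_comp, Fintype.sum_prod_type]
  refine Finset.sum_congr rfl fun ω _ => ?_
  unfold fib
  rw [Finset.mul_sum, Finset.mul_sum]
  refine Finset.sum_congr rfl fun v _ => ?_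
  have e1 : (Fin.consEquiv (fun _ : Fin (N + 1) => Ω)) (ω, v) = Fin.cons ω v := rfl
  rw [e1]
  unfold Pool.SLO.tup
  simp only [Fin.cons_zero, Fin.cons_succ]
  ring

/-- **An event of the other samples under the weight of another event.** -/
theorem own_le (hp : ∀ ω, 0 ≤ p ω) {N : ℕ} {f : Ω → ℝ} (hf : ∀ ω, 0 ≤ f ω)
    (G E' : Λ → (Fin N → Ω) → Prop) :
    ∑ w, tup p L N w * (f (w 0) * ci (E' (L (w 0)) fun j => w j.succ)) *
        fib p L G (L (w 0)) ≤
      ∑ w, tup p L N w * (f (w 0) * ci (G (L (w 0)) fun j => w j.succ)) := by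
  have e1 : ∑ w, tup p L N w * (f (w 0) * ci (E' (L (w 0)) fun j => w j.succ)) *
      fib p L G (L (w 0)) = ∑ w, tup p L N w * ((f (w 0) * fib p L G (L (w 0))) *
        ci (E' (L (w 0)) fun j => w j.succ)) :=
    Finset.sum_congr rfl fun w _ => by ring
  rw [e1, tup_fib (fun ω => f ω * fib p L G (L ω)) E', tup_fib f G]
  refine Finset.sum_le_sum fun ω _ => ?_
  refine mul_le_mul_of_nonneg_left ?_ (hp ω)
  exact mul_le_of_le_one_right (mul_nonneg (hf ω) (fib_nonneg hp G _)) (fib_le_one hp E' _)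

theorem ci_mul_of {P Q : Prop} (h : P → Q) : ci Q * ci P = ci P := by
  by_cases hP : P
  · rw [ci1 hP, ci1 (h hP), mul_one]
  · rw [ci0 hP, mul_zero]

section ext

variable {τ σ : Type} {th : Ω → τ} {N : ℕ}

/-- **The tuples with an event of the times.** -/
theorem qE_own (hp : IsLaw p) {E : (Fin N → τ) → Prop} (hE : 0 < Pe (tup p L N) (evE th E))
    {f : Ω → ℝ} (hf : ∀ ω, 0 ≤ f ω) (G : Λ → (Fin N → Ω) → Prop)
    (hGE : ∀ l v, G l v → E fun j => th (v j)) :
    ∑ w, qE p L th E w * (f (w 0) * fib p L G (L (w 0))) ≤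
      ∑ w, qE p L th E w * (f (w 0) * ci (G (L (w 0)) fun j => w j.succ)) := by
  have h1 := own_le (p := p) (L := L) hp.nonneg hf G (fun _ v => E fun j => th (v j))
  have e1 : ∀ F : (Fin (N + 1) → Ω) → ℝ, ∑ w, qE p L th E w * F w =
      (∑ w, tup p L N w * (ci (evE th E w) * F w)) / Pe (tup p L N) (evE th E) := fun F => by
    rw [Finset.sum_div]
    refine Finset.sum_congr rfl fun w _ => ?_
    unfold qE
    rw [cond_ci]
    ring
  rw [e1, e1]
  refine div_le_div_of_nonneg_right ?_ hE.le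
  calc ∑ w, tup p L N w * (ci (evE th E w) * (f (w 0) * fib p L G (L (w 0)))) =
        ∑ w, tup p L N w * (f (w 0) * ci ((fun _ v => E fun j => th (v j) : Λ → (Fin N → Ω) →
          Prop) (L (w 0)) fun j => w j.succ)) * fib p L G (L (w 0)) := by
        refine Finset.sum_congr rfl fun w _ => ?_
        show tup p L N w * (ci (E fun j => th (w j.succ)) * (f (w 0) * fib p L G (L (w 0)))) =
          tup p L N w * (f (w 0) * ci (E fun j => th (w j.succ))) * fib p L G (L (w 0))
        ring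
    _ ≤ _ := h1
    _ = _ := by
        refine Finset.sum_congr rfl fun w _ => ?_
        have h2 := ci_mul_of (P := G (L (w 0)) fun j => w j.succ) (Q := evE th E w)
          (fun h => hGE _ _ h)
        calc tup p L N w * (f (w 0) * ci (G (L (w 0)) fun j => w j.succ)) =
              tup p L N w * (f (w 0) * (ci (evE th E w) *
                ci (G (L (w 0)) fun j => w j.succ))) := by rw [h2]
          _ = _ := by ring

/-- The tuples with an event of the times, as events. -/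
theorem qE_own' (hp : IsLaw p) {E : (Fin N → τ) → Prop} (hE : 0 < Pe (tup p L N) (evE th E))
    (G : Λ → (Fin N → Ω) → Prop) (hGE : ∀ l v, G l v → E fun j => th (v j)) :
    ∑ w, qE p L th E w * fib p L G (L (w 0)) ≤
      Pb (qE p L th E) (fun w => G (L (w 0)) fun j => w j.succ) := by
  have h1 := qE_own (f := fun _ => 1) hp hE (fun _ => zero_le_one) G hGE
  simp only [one_mul] at h1
  rw [Pb_ci]
  exact h1

/-- **The copies.** -/
theorem cE_own {c : ℕ} (hp : IsLaw p) {E : (Fin N → τ) → Prop}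
    (hE : 0 < Pe (tup p L N) (evE th E)) {Z : Ω → Fin c → ℤ} {Bs : Ω → σ} {K : ℕ}
    (G₂ : (Fin K → Fin (N + 1) → Ω) → Prop)
    (hP : 0 < Pe (cE p L th E Z Bs K) (fun W => G₂ fun j => W j.succ))
    (G : Λ → (Fin N → Ω) → Prop) (hGE : ∀ l v, G l v → E fun j => th (v j)) :
    ∑ W, cond (cE p L th E Z Bs K) (fun W => G₂ fun j => W j.succ) True W *
        fib p L G (L (W 0 0)) ≤
      Pb (cond (cE p L th E Z Bs K) (fun W => G₂ fun j => W j.succ) True)
        (fun W => G (L (W 0 0)) fun j => W 0 j.succ) := by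
  classical
  have hq := qE_law (E := E) hp hE
  obtain ⟨q, hqd⟩ : ∃ q, q = qE p L th E := ⟨_, rfl⟩
  obtain ⟨ζ, hζ⟩ : ∃ ζ : (Fin (N + 1) → Ω) → (Fin c → ℤ) × σ, ζ = fun v => (Z (v 0), Bs (v 0)) :=
    ⟨_, rfl⟩
  have hcE : cE p L th E Z Bs K = tup q ζ K := by rw [hqd, hζ]; rfl
  have e1 : ∀ F : (Fin (N + 1) → Ω) → ℝ, ∑ W, cond (cE p L th E Z Bs K)
      (fun W => G₂ fun j => W j.succ) True W * F (W 0) =
      (∑ v, q v * (F v * fib q ζ (fun _ => G₂) (ζ v))) /
        Pe (cE p L th E Z Bs K) (fun W => G₂ fun j => W j.succ) := fun F => by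
    rw [← tup_fib (p := q) (L := ζ) F (fun _ => G₂), Finset.sum_div]
    refine Finset.sum_congr rfl fun W _ => ?_
    rw [cond_ci, hcE]
    ring
  have e2 : Pb (cond (cE p L th E Z Bs K) (fun W => G₂ fun j => W j.succ) True)
      (fun W => G (L (W 0 0)) fun j => W 0 j.succ) =
      ∑ W, cond (cE p L th E Z Bs K) (fun W => G₂ fun j => W j.succ) True W *
        (fun v : Fin (N + 1) → Ω => ci (G (L (v 0)) fun j => v j.succ)) (W 0) := Pb_ci _ _
  rw [e2, e1 (fun v => ci (G (L (v 0)) fun j => v j.succ)), e1 (fun v => fib p L G (L (v 0)))]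
  refine div_le_div_of_nonneg_right ?_ hP.le
  have h1 := qE_own (f := fun ω => fib q ζ (fun _ => G₂) (Z ω, Bs ω)) hp hE
    (fun ω => fib_nonneg (by rw [hqd]; exact hq.nonneg) _ _) G hGE
  have e3 : ∀ v : Fin (N + 1) → Ω, ζ v = (Z (v 0), Bs (v 0)) := fun v => by rw [hζ]
  rw [← hqd] at h1
  calc _ = ∑ w, q w * (fib q ζ (fun _ => G₂) (Z (w 0), Bs (w 0)) * fib p L G (L (w 0))) := by
        refine Finset.sum_congr rfl fun v _ => ?_
        rw [e3]
        ring
    _ ≤ _ := h1
    _ = _ := by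
        refine Finset.sum_congr rfl fun v _ => ?_
        rw [e3]
        ring

end ext

end Pool.DR24
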