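import Pool.Agent.H24.DR3.Low3
import Pool.Agent.H16.DIR.Key

/-!
# DR3: the inequality on one event

`chn`: the chain of the entropies. `row_tr`, `fi_tr`: the row and the fullness of the images for a law
of bounded density. `key1`, `key2`: the inequality for one long body and the pair of images, and for
two long bodies and one image.
-/

set_option autoImplicit false

namespace Pool.DR24

open Finset Real Matrix
open Pool.Agent.H49.Ent Pool.Agent.H32.Dense Pool.STK Pool.POT Pool.FAD Pool.SLO Pool.TQ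
open Pool.K2S (Pe)
open Pool.AVG71 (CH_pair_int)
open Pool.DIR16 (ediv_same low_ev)

/-- **The chain of the entropies.** -/
theorem chn {Γ S T U V R : Type} [Fintype Γ] {q : Γ → ℝ} (h0 : ∀ w, 0 ≤ q w) (Zt : Γ → S)
    (Wp : Γ → T) (k : Γ → U) (WS : Γ → V) (Y : Γ → R) (hWS : Det q Y WS)
    {b₁ b₂ r l1 l2 l3 : ℝ} (h1 : CH q Zt WS ≤ r) (h2 : b₁ ≤ CH q Wp (fun w => (k w, WS w)))
    (h3 : b₂ ≤ CH q Zt Y) (h4 : CH q k Y ≤ l1) (h5 : CH q Wp (fun w => (k w, Y w)) ≤ l2)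
    (h6 : CH q Wp (fun w => (Zt w, (k w, WS w))) ≤ l3) : b₁ + b₂ ≤ r + (l1 + l2 + l3) := by
  have s1 : CH q Zt (fun w => (k w, WS w)) ≤ CH q Zt WS :=
    CH_mono_cond h0 fun _ _ _ _ h => (Prod.ext_iff.mp h).2
  have s2 : CH q Wp (fun w => (k w, WS w)) + CH q Zt (fun w => (Wp w, (k w, WS w))) ≤
      CH q Zt (fun w => (k w, WS w)) + CH q Wp (fun w => (Zt w, (k w, WS w))) := by
    have a1 := CH_chain h0 Zt Wp (fun w => (k w, WS w))
    have a2 := CH_chain h0 Wp Zt (fun w => (k w, WS w))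
    have a3 : CH q (fun w => (Zt w, Wp w)) (fun w => (k w, WS w)) =
        CH q (fun w => (Wp w, Zt w)) (fun w => (k w, WS w)) := by
      refine CH_congr h0 ?_ ?_ (fun _ _ _ _ h => h) (fun _ _ _ _ h => h) <;>
      · intro w w' _ _ h
        simp only [Prod.mk.injEq] at h ⊢
        exact ⟨h.1.2, h.1.1⟩
    linarith
  have s3 : CH q Zt (fun w => (Wp w, (k w, Y w))) ≤ CH q Zt (fun w => (Wp w, (k w, WS w))) :=
    CH_mono_cond h0 fun w w' a b h => by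
      simp only [Prod.mk.injEq] at h ⊢
      exact ⟨h.1, h.2.1, hWS w w' a b h.2.2⟩
  have s4 : CH q Zt (fun w => (k w, Y w)) ≤ CH q Wp (fun w => (k w, Y w)) +
      CH q Zt (fun w => (Wp w, (k w, Y w))) := CH_le_add h0 _ _ _
  have s5 : CH q Zt Y ≤ CH q k Y + CH q Zt (fun w => (k w, Y w)) := CH_le_add h0 _ _ _
  linarith

variable {Ω Γ ζ σ : Type} [Fintype Ω] [Fintype Γ] {p : Ω → ℝ} {q : Γ → ℝ} {f : Γ → Ω}

/-- **The row for a law of bounded density.** -/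
theorem row_tr (hp : IsLaw p) (hq : IsLaw q) {F : ℝ} (hF : 0 < F)
    (hden : ∀ ω, mg q f ω ≤ F * p ω) (Z : Ω → Fin 3 → ℤ) (WS : Ω → σ) {X t : ℕ} {C R ϖ : ℝ}
    (hC : 0 ≤ C) (hR : 0 ≤ R) (hϖ : 0 ≤ ϖ) (hZ : ∀ ω i, |(Z ω i : ℝ)| ≤ C * 2 ^ X)
    (hrow : ∀ B : Ω → Prop, ϖ ≤ Pe p B → 0 < Pe p B →
      CH (cond p B True) (fun ω i => Z ω i / 2 ^ t) WS ≤ R) {K : ℕ} (hK : 0 < K) :
    CH q (fun w i => Z (f w) i / 2 ^ t) (fun w => WS (f w)) ≤
      R + (F / K + F * ϖ) * (3 * Real.log (4 * (C * 2 ^ X) + 1)) + Real.log (K + 1) := by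
  have hGn : 0 ≤ 3 * Real.log (4 * (C * 2 ^ X) + 1) := by
    have : 0 ≤ Real.log (4 * (C * 2 ^ X) + 1) := Real.log_nonneg (by
      have : (0 : ℝ) ≤ C * 2 ^ X := by positivity
      linarith)
    positivity
  have e1 := (im_mg q f).CH (fun ω i => Z ω i / 2 ^ t) WS
  rw [e1]
  refine dens_up hp (mg_law hq f) hF hden hϖ hR hGn _ _ hrow (fun q' hq' _ => ?_) hK
  have k1 := CH_cnt hq' Z WS (fun ω _ i => hZ ω i)
  push_cast at k1
  refine le_trans (CH_mono_left hq'.nonneg fun ω ω' _ _ h => ?_) k1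
  have e1 : Z ω = Z ω' := (Prod.ext_iff.mp h).1
  simp only [e1]

/-- **Fullness for a law of bounded density.** -/
theorem fi_tr {S T : Type} (hp : IsLaw p) (hq : IsLaw q) {F : ℝ} (hF : 0 < F)
    (hden : ∀ ω, mg q f ω ≤ F * p ω) {E : Ω → Prop} (hE : ∀ w, 0 < q w → E (f w)) {m₀ b : ℝ}
    (hm : 0 ≤ m₀) (hb : 0 ≤ b) (X : Ω → S) (W : Ω → T)
    (h : ∀ B : Ω → Prop, (∀ ω, B ω → E ω) → m₀ * (1 / F) ≤ Pe p B → 0 < Pe p B →
      b ≤ CH (cond p B True) X W) :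
    (1 - F * m₀) * b ≤ CH q (fun w => X (f w)) (fun w => W (f w)) := by
  classical
  have e1 := (im_mg q f).CH X W
  rw [e1]
  refine low_ev hp (mg_law hq f) hF hden (fun ω hω => ?_) hm hb X W h
  unfold mg at hω
  obtain ⟨w, -, hw⟩ : ∃ w ∈ (Finset.univ : Finset Γ), 0 < (if f w = ω then q w else 0) := by
    by_contra hcon
    push Not at hcon
    exact absurd (Finset.sum_nonpos hcon) (not_le.2 hω)
  split_ifs at hw with h3
  · rw [← h3]
    exact hE w hw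
  · exact absurd hw (lt_irrefl _)

theorem floor_near {x y D : ℝ} (h : |x - y| ≤ D) : |((⌊x⌋ : ℤ) : ℝ) - ⌊y⌋| ≤ D + 1 := by
  have a1 := Int.floor_le x
  have a2 := Int.lt_floor_add_one x
  have a3 := Int.floor_le y
  have a4 := Int.lt_floor_add_one y
  rw [abs_le] at h ⊢
  constructor <;> linarith [h.1, h.2]

/-- The code given the data. -/
theorem code_few (hq : IsLaw q) (k : Γ → Fin 3 → ℤ) (Y : Γ → ζ)
    (hk : ∀ w w', 0 < q w → 0 < q w' → Y w = Y w' → ∀ i, |(k w i : ℝ) - k w' i| ≤ 4) :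
    CH q k Y ≤ 3 * Real.log 9 := by
  have h2 := CH_le_vec hq.nonneg hq.sum_one k Y (fun _ => 4) (fun w w' a b e i => by
    push_cast
    exact hk w w' a b e i)
  rw [Ex_const hq.sum_one] at h2
  have e5 : (2 : ℝ) * 4 + 1 = 9 := by norm_num
  rw [e5] at h2
  push_cast at h2
  exact h2

/-- The constants. -/
noncomputable def Kk (C c₀ c1 : ℝ) : ℝ :=
  |Cp 3 c₀| + |Cc 3 (3 * c₀)| + |Cc 3 (3 * (3 * c₀))| + 5 * Real.log 3 + 3 * Real.log 9 +
    3 * Real.log (2 * (6 * C * c1 + 2) + 1) + 3 * Real.log 9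

section keys

variable {X t : ℕ} {Z : Ω → Fin 3 → ℤ} {WS : Ω → σ} {k : Ω → Fin 3 → ℤ}
  {ka : (Fin 3 → ℤ) → Fin 3 → ℝ}

omit [Fintype Ω] in
theorem dz_le {C : ℝ} (hZ : ∀ ω i, |(Z ω i : ℝ)| ≤ C * 2 ^ X) (ω ω' : Ω) (i : Fin 3) :
    |(Z ω i : ℝ) - Z ω' i| ≤ 2 * (C * 2 ^ X) := by
  refine (abs_sub _ _).trans ?_
  linarith [hZ ω i, hZ ω' i]

/-- A product of a small slope and a difference. -/
theorem sl_mul {C c1 s D : ℝ} (hC : 0 ≤ C) (hs : |s| * 2 ^ X ≤ c1 * 2 ^ t)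
    (hD : |D| ≤ 2 * (C * 2 ^ X)) : |s * D| ≤ 2 * C * c1 * 2 ^ t := by
  rw [abs_mul]
  have hX : (0 : ℝ) < 2 ^ X := by positivity
  calc |s| * |D| ≤ |s| * (2 * (C * 2 ^ X)) := mul_le_mul_of_nonneg_left hD (abs_nonneg _)
    _ = 2 * C * (|s| * 2 ^ X) := by ring
    _ ≤ 2 * C * (c1 * 2 ^ t) := mul_le_mul_of_nonneg_left hs (by positivity)
    _ = _ := by ring

/-- **The inequality, one long body.** -/
theorem key1 (hp : IsLaw p) (hq : IsLaw q) {F : ℝ} (hF : 0 < F)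
    (hden : ∀ ω, mg q f ω ≤ F * p ω) (hka : ∀ k i, |ka k i| ≤ 1) (j : Fin 3)
    {A : Γ → Matrix (Fin 3) (Fin 3) ℝ} (Y : Γ → ζ) (hdA : Det q Y A)
    (hdS : Det q Y (fun w => WS (f w))) (hA : ∀ w, (A w).det ≠ 0) {c₀ : ℝ} (hc : 1 ≤ c₀)
    (hT : ∀ w, Inc c₀ (Tx 3 X) (A w)) {e : ℝ}
    (h1 : DF q (fun _ => Tx 3 X) A (fun w => xv X (Z (f w))) Y ≤ e) {a₀ : ℝ} (ha : 0 < a₀)
    (hb : ∀ w, 0 < q w → a₀ ≤ |A w j (lc (A w)).2|) {c1 : ℝ} (hc1 : 0 ≤ c1)
    (hsl : ∀ w, 0 < q w → ∀ i,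
      |A w i (lc (A w)).2 / A w j (lc (A w)).2 - ka (k (f w)) i| * 2 ^ X ≤ c1 * 2 ^ t)
    (hk : ∀ w w', 0 < q w → 0 < q w' → Y w = Y w' → ∀ i, |(k (f w) i : ℝ) - k (f w') i| ≤ 4)
    {E : Ω → Prop} (hE : ∀ w, 0 < q w → E (f w)) {m₀ b₁ : ℝ} (hm : 0 ≤ m₀) (hb₁ : 0 ≤ b₁)
    (hFI : ∀ B : Ω → Prop, (∀ ω, B ω → E ω) → m₀ * (1 / F) ≤ Pe p B → 0 < Pe p B →
      b₁ ≤ CH (cond p B True)
        (fun ω (i : Fin 3) => ⌊((Z ω i : ℝ) - ka (k ω) i * (Z ω j : ℝ)) / 2 ^ t⌋)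
        (fun ω => (k ω, WS ω)))
    {C R ϖ : ℝ} (hC : 0 ≤ C) (hR : 0 ≤ R) (hϖ : 0 ≤ ϖ)
    (hZ : ∀ ω i, |(Z ω i : ℝ)| ≤ C * 2 ^ X)
    (hrow : ∀ B : Ω → Prop, ϖ ≤ Pe p B → 0 < Pe p B →
      CH (cond p B True) (fun ω i => Z ω i / 2 ^ t) WS ≤ R) {K : ℕ} (hK : 0 < K) :
    (1 - F * m₀) * b₁ + (((X : ℝ) - t) * Real.log 2 + Real.log a₀) ≤
      R + (F / K + F * ϖ) * (3 * Real.log (4 * (C * 2 ^ X) + 1)) + Real.log (K + 1) +
        e + Kk C c₀ c1 := by
  classical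
  have h0 := hq.nonneg
  have hX : (0 : ℝ) < 2 ^ X := by positivity
  have ht : (0 : ℝ) < 2 ^ t := by positivity
  have ht1 : (1 : ℝ) ≤ 2 ^ t := one_le_pow₀ (by norm_num)
  have r1 := row_tr (f := f) hp hq hF hden Z WS hC hR hϖ hZ hrow hK
  have r2 := fi_tr (f := f) hp hq hF hden hE hm hb₁ _ _ hFI
  have r3 := low1 (t := t) hq (fun w => Z (f w)) Y hdA hA hc hT h1 ha j hb
  obtain ⟨c, hcl⟩ : ∃ c : Γ → Fin 3 → ℤ,
    c = fun w => cl (W1 X j a₀ (A w)) (xv X (Z (f w))) := ⟨_, rfl⟩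
  have e3 : CH q (fun w i => Z (f w) i / 2 ^ t) (fun w =>
      (cl (W1 X j a₀ (A w)) (xv X (Z (f w))), Y w)) =
      CH q (fun w i => Z (f w) i / 2 ^ t) (fun w => (c w, Y w)) := by rw [hcl]
  rw [e3] at r3
  have hval : ∀ w, 0 < q w → W1 X j a₀ (A w) = V1 X j (fun i => A w i (lc (A w)).2) :=
    fun w hw => by
      unfold W1
      rw [if_pos (hb w hw)]
  have r4 : CH q (fun w => k (f w)) (fun w => (c w, Y w)) ≤ 3 * Real.log 9 :=
    code_few hq _ _ fun w w' a b e => hk w w' a b (Prod.ext_iff.mp e).2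
  have r5 : CH q (fun w (i : Fin 3) =>
      ⌊((Z (f w) i : ℝ) - ka (k (f w)) i * (Z (f w) j : ℝ)) / 2 ^ t⌋)
      (fun w => (k (f w), (c w, Y w))) ≤ 3 * Real.log (2 * (6 * C * c1 + 2) + 1) := by
    have h2 := CH_le_vec h0 hq.sum_one (fun w (i : Fin 3) =>
      ⌊((Z (f w) i : ℝ) - ka (k (f w)) i * (Z (f w) j : ℝ)) / 2 ^ t⌋)
      (fun w => (k (f w), (c w, Y w))) (fun _ => 6 * C * c1 + 2) (fun w w' a b e i => by
        simp only [Prod.mk.injEq] at e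
        obtain ⟨e1, e2, e4⟩ := e
        have g0 : A w = A w' := hdA w w' a b e4
        rw [hcl] at e2
        simp only at e2
        rw [← g0] at e2
        have hV : (W1 X j a₀ (A w)).det ≠ 0 := by
          rw [hval w a, V1_det]
          have : A w j (lc (A w)).2 ≠ 0 := abs_pos.1 (ha.trans_le (hb w a))
          positivity
        obtain ⟨u, hu, hd⟩ := cell_dc hV e2
        rw [hval w a] at hd
        have hv : A w j (lc (A w)).2 ≠ 0 := abs_pos.1 (ha.trans_le (hb w a))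
        have g1 := V1_dif (v := fun i => A w i (lc (A w)).2)
          (D := fun i => xv X (Z (f w)) i - xv X (Z (f w')) i) hv hu hd i
        obtain ⟨D, hD⟩ : ∃ D : Fin 3 → ℝ, D = fun i => (Z (f w) i : ℝ) - Z (f w') i := ⟨_, rfl⟩
        have g2 : 2 ^ X * ((xv X (Z (f w)) i - xv X (Z (f w')) i) -
            A w i (lc (A w)).2 / A w j (lc (A w)).2 *
            (xv X (Z (f w)) j - xv X (Z (f w')) j)) =
            D i - A w i (lc (A w)).2 / A w j (lc (A w)).2 * D j := by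
          rw [hD]
          unfold xv
          field_simp
        have g1' : |D i - A w i (lc (A w)).2 / A w j (lc (A w)).2 * D j| ≤ 1 := by
          rw [← g2]
          exact g1
        have g3 := sl_mul (D := D j) hC (hsl w a i) (by
          rw [hD]
          exact dz_le hZ _ _ j)
        have g4 : D i - ka (k (f w)) i * D j =
            (D i - A w i (lc (A w)).2 / A w j (lc (A w)).2 * D j) +
            (A w i (lc (A w)).2 / A w j (lc (A w)).2 - ka (k (f w)) i) * D j := by ring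
        have g5 : |D i - ka (k (f w)) i * D j| ≤ 1 + 2 * C * c1 * 2 ^ t := by
          rw [g4]
          exact (abs_add_le _ _).trans (add_le_add g1' g3)
        have g6 : |((Z (f w) i : ℝ) - ka (k (f w)) i * (Z (f w) j : ℝ)) / 2 ^ t -
            ((Z (f w') i : ℝ) - ka (k (f w')) i * (Z (f w') j : ℝ)) / 2 ^ t| ≤
            6 * C * c1 + 1 := by
          rw [← e1, ← sub_div, abs_div, abs_of_pos ht, div_le_iff₀ ht]
          have g7 : (Z (f w) i : ℝ) - ka (k (f w)) i * Z (f w) j -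
              (Z (f w') i - ka (k (f w)) i * Z (f w') j) = D i - ka (k (f w)) i * D j := by
            rw [hD]
            ring
          rw [g7]
          refine g5.trans ?_
          have : 0 ≤ C * c1 * 2 ^ t := by positivity
          nlinarith
        push_cast
        exact (floor_near g6).trans (by linarith))
    rw [Ex_const hq.sum_one] at h2
    push_cast at h2
    exact h2
  have r6 : CH q (fun w (i : Fin 3) =>
      ⌊((Z (f w) i : ℝ) - ka (k (f w)) i * (Z (f w) j : ℝ)) / 2 ^ t⌋)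
      (fun w => ((fun i => Z (f w) i / 2 ^ t), (k (f w), WS (f w)))) ≤ 3 * Real.log 9 := by
    refine code_few hq _ _ fun w w' a b e i => ?_
    simp only [Prod.mk.injEq] at e
    obtain ⟨e1, e2, -⟩ := e
    have g0 : ∀ i, |(Z (f w) i : ℝ) - Z (f w') i| ≤ 2 ^ t := fun i =>
      ediv_same (congrFun e1 i)
    have g6 : |((Z (f w) i : ℝ) - ka (k (f w)) i * (Z (f w) j : ℝ)) / 2 ^ t -
        ((Z (f w') i : ℝ) - ka (k (f w')) i * (Z (f w') j : ℝ)) / 2 ^ t| ≤ 2 := by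
      rw [← e2, ← sub_div, abs_div, abs_of_pos ht, div_le_iff₀ ht]
      have g7 : (Z (f w) i : ℝ) - ka (k (f w)) i * Z (f w) j -
          (Z (f w') i - ka (k (f w)) i * Z (f w') j) =
          ((Z (f w) i : ℝ) - Z (f w') i) - ka (k (f w)) i * ((Z (f w) j : ℝ) - Z (f w') j) := by
        ring
      rw [g7]
      refine (abs_sub _ _).trans ?_
      rw [abs_mul]
      have := mul_le_mul (hka (k (f w)) i) (g0 j) (abs_nonneg _) zero_le_one
      linarith [g0 i]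
    exact (floor_near g6).trans (by norm_num)
  have hWS : Det q (fun w => (c w, Y w)) (fun w => WS (f w)) := fun w w' a b h =>
    hdS w w' a b (Prod.ext_iff.mp h).2
  have r7 := chn h0 _ _ _ _ _ hWS r1 r2 r3 r4 r5 r6
  unfold Kk
  have := abs_nonneg (Cp 3 c₀)
  have := abs_nonneg (Cc 3 (3 * (3 * c₀)))
  have : 0 ≤ Real.log 3 := Real.log_nonneg (by norm_num)
  linarith

/-- **The inequality, two long bodies.** -/
theorem key2 (hp : IsLaw p) (hq : IsLaw q) {F : ℝ} (hF : 0 < F)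
    (hden : ∀ ω, mg q f ω ≤ F * p ω) (hka : ∀ k i, |ka k i| ≤ 1) (j : Fin 3)
    {A B : Γ → Matrix (Fin 3) (Fin 3) ℝ} (Y : Γ → ζ) (hdA : Det q Y A) (hdB : Det q Y B)
    (hdS : Det q Y (fun w => WS (f w))) (hA : ∀ w, (A w).det ≠ 0) (hB : ∀ w, (B w).det ≠ 0)
    {c₀ : ℝ} (hc : 1 ≤ c₀) (hTA : ∀ w, Inc c₀ (Tx 3 X) (A w))
    (hTB : ∀ w, Inc c₀ (Tx 3 X) (B w)) {e : ℝ}
    (h1 : DF q (fun _ => Tx 3 X) A (fun w => xv X (Z (f w))) Y ≤ e)
    (h2 : DF q (fun _ => Tx 3 X) B (fun w => xv X (Z (f w))) Y ≤ e) {a₀ : ℝ} (ha : 0 < a₀)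
    (hb : ∀ w, 0 < q w → a₀ ≤
      |cr (fun i => A w i (lc (A w)).2) (fun i => B w i (lc (B w)).2) j|) {c1 : ℝ}
    (hc1 : 0 ≤ c1)
    (hsl : ∀ w, 0 < q w → ∀ i,
      |cr (fun i => A w i (lc (A w)).2) (fun i => B w i (lc (B w)).2) i /
        cr (fun i => A w i (lc (A w)).2) (fun i => B w i (lc (B w)).2) j -
          ka (k (f w)) i| * 2 ^ X ≤ c1 * 2 ^ t)
    (hk : ∀ w w', 0 < q w → 0 < q w' → Y w = Y w' → ∀ i, |(k (f w) i : ℝ) - k (f w') i| ≤ 4)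
    {E : Ω → Prop} (hE : ∀ w, 0 < q w → E (f w)) {m₀ b₁ : ℝ} (hm : 0 ≤ m₀) (hb₁ : 0 ≤ b₁)
    (hFI : ∀ B : Ω → Prop, (∀ ω, B ω → E ω) → m₀ * (1 / F) ≤ Pe p B → 0 < Pe p B →
      b₁ ≤ CH (cond p B True) (fun ω => ⌊(∑ i, ka (k ω) i * (Z ω i : ℝ)) / 2 ^ t⌋)
        (fun ω => (k ω, WS ω)))
    {C R ϖ : ℝ} (hC : 0 ≤ C) (hR : 0 ≤ R) (hϖ : 0 ≤ ϖ)
    (hZ : ∀ ω i, |(Z ω i : ℝ)| ≤ C * 2 ^ X)
    (hrow : ∀ B : Ω → Prop, ϖ ≤ Pe p B → 0 < Pe p B →
      CH (cond p B True) (fun ω i => Z ω i / 2 ^ t) WS ≤ R) {K : ℕ} (hK : 0 < K) :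
    (1 - F * m₀) * b₁ + (2 * (((X : ℝ) - t) * Real.log 2) + Real.log a₀) ≤
      R + (F / K + F * ϖ) * (3 * Real.log (4 * (C * 2 ^ X) + 1)) + Real.log (K + 1) +
        2 * e + Kk C c₀ c1 := by
  classical
  have h0 := hq.nonneg
  have hX : (0 : ℝ) < 2 ^ X := by positivity
  have ht : (0 : ℝ) < 2 ^ t := by positivity
  have ht1 : (1 : ℝ) ≤ 2 ^ t := one_le_pow₀ (by norm_num)
  have r1 := row_tr (f := f) hp hq hF hden Z WS hC hR hϖ hZ hrow hK
  have r2 := fi_tr (f := f) hp hq hF hden hE hm hb₁ _ _ hFI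
  obtain ⟨S, s1, s2, r3⟩ := low2 (t := t) hq (fun w => Z (f w)) Y hdA hdB hA hB hc hTA hTB h1 h2
    ha j hb
  obtain ⟨x, hx⟩ : ∃ x : Γ → Fin 3 → ℝ, x = fun w =>
    cr (fun i => A w i (lc (A w)).2) (fun i => B w i (lc (B w)).2) := ⟨_, rfl⟩
  have hb' : ∀ w, 0 < q w → a₀ ≤ |x w j| := fun w hw => by
    rw [hx]
    exact hb w hw
  have hsl' : ∀ w, 0 < q w → ∀ i, |x w i / x w j - ka (k (f w)) i| * 2 ^ X ≤ c1 * 2 ^ t :=
    fun w hw i => by
      rw [hx]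
      exact hsl w hw i
  obtain ⟨c, hcl⟩ : ∃ c : Γ → Fin 3 → ℤ,
    c = fun w => cl (W2 X j a₀ (A w) (B w) (S w)) (xv X (Z (f w))) := ⟨_, rfl⟩
  have e3 : CH q (fun w i => Z (f w) i / 2 ^ t) (fun w =>
      (cl (W2 X j a₀ (A w) (B w) (S w)) (xv X (Z (f w))), Y w)) =
      CH q (fun w i => Z (f w) i / 2 ^ t) (fun w => (c w, Y w)) := by rw [hcl]
  rw [e3] at r3
  have hval : ∀ w, 0 < q w → W2 X j a₀ (A w) (B w) (S w) =
      V2 X j (fun i => A w i (lc (A w)).2) (fun i => B w i (lc (B w)).2) := fun w hw => by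
    unfold W2
    rw [if_pos (hb w hw)]
  have r4 : CH q (fun w => k (f w)) (fun w => (c w, Y w)) ≤ 3 * Real.log 9 :=
    code_few hq _ _ fun w w' a b e => hk w w' a b (Prod.ext_iff.mp e).2
  have r5 : CH q (fun w => ⌊(∑ i, ka (k (f w)) i * (Z (f w) i : ℝ)) / 2 ^ t⌋)
      (fun w => (k (f w), (c w, Y w))) ≤ Real.log (2 * (6 * C * c1 + 2) + 1) := by
    refine CH_pair_int hq _ _ (by positivity) fun w w' a b e => ?_
    simp only [Prod.mk.injEq] at e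
    obtain ⟨e1, e2, e4⟩ := e
    have g0 : A w = A w' := hdA w w' a b e4
    have g0' : B w = B w' := hdB w w' a b e4
    have g0'' : S w = S w' := s1 w w' a b e4
    rw [hcl] at e2
    simp only at e2
    rw [← g0, ← g0', ← g0''] at e2
    have hx0 : x w j ≠ 0 := abs_pos.1 (ha.trans_le (hb' w a))
    have hV : (W2 X j a₀ (A w) (B w) (S w)).det ≠ 0 := by
      rw [hval w a, V2_det]
      rw [hx] at hx0
      exact mul_ne_zero (by positivity) hx0
    obtain ⟨u, hu, hd⟩ := cell_dc hV e2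
    rw [hval w a] at hd
    have g1 := V2_dif (D := fun i => xv X (Z (f w)) i - xv X (Z (f w')) i)
      (v := fun i => A w i (lc (A w)).2) (w := fun i => B w i (lc (B w)).2)
      (by rw [hx] at hx0; exact hx0) hu hd
    obtain ⟨D, hD⟩ : ∃ D : Fin 3 → ℝ, D = fun i => (Z (f w) i : ℝ) - Z (f w') i := ⟨_, rfl⟩
    have g2 : 2 ^ X * ∑ i, cr (fun i => A w i (lc (A w)).2) (fun i => B w i (lc (B w)).2) i /
        cr (fun i => A w i (lc (A w)).2) (fun i => B w i (lc (B w)).2) j *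
        (xv X (Z (f w)) i - xv X (Z (f w')) i) = ∑ i, x w i / x w j * D i := by
      rw [Finset.mul_sum]
      refine Finset.sum_congr rfl fun i _ => ?_
      rw [hD, hx]
      unfold xv
      field_simp
    have g1' : |∑ i, x w i / x w j * D i| ≤ 1 := by
      rw [← g2]
      exact g1
    have g3 : ∀ i, |(x w i / x w j - ka (k (f w)) i) * D i| ≤ 2 * C * c1 * 2 ^ t := fun i =>
      sl_mul hC (hsl' w a i) (by
        rw [hD]
        exact dz_le hZ _ _ i)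
    have g4 : ∑ i, ka (k (f w)) i * D i = (∑ i, x w i / x w j * D i) -
        ∑ i, (x w i / x w j - ka (k (f w)) i) * D i := by
      rw [← Finset.sum_sub_distrib]
      exact Finset.sum_congr rfl fun i _ => by ring
    have g5 : |∑ i, ka (k (f w)) i * D i| ≤ 1 + 6 * C * c1 * 2 ^ t := by
      rw [g4]
      refine (abs_sub _ _).trans (add_le_add g1' ?_)
      rw [Fin.sum_univ_three]
      refine (abs_add_le _ _).trans ?_
      have := abs_add_le ((x w 0 / x w j - ka (k (f w)) 0) * D 0)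
        ((x w 1 / x w j - ka (k (f w)) 1) * D 1)
      have := g3 0
      have := g3 1
      have := g3 2
      linarith
    have g6 : |(∑ i, ka (k (f w)) i * (Z (f w) i : ℝ)) / 2 ^ t -
        (∑ i, ka (k (f w')) i * (Z (f w') i : ℝ)) / 2 ^ t| ≤ 6 * C * c1 + 1 := by
      rw [← e1, ← sub_div, abs_div, abs_of_pos ht, div_le_iff₀ ht]
      have g7 : (∑ i, ka (k (f w)) i * (Z (f w) i : ℝ)) -
          ∑ i, ka (k (f w)) i * (Z (f w') i : ℝ) = ∑ i, ka (k (f w)) i * D i := by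
        rw [hD, ← Finset.sum_sub_distrib]
        exact Finset.sum_congr rfl fun i _ => by ring
      rw [g7]
      refine g5.trans ?_
      linarith
    exact (floor_near g6).trans (by linarith)
  have r6 : CH q (fun w => ⌊(∑ i, ka (k (f w)) i * (Z (f w) i : ℝ)) / 2 ^ t⌋)
      (fun w => ((fun i => Z (f w) i / 2 ^ t), (k (f w), WS (f w)))) ≤ Real.log 9 := by
    have e9 : Real.log 9 = Real.log (2 * 4 + 1) := by norm_num
    rw [e9]
    refine CH_pair_int hq _ _ (by norm_num) fun w w' a b e => ?_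
    simp only [Prod.mk.injEq] at e
    obtain ⟨e1, e2, -⟩ := e
    have g0 : ∀ i, |(Z (f w) i : ℝ) - Z (f w') i| ≤ 2 ^ t := fun i =>
      ediv_same (congrFun e1 i)
    have g6 : |(∑ i, ka (k (f w)) i * (Z (f w) i : ℝ)) / 2 ^ t -
        (∑ i, ka (k (f w')) i * (Z (f w') i : ℝ)) / 2 ^ t| ≤ 3 := by
      rw [← e2, ← sub_div, abs_div, abs_of_pos ht, div_le_iff₀ ht]
      have g7 : (∑ i, ka (k (f w)) i * (Z (f w) i : ℝ)) -
          ∑ i, ka (k (f w)) i * (Z (f w') i : ℝ) =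
          ∑ i, ka (k (f w)) i * ((Z (f w) i : ℝ) - Z (f w') i) := by
        rw [← Finset.sum_sub_distrib]
        exact Finset.sum_congr rfl fun i _ => by ring
      rw [g7, Fin.sum_univ_three]
      have g8 : ∀ i, |ka (k (f w)) i * ((Z (f w) i : ℝ) - Z (f w') i)| ≤ 2 ^ t := fun i => by
        rw [abs_mul]
        have := mul_le_mul (hka (k (f w)) i) (g0 i) (abs_nonneg _) zero_le_one
        linarith
      refine (abs_add_le _ _).trans ?_
      have := abs_add_le (ka (k (f w)) 0 * ((Z (f w) 0 : ℝ) - Z (f w') 0))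
        (ka (k (f w)) 1 * ((Z (f w) 1 : ℝ) - Z (f w') 1))
      have := g8 0
      have := g8 1
      have := g8 2
      linarith
    exact (floor_near g6).trans (by norm_num)
  have hWS : Det q (fun w => (c w, Y w)) (fun w => WS (f w)) := fun w w' a b h =>
    hdS w w' a b (Prod.ext_iff.mp h).2
  have r7 := chn h0 _ _ _ _ _ hWS r1 r2 r3 r4 r5 r6
  unfold Kk
  have := abs_nonneg (Cc 3 (3 * c₀))
  have : 0 ≤ Real.log 3 := Real.log_nonneg (by norm_num)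
  have : 0 ≤ Real.log 9 := Real.log_nonneg (by norm_num)
  have : 0 ≤ Real.log (2 * (6 * C * c1 + 2) + 1) := Real.log_nonneg (by
    have : 0 ≤ C * c1 := mul_nonneg hC hc1
    nlinarith)
  linarith

end keys

end Pool.DR24
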