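import Pool.Agent.H24.DR3.Col

/-!
# DR3: the pivot of a covector

`pix`: the last place with a coefficient which is not small. `pvt`: the covector divided by the
coefficient at the pivot, without the places behind it.
-/

set_option autoImplicit false

namespace Pool.DR24

open Finset Real Matrix

open Classical in
/-- The pivot. -/
noncomputable def pix (t₂ t₁ : ℝ) (x : Fin 3 → ℝ) : Fin 3 :=
  if t₂ ≤ |x 2| then 2 else if t₁ ≤ |x 1| then 1 else 0

open Classical in
/-- The covector with pivot `i`. -/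
noncomputable def pvt (i : Fin 3) (x : Fin 3 → ℝ) (l : Fin 3) : ℝ := if i < l then 0 else x l / x i

/-- The size of the coefficient at the pivot. -/
def tp (t₂ t₁ : ℝ) : Fin 3 → ℝ := ![1, t₁, t₂]

/-- The size of the coefficients behind the pivot. -/
def tq (t₂ t₁ : ℝ) : Fin 3 → ℝ := ![t₂ + t₁, t₂, 0]

theorem pvt_zero (i l : Fin 3) (x : Fin 3 → ℝ) (h : i < l) : pvt i x l = 0 := by
  unfold pvt
  rw [if_pos h]

theorem pvt_self {i : Fin 3} {x : Fin 3 → ℝ} (h : x i ≠ 0) : pvt i x i = 1 := by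
  unfold pvt
  rw [if_neg (lt_irrefl i), div_self h]

theorem pvt_null (i l : Fin 3) : pvt i (fun _ => 0) l = 0 := by
  unfold pvt
  split_ifs
  · rfl
  · exact zero_div 0

/-- The coefficient at the pivot. -/
theorem pix_big {t₂ t₁ : ℝ} (h2 : t₂ ≤ 1) (h1 : t₁ ≤ 1) {x : Fin 3 → ℝ}
    (hx : ∃ j, x j = 1) : tp t₂ t₁ (pix t₂ t₁ x) ≤ |x (pix t₂ t₁ x)| := by
  unfold pix
  split_ifs with c2 c1
  · exact c2
  · exact c1
  · obtain ⟨j, hj⟩ := hx
    have hj0 : j = 0 := by
      by_contra hn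
      have : j = 1 ∨ j = 2 := by
        revert hn
        fin_cases j <;> simp
      rcases this with rfl | rfl
      · rw [hj, abs_one] at c1
        exact c1 h1
      · rw [hj, abs_one] at c2
        exact c2 h2
    rw [hj0] at hj
    rw [hj, abs_one]
    exact le_rfl

theorem tp_pos {t₂ t₁ : ℝ} (h2 : 0 < t₂) (h1 : 0 < t₁) (i : Fin 3) : 0 < tp t₂ t₁ i := by
  fin_cases i
  · exact one_pos
  · exact h1
  · exact h2

theorem tq_nonneg {t₂ t₁ : ℝ} (h2 : 0 < t₂) (h1 : 0 < t₁) (i : Fin 3) : 0 ≤ tq t₂ t₁ i := by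
  fin_cases i
  · exact (add_pos h2 h1).le
  · exact h2.le
  · exact le_rfl

/-- The coefficients. -/
theorem pvt_le {t₂ t₁ : ℝ} (p2 : 0 < t₂) (p1 : 0 < t₁) (h2 : t₂ ≤ 1) (h1 : t₁ ≤ 1)
    {x : Fin 3 → ℝ} (hx : ∀ l, |x l| ≤ 1) (h : (∃ j, x j = 1) ∨ x = fun _ => 0) (l : Fin 3) :
    |pvt (pix t₂ t₁ x) x l| ≤ 1 / tp t₂ t₁ (pix t₂ t₁ x) := by
  have hp := tp_pos p2 p1 (pix t₂ t₁ x)
  rcases h with h | h
  · have hb := pix_big h2 h1 h
    unfold pvt
    split_ifs
    · rw [abs_zero]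
      positivity
    · rw [abs_div]
      exact div_le_div₀ zero_le_one (hx l) hp hb
  · have e : pvt (pix t₂ t₁ x) x l = 0 := by
      rw [h]
      exact pvt_null _ _
    rw [e, abs_zero]
    positivity

/-- **The product with a vector.** -/
theorem pvt_sum {t₂ t₁ : ℝ} (p2 : 0 < t₂) (p1 : 0 < t₁) (h2 : t₂ ≤ 1) (h1 : t₁ ≤ 1)
    {x : Fin 3 → ℝ} (h : (∃ j, x j = 1) ∨ x = fun _ => 0) {y : Fin 3 → ℝ} {K e : ℝ}
    (hy : ∀ l, |y l| ≤ K) (he : |∑ l, x l * y l| ≤ e) :
    |∑ l, pvt (pix t₂ t₁ x) x l * y l| ≤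
      (e + tq t₂ t₁ (pix t₂ t₁ x) * K) / tp t₂ t₁ (pix t₂ t₁ x) := by
  have hp := tp_pos p2 p1 (pix t₂ t₁ x)
  have hq := tq_nonneg p2 p1 (pix t₂ t₁ x)
  have hK : 0 ≤ K := (abs_nonneg _).trans (hy 0)
  have he0 : 0 ≤ e := (abs_nonneg _).trans he
  rcases h with h | h
  · have hb := pix_big h2 h1 h
    have hn : x (pix t₂ t₁ x) ≠ 0 := abs_pos.1 (hp.trans_le hb)
    -- the terms behind the pivot
    have e1 : ∑ l, pvt (pix t₂ t₁ x) x l * y l = (∑ l, x l * y l -
        ∑ l, (if pix t₂ t₁ x < l then x l * y l else 0)) / x (pix t₂ t₁ x) := by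
      rw [← Finset.sum_sub_distrib, Finset.sum_div]
      refine Finset.sum_congr rfl fun l _ => ?_
      unfold pvt
      split_ifs
      · rw [zero_mul, sub_self, zero_div]
      · rw [sub_zero]
        ring
    have e2 : |∑ l, (if pix t₂ t₁ x < l then x l * y l else 0)| ≤
        tq t₂ t₁ (pix t₂ t₁ x) * K := by
      have hs : ∀ (l : Fin 3) (s : ℝ), |x l| ≤ s → |x l * y l| ≤ s * K := fun l s hl => by
        rw [abs_mul]
        exact mul_le_mul hl (hy l) (abs_nonneg _) ((abs_nonneg _).trans hl)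
      rw [Fin.sum_univ_three]
      by_cases c2 : t₂ ≤ |x 2|
      · have hi : pix t₂ t₁ x = 2 := by
          unfold pix
          rw [if_pos c2]
        rw [hi]
        unfold tq
        simp
      · have s2 := hs 2 t₂ (not_le.1 c2).le
        by_cases c1 : t₁ ≤ |x 1|
        · have hi : pix t₂ t₁ x = 1 := by
            unfold pix
            rw [if_neg c2, if_pos c1]
          rw [hi]
          unfold tq
          simpa using s2
        · have hi : pix t₂ t₁ x = 0 := by
            unfold pix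
            rw [if_neg c2, if_neg c1]
          have s1 := hs 1 t₁ (not_le.1 c1).le
          have a3 := abs_add_le (x 1 * y 1) (x 2 * y 2)
          rw [hi]
          unfold tq
          simp
          linarith
    rw [e1, abs_div]
    refine div_le_div₀ (by positivity) ?_ hp hb
    exact (abs_sub _ _).trans (add_le_add he e2)
  · have e : ∑ l, pvt (pix t₂ t₁ x) x l * y l = 0 := by
      refine Finset.sum_eq_zero fun l _ => ?_
      have e2 : pvt (pix t₂ t₁ x) x l = 0 := by
        rw [h]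
        exact pvt_null _ _
      rw [e2, zero_mul]
    rw [e, abs_zero]
    positivity

end Pool.DR24
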