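import Pool.Agent.H24.DR3.Cov
import Pool.Agent.H24.DR3.Piv
import Pool.Agent.H21.FS.Qh

/-!
# DR3: the covector with a pivot and the polynomials

`qh_lam`: a picture of degree `n` with three coordinates whose row is not full: on an event of constant
mass the product of a closed covector with a pivot and the slopes is a polynomial of the time with
coefficients which are functions of the line.
-/

set_option autoImplicit false

namespace Pool.DR24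

open Finset Real Matrix
open Pool.Agent.H49.Ent Pool.Agent.H32.Dense Pool.STK Pool.POT Pool.FAD Pool.SLO Pool.TQ
open Pool.K2S (Pe)
open Pool.BFL (Pb)
open Pool.DIR21 (Pb_Pe Pb_mono Pb_or Pb_nonneg Pb_im Pe_ci Pb_ci ci ci0 ci1 ci_nonneg)
open Pool.BD64 (QHd)
open Pool.TT37 (dd con_d)
open Pool.FS21 (okd_mi line_det okd_mono okd_tm far_tm ex_pow)

variable {k n : ℕ}

/-- The vectors in a direction. -/
theorem dd_cov {T : Type} (n : ℕ) (tau : T → ℤ) (E : T → Fin k → Fin 3 → ℝ) (l : Fin 3 → ℝ)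
    (t : Fin (n + 2) → T) (u : Fin k) :
    dd n (fun x : (Fin 3 → ℝ) × T => tau x.2) (fun x u (_ : Fin 1) => ∑ i, x.1 i * E x.2 u i) u
      (fun j => (l, t j)) 0 = ∑ i, l i * dd n tau E u t i := by
  unfold dd
  split_ifs with h
  · simp only [Fin.sum_univ_three]
    rw [Finset.mul_sum, Finset.mul_sum, Finset.mul_sum, ← Finset.sum_add_distrib,
      ← Finset.sum_add_distrib]
    refine Finset.sum_congr rfl fun j _ => ?_
    ring
  · simp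

/-- The exponents of the accuracy. -/
noncomputable def bs3 (h a₂ a₁ : ℝ) : Fin 3 → ℝ := ![a₁, a₂ - a₁, h / 32 - a₂]

/-- The exponents of the size. -/
noncomputable def zt3 (a₂ a₁ : ℝ) : Fin 3 → ℝ := ![0, a₁, a₂]

/-- The accuracy at the pivot. -/
theorem num_piv {h a₂ a₁ K : ℝ} {X : ℕ} (h12 : a₁ < a₂) (h2 : a₂ < h / 32)
    (hK : 1 ≤ K) (i : Fin 3) :
    (K * (2 : ℝ) ^ (-(h / 32 * X)) + tq ((2 : ℝ) ^ (-(a₂ * X))) ((2 : ℝ) ^ (-(a₁ * X))) i * K) /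
      tp ((2 : ℝ) ^ (-(a₂ * X))) ((2 : ℝ) ^ (-(a₁ * X))) i ≤
        3 * K * (2 : ℝ) ^ (-(bs3 h a₂ a₁ i * X)) := by
  have hX : (0 : ℝ) ≤ X := Nat.cast_nonneg X
  have hK0 : 0 ≤ K := by linarith
  have hle : ∀ x y : ℝ, x ≤ y → (2 : ℝ) ^ (-(y * X)) ≤ (2 : ℝ) ^ (-(x * X)) := fun x y h => by
    refine Real.rpow_le_rpow_of_exponent_le (by norm_num) ?_
    have := mul_le_mul_of_nonneg_right h hX
    linarith
  have hdiv : ∀ x y : ℝ, (2 : ℝ) ^ (-(x * X)) / (2 : ℝ) ^ (-(y * X)) =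
      (2 : ℝ) ^ (-((x - y) * X)) := fun x y => by
    rw [← Real.rpow_sub (by norm_num)]
    congr 1
    ring
  have hp : ∀ x : ℝ, 0 < (2 : ℝ) ^ (-(x * X)) := fun x => Real.rpow_pos_of_pos (by norm_num) _
  fin_cases i
  · show (K * (2 : ℝ) ^ (-(h / 32 * X)) + ((2 : ℝ) ^ (-(a₂ * X)) + (2 : ℝ) ^ (-(a₁ * X))) * K) / 1 ≤
      3 * K * (2 : ℝ) ^ (-(a₁ * X))
    rw [div_one]
    have g1 := mul_le_mul_of_nonneg_left (hle a₁ (h / 32) (by linarith)) hK0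
    have g2 := mul_le_mul_of_nonneg_left (hle a₁ a₂ h12.le) hK0
    linarith
  · show (K * (2 : ℝ) ^ (-(h / 32 * X)) + (2 : ℝ) ^ (-(a₂ * X)) * K) / (2 : ℝ) ^ (-(a₁ * X)) ≤
      3 * K * (2 : ℝ) ^ (-((a₂ - a₁) * X))
    have g1 := mul_le_mul_of_nonneg_left (hle a₂ (h / 32) h2.le) hK0
    rw [← hdiv]
    refine (div_le_div_of_nonneg_right (c := (2 : ℝ) ^ (-(a₁ * X)))
      (b := 2 * K * (2 : ℝ) ^ (-(a₂ * X))) (by linarith) (hp a₁).le).trans ?_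
    rw [mul_div_assoc]
    refine mul_le_mul_of_nonneg_right (by linarith) (div_nonneg (hp _).le (hp _).le)
  · show (K * (2 : ℝ) ^ (-(h / 32 * X)) + 0 * K) / (2 : ℝ) ^ (-(a₂ * X)) ≤
      3 * K * (2 : ℝ) ^ (-((h / 32 - a₂) * X))
    rw [zero_mul, add_zero, mul_div_assoc, hdiv]
    exact mul_le_mul_of_nonneg_right (by linarith) (hp _).le

/-- The size at the pivot. -/
theorem num_siz {a₂ a₁ : ℝ} {X : ℕ} (i : Fin 3) :
    1 / tp ((2 : ℝ) ^ (-(a₂ * X))) ((2 : ℝ) ^ (-(a₁ * X))) i = (2 : ℝ) ^ (zt3 a₂ a₁ i * X) := by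
  have h : ∀ x : ℝ, 1 / (2 : ℝ) ^ (-(x * X)) = (2 : ℝ) ^ (x * X) := fun x => by
    rw [Real.rpow_neg (by norm_num), one_div, inv_inv]
  fin_cases i
  · show 1 / (1 : ℝ) = (2 : ℝ) ^ ((0 : ℝ) * X)
    rw [zero_mul, Real.rpow_zero, div_one]
  · exact h a₁
  · exact h a₂

/-- One of three parts of an event. -/
theorem pig3 {Ω : Type} [Fintype Ω] {p : Ω → ℝ} (G : Ω → Prop) (f : Ω → Fin 3) :
    ∃ i, Pe p G / 3 ≤ Pe p (fun ω => G ω ∧ f ω = i) := by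
  classical
  have h1 : Pe p G = ∑ i : Fin 3, Pe p (fun ω => G ω ∧ f ω = i) := by
    simp only [Pe_ci]
    rw [Finset.sum_comm]
    refine Finset.sum_congr rfl fun ω _ => ?_
    rw [← Finset.mul_sum]
    congr 1
    by_cases hG : G ω
    · rw [ci1 hG, Finset.sum_eq_single (f ω)]
      · rw [ci1 ⟨hG, rfl⟩]
      · intro j _ hj
        exact ci0 fun h => hj h.2.symm
      · intro h
        exact absurd (Finset.mem_univ _) h
    · rw [ci0 hG]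
      symm
      exact Finset.sum_eq_zero fun j _ => ci0 fun h => hG h.1
  by_contra hcon
  push Not at hcon
  have h2 : ∑ i : Fin 3, Pe p (fun ω => G ω ∧ f ω = i) < ∑ _i : Fin 3, Pe p G / 3 :=
    Finset.sum_lt_sum_of_nonempty ⟨0, Finset.mem_univ _⟩ fun i _ => hcon i
  rw [Finset.sum_const, Finset.card_univ, Fintype.card_fin, nsmul_eq_mul] at h2
  push_cast at h2
  linarith

/-- The exclusion of an event. -/
theorem Pe_and_not {Ω : Type} [Fintype Ω] {p : Ω → ℝ} (hp : ∀ ω, 0 ≤ p ω) (G N : Ω → Prop) :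
    Pe p G - Pe p N ≤ Pe p (fun ω => G ω ∧ ¬ N ω) := by
  rw [Pe_ci, Pe_ci, Pe_ci, ← Finset.sum_sub_distrib]
  refine Finset.sum_le_sum fun ω _ => ?_
  by_cases hG : G ω <;> by_cases hN : N ω
  · rw [ci1 hG, ci1 hN, ci0 fun h => h.2 hN]
    linarith
  · rw [ci1 hG, ci0 hN, ci1 ⟨hG, hN⟩]
    linarith
  · rw [ci0 hG, ci1 hN, ci0 fun h => hG h.1]
    linarith [hp ω]
  · rw [ci0 hG, ci0 hN, ci0 fun h => hG h.1]
    linarith

/-- **The covector with a pivot and the polynomials.** -/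
theorem qh_lam (k n : ℕ) (hn : 1 ≤ n) {h a₂ a₁ σ : ℝ} (hh : 0 < h) (hh1 : h ≤ 1) (ha : 0 < a₁)
    (h12 : a₁ < a₂) (h2 : a₂ < h / 32) (hσ : 0 < σ) :
    ∃ io ϖ m₀ : ℝ, 0 < io ∧ 0 < ϖ ∧ 0 < m₀ ∧ ∀ C : ℝ, 1 ≤ C → ∃ X0 : ℕ,
    ∀ (H : QHd 3 k n) (ρ β σ' : Type) (S : H.Ω → ρ) (Wd : H.Ω → β) (Z : H.Ω → Fin 3 → ℤ)
      (Bs : H.Ω → σ') (X : ℕ), X0 ≤ X → D3H H S Wd Z Bs X C (io * X) h ϖ →
      ∃ (i : Fin 3) (lam : (Fin 3 → ℤ) × (H.Vt × H.B) → Fin 3 → ℝ)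
        (lamP : (Fin 3 → ℤ) × σ' → Fin 3 → ℝ)
        (ep : (Fin 3 → ℤ) × (H.Vt × H.B) → Fin (n + 1) → Fin k → ℝ) (G : H.Ω → Prop),
        m₀ ≤ Pe H.p G ∧ (∀ ω, G ω → lam (H.line ω) i = 1) ∧ (∀ x l, i < l → lam x l = 0) ∧
        (∀ x l, |lam x l| ≤ (2 : ℝ) ^ (zt3 a₂ a₁ i * X)) ∧
        (∀ z a u, |ep z a u| ≤ (2 : ℝ) ^ ((a₂ + σ) * X)) ∧
        (∀ ω, G ω → lam (H.line ω) = lamP (Z ω, Bs ω)) ∧
        (∀ ω, G ω → ∀ u, |∑ l, lam (H.line ω) l * H.E (H.th ω) u l -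
          ∑ a, ep (H.line ω) a u * ((H.tau (H.th ω) : ℝ) / 2 ^ X) ^ (a : ℕ)| ≤
            (2 : ℝ) ^ ((σ - bs3 h a₂ a₁ i) * X)) := by
  classical
  have hL2 : 0 < Real.log 2 := Real.log_pos (by norm_num)
  have hn0 : (0 : ℝ) ≤ n := Nat.cast_nonneg n
  obtain ⟨Wt, hWt⟩ : ∃ Wt : ℝ, Wt = 12 * (n + 2) := ⟨_, rfl⟩
  have hWt1 : 1 ≤ Wt := by rw [hWt]; linarith
  have hWt0 : 0 < Wt := by linarith
  obtain ⟨io1, ϖ, m₁, hio1, hϖ, hm₁, H1⟩ := qh_cov k n hn hh hh1 hWt1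
  obtain ⟨δ, hδ⟩ : ∃ δ : ℝ, δ = m₁ / (12 * (n + 2) ^ 2) := ⟨_, rfl⟩
  have hδ0 : 0 < δ := by rw [hδ]; positivity
  obtain ⟨s', hs'⟩ : ∃ s' : ℝ, s' = min (σ / 8) 1 / (n + 3) := ⟨_, rfl⟩
  have hs'm : 0 < min (σ / 8) 1 := lt_min (by positivity) one_pos
  have hs'0 : 0 < s' := by
    rw [hs']
    positivity
  have hs'n : s' * (n + 3) = min (σ / 8) 1 := by
    rw [hs']
    field_simp
  have hs'1 : s' * (n + 3) ≤ 1 := hs'n.le.trans (min_le_right _ _)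
  have hs'3 : s' * (n + 3) ≤ σ / 8 := hs'n.le.trans (min_le_left _ _)
  have hs'4 : s' ≤ 1 := by
    have h5 : s' * 1 ≤ s' * (n + 3) := mul_le_mul_of_nonneg_left (by linarith) hs'0.le
    linarith
  obtain ⟨io, hio⟩ : ∃ io : ℝ, io = min io1 (δ * s' * Real.log 2 / 64) := ⟨_, rfl⟩
  have hio0 : 0 < io := by
    rw [hio]
    exact lt_min hio1 (by positivity)
  have hi1 : io ≤ io1 := by rw [hio]; exact min_le_left _ _
  have hi2 : io ≤ δ * s' * Real.log 2 / 64 := by rw [hio]; exact min_le_right _ _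
  refine ⟨io, ϖ, m₁ / 6, hio0, hϖ, by positivity, fun C hC => ?_⟩
  obtain ⟨K, X1, hK1, H1⟩ := H1 C hC
  have hK0 : 0 < K := by linarith
  obtain ⟨X2, hX2⟩ := ex_lin (a := s') (b := 4) hs'0
  obtain ⟨X3, hX3⟩ := ex_pow (a := σ / 2) (b := (n + 1) * (3 * C * 2 ^ (n + 1))) (by positivity)
  obtain ⟨X4, hX4⟩ := ex_lin (a := δ * s' * Real.log 2 / 32) (b := Real.log 4) (by positivity)
  obtain ⟨X6, hX6⟩ := ex_pow (a := σ / 4) (b := 3 * K) (by positivity)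
  refine ⟨max (max X1 (max X2 X3)) (max X4 (max X6 1)),
    fun H ρ β σ' S Wd Z Bs X hX hH => ?_⟩
  obtain ⟨b1, b2⟩ := max_le_iff.1 hX
  obtain ⟨b1, b3⟩ := max_le_iff.1 b1
  obtain ⟨b3, b4⟩ := max_le_iff.1 b3
  obtain ⟨b7, b9⟩ := max_le_iff.1 b2
  obtain ⟨b9, b10⟩ := max_le_iff.1 b9
  have hX1 : (1 : ℝ) ≤ X := by exact_mod_cast b10
  have hX0 : (0 : ℝ) < X := by linarith
  replace hX2 := hX2 X b3
  replace hX3 := hX3 X b4
  replace hX4 := hX4 X b7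
  replace hX6 := hX6 X b9
  have hl := hH.ok.law
  have hl0 := hl.nonneg
  have h2X : (0 : ℝ) < 2 ^ X := by positivity
  obtain ⟨s, hs⟩ : ∃ s : ℝ, s = (2 : ℝ) ^ (-(s' * X)) := ⟨_, rfl⟩
  have hs0 : 0 < s := by rw [hs]; positivity
  have hs1 : s ≤ 1 := by
    rw [hs]
    have h5 : 0 ≤ s' * X := by positivity
    exact Real.rpow_le_one_of_one_le_of_nonpos (by norm_num) (by linarith)
  -- the covector
  obtain ⟨cov, covP, G₀, g1, g2, g3, g4, g5, g6, g7, g8⟩ := H1 H ρ β σ' S Wd Z Bs X b1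
    (hH.mono (mul_le_mul_of_nonneg_right hi1 hX0.le))
  obtain ⟨t₂, ht₂⟩ : ∃ t₂ : ℝ, t₂ = (2 : ℝ) ^ (-(a₂ * X)) := ⟨_, rfl⟩
  obtain ⟨t₁, ht₁⟩ : ∃ t₁ : ℝ, t₁ = (2 : ℝ) ^ (-(a₁ * X)) := ⟨_, rfl⟩
  have p2 : 0 < t₂ := by rw [ht₂]; positivity
  have p1 : 0 < t₁ := by rw [ht₁]; positivity
  have q2 : t₂ ≤ 1 := by
    rw [ht₂]
    have : 0 ≤ a₂ * X := by
      have : 0 < a₂ := by linarith
      positivity
    exact Real.rpow_le_one_of_one_le_of_nonpos (by norm_num) (by linarith)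
  have q1 : t₁ ≤ 1 := by
    rw [ht₁]
    have : 0 ≤ a₁ * X := by positivity
    exact Real.rpow_le_one_of_one_le_of_nonpos (by norm_num) (by linarith)
  obtain ⟨i, hi⟩ := pig3 (p := H.p) G₀ (fun ω => pix t₂ t₁ (cov (H.line ω)))
  obtain ⟨lam, hlam⟩ : ∃ lam : (Fin 3 → ℤ) × (H.Vt × H.B) → Fin 3 → ℝ, lam = fun x =>
    if pix t₂ t₁ (cov x) = i then pvt i (cov x) else fun _ => 0 := ⟨_, rfl⟩
  have l1 : ∀ x, pix t₂ t₁ (cov x) = i → lam x = pvt i (cov x) := fun x hx => by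
    rw [hlam]
    simp only
    rw [if_pos hx]
  have l2 : ∀ x, ¬ pix t₂ t₁ (cov x) = i → lam x = fun _ => 0 := fun x hx => by
    rw [hlam]
    simp only
    rw [if_neg hx]
  have lb : ∀ x l, |lam x l| ≤ (2 : ℝ) ^ (zt3 a₂ a₁ i * X) := fun x l => by
    by_cases hx : pix t₂ t₁ (cov x) = i
    · rw [l1 x hx, ← num_siz, ← ht₂, ← ht₁, ← hx]
      exact pvt_le p2 p1 q2 q1 (g1 x) (g3 x) l
    · rw [l2 x hx, abs_zero]
      positivity
  have hzt : zt3 a₂ a₁ i ≤ a₂ := by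
    unfold zt3
    fin_cases i
    · show (0 : ℝ) ≤ a₂
      linarith
    · exact h12.le
    · exact le_rfl
  obtain ⟨th', hth'⟩ : ∃ th' : H.Ω → (Fin 3 → ℝ) × H.Tt,
    th' = fun ω => (lam (H.line ω), H.th ω) := ⟨_, rfl⟩
  obtain ⟨tau', htau'⟩ : ∃ tau' : (Fin 3 → ℝ) × H.Tt → ℤ, tau' = fun x => H.tau x.2 := ⟨_, rfl⟩
  obtain ⟨E', hE'⟩ : ∃ E' : (Fin 3 → ℝ) × H.Tt → Fin k → Fin 1 → ℝ,
    E' = fun x u _ => ∑ i, x.1 i * H.E x.2 u i := ⟨_, rfl⟩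
  have htt : ∀ ω, tau' (th' ω) = H.tau (H.th ω) := fun ω => by rw [htau', hth']
  have hEE : ∀ ω u i, E' (th' ω) u i = ∑ j, lam (H.line ω) j * H.E (H.th ω) u j :=
    fun ω u i => by rw [hE', hth']
  obtain ⟨e, he⟩ : ∃ e : ℝ, e = 3 * K * (2 : ℝ) ^ (-(bs3 h a₂ a₁ i * X)) := ⟨_, rfl⟩
  have he0 : 0 < e := by rw [he]; positivity
  have hq1 := (tup_isLaw hl H.line (n + 2)).nonneg
  have r2 : Pb (tup H.p H.line (n + 2)) (fun w => ∃ u i,
      e < |dd n tau' E' u (fun j => th' (w j.succ)) i|) ≤ Pe H.p G₀ / Wt := by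
    rw [le_div_iff₀ hWt0, mul_comm]
    refine le_trans (mul_le_mul_of_nonneg_left (Pb_mono hq1 ?_) hWt0.le) g8
    rintro w hw ⟨u, j0, hu⟩
    refine ⟨u, ?_⟩
    have hj0 : j0 = 0 := Subsingleton.elim _ _
    have e1 : (fun j : Fin (n + 2) => th' (w j.succ)) =
        fun j => (lam (H.line (w 0)), (fun j : Fin (n + 2) => H.th (w j.succ)) j) := by
      funext j
      rw [hth']
      have e2 : H.line (w j.succ) = H.line (w 0) := tup_line hl.nonneg H.line hw _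
      simp only
      rw [e2]
    rw [hj0, e1, hE', htau', dd_cov] at hu
    by_contra hcon
    push Not at hcon
    refine absurd hu (not_lt.2 ?_)
    by_cases hx : pix t₂ t₁ (cov (H.line (w 0))) = i
    · have k1 := pvt_sum p2 p1 q2 q1 (g3 (H.line (w 0)))
        (y := dd n H.tau H.E u fun j => H.th (w j.succ)) (K := K)
        (fun l => g7 (fun j => w j.succ) u l) hcon
      rw [hx] at k1
      rw [l1 _ hx, he]
      refine k1.trans ?_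
      rw [ht₂, ht₁]
      exact num_piv h12 h2 hK1 i
    · rw [l2 _ hx]
      simp only [zero_mul, Finset.sum_const_zero, abs_zero]
      exact he0.le
  -- the times
  have r3 : Pb (tup H.p H.line 1) (fun w =>
      |((tau' (th' (w 0)) - tau' (th' (w 1)) : ℤ) : ℝ)| ≤ s * 2 ^ X) ≤ δ := by
    have h1 := far_tm hl H.line (fun ω => H.tau (H.th ω)) hH.ok.tau_r (okd_tm hH.ok) hs'4 hX2
    rw [← hs] at h1
    simp only [htt]
    have h2 : 0 < s' * X / 2 * Real.log 2 := by positivity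
    rw [← le_div_iff₀ h2] at h1
    refine h1.trans ?_
    rw [div_le_iff₀ h2]
    have h3 := mul_le_mul_of_nonneg_right hi2 hX0.le
    linarith
  -- the polynomials
  have hEb : ∀ ω u i, |E' (th' ω) u i| ≤ 3 * C * (2 : ℝ) ^ (a₂ * X) := fun ω u i => by
    rw [hEE, Fin.sum_univ_three]
    have gg : ∀ l, |lam (H.line ω) l * H.E (H.th ω) u l| ≤ (2 : ℝ) ^ (a₂ * X) * C := fun l => by
      rw [abs_mul]
      exact mul_le_mul ((lb _ l).trans (Real.rpow_le_rpow_of_exponent_le (by norm_num)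
        (mul_le_mul_of_nonneg_right hzt hX0.le))) (hH.ok.E_b ω u l) (abs_nonneg _)
        (by positivity)
    have g1 := abs_add_le (lam (H.line ω) 0 * H.E (H.th ω) u 0 +
      lam (H.line ω) 1 * H.E (H.th ω) u 1) (lam (H.line ω) 2 * H.E (H.th ω) u 2)
    have g2 := abs_add_le (lam (H.line ω) 0 * H.E (H.th ω) u 0)
      (lam (H.line ω) 1 * H.E (H.th ω) u 1)
    linarith [gg 0, gg 1, gg 2]
  obtain ⟨ep, hb, hP⟩ := con_d hl H.line th' tau' n E' (C := 3 * C * (2 : ℝ) ^ (a₂ * X)) (s := s)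
    (e := e) (X := X) hs0 hs1 (fun ω => by rw [htt]; exact hH.ok.tau_r ω) hEb r2 r3
  have hpw : (2 / s) ^ (n + 1) ≤ 2 ^ (n + 1) * (2 : ℝ) ^ (σ / 2 * X) := by
    rw [div_pow, div_eq_mul_inv]
    refine mul_le_mul_of_nonneg_left ?_ (by positivity)
    rw [hs, ← Real.rpow_natCast ((2 : ℝ) ^ (-(s' * X))), ← Real.rpow_mul (by norm_num),
      ← Real.rpow_neg (by norm_num)]
    refine Real.rpow_le_rpow_of_exponent_le (by norm_num) ?_
    have h5 : -(-(s' * (X : ℝ)) * ((n + 1 : ℕ) : ℝ)) = (s' * (n + 3) - 2 * s') * X := by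
      push_cast
      ring
    rw [h5]
    exact mul_le_mul_of_nonneg_right (by linarith) hX0.le
  have hCb : (n + 1) * (3 * C * (2 : ℝ) ^ (a₂ * X) * (2 / s) ^ (n + 1)) ≤
      (2 : ℝ) ^ ((a₂ + σ) * X) := by
    have e1 : (2 : ℝ) ^ ((a₂ + σ) * X) = (2 : ℝ) ^ (a₂ * X) *
        ((2 : ℝ) ^ (σ / 2 * X) * (2 : ℝ) ^ (σ / 2 * X)) := by
      rw [← Real.rpow_add (by norm_num), ← Real.rpow_add (by norm_num)]
      congr 1
      ring
    rw [e1]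
    calc (n + 1) * (3 * C * (2 : ℝ) ^ (a₂ * X) * (2 / s) ^ (n + 1)) ≤
          (n + 1) * (3 * C * (2 : ℝ) ^ (a₂ * X) * (2 ^ (n + 1) * (2 : ℝ) ^ (σ / 2 * X))) := by
          gcongr
      _ = (2 : ℝ) ^ (a₂ * X) * ((n + 1) * (3 * C * 2 ^ (n + 1)) * (2 : ℝ) ^ (σ / 2 * X)) := by
          ring
      _ ≤ _ := mul_le_mul_of_nonneg_left (mul_le_mul_of_nonneg_right hX3 (by positivity))
          (by positivity)
  have herr : e / s ^ (n + 2) ≤ (2 : ℝ) ^ ((σ - bs3 h a₂ a₁ i) * X) := by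
    have h1 : e / s ^ (n + 2) = 3 * K * (2 : ℝ) ^ (s' * (n + 2) * X - bs3 h a₂ a₁ i * X) := by
      rw [he, mul_div_assoc, hs, ← Real.rpow_natCast ((2 : ℝ) ^ (-(s' * X))),
        ← Real.rpow_mul (by norm_num), ← Real.rpow_sub (by norm_num)]
      congr 2
      push_cast
      ring
    rw [h1]
    calc 3 * K * (2 : ℝ) ^ (s' * (n + 2) * X - bs3 h a₂ a₁ i * X) ≤
          (2 : ℝ) ^ (σ / 4 * X) * (2 : ℝ) ^ (s' * (n + 2) * X - bs3 h a₂ a₁ i * X) :=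
          mul_le_mul_of_nonneg_right hX6 (by positivity)
      _ = (2 : ℝ) ^ (σ / 4 * X + (s' * (n + 2) * X - bs3 h a₂ a₁ i * X)) := by
          rw [← Real.rpow_add (by norm_num)]
      _ ≤ _ := by
          refine Real.rpow_le_rpow_of_exponent_le (by norm_num) ?_
          have h2 : s' * (n + 2) ≤ σ / 4 := by
            have h5 : s' * (n + 2) = s' * (n + 3) - s' := by ring
            linarith
          have h3 := mul_le_mul_of_nonneg_right h2 hX0.le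
          have h4 : 0 ≤ σ * X := by positivity
          linarith
  have hmass : ((n : ℝ) + 2) * (Pe H.p G₀ / Wt) + (n + 2) ^ 2 * δ ≤ Pe H.p G₀ / 6 := by
    have h1 : ((n : ℝ) + 2) * (Pe H.p G₀ / Wt) = Pe H.p G₀ / 12 := by
      rw [hWt]
      field_simp
    have h2 : ((n : ℝ) + 2) ^ 2 * δ = m₁ / 12 := by
      rw [hδ]
      field_simp
    rw [h1, h2]
    linarith
  obtain ⟨Nb, hNb⟩ : ∃ Nb : H.Ω → Prop, Nb = fun ω => ¬ ∀ u i, |E' (th' ω) u i -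
      ∑ a, ep (H.line ω) a u i * ((tau' (th' ω) : ℝ) / 2 ^ X) ^ (a : ℕ)| ≤ e / s ^ (n + 2) :=
    ⟨_, rfl⟩
  rw [← hNb] at hP
  have hPN : Pe H.p Nb ≤ Pe H.p G₀ / 6 := by
    rw [← Pb_Pe]
    exact hP.trans hmass
  refine ⟨i, lam, fun z => if pix t₂ t₁ (covP z) = i then pvt i (covP z) else fun _ => 0,
    fun z a u => ep z a u 0, fun ω => (G₀ ω ∧ pix t₂ t₁ (cov (H.line ω)) = i) ∧ ¬ Nb ω,
    ?_, ?_, ?_, lb, fun z a u => (hb z a u 0).trans hCb, ?_, ?_⟩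
  · have h1 := Pe_and_not hl0 (fun ω => G₀ ω ∧ pix t₂ t₁ (cov (H.line ω)) = i) Nb
    have h2 : m₁ / 6 ≤ Pe H.p G₀ / 6 := by linarith
    linarith
  · intro ω hω
    obtain ⟨⟨w1, w2⟩, -⟩ := hω
    rw [l1 _ w2]
    have hbig := pix_big q2 q1 (g5 ω w1)
    rw [w2] at hbig
    exact pvt_self (abs_pos.1 ((tp_pos p2 p1 i).trans_le hbig))
  · intro x l hl'
    by_cases hx : pix t₂ t₁ (cov x) = i
    · rw [l1 x hx]
      exact pvt_zero i l _ hl'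
    · rw [l2 x hx]
  · intro ω hω
    obtain ⟨⟨w1, w2⟩, -⟩ := hω
    rw [l1 _ w2]
    rw [g6 ω w1] at w2 ⊢
    show pvt i (covP (Z ω, Bs ω)) =
      if pix t₂ t₁ (covP (Z ω, Bs ω)) = i then pvt i (covP (Z ω, Bs ω)) else fun _ => 0
    rw [if_pos w2]
  · intro ω hω u
    obtain ⟨-, w3⟩ := hω
    rw [hNb, not_not] at w3
    have h1 := w3 u 0
    rw [hEE, htt] at h1
    exact h1.trans herr

end Pool.DR24
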