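import Pool.Agent.H21.DIR.Pair

/-!
# DR3: `N + 1` full bodies in dimension `N + 1`

`dc V a` is the determinant of the columns `a k` of the bodies `V k`. `tup_low`: if an integer vector
is full in all bodies given `Y`, then its entropy given `Y` is at least the logarithm of `dc`.
`massN`: against a row which is not full.
-/

set_option autoImplicit false

namespace Pool.DR24

open Finset Real Matrix
open Pool.Agent.H49.Ent Pool.Agent.H32.Dense Pool.STK Pool.POT Pool.FAD Pool.SLO Pool.TQ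
open Pool.K2S (Pe)
open Pool.DIR21 (mg_cond)

/-- The determinant of the columns `a k` of the matrices `V k`. -/
noncomputable def dc {n : ℕ} (V : Fin n → Matrix (Fin n) (Fin n) ℝ) (a : Fin n → Fin n) : ℝ :=
  (Matrix.of fun i k => V k i (a k)).det

theorem abs_det_le {n : ℕ} (M : Matrix (Fin n) (Fin n) ℝ) {b : ℝ} (h : ∀ i j, |M i j| ≤ b) :
    |M.det| ≤ (Nat.factorial n) * b ^ n := by
  rw [Matrix.det_apply]
  refine (Finset.abs_sum_le_sum_abs _ _).trans ?_
  refine (Finset.sum_le_sum (g := fun _ => b ^ n) fun σ _ => ?_).trans (le_of_eq ?_)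
  · have e1 : |Equiv.Perm.sign σ • ∏ i, M (σ i) i| = ∏ i, |M (σ i) i| := by
      rw [← Finset.abs_prod]
      rcases Int.units_eq_one_or (Equiv.Perm.sign σ) with h1 | h1 <;> rw [h1]
      · simp
      · simp
    rw [e1]
    refine (Finset.prod_le_prod (fun _ _ => abs_nonneg _) fun i _ => h (σ i) i).trans
      (le_of_eq ?_)
    rw [Finset.prod_const, Finset.card_univ, Fintype.card_fin]
  · rw [Finset.sum_const, Finset.card_univ, Fintype.card_perm, Fintype.card_fin, nsmul_eq_mul]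

/-- The columns in a larger body. -/
theorem dc_inc {n : ℕ} {V : Fin n → Matrix (Fin n) (Fin n) ℝ} {S : Matrix (Fin n) (Fin n) ℝ}
    (hS : S.det ≠ 0) {c : ℝ} (h : ∀ k, Inc c (V k) S) (a : Fin n → Fin n) :
    |dc V a| ≤ |S.det| * ((Nat.factorial n) * c ^ n) := by
  have e1 : (Matrix.of fun i k => V k i (a k)) =
      S * (Matrix.of fun i k => (S⁻¹ * V k) i (a k)) := by
    ext i k
    rw [Matrix.mul_apply]
    simp only [Matrix.of_apply]
    have e2 : S * (S⁻¹ * V k) = V k := by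
      rw [← Matrix.mul_assoc, Matrix.mul_nonsing_inv _ (isUnit_iff_ne_zero.2 hS), Matrix.one_mul]
    have e3 := congrFun (congrFun e2 i) (a k)
    rw [Matrix.mul_apply] at e3
    exact e3.symm
  unfold dc
  rw [e1, Matrix.det_mul, abs_mul]
  refine mul_le_mul_of_nonneg_left (abs_det_le _ fun i k => ?_) (abs_nonneg _)
  rw [Matrix.of_apply]
  exact (Finset.single_le_sum (f := fun j => |(S⁻¹ * V k) i j|) (fun _ _ => abs_nonneg _)
    (Finset.mem_univ (a k))).trans (h k i)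

/-- The constant. -/
noncomputable def Kd (N : ℕ) : ℝ :=
  (Nat.factorial (N + 1)) * ((((N : ℝ) + 1) + 1) ^ N) ^ (N + 1)

theorem Kd_pos (N : ℕ) : 0 < Kd N := by
  unfold Kd
  have := Nat.factorial_pos (N + 1)
  positivity

variable {Ω ζ : Type} [Fintype Ω] {p : Ω → ℝ} {N : ℕ}

/-- **`N + 1` full bodies.** -/
theorem tup_low (hp : IsLaw p) (X : ℕ)
    {V : Fin (N + 1) → Ω → Matrix (Fin (N + 1)) (Fin (N + 1)) ℝ}
    (n : Ω → Fin (N + 1) → ℤ) (Y : Ω → ζ) (hdV : ∀ k, Det p Y (V k))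
    (hV : ∀ k ω, (V k ω).det ≠ 0) {c₀ : ℝ} (hc : 0 ≤ c₀)
    (hTV : ∀ k ω, Inc c₀ (Tx (N + 1) X) (V k ω)) {e : ℝ}
    (h : ∀ k, DF p (fun _ => Tx (N + 1) X) (V k) (fun ω => xv X (n ω)) Y ≤ e) {r : ℝ}
    (hr : 0 < r)
    (hw : ∀ ω, 0 < p ω → ∃ a : Fin (N + 1) → Fin (N + 1), r ≤ |dc (fun k => V k ω) a|) :
    Real.log r + (N + 1) * (X * Real.log 2) - ((N + 1) * e + CS (N + 1) c₀ N) -
      Real.log (Kd N) ≤ CH p n Y := by
  have h0 := hp.nonneg
  obtain ⟨S, s1, s2, s3, s4⟩ := DF_sum h0 hp.sum_one (T := fun _ => Tx (N + 1) X)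
    (fun ω => xv X (n ω)) Y (fun _ _ _ _ _ => rfl) (fun _ => Tx_det (N + 1) X) hc N V hdV hV hTV
  rw [DF_xv p X S] at s4
  have s5 : ∑ k, DF p (fun _ => Tx (N + 1) X) (V k) (fun ω => xv X (n ω)) Y ≤ (N + 1) * e := by
    refine (Finset.sum_le_sum fun k _ => h k).trans (le_of_eq ?_)
    rw [Finset.sum_const, Finset.card_univ, Fintype.card_fin, nsmul_eq_mul]
    push_cast
    ring
  have k1 : Real.log r - Real.log (Kd N) + (N + 1) * (X * Real.log 2) ≤
      Ex p (fun ω => lv (S ω) - lv (Tx (N + 1) X)) := by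
    rw [← Ex_const hp.sum_one (Real.log r - Real.log (Kd N) + (N + 1) * (X * Real.log 2))]
    refine Ex_mono h0 fun ω hω => ?_
    obtain ⟨a, ha⟩ := hw ω hω
    have l1 : r ≤ |(S ω).det| * Kd N := by
      have := dc_inc (s2 ω) (fun k => s3 k ω) a
      refine ha.trans (this.trans (le_of_eq ?_))
      unfold Kd
      push_cast
      ring
    have l2 : Real.log r ≤ lv (S ω) + Real.log (Kd N) := by
      unfold lv
      rw [← Real.log_mul (abs_ne_zero.2 (s2 ω)) (Kd_pos N).ne']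
      exact Real.log_le_log hr l1
    have l3 : lv (Tx (N + 1) X) = -((N + 1) * (X * Real.log 2)) := by
      rw [lv_Tx]
      push_cast
      ring
    rw [l3]
    linarith
  have k2 : CH p n (fun ω => (cl (S ω) (xv X (n ω)), Y ω)) ≤ CH p n Y :=
    CH_mono_cond h0 fun ω ω' _ _ h => (Prod.ext_iff.mp h).2
  linarith

/-! ### Against a row -/

variable {Γ σ : Type} [Fintype Γ] {q : Γ → ℝ} {f : Γ → Ω}

/-- **`N + 1` bodies against a row.** -/
theorem massN (hp : IsLaw p) (hq : IsLaw q) (X : ℕ) {F₀ : ℝ} (hF : 0 < F₀)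
    (hden : ∀ ω, mg q f ω ≤ F₀ * p ω) (Z : Ω → Fin (N + 1) → ℤ) (Bs : Ω → σ)
    {V : Fin (N + 1) → Γ → Matrix (Fin (N + 1)) (Fin (N + 1)) ℝ} (Y : Γ → ζ)
    (hdV : ∀ k, Det q Y (V k)) (hdS : Det q Y (fun w => Bs (f w)))
    (hV : ∀ k w, (V k w).det ≠ 0) {c₀ : ℝ} (hc : 0 ≤ c₀)
    (hTV : ∀ k w, Inc c₀ (Tx (N + 1) X) (V k w)) {e : ℝ}
    (h : ∀ k, DF q (fun _ => Tx (N + 1) X) (V k) (fun w => xv X (Z (f w))) Y ≤ e) {r : ℝ}
    (hr : 0 < r) {m : ℝ} (hm : 0 < m)
    (hG : m ≤ Pe q fun w => ∃ a : Fin (N + 1) → Fin (N + 1), r < |dc (fun k => V k w) a|)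
    {C ϖ R : ℝ} (hC : 0 ≤ C) (hϖ : 0 ≤ ϖ) (hR : 0 ≤ R) (hZ : ∀ ω i, |(Z ω i : ℝ)| ≤ C * 2 ^ X)
    (nf : ∀ G : Ω → Prop, ϖ ≤ Pe p G → 0 < Pe p G → CH (cond p G True) Z Bs ≤ R)
    {K : ℕ} (hK : 0 < K) :
    Real.log r + (N + 1) * (X * Real.log 2) -
        ((N + 1) * ((e + |Cc (N + 1) c₀|) / m) + CS (N + 1) c₀ N) - Real.log (Kd N) ≤
      R + (F₀ / m / K + F₀ / m * ϖ) * ((N + 1) * Real.log (4 * (C * 2 ^ X) + 1)) +
        Real.log (K + 1) := by
  classical
  obtain ⟨G, hGd⟩ : ∃ G : Γ → Prop, G = fun w =>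
    ∃ a : Fin (N + 1) → Fin (N + 1), r < |dc (fun k => V k w) a| := ⟨_, rfl⟩
  rw [← hGd] at hG
  have hG0 : 0 < Pe q G := hm.trans_le hG
  have hq0 := hq.nonneg
  have hdG : Det q Y G := by
    intro w w' a b e
    rw [hGd]
    have e1 : ∀ k, V k w = V k w' := fun k => hdV k w w' a b e
    simp only [e1]
  have hrL : IsLaw (cond q G True) := cond_law hq0 hG0
  have hpos : ∀ w, 0 < cond q G True w → 0 < q w ∧ G w := fun w hw => by
    have := (cond_pos_iff hq0 G True w).1 hw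
    exact ⟨this.1, of_eq_true this.2⟩
  have hdf : ∀ V : Γ → Matrix (Fin (N + 1)) (Fin (N + 1)) ℝ, Det q Y V →
      (∀ w, (V w).det ≠ 0) → (∀ w, Inc c₀ (Tx (N + 1) X) (V w)) →
      DF q (fun _ => Tx (N + 1) X) V (fun w => xv X (Z (f w))) Y ≤ e →
      DF (cond q G True) (fun _ => Tx (N + 1) X) V (fun w => xv X (Z (f w))) Y ≤
        (e + |Cc (N + 1) c₀|) / m := by
    intro V hdV hV hTV h
    have k1 := DF_ev hq (G := G) (T := fun _ => Tx (N + 1) X) (V := V)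
      (fun w => xv X (Z (f w))) Y hdG (fun _ _ _ _ _ => rfl) hdV (fun _ => Tx_det (N + 1) X)
      hV hc hTV hG0
    have k2 := DF_ge hq0 hq.sum_one (T := fun _ => Tx (N + 1) X) (V := V)
      (fun w => xv X (Z (f w))) Y (fun _ _ _ _ _ => rfl) hdV (fun _ => Tx_det (N + 1) X)
      hV hc hTV
    have k3 : 0 ≤ e + |Cc (N + 1) c₀| := by
      have := le_abs_self (Cc (N + 1) c₀)
      linarith
    refine k1.trans ?_
    calc (DF q (fun _ => Tx (N + 1) X) V (fun w => xv X (Z (f w))) Y + |Cc (N + 1) c₀|) /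
          Pe q G ≤ (e + |Cc (N + 1) c₀|) / Pe q G :=
          div_le_div_of_nonneg_right (by linarith) hG0.le
      _ ≤ _ := div_le_div_of_nonneg_left k3 hm hG
  have k1 := tup_low hrL X (fun w => Z (f w)) Y
    (fun k w w' a b => hdV k w w' (hpos w a).1 (hpos w' b).1) hV hc hTV
    (fun k => hdf (V k) (hdV k) (hV k) (hTV k) (h k)) hr (fun w hw => by
      have h3 := (hpos w hw).2
      rw [hGd] at h3
      obtain ⟨a, h4⟩ := h3
      exact ⟨a, h4.le⟩)
  have k2 : CH (cond q G True) (fun w => Z (f w)) Y ≤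
      CH (cond q G True) (fun w => Z (f w)) (fun w => Bs (f w)) :=
    CH_mono_cond hrL.nonneg fun w w' a b h => hdS w w' (hpos w a).1 (hpos w' b).1 h
  have k3 := (im_mg (cond q G True) f).CH Z Bs
  have hGn : 0 ≤ ((N : ℝ) + 1) * Real.log (4 * (C * 2 ^ X) + 1) := by
    have : 0 ≤ Real.log (4 * (C * 2 ^ X) + 1) := Real.log_nonneg (by
      have : (0 : ℝ) ≤ C * 2 ^ X := by positivity
      linarith)
    positivity
  have k4 := dens_up hp (mg_law hrL f) (F := F₀ / m) (m₀ := ϖ) (b := R)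
    (G := ((N : ℝ) + 1) * Real.log (4 * (C * 2 ^ X) + 1)) (by positivity)
    (mg_cond hq hden hm hG) hϖ hR hGn Z Bs nf (fun q' hq' _ => by
      have := CH_cnt hq' Z Bs (fun ω _ i => hZ ω i)
      push_cast at this
      exact this) hK
  rw [← k3] at k4
  linarith

end Pool.DR24
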