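import Pool.Agent.H24.DR3.Vec3
import Pool.Agent.H16.DIR.Cnt

/-!
# DR3: the upper digits of a vector which is full in one or in two long bodies

`V1`, `V2`: the bodies with one and with two long columns. `low1`, `low2`: lower bounds of the entropy
of the upper digits, given the cell.
-/

set_option autoImplicit false

namespace Pool.DR24

open Finset Real Matrix
open Pool.Agent.H49.Ent Pool.Agent.H32.Dense Pool.STK Pool.POT Pool.FAD Pool.SLO Pool.TQ
open Pool.K2S (Pe)
open Pool.AVG71 (CH_pair_int)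
open Pool.DIR16 (ediv_same)

/-- The difference of two vectors of one cell. -/
theorem cell_dc {c : ℕ} {V : Matrix (Fin c) (Fin c) ℝ} (hV : V.det ≠ 0) {x y : Fin c → ℝ}
    (h : cl V x = cl V y) : ∃ u : Fin c → ℝ, (∀ j, |u j| ≤ 1) ∧
      ∀ i, x i - y i = ∑ a, V i a * u a := by
  refine ⟨V⁻¹ *ᵥ (x - y), fun j => ?_, fun i => ?_⟩
  · have h1 : ⌊(V⁻¹ *ᵥ x) j⌋ = ⌊(V⁻¹ *ᵥ y) j⌋ := congrFun h j
    rw [Matrix.mulVec_sub, Pi.sub_apply]
    exact (Int.abs_sub_lt_one_of_floor_eq_floor h1).le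
  · have h1 : V *ᵥ (V⁻¹ *ᵥ (x - y)) = x - y := by
      rw [Matrix.mulVec_mulVec, Matrix.mul_nonsing_inv _ (isUnit_iff_ne_zero.2 hV),
        Matrix.one_mulVec]
    have h2 := congrFun h1 i
    rw [Pi.sub_apply] at h2
    rw [← h2]
    rfl

/-- The body with the long column `v` at the place `j`. -/
noncomputable def V1 (X : ℕ) (j : Fin 3) (v : Fin 3 → ℝ) : Matrix (Fin 3) (Fin 3) ℝ :=
  Matrix.of fun i a => if a = j then v i else if i = a then ((2 : ℝ) ^ X)⁻¹ else 0

/-- The body with the long columns `v`, `w` at the places other than `j`. -/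
noncomputable def V2 (X : ℕ) (j : Fin 3) (v w : Fin 3 → ℝ) : Matrix (Fin 3) (Fin 3) ℝ :=
  Matrix.of fun i a => if a = j then (if i = a then ((2 : ℝ) ^ X)⁻¹ else 0) else
    if a = j + 1 then v i else w i

theorem V1_det (X : ℕ) (j : Fin 3) (v : Fin 3 → ℝ) :
    (V1 X j v).det = v j * (((2 : ℝ) ^ X)⁻¹ * ((2 : ℝ) ^ X)⁻¹) := by
  unfold V1
  rw [Matrix.det_fin_three]
  fin_cases j <;>
  · simp [Matrix.of_apply]
    try ring

theorem V2_det (X : ℕ) (j : Fin 3) (v w : Fin 3 → ℝ) :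
    (V2 X j v w).det = ((2 : ℝ) ^ X)⁻¹ * cr v w j := by
  unfold V2 cr
  rw [Matrix.det_fin_three]
  fin_cases j <;>
  · simp [Matrix.of_apply]
    try ring

/-- The differences in a cell of `V1`. -/
theorem V1_dif {X : ℕ} {j : Fin 3} {v u D : Fin 3 → ℝ} (hv : v j ≠ 0) (hu : ∀ a, |u a| ≤ 1)
    (h : ∀ i, D i = ∑ a, V1 X j v i a * u a) (i : Fin 3) :
    |2 ^ X * (D i - v i / v j * D j)| ≤ 1 := by
  have hX : (0 : ℝ) < 2 ^ X := by positivity
  have e1 : ∀ i, i ≠ j → 2 ^ X * (D i - v i / v j * D j) = u i := by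
    intro i hi
    have a1 := h i
    have a2 := h j
    rw [Fin.sum_univ_three] at a1 a2
    unfold V1 at a1 a2
    simp only [Matrix.of_apply] at a1 a2
    have hv' := hv
    fin_cases j <;> fin_cases i <;> simp at a1 a2 hi hv' ⊢ <;>
    · rw [a1, a2]
      field_simp
      ring
  by_cases hi : i = j
  · rw [hi, div_self hv, one_mul, sub_self, mul_zero, abs_zero]
    exact zero_le_one
  · rw [e1 i hi]
    exact hu i

/-- The differences in a cell of `V2`. -/
theorem V2_dif {X : ℕ} {j : Fin 3} {v w u D : Fin 3 → ℝ} (hx : cr v w j ≠ 0)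
    (hu : ∀ a, |u a| ≤ 1) (h : ∀ i, D i = ∑ a, V2 X j v w i a * u a) :
    |2 ^ X * ∑ i, cr v w i / cr v w j * D i| ≤ 1 := by
  have hX : (0 : ℝ) < 2 ^ X := by positivity
  have e1 : 2 ^ X * ∑ i, cr v w i / cr v w j * D i = u j := by
    have a0 := h 0
    have a1 := h 1
    have a2 := h 2
    rw [Fin.sum_univ_three] at a0 a1 a2
    unfold V2 at a0 a1 a2
    simp only [Matrix.of_apply] at a0 a1 a2
    have hs : ∑ i, cr v w i / cr v w j * D i = dp (cr v w) D / cr v w j := by
      rw [Fin.sum_univ_three]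
      unfold dp
      ring
    rw [hs, mul_div_assoc', div_eq_iff hx]
    unfold dp cr
    fin_cases j <;> simp at a0 a1 a2 ⊢ <;>
    · rw [a0, a1, a2]
      field_simp
      ring
  rw [e1]
  exact hu j

theorem fin3_all (j i : Fin 3) : i = j ∨ (i = j + 1 ∨ i = j + 2) := by
  revert i j
  decide

/-- Inclusion, column by column. -/
theorem inc_col {V S : Matrix (Fin 3) (Fin 3) ℝ} {m : ℝ} (h : ∀ i a, |(S⁻¹ * V) i a| ≤ m) :
    Inc (3 * m) V S := by
  intro i
  rw [Fin.sum_univ_three]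
  have h0 := h i 0
  have h1 := h i 1
  have h2 := h i 2
  linarith

/-- The entries. -/
theorem inc_ent {V S : Matrix (Fin 3) (Fin 3) ℝ} {m : ℝ} (h : Inc m V S) (i a : Fin 3) :
    |(S⁻¹ * V) i a| ≤ m :=
  (Finset.single_le_sum (f := fun j => |(S⁻¹ * V) i j|) (fun _ _ => abs_nonneg _)
    (Finset.mem_univ a)).trans (h i)

/-- The columns of a product. -/
theorem mul_col {V S A : Matrix (Fin 3) (Fin 3) ℝ} {a b : Fin 3} (h : ∀ k, V k a = A k b)
    (i : Fin 3) : (S⁻¹ * V) i a = (S⁻¹ * A) i b := by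
  rw [Matrix.mul_apply, Matrix.mul_apply]
  exact Finset.sum_congr rfl fun k _ => by rw [h k]

theorem Tx_ent (X : ℕ) (k a : Fin 3) : Tx 3 X k a = if k = a then ((2 : ℝ) ^ X)⁻¹ else 0 := by
  unfold Tx
  rw [Matrix.diagonal_apply]

/-- `V1` in a body. -/
theorem V1_inc {X : ℕ} {j : Fin 3} {A S : Matrix (Fin 3) (Fin 3) ℝ} {m : ℝ} {b : Fin 3}
    (hA : Inc m A S) (hT : Inc m (Tx 3 X) S) : Inc (3 * m) (V1 X j fun i => A i b) S := by
  refine inc_col fun i a => ?_
  by_cases h : a = j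
  · rw [mul_col (A := A) (b := b) (fun k => by
      unfold V1
      rw [Matrix.of_apply, if_pos h])]
    exact inc_ent hA i b
  · rw [mul_col (A := Tx 3 X) (b := a) (fun k => by
      unfold V1
      rw [Matrix.of_apply, if_neg h, Tx_ent])]
    exact inc_ent hT i a

/-- `V2` in a body. -/
theorem V2_inc {X : ℕ} {j : Fin 3} {A B S : Matrix (Fin 3) (Fin 3) ℝ} {m : ℝ} {a₁ b₁ : Fin 3}
    (hA : Inc m A S) (hB : Inc m B S) (hT : Inc m (Tx 3 X) S) :
    Inc (3 * m) (V2 X j (fun i => A i a₁) fun i => B i b₁) S := by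
  refine inc_col fun i a => ?_
  by_cases h : a = j
  · rw [mul_col (A := Tx 3 X) (b := a) (fun k => by
      unfold V2
      rw [Matrix.of_apply, if_pos h, Tx_ent])]
    exact inc_ent hT i a
  · by_cases h' : a = j + 1
    · rw [mul_col (A := A) (b := a₁) (fun k => by
        unfold V2
        rw [Matrix.of_apply, if_neg h, if_pos h'])]
      exact inc_ent hA i a₁
    · rw [mul_col (A := B) (b := b₁) (fun k => by
        unfold V2
        rw [Matrix.of_apply, if_neg h, if_neg h'])]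
      exact inc_ent hB i b₁

theorem inc_self {S : Matrix (Fin 3) (Fin 3) ℝ} (hS : S.det ≠ 0) : Inc 1 S S := by
  intro i
  rw [Matrix.nonsing_inv_mul _ (isUnit_iff_ne_zero.2 hS)]
  rw [Finset.sum_eq_single i]
  · simp
  · intro j _ hj
    rw [Matrix.one_apply_ne hj.symm, abs_zero]
  · intro h
    exact absurd (Finset.mem_univ i) h

variable {Γ ζ : Type} [Fintype Γ] {q : Γ → ℝ}

/-- The vector given the cell. -/
theorem low_aux (hq : IsLaw q) {X : ℕ} {V S : Γ → Matrix (Fin 3) (Fin 3) ℝ}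
    (n : Γ → Fin 3 → ℤ) (Y : Γ → ζ) (hdV : Det q Y V) (hdS : Det q Y S)
    (hV : ∀ w, (V w).det ≠ 0) (hS : ∀ w, (S w).det ≠ 0) {m : ℝ} (hm : 0 ≤ m)
    (hi : ∀ w, Inc m (V w) (S w)) {e : ℝ}
    (h1 : DF q (fun _ => Tx 3 X) S (fun w => xv X (n w)) Y ≤ e) {l : ℝ}
    (hl : ∀ w, 0 < q w → l ≤ lv (V w)) :
    l + 3 * (X * Real.log 2) - e - Cc 3 m ≤
      CH q n (fun w => (cl (V w) (xv X (n w)), Y w)) := by
  have h0 := hq.nonneg
  have k1 := DF_mono h0 hq.sum_one (T := fun _ => Tx 3 X) (fun w => xv X (n w)) Y hdV hdS hV hS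
    hm hi
  rw [DF_xv q X V] at k1
  have k2 : l + 3 * (X * Real.log 2) ≤ Ex q (fun w => lv (V w) - lv (Tx 3 X)) := by
    rw [← Ex_const hq.sum_one (l + 3 * (X * Real.log 2))]
    refine Ex_mono h0 fun w hw => ?_
    rw [lv_Tx]
    have := hl w hw
    push_cast
    linarith
  linarith

theorem log_t (t : ℕ) : Real.log (2 * 2 ^ t + 1) ≤ t * Real.log 2 + Real.log 3 := by
  have ht : (1 : ℝ) ≤ 2 ^ t := one_le_pow₀ (by norm_num)
  have h2 : Real.log (3 * 2 ^ t) = Real.log 3 + t * Real.log 2 := by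
    rw [Real.log_mul (by norm_num) (by positivity), Real.log_pow]
  have h3 : Real.log (2 * 2 ^ t + 1) ≤ Real.log (3 * 2 ^ t) :=
    Real.log_le_log (by positivity) (by linarith)
  linarith

open Classical in
/-- The body of one long column. -/
noncomputable def W1 (X : ℕ) (j : Fin 3) (a₀ : ℝ) (A : Matrix (Fin 3) (Fin 3) ℝ) :
    Matrix (Fin 3) (Fin 3) ℝ :=
  if a₀ ≤ |A j (lc A).2| then V1 X j (fun i => A i (lc A).2) else A

open Classical in
/-- The body of two long columns. -/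
noncomputable def W2 (X : ℕ) (j : Fin 3) (a₀ : ℝ) (A B S : Matrix (Fin 3) (Fin 3) ℝ) :
    Matrix (Fin 3) (Fin 3) ℝ :=
  if a₀ ≤ |cr (fun i => A i (lc A).2) (fun i => B i (lc B).2) j| then
    V2 X j (fun i => A i (lc A).2) (fun i => B i (lc B).2) else S

/-- **One long body.** -/
theorem low1 (hq : IsLaw q) {X t : ℕ} {A : Γ → Matrix (Fin 3) (Fin 3) ℝ}
    (n : Γ → Fin 3 → ℤ) (Y : Γ → ζ) (hdA : Det q Y A) (hA : ∀ w, (A w).det ≠ 0) {c₀ : ℝ}
    (hc : 1 ≤ c₀) (hT : ∀ w, Inc c₀ (Tx 3 X) (A w)) {e : ℝ}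
    (h1 : DF q (fun _ => Tx 3 X) A (fun w => xv X (n w)) Y ≤ e) {a₀ : ℝ} (ha : 0 < a₀)
    (j : Fin 3) (hb : ∀ w, 0 < q w → a₀ ≤ |A w j (lc (A w)).2|) :
    ((X : ℝ) - t) * Real.log 2 + Real.log a₀ - e - |Cc 3 (3 * c₀)| - 4 * Real.log 3 ≤
      CH q (fun w i => n w i / 2 ^ t) (fun w => (cl (W1 X j a₀ (A w)) (xv X (n w)), Y w)) := by
  classical
  have h0 := hq.nonneg
  have hX : (0 : ℝ) < 2 ^ X := by positivity
  have hdV : Det q Y (fun w => W1 X j a₀ (A w)) := fun w w' a b h => by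
    have := hdA w w' a b h
    simp only [this]
  have hval : ∀ w, 0 < q w → W1 X j a₀ (A w) = V1 X j (fun i => A w i (lc (A w)).2) :=
    fun w hw => by
      unfold W1
      rw [if_pos (hb w hw)]
  have hV : ∀ w, (W1 X j a₀ (A w)).det ≠ 0 := fun w => by
    unfold W1
    split_ifs with h
    · rw [V1_det]
      have : A w j (lc (A w)).2 ≠ 0 := abs_pos.1 (ha.trans_le h)
      positivity
    · exact hA w
  have hi : ∀ w, Inc (3 * c₀) (W1 X j a₀ (A w)) (A w) := fun w => by
    unfold W1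
    split_ifs with h
    · exact V1_inc ((inc_self (hA w)).mono hc) (hT w)
    · exact (inc_self (hA w)).mono (by linarith)
  have k1 := low_aux hq n Y hdV hdA hV hA (by linarith : (0 : ℝ) ≤ 3 * c₀) hi h1
    (l := Real.log a₀ - 2 * (X * Real.log 2)) (fun w hw => by
      rw [hval w hw]
      unfold lv
      have h2 := hb w hw
      rw [V1_det, abs_mul, abs_of_pos (by positivity : (0 : ℝ) < ((2 : ℝ) ^ X)⁻¹ * ((2 : ℝ) ^ X)⁻¹),
        Real.log_mul (by linarith [ha.trans_le h2] : |A w j (lc (A w)).2| ≠ 0) (by positivity),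
        Real.log_mul (by positivity) (by positivity), Real.log_inv, Real.log_pow]
      have := Real.log_le_log ha h2
      linarith)
  obtain ⟨c, hcl⟩ : ∃ c : Γ → Fin 3 → ℤ, c = fun w => cl (W1 X j a₀ (A w)) (xv X (n w)) :=
    ⟨_, rfl⟩
  obtain ⟨nt, hnt⟩ : ∃ nt : Γ → Fin 3 → ℤ, nt = fun w i => n w i / 2 ^ t := ⟨_, rfl⟩
  have e0 : CH q n (fun w => (c w, Y w)) =
      CH q n (fun w => (cl (W1 X j a₀ (A w)) (xv X (n w)), Y w)) := by rw [hcl]
  have e9 : CH q nt (fun w => (c w, Y w)) = CH q (fun w i => n w i / 2 ^ t)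
      (fun w => (cl (W1 X j a₀ (A w)) (xv X (n w)), Y w)) := by rw [hcl, hnt]
  rw [← e0] at k1
  rw [← e9]
  have k2 : CH q n (fun w => (c w, Y w)) ≤ CH q nt (fun w => (c w, Y w)) +
      CH q n (fun w => (nt w, (c w, Y w))) := CH_le_add h0 _ _ _
  have k3 : CH q n (fun w => (nt w, (c w, Y w))) ≤ CH q (fun w => n w j)
      (fun w => (nt w, (c w, Y w))) + CH q n (fun w => (n w j, (nt w, (c w, Y w)))) :=
    CH_le_add h0 _ _ _
  have k4 : CH q (fun w => n w j) (fun w => (nt w, (c w, Y w))) ≤ Real.log (2 * 2 ^ t + 1) := by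
    refine CH_pair_int hq _ _ (by positivity) fun w w' a b e => ?_
    simp only [Prod.mk.injEq] at e
    have e2 := congrFun e.1 j
    rw [hnt] at e2
    exact ediv_same e2
  have k5 : CH q n (fun w => (n w j, (nt w, (c w, Y w)))) ≤ 3 * Real.log 3 := by
    have h2 := CH_le_vec h0 hq.sum_one n (fun w => (n w j, (nt w, (c w, Y w)))) (fun _ => 1)
      (fun w w' a b e i => by
        simp only [Prod.mk.injEq] at e
        obtain ⟨e1, -, e2, e3⟩ := e
        have e4 : W1 X j a₀ (A w) = W1 X j a₀ (A w') := hdV w w' a b e3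
        rw [hcl] at e2
        simp only at e2
        rw [← e4] at e2
        obtain ⟨u, hu, hd⟩ := cell_dc (hV w) e2
        rw [hval w a] at hd
        have hv : A w j (lc (A w)).2 ≠ 0 := abs_pos.1 (ha.trans_le (hb w a))
        have g1 := V1_dif (v := fun i => A w i (lc (A w)).2)
          (D := fun i => xv X (n w) i - xv X (n w') i) hv hu hd i
        have g2 : xv X (n w) j - xv X (n w') j = 0 := by
          unfold xv
          rw [e1, sub_self]
        simp only [g2, mul_zero, sub_zero] at g1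
        have g3 : 2 ^ X * (xv X (n w) i - xv X (n w') i) = ((n w i - n w' i : ℤ) : ℝ) := by
          unfold xv
          push_cast
          field_simp
        rw [g3] at g1
        exact g1)
    rw [Ex_const hq.sum_one] at h2
    have e5 : (2 : ℝ) * 1 + 1 = 3 := by norm_num
    rw [e5] at h2
    push_cast at h2
    exact h2
  have k7 := log_t t
  have k8 := le_abs_self (Cc 3 (3 * c₀))
  linarith

/-- **Two long bodies.** -/
theorem low2 (hq : IsLaw q) {X t : ℕ} {A B : Γ → Matrix (Fin 3) (Fin 3) ℝ}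
    (n : Γ → Fin 3 → ℤ) (Y : Γ → ζ) (hdA : Det q Y A) (hdB : Det q Y B)
    (hA : ∀ w, (A w).det ≠ 0) (hB : ∀ w, (B w).det ≠ 0) {c₀ : ℝ}
    (hc : 1 ≤ c₀) (hTA : ∀ w, Inc c₀ (Tx 3 X) (A w)) (hTB : ∀ w, Inc c₀ (Tx 3 X) (B w)) {e : ℝ}
    (h1 : DF q (fun _ => Tx 3 X) A (fun w => xv X (n w)) Y ≤ e)
    (h2 : DF q (fun _ => Tx 3 X) B (fun w => xv X (n w)) Y ≤ e) {a₀ : ℝ} (ha : 0 < a₀)
    (j : Fin 3) (hb : ∀ w, 0 < q w → a₀ ≤
      |cr (fun i => A w i (lc (A w)).2) (fun i => B w i (lc (B w)).2) j|) :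
    ∃ S : Γ → Matrix (Fin 3) (Fin 3) ℝ, Det q Y S ∧ (∀ w, (S w).det ≠ 0) ∧
    2 * (((X : ℝ) - t) * Real.log 2) + Real.log a₀ - 2 * e - |Cp 3 c₀| - |Cc 3 (3 * (3 * c₀))| -
      5 * Real.log 3 ≤ CH q (fun w i => n w i / 2 ^ t)
        (fun w => (cl (W2 X j a₀ (A w) (B w) (S w)) (xv X (n w)), Y w)) := by
  classical
  have h0 := hq.nonneg
  have hX : (0 : ℝ) < 2 ^ X := by positivity
  obtain ⟨S, s1, s2, s3, s4, s5⟩ := DF_pair h0 hq.sum_one (T := fun _ => Tx 3 X)
    (fun w => xv X (n w)) Y (fun _ _ _ _ _ => rfl) hdA hdB (fun _ => Tx_det 3 X) hA hB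
    (by linarith : 0 ≤ c₀) hTA hTB
  refine ⟨S, s1, s2, ?_⟩
  have hdV : Det q Y (fun w => W2 X j a₀ (A w) (B w) (S w)) := fun w w' a b h => by
    have g1 := hdA w w' a b h
    have g2 := hdB w w' a b h
    have g3 := s1 w w' a b h
    simp only [g1, g2, g3]
  have hval : ∀ w, 0 < q w → W2 X j a₀ (A w) (B w) (S w) =
      V2 X j (fun i => A w i (lc (A w)).2) (fun i => B w i (lc (B w)).2) := fun w hw => by
    unfold W2
    rw [if_pos (hb w hw)]
  have hV : ∀ w, (W2 X j a₀ (A w) (B w) (S w)).det ≠ 0 := fun w => by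
    unfold W2
    split_ifs with h
    · rw [V2_det]
      have : cr (fun i => A w i (lc (A w)).2) (fun i => B w i (lc (B w)).2) j ≠ 0 :=
        abs_pos.1 (ha.trans_le h)
      exact mul_ne_zero (by positivity) this
    · exact s2 w
  have hTS : ∀ w, Inc (3 * c₀) (Tx 3 X) (S w) := fun w => by
    have := Inc.trans (hA w) (by linarith : 0 ≤ c₀) (hTA w) (s3 w)
    refine this.mono (le_of_eq ?_)
    norm_num
  have hi : ∀ w, Inc (3 * (3 * c₀)) (W2 X j a₀ (A w) (B w) (S w)) (S w) := fun w => by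
    unfold W2
    split_ifs with h
    · refine V2_inc ((s3 w).mono ?_) ((s4 w).mono ?_) (hTS w)
      · push_cast
        linarith
      · push_cast
        linarith
    · exact (inc_self (s2 w)).mono (by linarith)
  have hS5 : DF q (fun _ => Tx 3 X) S (fun w => xv X (n w)) Y ≤ 2 * e + |Cp 3 c₀| := by
    have := le_abs_self (Cp 3 c₀)
    linarith
  have k1 := low_aux hq n Y hdV s1 hV s2 (by linarith : (0 : ℝ) ≤ 3 * (3 * c₀)) hi hS5
    (l := Real.log a₀ - X * Real.log 2) (fun w hw => by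
      rw [hval w hw]
      unfold lv
      have g2 := hb w hw
      rw [V2_det, abs_mul, abs_of_pos (by positivity : (0 : ℝ) < ((2 : ℝ) ^ X)⁻¹),
        Real.log_mul (by positivity) (by linarith [ha.trans_le g2] :
          |cr (fun i => A w i (lc (A w)).2) (fun i => B w i (lc (B w)).2) j| ≠ 0),
        Real.log_inv, Real.log_pow]
      have := Real.log_le_log ha g2
      linarith)
  obtain ⟨c, hcl⟩ : ∃ c : Γ → Fin 3 → ℤ,
    c = fun w => cl (W2 X j a₀ (A w) (B w) (S w)) (xv X (n w)) := ⟨_, rfl⟩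
  obtain ⟨nt, hnt⟩ : ∃ nt : Γ → Fin 3 → ℤ, nt = fun w i => n w i / 2 ^ t := ⟨_, rfl⟩
  have e0 : CH q n (fun w => (c w, Y w)) =
      CH q n (fun w => (cl (W2 X j a₀ (A w) (B w) (S w)) (xv X (n w)), Y w)) := by rw [hcl]
  have e9 : CH q nt (fun w => (c w, Y w)) = CH q (fun w i => n w i / 2 ^ t)
      (fun w => (cl (W2 X j a₀ (A w) (B w) (S w)) (xv X (n w)), Y w)) := by rw [hcl, hnt]
  rw [← e0] at k1
  rw [← e9]
  have k2 : CH q n (fun w => (c w, Y w)) ≤ CH q nt (fun w => (c w, Y w)) +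
      CH q n (fun w => (nt w, (c w, Y w))) := CH_le_add h0 _ _ _
  have k3 : CH q n (fun w => (nt w, (c w, Y w))) ≤ CH q (fun w => n w (j + 1))
      (fun w => (nt w, (c w, Y w))) + CH q n (fun w => (n w (j + 1), (nt w, (c w, Y w)))) :=
    CH_le_add h0 _ _ _
  have k3' : CH q n (fun w => (n w (j + 1), (nt w, (c w, Y w)))) ≤ CH q (fun w => n w (j + 2))
      (fun w => (n w (j + 1), (nt w, (c w, Y w)))) +
      CH q n (fun w => (n w (j + 2), (n w (j + 1), (nt w, (c w, Y w))))) :=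
    CH_le_add h0 _ _ _
  have k4 : CH q (fun w => n w (j + 1)) (fun w => (nt w, (c w, Y w))) ≤
      Real.log (2 * 2 ^ t + 1) := by
    refine CH_pair_int hq _ _ (by positivity) fun w w' a b e => ?_
    simp only [Prod.mk.injEq] at e
    have e2 := congrFun e.1 (j + 1)
    rw [hnt] at e2
    exact ediv_same e2
  have k4' : CH q (fun w => n w (j + 2)) (fun w => (n w (j + 1), (nt w, (c w, Y w)))) ≤
      Real.log (2 * 2 ^ t + 1) := by
    refine CH_pair_int hq _ _ (by positivity) fun w w' a b e => ?_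
    simp only [Prod.mk.injEq] at e
    have e2 := congrFun e.2.1 (j + 2)
    rw [hnt] at e2
    exact ediv_same e2
  have k5 : CH q n (fun w => (n w (j + 2), (n w (j + 1), (nt w, (c w, Y w))))) ≤
      3 * Real.log 3 := by
    have h2 := CH_le_vec h0 hq.sum_one n
      (fun w => (n w (j + 2), (n w (j + 1), (nt w, (c w, Y w))))) (fun _ => 1)
      (fun w w' a b e i => by
        simp only [Prod.mk.injEq] at e
        obtain ⟨f2, f1, -, e2, e3⟩ := e
        have e4 : W2 X j a₀ (A w) (B w) (S w) = W2 X j a₀ (A w') (B w') (S w') :=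
          hdV w w' a b e3
        rw [hcl] at e2
        simp only at e2
        rw [← e4] at e2
        obtain ⟨u, hu, hd⟩ := cell_dc (hV w) e2
        rw [hval w a] at hd
        have hx : cr (fun i => A w i (lc (A w)).2) (fun i => B w i (lc (B w)).2) j ≠ 0 :=
          abs_pos.1 (ha.trans_le (hb w a))
        have g1 := V2_dif (D := fun i => xv X (n w) i - xv X (n w') i) hx hu hd
        have z1 : xv X (n w) (j + 1) - xv X (n w') (j + 1) = 0 := by
          unfold xv
          rw [f1, sub_self]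
        have z2 : xv X (n w) (j + 2) - xv X (n w') (j + 2) = 0 := by
          unfold xv
          rw [f2, sub_self]
        have hsum : ∑ i, cr (fun i => A w i (lc (A w)).2) (fun i => B w i (lc (B w)).2) i /
            cr (fun i => A w i (lc (A w)).2) (fun i => B w i (lc (B w)).2) j *
            (xv X (n w) i - xv X (n w') i) = xv X (n w) j - xv X (n w') j := by
          rw [Finset.sum_eq_single j]
          · rw [div_self hx, one_mul]
          · intro i _ hij
            have : i = j + 1 ∨ i = j + 2 := (fin3_all j i).resolve_left hij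
            rcases this with rfl | rfl
            · rw [z1, mul_zero]
            · rw [z2, mul_zero]
          · intro hj
            exact absurd (Finset.mem_univ j) hj
        rw [hsum] at g1
        have g3 : 2 ^ X * (xv X (n w) j - xv X (n w') j) = ((n w j - n w' j : ℤ) : ℝ) := by
          unfold xv
          push_cast
          field_simp
        rw [g3] at g1
        rcases fin3_all j i with rfl | rfl | rfl
        · exact g1
        · rw [f1, sub_self, Int.cast_zero, abs_zero]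
          exact zero_le_one
        · rw [f2, sub_self, Int.cast_zero, abs_zero]
          exact zero_le_one)
    rw [Ex_const hq.sum_one] at h2
    have e5 : (2 : ℝ) * 1 + 1 = 3 := by norm_num
    rw [e5] at h2
    push_cast at h2
    exact h2
  have k7 := log_t t
  have k8 := le_abs_self (Cc 3 (3 * (3 * c₀)))
  linarith

end Pool.DR24
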