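import Pool.Agent.H24.DR3.Cas1
import Pool.Agent.H24.DR3.Key

/-!
# DR3: the closed code on one event

`codes2`: a vector which is almost closed in both ways has a closed code on an event of mass `1 / 6`.
`cod_facts`: the slopes of the vector are the coefficients of the code. `df_evg`: the deficit on any
event.
-/

set_option autoImplicit false

namespace Pool.DR24

open Finset Real Matrix
open Pool.Agent.H49.Ent Pool.Agent.H32.Dense Pool.STK Pool.POT Pool.FAD Pool.SLO Pool.TQ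
open Pool.K2S (Pe)
open Pool.BFL (Pb)
open Pool.DIR21 (Pb_Pe Pb_mono Pb_or Pb_nonneg CH_evl)

/-- **The closed code.** -/
theorem codes2 {Γ Λ ζ : Type} [Fintype Γ] {r : Γ → ℝ} (hr : IsLaw r) (l : Γ → Λ) (z : Γ → ζ)
    {x : Γ → Fin 3 → ℝ} (hx : ∀ w, 0 < r w → U3 (x w)) {φ : Λ → Fin 3 → ℝ} {ψ : ζ → Fin 3 → ℝ}
    (hφ : ∀ y, U3 (φ y)) (hψ : ∀ y, U3 (ψ y)) {ρ η ε₃ : ℝ} (hρ : ρ ≤ 1 / 32) (hε : 0 ≤ ε₃)
    (h1 : Pb r (fun w => ¬ PA ρ (x w) (φ (l w))) ≤ η)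
    (h2 : Pb r (fun w => ¬ PA ρ (x w) (ψ (z w))) ≤ η) (Y : ℕ) (hY : 2 ^ Y * (16 * ρ) ≤ ε₃)
    {m' : ℕ} (hm' : 1 ≤ m') (hη : 48 * η + 18 * ε₃ + 18 * (1 / m') < 1) :
    ∃ (j : Fin 3) (s : Fin 3 → ℝ), 1 / 6 ≤ Pe r (fun w => |φ (l w) j| = 1 ∧
      PA ρ (x w) (φ (l w)) ∧ kcode Y j s (φ (l w)) = kcode Y j s (ψ (z w))) := by
  have h0 := hr.nonneg
  have hη0 : 0 ≤ η := (Pb_nonneg h0 _).trans h1
  have k1 : Pb r (fun w => ¬ PA (8 * ρ) (φ (l w)) (ψ (z w))) ≤ η + η := by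
    refine le_trans (Pb_mono h0 fun w hw h => ?_) ((Pb_or h0 _ _).trans (add_le_add h1 h2))
    by_contra hcon
    push Not at hcon
    refine h ?_
    have e8 : 8 * ρ = 4 * (ρ + ρ) := by ring
    rw [e8]
    exact PA.trans (hφ _) (hx w hw) (hψ _) hcon.1.symm hcon.2
  have k2 : 1 - η ≤ Pe r (fun w => PA ρ (x w) (φ (l w))) := by
    rw [← Pb_Pe]
    have a1 := Pb_or h0 (fun w => PA ρ (x w) (φ (l w))) (fun w => ¬ PA ρ (x w) (φ (l w)))
    have a2 : Pb r (fun w => PA ρ (x w) (φ (l w)) ∨ ¬ PA ρ (x w) (φ (l w))) = 1 := by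
      rw [Pool.DIR21.Pb_ci, ← hr.sum_one]
      exact Finset.sum_congr rfl fun w _ => by
        rw [Pool.DIR21.ci1 (em _), mul_one]
    linarith
  obtain ⟨j, s, hj⟩ := codes hr l z hφ hψ (ρ := 8 * ρ) (by linarith) hε k1 Y
    (by rw [show (2 : ℝ) * (8 * ρ) = 16 * ρ by ring]; exact hY) hm'
    (fun w => PA ρ (x w) (φ (l w))) (m := 1 / 6) (by linarith)
  refine ⟨j, s, hj.trans ?_⟩
  rw [← Pb_Pe, ← Pb_Pe]
  exact Pb_mono h0 fun w _ h => ⟨h.2.1, h.1, h.2.2.2⟩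

/-- The ratios of a vector near the closed vector. -/
theorem rat_near {x y : Fin 3 → ℝ} {ρ : ℝ} (hx : U3 x) (hy : U3 y) (hρ : ρ ≤ 1 / 32)
    (h : PA ρ x y) {j : Fin 3} (hj : |y j| = 1) (i : Fin 3) :
    1 / 2 ≤ |x j| ∧ |x i / x j - y i / y j| ≤ 2 * ρ := by
  have g1 := piv_big hy hx h.symm hj (by linarith)
  refine ⟨g1, ?_⟩
  refine (ratio_near h (by norm_num : (0 : ℝ) < 1 / 2) one_pos g1 hj.ge i).trans (le_of_eq ?_)
  ring

/-- **The slopes and the coefficients of the code.** -/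
theorem cod_facts {x y : Fin 3 → ℝ} {ρ : ℝ} (hx : U3 x) (hy : U3 y) (hρ : ρ ≤ 1 / 32)
    (h : PA ρ x y) {j : Fin 3} (hj : |y j| = 1) (s : Fin 3 → ℝ) {X t : ℕ} (htX : t ≤ X)
    (hY : 2 ^ (X - t) * (16 * ρ) ≤ 1) (i : Fin 3) :
    |x i / x j - kval (X - t) j s (kcode (X - t) j s y) i| * 2 ^ X ≤ 2 * 2 ^ t := by
  have hY0 : (0 : ℝ) < 2 ^ (X - t) := by positivity
  have g1 := (rat_near hx hy hρ h hj i).2
  have g2 := kval_near (X - t) s hy.1 hj i
  have hρ0 : 0 ≤ ρ := (abs_nonneg _).trans (h 0)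
  have g3 : |x i / x j - kval (X - t) j s (kcode (X - t) j s y) i| ≤ 2 * ρ + 1 / 2 ^ (X - t) := by
    have e1 : x i / x j - kval (X - t) j s (kcode (X - t) j s y) i =
      (x i / x j - y i / y j) + (y i / y j - kval (X - t) j s (kcode (X - t) j s y) i) := by ring
    rw [e1]
    exact (abs_add_le _ _).trans (add_le_add g1 g2)
  have e2 : (2 : ℝ) ^ X = 2 ^ (X - t) * 2 ^ t := by
    rw [← pow_add, Nat.sub_add_cancel htX]
  have ht0 : (0 : ℝ) < 2 ^ t := by positivity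
  rw [e2]
  calc _ ≤ (2 * ρ + 1 / 2 ^ (X - t)) * (2 ^ (X - t) * 2 ^ t) :=
        mul_le_mul_of_nonneg_right g3 (by positivity)
    _ = (2 ^ (X - t) * (2 * ρ) + 1) * 2 ^ t := by field_simp
    _ ≤ _ := by
        refine mul_le_mul_of_nonneg_right ?_ ht0.le
        have : 2 ^ (X - t) * (2 * ρ) ≤ 2 ^ (X - t) * (16 * ρ) :=
          mul_le_mul_of_nonneg_left (by linarith) hY0.le
        linarith

/-- The codes of the closed vector given the vector. -/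
theorem cod_two {x y y' : Fin 3 → ℝ} {ρ : ℝ} (hx : U3 x) (hy : U3 y) (hy' : U3 y')
    (hρ : ρ ≤ 1 / 32) (h : PA ρ x y) (h' : PA ρ x y') {j : Fin 3} (hj : |y j| = 1)
    (hj' : |y' j| = 1) (s : Fin 3 → ℝ) {Y : ℕ} (hY : 2 ^ Y * (16 * ρ) ≤ 1) (i : Fin 3) :
    |(kcode Y j s y i : ℝ) - kcode Y j s y' i| ≤ 4 := by
  have hY0 : (0 : ℝ) < 2 ^ Y := by positivity
  have g1 := (rat_near hx hy hρ h hj i).2
  have g2 := (rat_near hx hy' hρ h' hj' i).2
  have hρ0 : 0 ≤ ρ := (abs_nonneg _).trans (h 0)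
  have g3 : |y i / y j - y' i / y' j| ≤ 4 * ρ := by
    have e1 : y i / y j - y' i / y' j = (x i / x j - y' i / y' j) - (x i / x j - y i / y j) := by
      ring
    rw [e1]
    refine (abs_sub _ _).trans ?_
    linarith
  have g4 : 2 ^ Y * |y i / y j - y' i / y' j| ≤ 1 := by
    refine (mul_le_mul_of_nonneg_left g3 hY0.le).trans (le_trans ?_ hY)
    exact mul_le_mul_of_nonneg_left (by linarith) hY0.le
  exact (kcode_near Y s i g4).trans (by norm_num)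

/-- The deficit on any event. -/
theorem df_evg {Γ ζ : Type} [Fintype Γ] {τ : Γ → ℝ} (hτ : IsLaw τ) {c X : ℕ}
    {A : Γ → Matrix (Fin c) (Fin c) ℝ} {n : Γ → Fin c → ℤ} {Y : Γ → ζ} (hdA : Det τ Y A)
    (hA : ∀ w, (A w).det ≠ 0) {c₀ : ℝ} (hc : 0 ≤ c₀) (hT : ∀ w, Inc c₀ (Tx c X) (A w)) {e : ℝ}
    (h1 : DF τ (fun _ => Tx c X) A (fun w => xv X (n w)) Y ≤ e) {G : Γ → Prop} {m : ℝ}
    (hm : 0 < m) (hG : m ≤ Pe τ G) :
    DF (cond τ G True) (fun _ => Tx c X) A (fun w => xv X (n w)) Y ≤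
      (|e| + Real.log 2 + |Cc c c₀|) / m := by
  classical
  have ht0 := hτ.nonneg
  have hG0 : 0 < Pe τ G := hm.trans_le hG
  have hc0 := (cond_law ht0 hG0).nonneg
  have k1 := DF_more ht0 X (A := A) (n := n) (Z := Y) G hdA
  have k2 : MI τ n G Y ≤ Real.log 2 := by
    rw [MI_symm ht0]
    exact (MI_le_CH ht0 _ _ _).trans (CH_evl hτ G Y)
  have k3 := DF_ev hτ (G := G) (T := fun _ => Tx c X) (V := A) (fun w => xv X (n w))
    (fun w => (G w, Y w)) (fun _ _ _ _ h => (Prod.ext_iff.mp h).1) (fun _ _ _ _ _ => rfl)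
    (fun w w' a b h => hdA w w' a b (Prod.ext_iff.mp h).2) (fun _ => Tx_det c X) hA hc hT hG0
  have k5 : DF (cond τ G True) (fun _ => Tx c X) A (fun w => xv X (n w)) Y =
      DF (cond τ G True) (fun _ => Tx c X) A (fun w => xv X (n w)) (fun w => (G w, Y w)) := by
    refine Pool.TQ64.DF_cg hc0 X (fun _ _ => rfl) (fun _ _ => rfl) ?_ ?_
    · intro w w' a b h
      have e1 : G w = True := ((cond_pos_iff ht0 G True w).1 a).2
      have e2 : G w' = True := ((cond_pos_iff ht0 G True w').1 b).2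
      exact Prod.ext (e1.trans e2.symm) h
    · intro w w' a b h
      exact (Prod.ext_iff.mp h).2
  rw [k5]
  refine k3.trans ?_
  have k6 := le_abs_self e
  have k4 : 0 ≤ |e| + Real.log 2 + |Cc c c₀| := by
    have := Real.log_nonneg (show (1 : ℝ) ≤ 2 by norm_num)
    positivity
  calc _ ≤ (|e| + Real.log 2 + |Cc c c₀|) / Pe τ G := div_le_div_of_nonneg_right
        (by linarith) hG0.le
    _ ≤ _ := div_le_div_of_nonneg_left k4 hm hG

/-- The density of a law on an event. -/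
theorem den_ev {Ω Γ : Type} [Fintype Γ] {p : Ω → ℝ} {r : Γ → ℝ} {f : Γ → Ω}
    (hr : ∀ w, 0 ≤ r w) {F m : ℝ} (hden : ∀ ω, mg r f ω ≤ F * p ω) (hm : 0 < m) {G : Γ → Prop}
    (hG : m ≤ Pe r G) (ω : Ω) : mg (cond r G True) f ω ≤ F / m * p ω := by
  have hP : 0 < Pe r G := hm.trans_le hG
  have h1 : ∀ w, cond r G True w ≤ 1 / m * r w := fun w =>
    (cond_le hr w).trans (mul_le_mul_of_nonneg_right (one_div_le_one_div_of_le hm hG) (hr w))
  have h2 := mg_le (im_mg r f) h1 ω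
  have h3 := mul_le_mul_of_nonneg_left (hden ω) (by positivity : (0 : ℝ) ≤ 1 / m)
  refine h2.trans (h3.trans (le_of_eq ?_))
  ring

end Pool.DR24
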