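import Pool.Agent.H24.DR3.Ts

/-!
# DR3: the hypotheses, and the samples of one line with a property of the times

`PcOk`: the hypotheses at the level of laws, any number of coordinates. `own_cost`: the other times and
the base of the own time carry few bits about the line. `z_sys`: the system of the copies with the same
height and the same base. `nf_nu`: the row of `nu` given the context.
-/

set_option autoImplicit false

namespace Pool.DR24

open Finset Real Matrix
open Pool.Agent.H49.Ent Pool.Agent.H32.Dense Pool.STK Pool.POT Pool.FAD Pool.SLO Pool.TQ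
open Pool.K2S (Pe)
open Pool.BFL (Pb)
open Pool.DIR21 (Pb_Pe mg_cond mi_evg mi_tup mi_link)

/-- The hypotheses at the level of laws. -/
structure PcOk {Ω Λ τ B β ρ σ : Type} [Fintype Ω] {c : ℕ} (p : Ω → ℝ) (L : Ω → Λ) (th : Ω → τ)
    (b : Ω → B) (hgt nu : Ω → Fin c → ℤ) (S : Ω → ρ) (Wd : Ω → β) (Z : Ω → Fin c → ℤ)
    (Bs : Ω → σ) (X : ℕ) (C d : ℝ) : Prop where
  law : IsLaw p
  Lb : Det p L b
  Ln : Det p L nu
  hn : Det p (fun ω => (th ω, b ω)) (fun ω => hgt ω - nu ω)
  h1 : MI p (fun ω => (th ω, Bs ω)) L b ≤ d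
  Z_b : ∀ ω i, |(Z ω i : ℝ)| ≤ C * 2 ^ X
  nu_b : ∀ ω i, |(nu ω i : ℝ)| ≤ C * 2 ^ X
  rel : ∀ ω ω', 0 < p ω → 0 < p ω' → Wd ω = Wd ω' → th ω = th ω' → b ω = b ω' → ∀ i,
    |((Z ω i : ℝ) - Z ω' i) - ((hgt ω i : ℝ) - hgt ω' i)| ≤ C
  wd : MI p hgt Wd (fun ω => (th ω, b ω)) ≤ d
  SY : Det p (fun ω => (Wd ω, (th ω, b ω))) S
  BY : Det p (fun ω => (Wd ω, (th ω, b ω))) Bs
  few : MI p Z (fun ω => (Wd ω, (th ω, b ω))) Bs ≤ d

variable {Ω Λ τ B β ρ σ : Type} [Fintype Ω] {c : ℕ} {p : Ω → ℝ} {L : Ω → Λ} {th : Ω → τ}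
  {b : Ω → B} {hgt nu : Ω → Fin c → ℤ} {S : Ω → ρ} {Wd : Ω → β} {Z : Ω → Fin c → ℤ} {Bs : Ω → σ}
  {X : ℕ} {C d : ℝ}

theorem PcOk.h0 (h : PcOk p L th b hgt nu S Wd Z Bs X C d) : MI p th L b ≤ d :=
  (MI_le_left h.law.nonneg (X := fun ω => (th ω, Bs ω)) (fun _ _ _ _ e =>
    (Prod.ext_iff.mp (Prod.ext_iff.mp e).1).1)).trans h.h1

theorem PcOk.d0 (h : PcOk p L th b hgt nu S Wd Z Bs X C d) : 0 ≤ d :=
  (MI_nonneg h.law.nonneg _ _ _).trans h.h1

/-- `Z` and `nu` agree up to the data. -/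
theorem PcOk.rel' (h : PcOk p L th b hgt nu S Wd Z Bs X C d) {ω ω' : Ω} (a : 0 < p ω)
    (a' : 0 < p ω') (e1 : Wd ω = Wd ω') (e2 : th ω = th ω') (e3 : b ω = b ω') (i : Fin c) :
    |((Z ω i : ℝ) - Z ω' i) - ((nu ω i : ℝ) - nu ω' i)| ≤ C := by
  have k1 := h.rel ω ω' a a' e1 e2 e3 i
  have k2 := congrFun (h.hn ω ω' a a' (Prod.ext e2 e3)) i
  simp only [Pi.sub_apply] at k2
  have k3 : ((hgt ω i - nu ω i : ℤ) : ℝ) = ((hgt ω' i - nu ω' i : ℤ) : ℝ) := by rw [k2]
  push_cast at k3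
  have e : ((Z ω i : ℝ) - Z ω' i) - ((nu ω i : ℝ) - nu ω' i) =
      ((Z ω i : ℝ) - Z ω' i) - ((hgt ω i : ℝ) - hgt ω' i) := by linarith
  rw [e]
  exact k1

/-- **The row of `nu` given the context.** -/
theorem PcOk.nf_nu (h : PcOk p L th b hgt nu S Wd Z Bs X C d) {ϖ R : ℝ}
    (hϖ : 0 < ϖ) {G : Ω → Prop} (hG : ϖ ≤ Pe p G) (hG0 : 0 < Pe p G)
    (nf : CH (cond p G True) Z (fun ω => (Wd ω, S ω)) ≤ R) :
    CH (cond p G True) nu b ≤ R + c * Real.log (2 * C + 1) + (2 * d + Real.log 2) / ϖ := by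
  classical
  have hp := h.law
  have hp0 := hp.nonneg
  have hcl := cond_law hp0 hG0
  have hc := hcl.nonneg
  have hpos : ∀ ω, 0 < cond p G True ω → 0 < p ω := fun ω hω =>
    ((cond_pos_iff hp0 G True ω).1 hω).1
  -- the data
  have h1 := mi_evg hp (G := G) nu (fun ω => (th ω, Wd ω)) b hG0
  have h2 : MI p nu (fun ω => (th ω, Wd ω)) b ≤ 2 * d := by
    rw [MI_chain hp0]
    have a1 : MI p nu th b ≤ d := by
      rw [MI_symm hp0]
      refine le_trans ?_ h.h0
      refine MI_le_right hp0 (X := L) ?_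
      intro ω ω' x y e
      exact h.Ln ω ω' x y (Prod.ext_iff.mp e).1
    have a2 : MI p nu Wd (fun ω => (th ω, b ω)) ≤ d := by
      refine le_trans (le_of_eq ?_) h.wd
      refine MI_congr hp0 ?_ ?_ (fun _ _ _ _ e => e) (fun _ _ _ _ e => e) (fun _ _ _ _ e => e)
        (fun _ _ _ _ e => e)
      · intro ω ω' x y e
        have k := h.hn ω ω' x y (Prod.ext_iff.mp e).2
        have k1 := (Prod.ext_iff.mp e).1
        simp only at k k1
        refine Prod.ext ?_ (Prod.ext_iff.mp e).2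
        show hgt ω = hgt ω'
        have e1 : hgt ω = (hgt ω - nu ω) + nu ω := by abel
        have e2 : hgt ω' = (hgt ω' - nu ω') + nu ω' := by abel
        rw [e1, e2, k, k1]
      · intro ω ω' x y e
        have k := h.hn ω ω' x y (Prod.ext_iff.mp e).2
        have k1 := (Prod.ext_iff.mp e).1
        simp only at k k1
        refine Prod.ext ?_ (Prod.ext_iff.mp e).2
        show nu ω = nu ω'
        have e1 : nu ω = hgt ω - (hgt ω - nu ω) := by abel
        have e2 : nu ω' = hgt ω' - (hgt ω' - nu ω') := by abel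
        rw [e1, e2, k, k1]
    linarith
  -- the height
  have h3 : CH (cond p G True) nu (fun ω => ((th ω, Wd ω), b ω)) ≤ R +
      c * Real.log (2 * C + 1) := by
    have a1 := CH_le_add hc nu Z (fun ω => ((th ω, Wd ω), b ω))
    have a2 : CH (cond p G True) Z (fun ω => ((th ω, Wd ω), b ω)) ≤ R := by
      refine (CH_mono_cond hc fun ω ω' x y e => ?_).trans nf
      simp only [Prod.mk.injEq] at e
      exact Prod.ext e.1.2 (h.SY ω ω' (hpos ω x) (hpos ω' y) (by
        simp only [Prod.mk.injEq]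
        exact ⟨e.1.2, e.1.1, e.2⟩))
    have a3 := CH_le_vec hc hcl.sum_one nu (fun ω => (Z ω, ((th ω, Wd ω), b ω)))
      (fun _ => C) (by
        intro ω ω' x y e i
        simp only [Prod.mk.injEq] at e
        have k := h.rel' (hpos ω x) (hpos ω' y) e.2.1.2 e.2.1.1 e.2.2 i
        rw [e.1] at k
        push_cast
        rw [abs_sub_comm] at k
        have e1 : (nu ω i : ℝ) - nu ω' i =
          (nu ω i : ℝ) - nu ω' i - ((Z ω' i : ℝ) - Z ω' i) := by ring
        rw [e1]
        exact k)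
    rw [Ex_const hcl.sum_one] at a3
    linarith
  have h4 : (MI p nu (fun ω => (th ω, Wd ω)) b + Real.log 2) / Pe p G ≤
      (2 * d + Real.log 2) / ϖ := by
    have k0 : 0 ≤ MI p nu (fun ω => (th ω, Wd ω)) b := MI_nonneg hp0 _ _ _
    have k2 : 0 ≤ Real.log 2 := Real.log_nonneg (by norm_num)
    calc _ ≤ (2 * d + Real.log 2) / Pe p G := div_le_div_of_nonneg_right (by linarith) hG0.le
      _ ≤ _ := div_le_div_of_nonneg_left (by linarith) hϖ hG
  have e : CH (cond p G True) nu b = MI (cond p G True) nu (fun ω => (th ω, Wd ω)) b +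
      CH (cond p G True) nu (fun ω => ((th ω, Wd ω), b ω)) := by
    unfold MI
    ring
  rw [e]
  linarith

/-- The row of `Z` given the base. -/
theorem PcOk.nf_Z (h : PcOk p L th b hgt nu S Wd Z Bs X C d) {ϖ R : ℝ}
    (hϖ : 0 < ϖ) {G : Ω → Prop} (hG : ϖ ≤ Pe p G) (hG0 : 0 < Pe p G)
    (nf : CH (cond p G True) Z (fun ω => (Wd ω, S ω)) ≤ R) :
    CH (cond p G True) Z Bs ≤ R + (d + Real.log 2) / ϖ := by
  have hp := h.law
  have hc := (cond_law hp.nonneg hG0).nonneg
  have hpos : ∀ ω, 0 < cond p G True ω → 0 < p ω := fun ω hω =>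
    ((cond_pos_iff hp.nonneg G True ω).1 hω).1
  have h1 := mi_evg hp (G := G) Z (fun ω => (Wd ω, (th ω, b ω))) Bs hG0
  have h2 : CH (cond p G True) Z (fun ω => ((Wd ω, (th ω, b ω)), Bs ω)) ≤
      CH (cond p G True) Z (fun ω => (Wd ω, S ω)) := by
    refine CH_mono_cond hc fun ω ω' x y e => ?_
    have e1 := (Prod.ext_iff.mp e).1
    exact Prod.ext (Prod.ext_iff.mp e1).1 (h.SY ω ω' (hpos ω x) (hpos ω' y) e1)
  have h4 : (MI p Z (fun ω => (Wd ω, (th ω, b ω))) Bs + Real.log 2) / Pe p G ≤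
      (d + Real.log 2) / ϖ := by
    have k0 : 0 ≤ MI p Z (fun ω => (Wd ω, (th ω, b ω))) Bs := MI_nonneg hp.nonneg _ _ _
    have k1 := h.few
    have k2 : 0 ≤ Real.log 2 := Real.log_nonneg (by norm_num)
    calc _ ≤ (d + Real.log 2) / Pe p G := div_le_div_of_nonneg_right (by linarith) hG0.le
      _ ≤ _ := div_le_div_of_nonneg_left (by linarith) hϖ hG
  unfold MI at h1 h4
  linarith

/-- The data of a tuple: the slow digits, the context and all the times. -/
def dt (Wd : Ω → β) (b : Ω → B) (th : Ω → τ) {N : ℕ} (w : Fin (N + 1) → Ω) :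
    β × (B × (τ × (Fin N → τ))) :=
  (Wd (w 0), (b (w 0), (th (w 0), fun j : Fin N => th (w j.succ))))

/-- The height and the data, given the base. -/
theorem PcOk.mi_few (h : PcOk p L th b hgt nu S Wd Z Bs X C d) (N : ℕ) :
    MI (tup p L N) (fun w => Z (w 0)) (dt Wd b th) (fun w => Bs (w 0)) ≤ (N + 1) * d := by
  have hp := h.law.nonneg
  have hq0 : ∀ w, 0 ≤ tup p L N w := fun w => tup_nonneg hp L _ w
  have him : Im (tup p L N) p (fun w => w 0) := im_tup hp L N 0
  have hBY := him.det hq0 h.BY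
  have e1 : MI (tup p L N) (fun w => Z (w 0)) (dt Wd b th) (fun w => Bs (w 0)) =
      MI (tup p L N) (fun w => Z (w 0)) (fun w => ((Wd (w 0), (th (w 0), b (w 0))),
        fun j : Fin N => th (w j.succ))) (fun w => Bs (w 0)) := by
    refine MI_congr hq0 ?_ ?_ ?_ ?_ ?_ ?_ <;>
    · intro w w' _ _ e
      simp only [dt, Prod.mk.injEq] at e ⊢
      tauto
  rw [e1, MI_chain hq0]
  have e2 : MI (tup p L N) (fun w => Z (w 0)) (fun w => (Wd (w 0), (th (w 0), b (w 0))))
      (fun w => Bs (w 0)) ≤ d := by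
    rw [him.MI Z (fun ω => (Wd ω, (th ω, b ω))) Bs]
    exact h.few
  have e3 : MI (tup p L N) (fun w => Z (w 0)) (fun w (j : Fin N) => th (w j.succ))
      (fun w => ((Wd (w 0), (th (w 0), b (w 0))), Bs (w 0))) ≤ N * d := by
    refine le_trans ?_ (tup_miN hp h.Lb h.h0 (fun ω => (Z ω, (Wd ω, th ω))))
    have b1 := MI_data hq0 (A := fun w => Z (w 0)) (B := fun w => (Wd (w 0), th (w 0)))
      (X := fun w => (Z (w 0), (Wd (w 0), th (w 0)))) (Y := fun w (j : Fin N) => th (w j.succ))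
      (Z := fun w => b (w 0))
      (fun w w' _ _ e => (Prod.ext_iff.mp (Prod.ext_iff.mp e).1).1)
      (fun w w' _ _ e => (Prod.ext_iff.mp (Prod.ext_iff.mp e).1).2)
    refine le_trans (le_of_eq ?_) b1
    refine MI_congr hq0 ?_ ?_ ?_ ?_ ?_ ?_
    · intro w w' _ _ e
      simp only [Prod.mk.injEq] at e ⊢
      tauto
    · intro w w' x y e
      simp only [Prod.mk.injEq] at e ⊢
      have := hBY w w' x y (by simp only [Prod.mk.injEq]; tauto)
      tauto
    · intro w w' _ _ e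
      simp only [Prod.mk.injEq] at e ⊢
      tauto
    · intro w w' x y e
      simp only [Prod.mk.injEq] at e ⊢
      have := hBY w w' x y (by simp only [Prod.mk.injEq]; tauto)
      tauto
    · intro w w' _ _ e
      simp only [Prod.mk.injEq] at e ⊢
      tauto
    · intro w w' x y e
      have := hBY w w' x y (by simp only [Prod.mk.injEq] at e ⊢; tauto)
      simp only [Prod.mk.injEq] at e ⊢
      tauto
  linarith

/-- The own time with its base and the other times carry few bits about the line. -/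
theorem PcOk.own_cost (h : PcOk p L th b hgt nu S Wd Z Bs X C d) (N : ℕ) :
    MI (tup p L N) (fun w => L (w 0)) (fun w => ((th (w 0), Bs (w 0)),
      fun j : Fin N => th (w j.succ))) (fun w => b (w 0)) ≤ (N + 1) * d := by
  have hp := h.law.nonneg
  have hq0 : ∀ w, 0 ≤ tup p L N w := fun w => tup_nonneg hp L _ w
  have him : Im (tup p L N) p (fun w => w 0) := im_tup hp L N 0
  rw [MI_chain hq0]
  have e2 : MI (tup p L N) (fun w => L (w 0)) (fun w => (th (w 0), Bs (w 0)))
      (fun w => b (w 0)) ≤ d := by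
    rw [him.MI L (fun ω => (th ω, Bs ω)) b, MI_symm hp]
    exact h.h1
  have e3 : MI (tup p L N) (fun w => L (w 0)) (fun w (j : Fin N) => th (w j.succ))
      (fun w => ((th (w 0), Bs (w 0)), b (w 0))) ≤ N * d := by
    refine le_trans ?_ (tup_miN hp h.Lb h.h0 (fun ω => (L ω, (th ω, Bs ω))))
    exact MI_data hq0 (A := fun w => L (w 0)) (B := fun w => (th (w 0), Bs (w 0)))
      (X := fun w => (L (w 0), (th (w 0), Bs (w 0)))) (Y := fun w (j : Fin N) => th (w j.succ))
      (Z := fun w => b (w 0))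
      (fun w w' _ _ e => (Prod.ext_iff.mp (Prod.ext_iff.mp e).1).1)
      (fun w w' _ _ e => (Prod.ext_iff.mp (Prod.ext_iff.mp e).1).2)
  linarith

/-- **Fullness of `Z` given the data.** -/
theorem PcOk.df_Z (h : PcOk p L th b hgt nu S Wd Z Bs X C d) {N : ℕ}
    {A0 : (Fin N → τ) → Matrix (Fin c) (Fin c) ℝ}
    (hinv : ∀ t i j, |(A0 t)⁻¹ i j| ≤ 2 ^ X) {e₀ : ℝ}
    (hbody : DF (tup p L N) (fun _ => Tx c X) (fun w => A0 fun j => th (w j.succ))
      (fun w => xv X (hgt (w 0)))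
      (fun w => (b (w 0), (th (w 0), fun j : Fin N => th (w j.succ)))) ≤ e₀) :
    DF (tup p L N) (fun _ => Tx c X) (fun w => A0 fun j => th (w j.succ))
      (fun w => xv X (Z (w 0))) (dt Wd b th) ≤ e₀ + (N + 1) * d + Pool.POT64.Cch c 1 C := by
  have hp := h.law
  have hq := tup_isLaw hp L N
  have hq0 := hq.nonneg
  have him : Im (tup p L N) p (fun w => w 0) := im_tup hp.nonneg L N 0
  have k2 := DF_more hq0 X (A := fun w => A0 fun j => th (w j.succ))
    (n := fun w => hgt (w 0))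
    (Z := fun w => (b (w 0), (th (w 0), fun j : Fin N => th (w j.succ))))
    (fun w => Wd (w 0)) (by
      intro w w' _ _ e
      simp only [Prod.mk.injEq] at e
      simp only [e.2.2])
  have k3 := mi_tup hp.nonneg h.Lb h.h0 hgt Wd N
  have k4 := Pool.POT64.DF_chart hq X (A := fun w => A0 fun j => th (w j.succ))
    (M := fun _ => 1) (n := fun w => hgt (w 0)) (n' := fun w => Z (w 0))
    (Z := fun w => (Wd (w 0), (b (w 0), (th (w 0), fun j : Fin N => th (w j.succ)))))
    (L := 1) (R := C) zero_le_one (by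
      intro w w' _ _ e
      simp only [Prod.mk.injEq] at e
      simp only [e.2.2.2]) (fun _ _ _ _ _ => rfl) (fun w i j => hinv _ i j)
    (fun w => by rw [Matrix.det_one, abs_one])
    (fun w i j => by
      rw [inv_one, Matrix.one_apply]
      split_ifs <;> simp) (by
      intro w w' x y e i
      simp only [Prod.mk.injEq] at e
      have h1 : ∑ j, (1 : Matrix (Fin c) (Fin c) ℝ) i j * ((hgt (w 0) j : ℝ) - hgt (w' 0) j) =
          (hgt (w 0) i : ℝ) - hgt (w' 0) i := by
        simp [Matrix.one_apply]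
      rw [h1]
      exact h.rel _ _ (him.pos hq0 x) (him.pos hq0 y) e.1 e.2.2.1 e.2.1 i)
  have k5 := h.wd
  simp only [one_mul] at k4
  refine k4.trans ?_
  linarith

end Pool.DR24
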