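import Pool.Agent.H24.DR3.Sys
import Pool.Agent.H24.DR3.Col

/-!
# DR3: the normals of the pairs of test bodies, all columns

`ts_nc`: the normals of the pairs of test bodies of two samples of one line are almost parallel.
`ts_pl`: all columns of a test body of another sample are in the plane of the pair.
-/

set_option autoImplicit false

namespace Pool.DR24

open Finset Real Matrix
open Pool.Agent.H49.Ent Pool.Agent.H32.Dense Pool.STK Pool.POT Pool.FAD Pool.SLO Pool.TQ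
open Pool.K2S (Pe)
open Pool.BFL (Pb)
open Pool.DIR21 (Pb_Pe Pb_mono Pb_or Pb_nonneg)

variable {Ω Θ Λ τ B : Type} [Fintype Ω] [Fintype Θ] {p : Ω → ℝ} {b : Ω → B}
  {r : Θ → ℝ} {f : Θ → Ω} {L : Θ → Λ} {t : Θ → τ} {F₀ d : ℝ}

/-- **The normals of the pairs of test bodies of two samples of one line.** -/
theorem ts_nc {nu : Ω → Fin (2 + 1) → ℤ} (h : TsOk p b nu r f L t F₀ d)
    {h₀ κ₁ δ η ϖ C c₀ : ℝ} {X0 X : ℕ} (hm : MNN 2 h₀ κ₁ δ F₀ η ϖ C c₀ X0) (hX : X0 ≤ X)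
    (A : Fin 2 → τ → Matrix (Fin 3) (Fin 3) ℝ) (hA : ∀ k x, (A k x).det ≠ 0)
    (hi : ∀ k x, Inc c₀ (Tx (2 + 1) X) (A k x)) {K₁ : ℝ} (hK : ∀ k x i a, |A k x i a| ≤ K₁)
    {e : ℝ} (hD : ∀ k, DF r (fun _ => Tx (2 + 1) X) (fun θ => A k (t θ))
      (fun θ => xv X (nu (f θ))) (fun θ => (b (f θ), t θ)) ≤ e)
    (hnu : ∀ ω i, |(nu ω i : ℝ)| ≤ C * 2 ^ X)
    (nf : ∀ G : Ω → Prop, ϖ ≤ Pe p G → 0 < Pe p G →
      CH (cond p G True) nu b ≤ ((2 : ℕ) + 1 - h₀) * X * Real.log 2 + η * X)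
    (he : e + d ≤ η * X) {ρ₁ : ℝ} (hρ₁ : 0 < ρ₁)
    (hcr : ∀ θ, 0 < r θ → ρ₁ ≤ mx (vc (A 0 (t θ)) (A 1 (t θ)))) :
    Pb (tup r L 1) (fun w => ¬ PA (2 * (K₁ * (2 : ℝ) ^ (-(κ₁ * X))) / (ρ₁ * ρ₁))
      (nc (A 0 (t (w 0))) (A 1 (t (w 0)))) (nc (A 0 (t (w 1))) (A 1 (t (w 1))))) ≤ δ + δ := by
  have hr := h.lawr.nonneg
  have hq0 : ∀ w, 0 ≤ tup r L 1 w := fun w => tup_nonneg hr L _ w
  have he' : e + ((1 : ℕ) : ℝ) * d ≤ η * X := by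
    rw [Nat.cast_one, one_mul]
    exact he
  have k0 := ts_mass h hm hX (fun k => ![A 0, A 1, A 0] k) (by
    intro k x
    fin_cases k
    · exact hA 0 x
    · exact hA 1 x
    · exact hA 0 x) (by
    intro k x
    fin_cases k
    · exact hi 0 x
    · exact hi 1 x
    · exact hi 0 x) (e := e) (by
    intro k
    fin_cases k
    · exact hD 0
    · exact hD 1
    · exact hD 0) hnu nf 1 ![0, 0, 1] he'
  have k1 := ts_mass h hm hX (fun k => ![A 0, A 1, A 1] k) (by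
    intro k x
    fin_cases k
    · exact hA 0 x
    · exact hA 1 x
    · exact hA 1 x) (by
    intro k x
    fin_cases k
    · exact hi 0 x
    · exact hi 1 x
    · exact hi 1 x) (e := e) (by
    intro k
    fin_cases k
    · exact hD 0
    · exact hD 1
    · exact hD 1) hnu nf 1 ![0, 0, 1] he'
  refine le_trans (Pb_mono hq0 fun w hw hn => ?_) ((Pb_or hq0 _ _).trans (add_le_add k0 k1))
  by_contra hcon
  push Not at hcon
  obtain ⟨c0, c1⟩ := hcon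
  have w0 : 0 < r (w 0) := (im_tup hr L 1 0).pos hq0 hw
  have w1 : 0 < r (w 1) := (im_tup hr L 1 1).pos hq0 hw
  have e0 : (fun k : Fin 3 => ![A 0, A 1, A 0] k (t (w ((![0, 0, 1] : Fin 3 → Fin 2) k)))) =
      ![A 0 (t (w 0)), A 1 (t (w 0)), A 0 (t (w 1))] := by
    funext k
    fin_cases k <;> rfl
  have e1 : (fun k : Fin 3 => ![A 0, A 1, A 1] k (t (w ((![0, 0, 1] : Fin 3 → Fin 2) k)))) =
      ![A 0 (t (w 0)), A 1 (t (w 0)), A 1 (t (w 1))] := by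
    funext k
    fin_cases k <;> rfl
  have c0' : ¬ RN ((2 : ℝ) ^ (-(κ₁ * X))) ![A 0 (t (w 0)), A 1 (t (w 0)), A 0 (t (w 1))] := by
    rw [← e0]
    exact c0
  have c1' : ¬ RN ((2 : ℝ) ^ (-(κ₁ * X))) ![A 0 (t (w 0)), A 1 (t (w 0)), A 1 (t (w 1))] := by
    rw [← e1]
    exact c1
  exact hn (nc_par hρ₁ (fun i a => hK 0 _ i a) (fun i a => hK 1 _ i a) (hcr _ w0) (hcr _ w1)
    c0' c1')

/-- **The columns of a test body of another sample.** -/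
theorem ts_pl {nu : Ω → Fin (2 + 1) → ℤ} (h : TsOk p b nu r f L t F₀ d)
    {h₀ κ₁ δ η ϖ C c₀ : ℝ} {X0 X : ℕ} (hm : MNN 2 h₀ κ₁ δ F₀ η ϖ C c₀ X0) (hX : X0 ≤ X)
    (A : Fin 2 → τ → Matrix (Fin 3) (Fin 3) ℝ) (hA : ∀ k x, (A k x).det ≠ 0)
    (hi : ∀ k x, Inc c₀ (Tx (2 + 1) X) (A k x))
    (D : τ → Matrix (Fin 3) (Fin 3) ℝ) (hDd : ∀ x, (D x).det ≠ 0)
    (hDi : ∀ x, Inc c₀ (Tx (2 + 1) X) (D x))
    {e : ℝ} (hD : ∀ k, DF r (fun _ => Tx (2 + 1) X) (fun θ => A k (t θ))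
      (fun θ => xv X (nu (f θ))) (fun θ => (b (f θ), t θ)) ≤ e)
    (hDD : DF r (fun _ => Tx (2 + 1) X) (fun θ => D (t θ))
      (fun θ => xv X (nu (f θ))) (fun θ => (b (f θ), t θ)) ≤ e)
    (hnu : ∀ ω i, |(nu ω i : ℝ)| ≤ C * 2 ^ X)
    (nf : ∀ G : Ω → Prop, ϖ ≤ Pe p G → 0 < Pe p G →
      CH (cond p G True) nu b ≤ ((2 : ℕ) + 1 - h₀) * X * Real.log 2 + η * X)
    (he : e + d ≤ η * X) {ρ₁ : ℝ} (hρ₁ : 0 < ρ₁)
    (hcr : ∀ θ, 0 < r θ → ρ₁ ≤ mx (vc (A 0 (t θ)) (A 1 (t θ)))) :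
    Pb (tup r L 1) (fun w => ¬ ∀ c, |dp (nc (A 0 (t (w 1))) (A 1 (t (w 1))))
      (fun i => D (t (w 0)) i c)| ≤ (2 : ℝ) ^ (-(κ₁ * X)) / ρ₁) ≤ δ := by
  have hr := h.lawr.nonneg
  have hq0 : ∀ w, 0 ≤ tup r L 1 w := fun w => tup_nonneg hr L _ w
  have he' : e + ((1 : ℕ) : ℝ) * d ≤ η * X := by
    rw [Nat.cast_one, one_mul]
    exact he
  have k0 := ts_mass h hm hX (fun k => ![A 0, A 1, D] k) (by
    intro k x
    fin_cases k
    · exact hA 0 x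
    · exact hA 1 x
    · exact hDd x) (by
    intro k x
    fin_cases k
    · exact hi 0 x
    · exact hi 1 x
    · exact hDi x) (e := e) (by
    intro k
    fin_cases k
    · exact hD 0
    · exact hD 1
    · exact hDD) hnu nf 1 ![1, 1, 0] he'
  refine le_trans (Pb_mono hq0 fun w hw hn => ?_) k0
  by_contra c0
  have w1 : 0 < r (w 1) := (im_tup hr L 1 1).pos hq0 hw
  have e0 : (fun k : Fin 3 => ![A 0, A 1, D] k (t (w ((![1, 1, 0] : Fin 3 → Fin 2) k)))) =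
      ![A 0 (t (w 1)), A 1 (t (w 1)), D (t (w 0))] := by
    funext k
    fin_cases k <;> rfl
  have c0' : ¬ RN ((2 : ℝ) ^ (-(κ₁ * X))) ![A 0 (t (w 1)), A 1 (t (w 1)), D (t (w 0))] := by
    rw [← e0]
    exact c0
  exact hn fun c => dp_nc hρ₁ (hcr _ w1) c0' c

end Pool.DR24
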