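import Pool.Agent.H24.DR3.Num
import Pool.Agent.H21.DIR.Tup
import Pool.Agent.H21.DIR.Cor

/-!
# DR3: test data of a line

`TsOk`: a law `r` of samples with a line `L`, a test datum `t` which carries few bits about the line,
over a base law `p` with a context `b` and an integer vector `nu`, both functions of the line.
`ts_df`: `nu` is full in the body of each of `M + 1` samples of one line, given all test data.
`ts_mass`: any `N + 1` of these bodies are dependent off a small event.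
-/

set_option autoImplicit false

namespace Pool.DR24

open Finset Real Matrix
open Pool.Agent.H49.Ent Pool.Agent.H32.Dense Pool.STK Pool.POT Pool.FAD Pool.SLO Pool.TQ
open Pool.K2S (Pe)
open Pool.BFL (Pb)
open Pool.DIR21 (Pb_Pe mg_cond)

/-- The hypotheses. -/
structure TsOk {Ω Θ Λ τ B : Type} [Fintype Ω] [Fintype Θ] {c : ℕ} (p : Ω → ℝ) (b : Ω → B)
    (nu : Ω → Fin c → ℤ) (r : Θ → ℝ) (f : Θ → Ω) (L : Θ → Λ) (t : Θ → τ) (F₀ d : ℝ) : Prop where
  law : IsLaw p
  lawr : IsLaw r
  den : ∀ ω, mg r f ω ≤ F₀ * p ω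
  Lb : Det r L (fun θ => b (f θ))
  Ln : Det r L (fun θ => nu (f θ))
  h0 : MI r t L (fun θ => b (f θ)) ≤ d

variable {Ω Θ Λ τ B : Type} [Fintype Ω] [Fintype Θ] {c : ℕ} {p : Ω → ℝ} {b : Ω → B}
  {nu : Ω → Fin c → ℤ} {r : Θ → ℝ} {f : Θ → Ω} {L : Θ → Λ} {t : Θ → τ} {F₀ d : ℝ}

/-- The other test data, given the own test datum. -/
theorem TsOk.mi (h : TsOk p b nu r f L t F₀ d) (M : ℕ) (k : Fin (M + 1)) :
    MI (tup r L M) (fun w => nu (f (w k))) (fun w (j : Fin (M + 1)) => t (w j))
      (fun w => (b (f (w k)), t (w k))) ≤ M * d := by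
  classical
  have hr := h.lawr.nonneg
  have h0 : ∀ w, 0 ≤ tup r L M w := fun w => tup_nonneg hr L _ w
  -- the first sample
  have e0 : MI (tup r L M) (fun w => nu (f (w 0))) (fun w (j : Fin (M + 1)) => t (w j))
      (fun w => (b (f (w 0)), t (w 0))) ≤ M * d := by
    have a1 := tup_miN (N := M) hr h.Lb h.h0 (fun θ => (nu (f θ), t θ))
    refine le_trans ?_ a1
    have a2 := MI_data h0 (A := fun w => nu (f (w 0))) (B := fun w => t (w 0))
      (X := fun w => (nu (f (w 0)), t (w 0))) (Y := fun w (j : Fin M) => t (w j.succ))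
      (Z := fun w => b (f (w 0)))
      (fun w w' _ _ e => (Prod.ext_iff.mp (Prod.ext_iff.mp e).1).1)
      (fun w w' _ _ e => (Prod.ext_iff.mp (Prod.ext_iff.mp e).1).2)
    refine le_trans (le_of_eq ?_) a2
    refine MI_congr h0 ?_ ?_ ?_ ?_ ?_ ?_
    · intro w w' _ _ e
      simp only [Prod.mk.injEq] at e ⊢
      exact ⟨e.1, e.2.2, e.2.1⟩
    · intro w w' _ _ e
      simp only [Prod.mk.injEq] at e ⊢
      exact ⟨e.1, e.2.2, e.2.1⟩
    · intro w w' _ _ e
      simp only [Prod.mk.injEq] at e ⊢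
      exact ⟨funext fun j => congrFun e.1 j.succ, e.2.2, e.2.1⟩
    · intro w w' _ _ e
      simp only [Prod.mk.injEq] at e ⊢
      refine ⟨funext fun j => ?_, e.2.2, e.2.1⟩
      refine Fin.cases e.2.1 (fun i => ?_) j
      exact congrFun e.1 i
    · intro w w' _ _ e
      simp only [Prod.mk.injEq] at e ⊢
      exact ⟨e.2, e.1⟩
    · intro w w' _ _ e
      simp only [Prod.mk.injEq] at e ⊢
      exact ⟨e.2, e.1⟩
  -- the permutation
  have h1 := im_of_marg (tup_perm hr L (N := M) (Equiv.swap 0 k))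
  have h2 := h1.MI (fun w => nu (f (w 0))) (fun w (j : Fin (M + 1)) => t (w j))
    (fun w => (b (f (w 0)), t (w 0)))
  refine le_trans (le_of_eq ?_) (h2.le.trans e0)
  refine MI_congr h0 ?_ ?_ ?_ ?_ ?_ ?_
  · intro w w' _ _ e
    simp only [Function.comp_def, Equiv.swap_apply_left, Prod.mk.injEq] at e ⊢
    exact e
  · intro w w' _ _ e
    simp only [Function.comp_def, Equiv.swap_apply_left, Prod.mk.injEq] at e ⊢
    exact e
  · intro w w' _ _ e
    simp only [Function.comp_def, Equiv.swap_apply_left, Prod.mk.injEq] at e ⊢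
    exact ⟨funext fun j => congrFun e.1 _, e.2⟩
  · intro w w' _ _ e
    simp only [Function.comp_def, Equiv.swap_apply_left, Prod.mk.injEq] at e ⊢
    refine ⟨funext fun j => ?_, e.2⟩
    have := congrFun e.1 (Equiv.swap 0 k j)
    simpa using this
  · intro w w' _ _ e
    simp only [Function.comp_def, Equiv.swap_apply_left, Prod.mk.injEq] at e ⊢
    exact e
  · intro w w' _ _ e
    simp only [Function.comp_def, Equiv.swap_apply_left, Prod.mk.injEq] at e ⊢
    exact e

/-- **Fullness given all test data.** -/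
theorem ts_df (h : TsOk p b nu r f L t F₀ d) {X : ℕ} {A : τ → Matrix (Fin c) (Fin c) ℝ} {e : ℝ}
    (hA : DF r (fun _ => Tx c X) (fun θ => A (t θ)) (fun θ => xv X (nu (f θ)))
      (fun θ => (b (f θ), t θ)) ≤ e) (M : ℕ) (k : Fin (M + 1)) :
    DF (tup r L M) (fun _ => Tx c X) (fun w => A (t (w k))) (fun w => xv X (nu (f (w 0))))
      (fun w => (b (f (w 0)), fun j : Fin (M + 1) => t (w j))) ≤ e + M * d := by
  have hr := h.lawr.nonneg
  have h0 : ∀ w, 0 ≤ tup r L M w := fun w => tup_nonneg hr L _ w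
  have hk := im_tup hr L M k
  have h00 := im_tup hr L M 0
  have s1 := DF_image hk X (fun θ => A (t θ)) (fun θ => nu (f θ)) (fun θ => (b (f θ), t θ))
  have s2 := DF_more h0 X (A := fun w => A (t (w k))) (n := fun w => nu (f (w k)))
    (Z := fun w => (b (f (w k)), t (w k))) (fun w (j : Fin (M + 1)) => t (w j)) (by
      intro w w' _ _ e
      have e1 := (Prod.ext_iff.mp e).2
      simp only at e1 ⊢
      rw [e1])
  have s3 := h.mi M k
  have hl : ∀ w, 0 < tup r L M w → b (f (w k)) = b (f (w 0)) ∧ nu (f (w k)) = nu (f (w 0)) := by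
    intro w hw
    have e1 : L (w k) = L (w 0) := tup_line hr L hw k
    exact ⟨h.Lb _ _ (hk.pos h0 hw) (h00.pos h0 hw) e1,
      h.Ln _ _ (hk.pos h0 hw) (h00.pos h0 hw) e1⟩
  have s4 := Pool.TQ64.DF_cg h0 X (A := fun w => A (t (w k))) (A' := fun w => A (t (w k)))
    (n := fun w => nu (f (w k))) (n' := fun w => nu (f (w 0)))
    (Z := fun w => ((fun j : Fin (M + 1) => t (w j)), (b (f (w k)), t (w k))))
    (Z' := fun w => (b (f (w 0)), fun j : Fin (M + 1) => t (w j))) (fun _ _ => rfl)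
    (fun w hw => (hl w hw).2) (by
      intro w w' x y e
      simp only [Prod.mk.injEq] at e ⊢
      rw [← (hl w x).1, ← (hl w' y).1]
      exact ⟨e.2.1, e.1⟩) (by
      intro w w' x y e
      simp only [Prod.mk.injEq] at e ⊢
      rw [(hl w x).1, (hl w' y).1]
      exact ⟨e.2, e.1, congrFun e.2 k⟩)
  rw [← s4]
  linarith

/-- **`N + 1` bodies of the samples of one line.** -/
theorem ts_mass {N : ℕ} {nu : Ω → Fin (N + 1) → ℤ} (h : TsOk p b nu r f L t F₀ d)
    {h₀ κ₁ δ η ϖ C c₀ : ℝ} {X0 X : ℕ} (hm : MNN N h₀ κ₁ δ F₀ η ϖ C c₀ X0) (hX : X0 ≤ X)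
    (A : Fin (N + 1) → τ → Matrix (Fin (N + 1)) (Fin (N + 1)) ℝ) (hA : ∀ k x, (A k x).det ≠ 0)
    (hi : ∀ k x, Inc c₀ (Tx (N + 1) X) (A k x)) {e : ℝ}
    (hD : ∀ k, DF r (fun _ => Tx (N + 1) X) (fun θ => A k (t θ)) (fun θ => xv X (nu (f θ)))
      (fun θ => (b (f θ), t θ)) ≤ e) (hnu : ∀ ω i, |(nu ω i : ℝ)| ≤ C * 2 ^ X)
    (nf : ∀ G : Ω → Prop, ϖ ≤ Pe p G → 0 < Pe p G →
      CH (cond p G True) nu b ≤ (N + 1 - h₀) * X * Real.log 2 + η * X)
    (M : ℕ) (s : Fin (N + 1) → Fin (M + 1)) (he : e + M * d ≤ η * X) :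
    Pb (tup r L M) (fun w => RN ((2 : ℝ) ^ (-(κ₁ * X))) fun k => A k (t (w (s k)))) ≤ δ := by
  classical
  have hr := h.lawr.nonneg
  have hq := tup_isLaw h.lawr L M
  have h00 := im_tup hr L M 0
  have k3 := hm Ω (Fin (M + 1) → Θ) _ B inferInstance inferInstance p (tup r L M)
    (fun w => f (w 0)) nu b (fun k w => A k (t (w (s k))))
    (fun w => (b (f (w 0)), fun j : Fin (M + 1) => t (w j))) X hX h.law hq (by
      intro ω
      have e1 : mg (tup r L M) (fun w => f (w 0)) ω = mg r f ω := by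
        have g1 : mg (tup r L M) (fun w => f (w 0)) ω = ∑ w, if f (w 0) = ω then
          tup r L M w else 0 := by
          unfold mg
          exact Finset.sum_congr rfl fun w _ => by congr
        have g2 : mg r f ω = ∑ θ, if f θ = ω then r θ else 0 := by
          unfold mg
          exact Finset.sum_congr rfl fun w _ => by congr
        have g3 := h00.Ex (fun θ => if f θ = ω then 1 else 0)
        unfold Pool.Agent.H32.Dense.Ex at g3
        simp only [mul_ite, mul_one, mul_zero] at g3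
        rw [g1, g2, g3]
      rw [e1]
      exact h.den ω) (by
      intro k w w' _ _ e
      have e1 := congrFun (Prod.ext_iff.mp e).2 (s k)
      simp only at e1 ⊢
      rw [e1]) (by
      intro w w' _ _ e
      exact (Prod.ext_iff.mp e).1) (fun k w => hA k _) (fun k w => hi k _)
    (fun k => (ts_df h (hD k) M (s k)).trans he) hnu nf
  rwa [← Pb_Pe] at k3

end Pool.DR24
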