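import Pool.Agent.H24.DR3.Vec3
import Pool.Agent.H24.DR3.Ts

/-!
# DR3: tuples and events of test systems; the normals of the pairs of test bodies

`TsOk.tup`: the tuples of samples of one line form a system. `TsOk.ev`: the samples with a property of
the test datum form a system. `ts_nrm`: the normals of the pairs of test bodies of two samples of one
line are almost parallel.
-/

set_option autoImplicit false

namespace Pool.DR24

open Finset Real Matrix
open Pool.Agent.H49.Ent Pool.Agent.H32.Dense Pool.STK Pool.POT Pool.FAD Pool.SLO Pool.TQ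
open Pool.K2S (Pe)
open Pool.BFL (Pb)
open Pool.DIR21 (Pb_Pe Pb_mono Pb_or Pb_nonneg)

variable {Ω Θ Λ τ B : Type} [Fintype Ω] [Fintype Θ] {c : ℕ} {p : Ω → ℝ} {b : Ω → B}
  {nu : Ω → Fin c → ℤ} {r : Θ → ℝ} {f : Θ → Ω} {L : Θ → Λ} {t : Θ → τ} {F₀ d : ℝ}

omit [Fintype Ω] in
theorem mg_first (hr : ∀ θ, 0 ≤ r θ) (M : ℕ) (ω : Ω) :
    mg (tup r L M) (fun w => f (w 0)) ω = mg r f ω := by
  classical
  have h00 := im_tup hr L M 0
  have g1 : mg (tup r L M) (fun w => f (w 0)) ω = ∑ w, if f (w 0) = ω then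
      tup r L M w else 0 := by
    unfold mg
    exact Finset.sum_congr rfl fun w _ => by congr
  have g2 : mg r f ω = ∑ θ, if f θ = ω then r θ else 0 := by
    unfold mg
    exact Finset.sum_congr rfl fun w _ => by congr
  have g3 := h00.Ex (fun θ => if f θ = ω then 1 else 0)
  unfold Pool.Agent.H32.Dense.Ex at g3
  simp only [mul_ite, mul_one, mul_zero] at g3
  rw [g1, g2, g3]

/-- **Tuples of samples of one line.** -/
theorem TsOk.tup (h : TsOk p b nu r f L t F₀ d) (M : ℕ) :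
    TsOk p b nu (tup r L M) (fun w => f (w 0)) (fun w => L (w 0))
      (fun w (j : Fin (M + 1)) => t (w j)) F₀ ((M + 1) * d) := by
  have hr := h.lawr.nonneg
  have hq0 : ∀ w, 0 ≤ Pool.SLO.tup r L M w := fun w => tup_nonneg hr L _ w
  have him := im_tup hr L M 0
  refine ⟨h.law, tup_isLaw h.lawr L M, fun ω => ?_, ?_, ?_, ?_⟩
  · rw [mg_first hr M ω]
    exact h.den ω
  · intro w w' x y e
    exact h.Lb _ _ (him.pos hq0 x) (him.pos hq0 y) e
  · intro w w' x y e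
    exact h.Ln _ _ (him.pos hq0 x) (him.pos hq0 y) e
  · rw [MI_symm hq0]
    have e1 : MI (Pool.SLO.tup r L M) (fun w => L (w 0)) (fun w (j : Fin (M + 1)) => t (w j))
        (fun w => b (f (w 0))) = MI (Pool.SLO.tup r L M) (fun w => L (w 0))
        (fun w => (t (w 0), fun j : Fin M => t (w j.succ))) (fun w => b (f (w 0))) := by
      refine MI_congr hq0 (fun _ _ _ _ e => e) (fun _ _ _ _ e => e) ?_ ?_
        (fun _ _ _ _ e => e) (fun _ _ _ _ e => e)
      · intro w w' _ _ e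
        simp only [Prod.mk.injEq] at e ⊢
        exact ⟨⟨congrFun e.1 0, funext fun j => congrFun e.1 j.succ⟩, e.2⟩
      · intro w w' _ _ e
        simp only [Prod.mk.injEq] at e ⊢
        refine ⟨funext fun j => ?_, e.2⟩
        exact Fin.cases e.1.1 (fun i => congrFun e.1.2 i) j
    rw [e1, MI_chain hq0]
    have k1 : MI (Pool.SLO.tup r L M) (fun w => L (w 0)) (fun w => t (w 0))
        (fun w => b (f (w 0))) ≤ d := by
      rw [him.MI L t (fun θ => b (f θ)), MI_symm hr]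
      exact h.h0
    have k2 : MI (Pool.SLO.tup r L M) (fun w => L (w 0)) (fun w (j : Fin M) => t (w j.succ))
        (fun w => (t (w 0), b (f (w 0)))) ≤ M * d := by
      refine le_trans ?_ (tup_miN (N := M) hr h.Lb h.h0 (fun θ => (L θ, t θ)))
      exact MI_data hq0 (A := fun w => L (w 0)) (B := fun w => t (w 0))
        (X := fun w => (L (w 0), t (w 0))) (Y := fun w (j : Fin M) => t (w j.succ))
        (Z := fun w => b (f (w 0)))
        (fun w w' _ _ e => (Prod.ext_iff.mp (Prod.ext_iff.mp e).1).1)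
        (fun w w' _ _ e => (Prod.ext_iff.mp (Prod.ext_iff.mp e).1).2)
    linarith

/-- **The samples with a property of the test datum.** -/
theorem TsOk.ev (h : TsOk p b nu r f L t F₀ d) {G : Θ → Prop} (hG : Det r t G) {F₁ : ℝ}
    (hF₁ : 0 < F₁) (hm : 1 / F₁ ≤ Pe r G) :
    TsOk p b nu (cond r G True) f L t (F₁ * F₀) (F₁ * d) := by
  classical
  have hr := h.lawr.nonneg
  have hP : 0 < Pe r G := lt_of_lt_of_le (by positivity) hm
  have hc := cond_law hr hP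
  have hpos : ∀ θ, 0 < cond r G True θ → 0 < r θ := fun θ hθ =>
    ((cond_pos_iff hr G True θ).1 hθ).1
  refine ⟨h.law, hc, fun ω => ?_, ?_, ?_, ?_⟩
  · have h1 : ∀ θ, cond r G True θ ≤ F₁ * r θ := fun θ => by
      refine (cond_le hr θ).trans (mul_le_mul_of_nonneg_right ?_ (hr θ))
      rw [div_le_iff₀ hP]
      have : F₁ * (1 / F₁) ≤ F₁ * Pe r G := mul_le_mul_of_nonneg_left hm hF₁.le
      rwa [mul_one_div_cancel hF₁.ne'] at this
    have h2 := mg_le (im_mg r f) h1 ω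
    have h3 := mul_le_mul_of_nonneg_left (h.den ω) hF₁.le
    linarith
  · exact fun w w' x y e => h.Lb _ _ (hpos w x) (hpos w' y) e
  · exact fun w w' x y e => h.Ln _ _ (hpos w x) (hpos w' y) e
  · have h1 := MI_ev h.lawr (G := G) L t (fun θ => b (f θ)) (fun w w' x y e =>
      hG w w' x y (Prod.ext_iff.mp e).1) hP
    rw [MI_symm hc.nonneg]
    have h2 : MI r L t (fun θ => b (f θ)) ≤ d := by
      rw [MI_symm hr]
      exact h.h0
    have h0 : 0 ≤ d := (MI_nonneg hr _ _ _).trans h.h0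
    refine h1.trans ?_
    rw [div_le_iff₀ hP]
    have h3 : (1 : ℝ) ≤ F₁ * Pe r G := by
      have : F₁ * (1 / F₁) ≤ F₁ * Pe r G := mul_le_mul_of_nonneg_left hm hF₁.le
      rwa [mul_one_div_cancel hF₁.ne'] at this
    calc MI r L t (fun θ => b (f θ)) ≤ 1 * d := by rw [one_mul]; exact h2
      _ ≤ F₁ * Pe r G * d := mul_le_mul_of_nonneg_right h3 h0
      _ = F₁ * d * Pe r G := by ring

/-- The deficits on the event. -/
theorem ts_df_ev (h : TsOk p b nu r f L t F₀ d) {G : Θ → Prop} (hG : Det r t G) {F₁ : ℝ}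
    (hF₁ : 0 < F₁) (hm : 1 / F₁ ≤ Pe r G) {X : ℕ} {A : τ → Matrix (Fin c) (Fin c) ℝ}
    (hA : ∀ x, (A x).det ≠ 0) {c₀ : ℝ} (hc : 0 ≤ c₀) (hi : ∀ x, Inc c₀ (Tx c X) (A x))
    {n : Θ → Fin c → ℤ} {e : ℝ}
    (hD : DF r (fun _ => Tx c X) (fun θ => A (t θ)) (fun θ => xv X (n θ))
      (fun θ => (b (f θ), t θ)) ≤ e) :
    DF (cond r G True) (fun _ => Tx c X) (fun θ => A (t θ)) (fun θ => xv X (n θ))
      (fun θ => (b (f θ), t θ)) ≤ F₁ * (|e| + |Cc c c₀|) := by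
  have hP : 0 < Pe r G := lt_of_lt_of_le (by positivity) hm
  have h1 := DF_ev h.lawr (G := G) (T := fun _ => Tx c X) (V := fun θ => A (t θ))
    (fun θ => xv X (n θ)) (fun θ => (b (f θ), t θ))
    (fun w w' x y e => hG w w' x y (Prod.ext_iff.mp e).2) (fun _ _ _ _ _ => rfl)
    (fun w w' _ _ e => by
      have := (Prod.ext_iff.mp e).2
      simp only at this ⊢
      rw [this]) (fun _ => Tx_det c X) (fun θ => hA _) hc (fun θ => hi _) hP
  refine h1.trans ?_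
  rw [div_le_iff₀ hP]
  have h3 : (1 : ℝ) ≤ F₁ * Pe r G := by
    have : F₁ * (1 / F₁) ≤ F₁ * Pe r G := mul_le_mul_of_nonneg_left hm hF₁.le
    rwa [mul_one_div_cancel hF₁.ne'] at this
  have h4 := le_abs_self e
  have h5 : 0 ≤ |e| + |Cc c c₀| := by positivity
  calc _ ≤ 1 * (|e| + |Cc c c₀|) := by linarith
    _ ≤ F₁ * Pe r G * (|e| + |Cc c c₀|) := mul_le_mul_of_nonneg_right h3 h5
    _ = _ := by ring

/-- The normal of two bodies. -/
noncomputable def nrm (A B : Matrix (Fin 3) (Fin 3) ℝ) : Fin 3 → ℝ := nz (cr (un A) (un B))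

theorem nrm_u3 (A B : Matrix (Fin 3) (Fin 3) ℝ) : U3 (nrm A B) := nz_u3 _

/-- **The normals of the pairs of test bodies of two samples of one line.** -/
theorem ts_nrm {nu : Ω → Fin (2 + 1) → ℤ} (h : TsOk p b nu r f L t F₀ d)
    {h₀ κ₁ δ η ϖ C c₀ : ℝ} {X0 X : ℕ} (hm : MNN 2 h₀ κ₁ δ F₀ η ϖ C c₀ X0) (hX : X0 ≤ X)
    (A : Fin 2 → τ → Matrix (Fin 3) (Fin 3) ℝ) (hA : ∀ k x, (A k x).det ≠ 0)
    (hi : ∀ k x, Inc c₀ (Tx (2 + 1) X) (A k x)) {e : ℝ}
    (hD : ∀ k, DF r (fun _ => Tx (2 + 1) X) (fun θ => A k (t θ)) (fun θ => xv X (nu (f θ)))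
      (fun θ => (b (f θ), t θ)) ≤ e) (hnu : ∀ ω i, |(nu ω i : ℝ)| ≤ C * 2 ^ X)
    (nf : ∀ G : Ω → Prop, ϖ ≤ Pe p G → 0 < Pe p G →
      CH (cond p G True) nu b ≤ ((2 : ℕ) + 1 - h₀) * X * Real.log 2 + η * X)
    (he : e + d ≤ η * X) {κ ρ₁ : ℝ} (hκ : 0 < κ) (hρ₁ : 0 < ρ₁)
    (hnb : ∀ θ, 0 < r θ → ∀ k, κ ≤ nb (A k (t θ)))
    (hcr : ∀ θ, 0 < r θ → ρ₁ ≤ mx (cr (un (A 0 (t θ))) (un (A 1 (t θ))))) :
    Pb (tup r L 1) (fun w => ¬ PA (2 * ((2 : ℝ) ^ (-(κ₁ * X)) / (κ * κ * κ)) / (ρ₁ * ρ₁))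
      (nrm (A 0 (t (w 0))) (A 1 (t (w 0)))) (nrm (A 0 (t (w 1))) (A 1 (t (w 1))))) ≤ δ + δ := by
  have hr := h.lawr.nonneg
  have hq0 : ∀ w, 0 ≤ tup r L 1 w := fun w => tup_nonneg hr L _ w
  have he' : e + ((1 : ℕ) : ℝ) * d ≤ η * X := by
    rw [Nat.cast_one, one_mul]
    exact he
  have k0 := ts_mass h hm hX (fun k => ![A 0, A 1, A 0] k) (by
    intro k x
    fin_cases k
    · exact hA 0 x
    · exact hA 1 x
    · exact hA 0 x) (by
    intro k x
    fin_cases k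
    · exact hi 0 x
    · exact hi 1 x
    · exact hi 0 x) (e := e) (by
    intro k
    fin_cases k
    · exact hD 0
    · exact hD 1
    · exact hD 0) hnu nf 1 ![0, 0, 1] he'
  have k1 := ts_mass h hm hX (fun k => ![A 0, A 1, A 1] k) (by
    intro k x
    fin_cases k
    · exact hA 0 x
    · exact hA 1 x
    · exact hA 1 x) (by
    intro k x
    fin_cases k
    · exact hi 0 x
    · exact hi 1 x
    · exact hi 1 x) (e := e) (by
    intro k
    fin_cases k
    · exact hD 0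
    · exact hD 1
    · exact hD 1) hnu nf 1 ![0, 0, 1] he'
  refine le_trans (Pb_mono hq0 fun w hw hn => ?_) ((Pb_or hq0 _ _).trans (add_le_add k0 k1))
  by_contra hcon
  push Not at hcon
  obtain ⟨c0, c1⟩ := hcon
  have w0 : 0 < r (w 0) := (im_tup hr L 1 0).pos hq0 hw
  have w1 : 0 < r (w 1) := (im_tup hr L 1 1).pos hq0 hw
  have e0 : (fun k : Fin 3 => ![A 0, A 1, A 0] k (t (w ((![0, 0, 1] : Fin 3 → Fin 2) k)))) =
      ![A 0 (t (w 0)), A 1 (t (w 0)), A 0 (t (w 1))] := by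
    funext k
    fin_cases k <;> rfl
  have e1 : (fun k : Fin 3 => ![A 0, A 1, A 1] k (t (w ((![0, 0, 1] : Fin 3 → Fin 2) k)))) =
      ![A 0 (t (w 0)), A 1 (t (w 0)), A 1 (t (w 1))] := by
    funext k
    fin_cases k <;> rfl
  have c0' : ¬ RN ((2 : ℝ) ^ (-(κ₁ * X))) ![A 0 (t (w 0)), A 1 (t (w 0)), A 0 (t (w 1))] := by
    rw [← e0]
    exact c0
  have c1' : ¬ RN ((2 : ℝ) ^ (-(κ₁ * X))) ![A 0 (t (w 0)), A 1 (t (w 0)), A 1 (t (w 1))] := by
    rw [← e1]
    exact c1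
  have g0 := dp_un hκ (hnb _ w0 0) (hnb _ w0 1) (hnb _ w1 0) c0'
  have g1 := dp_un hκ (hnb _ w0 0) (hnb _ w0 1) (hnb _ w1 1) c1'
  exact hn (nrm_par hρ₁ (fun i => un_le _ i) (fun i => un_le _ i) (hcr _ w0) (hcr _ w1) g0 g1)

end Pool.DR24
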