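import Pool.Agent.H24.DR3.Sy2
import Pool.Agent.H24.DR3.Cas2
import Pool.Agent.H24.DR3.Fib

/-!
# DR3: two transversal copies

`TR`: two columns of the bodies of two samples are transversal. `PcOk.two`: if this has a constant mass
for two copies, the normal of the two bodies is almost a function of the line and almost a function of
the height and the base, and the own body of the line is in the plane.
-/

set_option autoImplicit false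

namespace Pool.DR24

open Finset Real Matrix
open Pool.Agent.H49.Ent Pool.Agent.H32.Dense Pool.STK Pool.POT Pool.FAD Pool.SLO Pool.TQ
open Pool.K2S (Pe)
open Pool.BFL (Pb)
open Pool.DIR21 (Pb_Pe Pb_mono Pb_or Pb_nonneg)

variable {Ω Λ τ B β ρ σ : Type} [Fintype Ω] {p : Ω → ℝ} {L : Ω → Λ} {th : Ω → τ}
  {b : Ω → B} {hgt nu : Ω → Fin 3 → ℤ} {S : Ω → ρ} {Wd : Ω → β} {Z : Ω → Fin 3 → ℤ} {Bs : Ω → σ}
  {X : ℕ} {C d : ℝ} {N : ℕ}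

/-- **Two transversal copies.** -/
def TR (th : Ω → τ) (A0 : (Fin N → τ) → Matrix (Fin 3) (Fin 3) ℝ) (ρ₁ : ℝ)
    (V : Fin 2 → Fin (N + 1) → Ω) : Prop :=
  ρ₁ ≤ mx (vc (bdy th A0 (V 0)) (bdy th A0 (V 1)))

/-- The deficit. -/
noncomputable def e3 (N : ℕ) (C d F₀ F₁ e₀ : ℝ) : ℝ :=
  F₁ * (e1 3 N C d F₀ e₀ + (2 : ℕ) * (F₀ * ((N + 1) * d)) + |Pool.POT64.Cch 3 1 C| +
    |Cc 3 ((3 : ℕ) + 1)|)

/-- The law of the pairs of transversal copies. -/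
noncomputable def rT (p : Ω → ℝ) (L : Ω → Λ) (th : Ω → τ) (E : (Fin N → τ) → Prop)
    (Z : Ω → Fin 3 → ℤ) (Bs : Ω → σ) (A0 : (Fin N → τ) → Matrix (Fin 3) (Fin 3) ℝ) (ρ₁ : ℝ) :
    (Fin (2 + 1) → Fin (N + 1) → Ω) → ℝ :=
  cond (cE p L th E Z Bs 2) (fun W => TR th A0 ρ₁ fun j => W j.succ) True

/-- The normal of the copies. -/
noncomputable def nT (th : Ω → τ) (A0 : (Fin N → τ) → Matrix (Fin 3) (Fin 3) ℝ)
    (W : Fin (2 + 1) → Fin (N + 1) → Ω) : Fin 3 → ℝ := nc (bdy th A0 (W 1)) (bdy th A0 (W 2))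

theorem rT_pos (hp : IsLaw p) {E : (Fin N → τ) → Prop} {A0 : (Fin N → τ) → Matrix (Fin 3) (Fin 3) ℝ}
    {ρ₁ : ℝ} (hE : 0 < Pe (tup p L N) (evE th E)) {W : Fin (2 + 1) → Fin (N + 1) → Ω}
    (hW : 0 < rT p L th E Z Bs A0 ρ₁ W) : 0 < cE p L th E Z Bs 2 W ∧
      ρ₁ ≤ mx (vc (bdy th A0 (W 1)) (bdy th A0 (W 2))) := by
  have hc0 : ∀ W, 0 ≤ cE p L th E Z Bs 2 W := (tup_isLaw (qE_law hp hE)
    (fun v : Fin (N + 1) → Ω => (Z (v 0), Bs (v 0))) 2).nonneg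
  have := (cond_pos_iff hc0 _ True W).1 hW
  exact ⟨this.1, of_eq_true this.2⟩

theorem rT_law (hp : IsLaw p) {E : (Fin N → τ) → Prop} {A0 : (Fin N → τ) → Matrix (Fin 3) (Fin 3) ℝ}
    {ρ₁ : ℝ} (hE : 0 < Pe (tup p L N) (evE th E))
    (hNP : 0 < Pe (cE p L th E Z Bs 2) (fun W => TR th A0 ρ₁ fun j => W j.succ)) :
    IsLaw (rT p L th E Z Bs A0 ρ₁) :=
  cond_law (tup_isLaw (qE_law hp hE)
    (fun v : Fin (N + 1) → Ω => (Z (v 0), Bs (v 0))) 2).nonneg hNP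

/-- **The copies.** -/
theorem PcOk.two_z (h : PcOk p L th b hgt nu S Wd Z Bs X C d) {F₀ F₁ ρ₁ : ℝ} (hF : 0 < F₀)
    (hF₁ : 0 < F₁) (hρ₁ : 0 < ρ₁) {E : (Fin N → τ) → Prop}
    {A0 : (Fin N → τ) → Matrix (Fin 3) (Fin 3) ℝ}
    (hE : 1 / F₀ ≤ Pe (tup p L N) (evE th E))
    (hNP : 1 / F₁ ≤ Pe (cE p L th E Z Bs 2) (fun W => TR th A0 ρ₁ fun j => W j.succ))
    {h₀ κ₁ δ η ϖ : ℝ} {X0 : ℕ} (hm : MNN 2 h₀ κ₁ δ (F₁ * F₀) η ϖ C ((3 : ℕ) + 1) X0)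
    (hX : X0 ≤ X) (hϖ : 0 < ϖ) {R : ℝ}
    (nf : ∀ G : Ω → Prop, ϖ ≤ Pe p G → 0 < Pe p G →
      CH (cond p G True) Z (fun ω => (Wd ω, S ω)) ≤ R)
    (hR : R + (3 : ℕ) * Real.log (2 * C + 1) + (2 * d + Real.log 2) / ϖ ≤
      ((2 : ℕ) + 1 - h₀) * X * Real.log 2 + η * X) (hC : 0 ≤ C)
    (hA : ∀ t, (A0 t).det ≠ 0) {K₁ : ℝ} (hK : ∀ t i a, |A0 t i a| ≤ K₁)
    (hinv : ∀ t i j, |(A0 t)⁻¹ i j| ≤ 2 ^ X) {e₀ : ℝ}
    (hbody : DF (tup p L N) (fun _ => Tx 3 X) (fun w => A0 fun j => th (w j.succ))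
      (fun w => xv X (hgt (w 0)))
      (fun w => (b (w 0), (th (w 0), fun j : Fin N => th (w j.succ)))) ≤ e₀)
    (he : e3 N C d F₀ F₁ e₀ + F₁ * (((2 : ℕ) + 1) * (F₀ * ((N + 1) * d))) ≤ η * X) :
    Pb (tup (rT p L th E Z Bs A0 ρ₁) (fun W => (Z (W 0 0), Bs (W 0 0))) 1) (fun w =>
      ¬ PA (2 * (K₁ * (2 : ℝ) ^ (-(κ₁ * X))) / (ρ₁ * ρ₁)) (nT th A0 (w 0)) (nT th A0 (w 1))) ≤
      δ + δ := by
  classical
  have hd0 := h.d0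
  have zz : TsOk p Bs Z (cE p L th E Z Bs 2) (fun W => W 0 0)
      (fun W => (Z (W 0 0), Bs (W 0 0))) (fun W (j : Fin (2 + 1)) => dt Wd b th (W j)) F₀
      (((2 : ℕ) + 1) * (F₀ * ((N + 1) * d))) := (h.z_sys hF hE).tup 2
  have zd : ∀ k : Fin (2 + 1), DF (cE p L th E Z Bs 2) (fun _ => Tx 3 X)
      (fun W => A0 fun j => th (W k j.succ)) (fun W => xv X (Z (W 0 0)))
      (fun W => (Bs (W 0 0), fun j : Fin (2 + 1) => dt Wd b th (W j))) ≤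
      e1 3 N C d F₀ e₀ + (2 : ℕ) * (F₀ * ((N + 1) * d)) := fun k =>
    ts_df (h.z_sys (E := E) hF hE) (A := fun x => A0 x.2.2.2) (h.z_df hF hE hA hinv hbody) 2 k
  have hGz : Det (cE p L th E Z Bs 2) (fun W (j : Fin (2 + 1)) => dt Wd b th (W j))
      (fun W => TR th A0 ρ₁ fun j => W j.succ) := by
    intro W W' _ _ e
    have e1 := congrFun e 1
    have e2 := congrFun e 2
    simp only [dt, Prod.mk.injEq] at e1 e2
    have g1 : bdy th A0 (W 1) = bdy th A0 (W' 1) := by unfold bdy; rw [e1.2.2.2]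
    have g2 : bdy th A0 (W 2) = bdy th A0 (W' 2) := by unfold bdy; rw [e2.2.2.2]
    show (ρ₁ ≤ mx (vc (bdy th A0 (W 1)) (bdy th A0 (W 2)))) =
      (ρ₁ ≤ mx (vc (bdy th A0 (W' 1)) (bdy th A0 (W' 2))))
    rw [g1, g2]
  have hinc : ∀ t, Inc ((3 : ℕ) + 1 : ℝ) (Tx 3 X) (A0 t) := fun t => inc_of_inv (hinv t)
  have hc4 : (0 : ℝ) ≤ (3 : ℕ) + 1 := by positivity
  have g0 : 0 ≤ e1 3 N C d F₀ e₀ + (2 : ℕ) * (F₀ * ((N + 1) * d)) := by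
    unfold e1
    positivity
  have zs := zz.ev hGz hF₁ hNP
  have zdr : ∀ k : Fin (2 + 1), DF (rT p L th E Z Bs A0 ρ₁) (fun _ => Tx 3 X)
      (fun W => A0 fun j => th (W k j.succ)) (fun W => xv X (Z (W 0 0)))
      (fun W => (Bs (W 0 0), fun j : Fin (2 + 1) => dt Wd b th (W j))) ≤
      e3 N C d F₀ F₁ e₀ := fun k => by
    refine (ts_df_ev zz hGz hF₁ hNP (A := fun x => A0 (x k).2.2.2) (fun x => hA _) hc4
      (fun x => hinc _) (zd k)).trans ?_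
    unfold e3
    refine mul_le_mul_of_nonneg_left (add_le_add ?_ le_rfl) hF₁.le
    rw [abs_of_nonneg g0]
    linarith [abs_nonneg (Pool.POT64.Cch 3 1 C)]
  have hE0 : 0 < Pe (tup p L N) (evE th E) := lt_of_lt_of_le (by positivity) hE
  refine ts_nc (r := rT p L th E Z Bs A0 ρ₁) (t := fun W (j : Fin (2 + 1)) => dt Wd b th (W j))
    zs hm hX (fun k x => A0 (x k.succ).2.2.2) (fun k x => hA _) (fun k x => hinc _)
    (fun k x => hK _) (e := e3 N C d F₀ F₁ e₀) ?_ h.Z_b ?_ he hρ₁ ?_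
  · exact fun k => zdr k.succ
  · intro G hG hG0
    refine (h.nf_Z hϖ hG hG0 (nf G hG hG0)).trans (le_trans ?_ hR)
    have g1 : (d + Real.log 2) / ϖ ≤ (2 * d + Real.log 2) / ϖ :=
      div_le_div_of_nonneg_right (by linarith) hϖ.le
    have g2 : 0 ≤ (3 : ℕ) * Real.log (2 * C + 1) := by
      have := Real.log_nonneg (show (1 : ℝ) ≤ 2 * C + 1 by linarith)
      positivity
    exact add_le_add (le_add_of_nonneg_right g2) g1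
  · intro W hW
    exact (rT_pos h.law hE0 hW).2

/-- **The lines.** -/
theorem PcOk.two_l (h : PcOk p L th b hgt nu S Wd Z Bs X C d) {F₀ F₁ ρ₁ : ℝ} (hF : 0 < F₀)
    (hF₁ : 0 < F₁) (hρ₁ : 0 < ρ₁) {E : (Fin N → τ) → Prop}
    {A0 : (Fin N → τ) → Matrix (Fin 3) (Fin 3) ℝ}
    (hE : 1 / F₀ ≤ Pe (tup p L N) (evE th E))
    (hNP : 1 / F₁ ≤ Pe (cE p L th E Z Bs 2) (fun W => TR th A0 ρ₁ fun j => W j.succ))
    {h₀ κ₁ δ η ϖ : ℝ} {X0 : ℕ} (hm : MNN 2 h₀ κ₁ δ (F₁ * F₀) η ϖ C ((3 : ℕ) + 1) X0)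
    (hX : X0 ≤ X) (hϖ : 0 < ϖ) {R : ℝ}
    (nf : ∀ G : Ω → Prop, ϖ ≤ Pe p G → 0 < Pe p G →
      CH (cond p G True) Z (fun ω => (Wd ω, S ω)) ≤ R)
    (hR : R + (3 : ℕ) * Real.log (2 * C + 1) + (2 * d + Real.log 2) / ϖ ≤
      ((2 : ℕ) + 1 - h₀) * X * Real.log 2 + η * X) (hC : 0 ≤ C)
    (hA : ∀ t, (A0 t).det ≠ 0) {K₁ : ℝ} (hK : ∀ t i a, |A0 t i a| ≤ K₁)
    (hinv : ∀ t i j, |(A0 t)⁻¹ i j| ≤ 2 ^ X) {e₀ : ℝ}
    (hbody : DF (tup p L N) (fun _ => Tx 3 X) (fun w => A0 fun j => th (w j.succ))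
      (fun w => xv X (hgt (w 0)))
      (fun w => (b (w 0), (th (w 0), fun j : Fin N => th (w j.succ)))) ≤ e₀)
    (he : e3 N C d F₀ F₁ e₀ + F₁ * (((2 : ℕ) + 1) * (F₀ * ((N + 1) * d))) ≤ η * X) :
    Pb (tup (rT p L th E Z Bs A0 ρ₁) (fun W => L (W 0 0)) 1) (fun w =>
      ¬ PA (2 * (K₁ * (2 : ℝ) ^ (-(κ₁ * X))) / (ρ₁ * ρ₁)) (nT th A0 (w 0)) (nT th A0 (w 1))) ≤
      δ + δ ∧
    Pb (tup (rT p L th E Z Bs A0 ρ₁) (fun W => L (W 0 0)) 1) (fun w =>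
      ¬ ∀ c, |dp (nT th A0 (w 1)) (fun i => bdy th A0 (w 0 0) i c)| ≤
        (2 : ℝ) ^ (-(κ₁ * X)) / ρ₁) ≤ δ := by
  classical
  have hd0 := h.d0
  have ld := fun k => h.l_df hF hE hA hinv hbody 2 k
  have hGl : Det (cE p L th E Z Bs 2) (td th Bs Wd b)
      (fun W => TR th A0 ρ₁ fun j => W j.succ) := by
    intro W W' _ _ e
    simp only [td, Prod.mk.injEq] at e
    have e1 := congrFun e.2 0
    have e2 := congrFun e.2 1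
    simp only [dt, Prod.mk.injEq] at e1 e2
    have g1 : bdy th A0 (W 1) = bdy th A0 (W' 1) := by
      unfold bdy
      have e3 : (fun j : Fin N => th (W 1 j.succ)) = fun j : Fin N => th (W' 1 j.succ) :=
        e1.2.2.2
      rw [e3]
    have g2 : bdy th A0 (W 2) = bdy th A0 (W' 2) := by
      unfold bdy
      have e3 : (fun j : Fin N => th (W 2 j.succ)) = fun j : Fin N => th (W' 2 j.succ) :=
        e2.2.2.2
      rw [e3]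
    show (ρ₁ ≤ mx (vc (bdy th A0 (W 1)) (bdy th A0 (W 2)))) =
      (ρ₁ ≤ mx (vc (bdy th A0 (W' 1)) (bdy th A0 (W' 2))))
    rw [g1, g2]
  have hinc : ∀ t, Inc ((3 : ℕ) + 1 : ℝ) (Tx 3 X) (A0 t) := fun t => inc_of_inv (hinv t)
  have hc4 : (0 : ℝ) ≤ (3 : ℕ) + 1 := by positivity
  have g0 : 0 ≤ e1 3 N C d F₀ e₀ + (2 : ℕ) * (F₀ * ((N + 1) * d)) := by
    unfold e1
    positivity
  have hE0 : 0 < Pe (tup p L N) (evE th E) := lt_of_lt_of_le (by positivity) hE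
  have ldr : ∀ k : Fin (2 + 1), DF (rT p L th E Z Bs A0 ρ₁) (fun _ => Tx 3 X)
      (fun W => bk A0 k (td th Bs Wd b W)) (fun W => xv X (nu (W 0 0)))
      (fun W => (b (W 0 0), td th Bs Wd b W)) ≤ e3 N C d F₀ F₁ e₀ := fun k => by
    refine (ts_df_ev (h.l_sys hF hE 2) hGl hF₁ hNP (A := fun x => bk A0 k x)
      (fun x => bk_P (P := fun A => A.det ≠ 0) hA k x) hc4
      (fun x => bk_P (P := fun A => Inc ((3 : ℕ) + 1 : ℝ) (Tx 3 X) A) hinc k x)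
      (n := fun W => nu (W 0 0)) (ld k)).trans ?_
    unfold e3
    refine mul_le_mul_of_nonneg_left (add_le_add ?_ le_rfl) hF₁.le
    refine (abs_add_le _ _).trans (add_le_add ?_ le_rfl)
    rw [abs_of_nonneg g0]
  have ls := (h.l_sys hF hE 2).ev hGl hF₁ hNP
  have hb1 : ∀ W : Fin (2 + 1) → Fin (N + 1) → Ω,
      bk A0 (Fin.succ 0) (td th Bs Wd b W) = bdy th A0 (W 1) := fun W => by
    rw [bk_td]
    rfl
  have hb2 : ∀ W : Fin (2 + 1) → Fin (N + 1) → Ω,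
      bk A0 (Fin.succ 1) (td th Bs Wd b W) = bdy th A0 (W 2) := fun W => by
    rw [bk_td]
    rfl
  have hb0 : ∀ W : Fin (2 + 1) → Fin (N + 1) → Ω,
      bk A0 0 (td th Bs Wd b W) = bdy th A0 (W 0) := fun W => by
    rw [bk_td]
    rfl
  have hTR : ∀ W, 0 < rT p L th E Z Bs A0 ρ₁ W → ρ₁ ≤ mx (vc (bk A0 (Fin.succ 0)
      (td th Bs Wd b W)) (bk A0 (Fin.succ 1) (td th Bs Wd b W))) := fun W hW => by
    rw [hb1, hb2]
    exact (rT_pos h.law hE0 hW).2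
  have hrow : ∀ G : Ω → Prop, ϖ ≤ Pe p G → 0 < Pe p G →
      CH (cond p G True) nu b ≤ ((2 : ℕ) + 1 - h₀) * X * Real.log 2 + η * X :=
    fun G hG hG0 => (h.nf_nu hϖ hG hG0 (nf G hG hG0)).trans hR
  have hq1 : ∀ W, 0 ≤ tup (rT p L th E Z Bs A0 ρ₁) (fun W => L (W 0 0)) 1 W := fun W =>
    tup_nonneg (rT_law h.law hE0 (lt_of_lt_of_le (by positivity) hNP)).nonneg _ _ W
  constructor
  · have kl := ts_nc (r := rT p L th E Z Bs A0 ρ₁) (t := td th Bs Wd b) ls hm hX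
      (fun k x => bk A0 k.succ x)
      (fun k x => bk_P (P := fun A => A.det ≠ 0) hA k.succ x)
      (fun k x => bk_P (P := fun A => Inc ((3 : ℕ) + 1 : ℝ) (Tx 3 X) A) hinc k.succ x)
      (fun k x => bk_P (P := fun A => ∀ i a, |A i a| ≤ K₁) hK k.succ x)
      (e := e3 N C d F₀ F₁ e₀) (fun k => ldr k.succ) h.nu_b hrow he hρ₁ hTR
    refine le_trans (Pb_mono hq1 fun w _ hw => ?_) kl
    rw [hb1, hb2, hb1, hb2]
    exact hw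
  · have kp := ts_pl (r := rT p L th E Z Bs A0 ρ₁) (t := td th Bs Wd b) ls hm hX
      (fun k x => bk A0 k.succ x)
      (fun k x => bk_P (P := fun A => A.det ≠ 0) hA k.succ x)
      (fun k x => bk_P (P := fun A => Inc ((3 : ℕ) + 1 : ℝ) (Tx 3 X) A) hinc k.succ x)
      (fun x => bk A0 0 x) (fun x => bk_P (P := fun A => A.det ≠ 0) hA 0 x)
      (fun x => bk_P (P := fun A => Inc ((3 : ℕ) + 1 : ℝ) (Tx 3 X) A) hinc 0 x)
      (e := e3 N C d F₀ F₁ e₀) (fun k => ldr k.succ) (ldr 0) h.nu_b hrow he hρ₁ hTR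
    refine le_trans (Pb_mono hq1 fun w _ hw => ?_) kp
    rw [hb1, hb2, hb0]
    exact hw

/-- **The closed normal.** -/
theorem PcOk.two (h : PcOk p L th b hgt nu S Wd Z Bs X C d) {F₀ F₁ ρ₁ : ℝ} (hF : 0 < F₀)
    (hF₁ : 0 < F₁) (hρ₁ : 0 < ρ₁) {E : (Fin N → τ) → Prop}
    {A0 : (Fin N → τ) → Matrix (Fin 3) (Fin 3) ℝ}
    (hE : 1 / F₀ ≤ Pe (tup p L N) (evE th E))
    (hNP : 1 / F₁ ≤ Pe (cE p L th E Z Bs 2) (fun W => TR th A0 ρ₁ fun j => W j.succ))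
    {h₀ κ₁ δ η ϖ : ℝ} {X0 : ℕ} (hm : MNN 2 h₀ κ₁ δ (F₁ * F₀) η ϖ C ((3 : ℕ) + 1) X0)
    (hX : X0 ≤ X) (hϖ : 0 < ϖ) {R : ℝ}
    (nf : ∀ G : Ω → Prop, ϖ ≤ Pe p G → 0 < Pe p G →
      CH (cond p G True) Z (fun ω => (Wd ω, S ω)) ≤ R)
    (hR : R + (3 : ℕ) * Real.log (2 * C + 1) + (2 * d + Real.log 2) / ϖ ≤
      ((2 : ℕ) + 1 - h₀) * X * Real.log 2 + η * X) (hC : 0 ≤ C)
    (hA : ∀ t, (A0 t).det ≠ 0) {K₁ : ℝ} (hK : ∀ t i a, |A0 t i a| ≤ K₁)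
    (hinv : ∀ t i j, |(A0 t)⁻¹ i j| ≤ 2 ^ X) {e₀ : ℝ}
    (hbody : DF (tup p L N) (fun _ => Tx 3 X) (fun w => A0 fun j => th (w j.succ))
      (fun w => xv X (hgt (w 0)))
      (fun w => (b (w 0), (th (w 0), fun j : Fin N => th (w j.succ)))) ≤ e₀)
    (he : e3 N C d F₀ F₁ e₀ + F₁ * (((2 : ℕ) + 1) * (F₀ * ((N + 1) * d))) ≤ η * X) :
    ∃ (φ : Λ → Fin 3 → ℝ) (ψ : (Fin 3 → ℤ) × σ → Fin 3 → ℝ), (∀ x, U3 (φ x)) ∧
      (∀ x, U3 (ψ x)) ∧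
      Pb (rT p L th E Z Bs A0 ρ₁) (fun W => ¬ PA (2 * (K₁ * (2 : ℝ) ^ (-(κ₁ * X))) / (ρ₁ * ρ₁))
        (nT th A0 W) (φ (L (W 0 0)))) ≤ δ + δ + δ ∧
      Pb (rT p L th E Z Bs A0 ρ₁) (fun W => ¬ PA (2 * (K₁ * (2 : ℝ) ^ (-(κ₁ * X))) / (ρ₁ * ρ₁))
        (nT th A0 W) (ψ (Z (W 0 0), Bs (W 0 0)))) ≤ δ + δ + δ ∧
      Pb (rT p L th E Z Bs A0 ρ₁) (fun W => ¬ ∀ c, |dp (φ (L (W 0 0)))
        (fun i => bdy th A0 (W 0) i c)| ≤ (2 : ℝ) ^ (-(κ₁ * X)) / ρ₁) ≤ δ + δ + δ := by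
  classical
  have kz := h.two_z hF hF₁ hρ₁ hE hNP hm hX hϖ nf hR hC hA hK hinv hbody he
  obtain ⟨kl, kp⟩ := h.two_l hF hF₁ hρ₁ hE hNP hm hX hϖ nf hR hC hA hK hinv hbody he
  have hE0 : 0 < Pe (tup p L N) (evE th E) := lt_of_lt_of_le (by positivity) hE
  have hr := rT_law h.law hE0 (lt_of_lt_of_le (by positivity) hNP)
  have hq1 : ∀ W, 0 ≤ tup (rT p L th E Z Bs A0 ρ₁) (fun W => L (W 0 0)) 1 W := fun W =>
    tup_nonneg hr.nonneg _ _ W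
  obtain ⟨gz, -, gz2⟩ := sel1 hr (fun W => (Z (W 0 0), Bs (W 0 0)))
    (fun W W' => ¬ PA (2 * (K₁ * (2 : ℝ) ^ (-(κ₁ * X))) / (ρ₁ * ρ₁)) (nT th A0 W) (nT th A0 W'))
  obtain ⟨gl, -, gl2⟩ := sel1 hr (fun W => L (W 0 0))
    (fun W W' => ¬ PA (2 * (K₁ * (2 : ℝ) ^ (-(κ₁ * X))) / (ρ₁ * ρ₁)) (nT th A0 W) (nT th A0 W') ∨
      ¬ ∀ c, |dp (nT th A0 W') (fun i => bdy th A0 (W 0) i c)| ≤ (2 : ℝ) ^ (-(κ₁ * X)) / ρ₁)
  have gl3 := gl2.trans ((Pb_or hq1 _ _).trans (add_le_add kl kp))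
  have gz3 := gz2.trans kz
  have hδ : 0 ≤ δ := (Pb_nonneg hq1 _).trans kp
  refine ⟨fun x => nT th A0 (gl x), fun x => nT th A0 (gz x), fun x => nc_u3 _ _,
    fun x => nc_u3 _ _, ?_, ?_, ?_⟩
  · exact (Pb_mono hr.nonneg fun W _ hW => Or.inl hW).trans gl3
  · exact gz3.trans (by linarith)
  · exact (Pb_mono hr.nonneg fun W _ hW => Or.inr hW).trans gl3

end Pool.DR24
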