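import Pool.Agent.H24.DR3.Lam
import Pool.Agent.H64.LV.Dir

/-!
# DR3: the picture of three places

`Hyp.d3h`: the hypotheses `D3H` for the picture of three places. `vd_3`: on an event of constant mass
the product of a closed covector with a pivot and the gradients is a polynomial of the time.
-/

set_option autoImplicit false

namespace Pool.DR24

open Finset Real
open Pool.Agent.H49.Ent Pool.Agent.H32.Dense Pool.STK
open Pool.AVG71 (MI_eq MI_eq')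
open Pool.KVA (MI)
open Pool.BD64 (QHd pol)
open Pool.K2S (Pe)
open Pool.BFL (Pb)
open Pool.LV64

/-- **The hypotheses in the picture.** -/
theorem d3h {Ω β : Type} {k K : ℕ} {d : VD Ω β 3 k} [Fintype Ω]
    {ρ₁ ρ₂ ν₁ ν₂ σ₁ σ₂ υ σ' : Type} {p : Ω → ℝ} {Rj : Ω → ρ₁}
    {Rx : Ω → ρ₂} {nj : Ω → ν₁} {nx : Ω → ν₂} {bj : Ω → σ₁} {bx : Ω → σ₂} {V : Ω → υ}
    {M : Ω → Fin 3 → ℤ} {Bs : Ω → σ'} {F e B : ℝ}
    (H : d.Hyp K p Rj Rx nj nx bj bx V M F e B) {ω₀ : Ω} (hω₀ : 0 < p ω₀)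
    (ht : d.X * Real.log 2 - e ≤ CH p (fun ω => ⌊(2 : ℝ) ^ d.X * d.th ω⌋) (d.L K))
    {CB C U h dd π₀ fv : ℝ} (hCB : 0 ≤ CB) (hB : B ≤ CB * 2 ^ d.m)
    (hF : F ≤ k * d.X * Real.log 2 + fv)
    (hBs : Det p (fun ω => (Wn d.X V M ω, (d.T ω, d.g K ω))) Bs)
    (hfew : MI p M (fun ω => (V ω, (d.T ω, d.g K ω))) Bs ≤ e)
    (hrow : ∀ G : Ω → Prop, π₀ ≤ Pe p G → 0 < Pe p G → CH (cond p G True) M
      (fun ω => (Wn d.X V M ω, (d.th ω, d.z ω))) ≤ U)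
    (hU : U ≤ (3 - h) * d.X * Real.log 2 + dd)
    (hC : CB + VD.Cv k K + 2 * ((K + 1) * (k + 1)) + 5 ≤ C)
    (hdd : VD.Dv 3 k d.m e + 3 * VD.Eu k K d.m B + fv ≤ dd) (hfv : 0 ≤ fv) :
    D3H (d.pic K p ω₀) (fun ω : Ω => (d.th ω, d.z ω)) (Wn d.X V M) (Zn d.m d.X p ω₀ M) Bs
      d.X C dd h π₀ := by
  have h0 := H.law.nonneg
  have he := H.e0
  have hok := H.ok hω₀ ht
  have hKk : (0 : ℝ) ≤ 2 * (((K : ℝ) + 1) * (k + 1)) := by positivity
  have hCv : 1 ≤ VD.Cv k K := by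
    unfold VD.Cv
    have h1 : (0 : ℝ) ≤ (K : ℝ) * K := by positivity
    have h2 : (0 : ℝ) ≤ K := Nat.cast_nonneg K
    have h3 : (0 : ℝ) ≤ k := Nat.cast_nonneg k
    linarith
  have hC1 : VD.Cv k K ≤ C := by linarith
  have hC2 : 1 ≤ C := by linarith
  have hX : (0 : ℝ) < 2 ^ d.X := by positivity
  have hEu : 0 ≤ VD.Eu k K d.m B := by
    unfold VD.Eu
    refine Real.log_nonneg ?_
    have := H.B0
    have h2 : (0 : ℝ) ≤ 2 * (K + 1 + k * 2 ^ d.m) := by positivity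
    linarith
  have hDd : VD.Dv 3 k d.m e ≤ dd := by linarith
  have hkm : 0 ≤ k * d.m * Real.log 2 := by
    have := Real.log_pos (show (1 : ℝ) < 2 by norm_num)
    positivity
  have hl11 : 0 < Real.log 11 := Real.log_pos (by norm_num)
  have hDe : e ≤ VD.Dv 3 k d.m e := by
    unfold VD.Dv
    push_cast
    linarith
  refine ⟨?_, fun ω i => ?_, fun ω i => ?_, ?_, ?_, ?_, ?_, ?_, ?_⟩
  · exact ⟨hok.law, hok.tau_r, hok.y_r, fun ω u i => (hok.E_b ω u i).trans hC1,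
      fun ω a i => (hok.be_b ω a i).trans hC1,
      fun ω i => (hok.hgt_b ω i).trans (mul_le_mul_of_nonneg_right hC1 hX.le),
      fun ω ω' i => (hok.g_eq ω ω' i).trans hC1, hok.h0.trans hDd,
      hok.h2.trans hDd, le_trans (by linarith) hok.y_f, le_trans (by linarith) hok.t_f⟩
  · exact (Zn_b d.m d.X p ω₀ M ω i).trans (le_mul_of_one_le_left hX.le hC2)
  · -- the positions of the places
    have e1 : (d.pic K p ω₀).nu ω i = VD.nr d K (rr p ω₀ ω) i 0 / 2 ^ d.m := rfl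
    obtain ⟨g1, g2⟩ := VD.nr_mem (d := d) (K := K) (rr p ω₀ ω) i 0
    have p2 : (0 : ℤ) < 2 ^ d.m := by positivity
    have p3 : (1 : ℤ) ≤ 2 ^ d.m := p2
    have g3 : 0 ≤ (d.pic K p ω₀).nu ω i := by
      rw [e1]
      exact Int.ediv_nonneg g1 p2.le
    have g4 : (2 : ℤ) ^ d.Xp i ≤ 2 ^ d.X := pow_le_pow_right₀ (by norm_num) (H.Xpm i)
    have g5 : (d.pic K p ω₀).nu ω i < 2 ^ d.X := by
      rw [e1]
      refine Int.ediv_lt_of_lt_mul p2 ((g2.trans_le g4).trans_le ?_)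
      exact le_mul_of_one_le_right (by positivity) p3
    have g3' : (0 : ℝ) ≤ (d.pic K p ω₀).nu ω i := by exact_mod_cast g3
    have g5' : ((d.pic K p ω₀).nu ω i : ℝ) < 2 ^ d.X := by exact_mod_cast g5
    rw [abs_of_nonneg g3']
    exact g5'.le.trans (le_mul_of_one_le_left hX.le hC2)
  · intro (ω : Ω) (ω' : Ω) (a : 0 < p ω) (b : 0 < p ω') e1 e2 e3 i
    exact (H.Zn_rel hB a b e1 e2 e3 i).trans (by linarith)
  · -- the near digits of the base coordinates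
    obtain ⟨Mu, hMu⟩ : ∃ Mu : Ω → Fin 3 → ℤ, Mu = fun ω i => M ω i / 2 ^ d.X := ⟨_, rfl⟩
    obtain ⟨Q, hQ⟩ : ∃ Q : Ω → _, Q = fun ω => ((d.pic K p ω₀).th ω,
      ((d.pic K p ω₀).v ω, (d.pic K p ω₀).b ω)) := ⟨_, rfl⟩
    have k0 : CH p (Wn d.X V M) Q ≤ CH p V Q + CH p Mu (fun ω => (V ω, Q ω)) := by
      refine (CH_le_add h0 (Wn d.X V M) V Q).trans (add_le_add le_rfl ?_)
      refine CH_mono_left h0 fun ω ω' _ _ e => ?_
      obtain ⟨e1, e2⟩ := Prod.ext_iff.mp e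
      rw [hMu] at e1
      exact Prod.ext (Prod.ext_iff.mp e2).1 e1
    have hQe : ∀ ω, 0 < p ω → Q ω = (d.T ω, (VD.nv d K ω, d.g K ω)) := fun ω hω => by
      rw [hQ]
      show (d.T (rr p ω₀ ω), (VD.nv d K (rr p ω₀ ω), d.g K (rr p ω₀ ω))) = _
      rw [rr_eq hω]
    have k1 : CH p V Q ≤ CH p V (fun ω => (VD.Y d K ω, (d.th ω, d.g K ω))) := by
      refine CH_mono_cond h0 fun ω ω' a b e => ?_
      rw [hQe ω a, hQe ω' b] at e
      obtain ⟨e1, e2⟩ := Prod.ext_iff.mp e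
      obtain ⟨e3, e4⟩ := Prod.ext_iff.mp e2
      exact Prod.ext (Prod.ext_iff.mp e3).1 (Prod.ext (Prod.ext_iff.mp e1).1 e4)
    have k2 : CH p Mu (fun ω => (V ω, Q ω)) ≤ 3 * VD.Eu k K d.m B := by
      have := H.upc (fun ω => (V ω, Q ω)) (fun ω ω' a b e => by
        obtain ⟨e1, e2⟩ := Prod.ext_iff.mp e
        simp only at e1 e2
        rw [hQe ω a, hQe ω' b] at e2
        obtain ⟨e3, e4⟩ := Prod.ext_iff.mp e2
        exact Prod.ext e1 (Prod.ext e3 (Prod.ext_iff.mp e4).2))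
      rw [hMu]
      push_cast at this
      exact this
    have k3 := H.vy
    have k4 : CH p (Wn d.X V M) Q ≤ dd := by linarith
    rw [hQ] at k4
    exact k4
  · intro (ω : Ω) (ω' : Ω) (a : 0 < p ω) (b : 0 < p ω') e
    obtain ⟨_, e4⟩ := Prod.ext_iff.mp e
    have e5 : ((d.pic K p ω₀).th ω, (d.pic K p ω₀).b ω) =
      ((d.pic K p ω₀).th ω', (d.pic K p ω₀).b ω') := e4
    rw [VD.pic_thb a, VD.pic_thb b] at e5
    obtain ⟨e6, e7⟩ := Prod.ext_iff.mp e5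
    show (d.th ω, d.z ω) = (d.th ω', d.z ω')
    exact Prod.ext (Prod.ext_iff.mp e6).1 (Prod.ext_iff.mp e7).1
  · intro (ω : Ω) (ω' : Ω) (a : 0 < p ω) (b : 0 < p ω') e
    obtain ⟨e3, e4⟩ := Prod.ext_iff.mp e
    have e5 : ((d.pic K p ω₀).th ω, (d.pic K p ω₀).b ω) =
      ((d.pic K p ω₀).th ω', (d.pic K p ω₀).b ω') := e4
    rw [VD.pic_thb a, VD.pic_thb b] at e5
    exact hBs ω ω' a b (Prod.ext e3 e5)
  · have h1 := H.Zn_few ω₀ Bs hfew
    refine le_trans (le_of_eq ?_) (h1.trans ?_)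
    · rw [MI_eq h0]
      rfl
    · push_cast
      linarith
  · intro G hG hG0
    have hql : IsLaw (cond p G True) := ⟨cond_nonneg h0 G True, sum_cond p G (ne_of_gt hG0)⟩
    have hqp : ∀ ω, 0 < cond p G True ω → 0 < p ω := fun ω hω =>
      ((cond_pos_iff h0 G True ω).mp hω).1
    exact (Zn_nf hql.nonneg hqp M _).trans ((hrow G hG hG0).trans hU)

/-- **The gradients of three places.** -/
theorem vd_3 (k K : ℕ) (hK : 1 ≤ K) {h a₂ a₁ σ CB : ℝ} (hh : 0 < h) (hh1 : h ≤ 1) (ha : 0 < a₁)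
    (h12 : a₁ < a₂) (h2 : a₂ < h / 32) (hσ : 0 < σ) (hCB : 0 ≤ CB) :
    ∃ ι π₀ m₀ : ℝ, 0 < ι ∧ 0 < π₀ ∧ 0 < m₀ ∧ ∃ X₀ : ℕ,
      ∀ {Ω β : Type} [Fintype Ω] (p : Ω → ℝ) (d : VD Ω β 3 k) {ρ₁ ρ₂ ν₁ ν₂ σ₁ σ₂ υ σ' : Type}
        (Rj : Ω → ρ₁) (Rx : Ω → ρ₂) (nj : Ω → ν₁) (nx : Ω → ν₂) (bj : Ω → σ₁) (bx : Ω → σ₂)
        (V : Ω → υ) (M : Ω → Fin 3 → ℤ) (Bs : Ω → σ') (F e B U : ℝ), X₀ ≤ d.X →
        d.Hyp K p Rj Rx nj nx bj bx V M F e B →
        d.X * Real.log 2 - e ≤ CH p (fun ω => ⌊(2 : ℝ) ^ d.X * d.th ω⌋) (d.L K) →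
        Det p (fun ω => (Wn d.X V M ω, (d.T ω, d.g K ω))) Bs →
        MI p M (fun ω => (V ω, (d.T ω, d.g K ω))) Bs ≤ e →
        (∀ G : Ω → Prop, π₀ ≤ Pe p G → CH (cond p G True) M
          (fun ω => (Wn d.X V M ω, (d.th ω, d.z ω))) ≤ U) →
        F ≤ k * d.X * Real.log 2 + ι * d.X →
        e ≤ ι * d.X → (d.m : ℝ) ≤ ι * d.X → B ≤ CB * 2 ^ d.m →
        U ≤ (3 - h) * d.X * Real.log 2 + ι * d.X →
        ∃ (i : Fin 3) (lam : LamV β 3 k K → Fin 3 → ℝ) (lamP : (Fin 3 → ℤ) × σ' → Fin 3 → ℝ)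
          (mu : LamV β 3 k K → Fin k → Polynomial ℝ) (G : Ω → Prop), m₀ ≤ Pe p G ∧
          (∀ ω, 0 < p ω → G ω → lam (d.L K ω) i = 1) ∧ (∀ x l, i < l → lam x l = 0) ∧
          (∀ x l, |lam x l| ≤ (2 : ℝ) ^ (zt3 a₂ a₁ i * d.X)) ∧
          (∀ l j, (mu l j).natDegree ≤ K) ∧
          (∀ ω, 0 < p ω → G ω → lam (d.L K ω) = lamP (M ω, Bs ω)) ∧
          ∀ ω, 0 < p ω → G ω → ∀ j, |∑ l, lam (d.L K ω) l * d.bb ω l j -
            (mu (d.L K ω) j).eval (d.th ω)| ≤ (2 : ℝ) ^ ((σ - bs3 h a₂ a₁ i) * d.X) := by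
  classical
  have hl2 : 0 < Real.log 2 := Real.log_pos (by norm_num)
  have hl2' : Real.log 2 ≤ 1 := by
    have := Real.log_two_lt_d9
    linarith
  have hl11 : 0 < Real.log 11 := Real.log_pos (by norm_num)
  have hk0 : (0 : ℝ) ≤ k := Nat.cast_nonneg k
  have hK0 : (0 : ℝ) ≤ K := Nat.cast_nonneg K
  obtain ⟨s, hs⟩ : ∃ s : ℝ, s = σ / 4 := ⟨_, rfl⟩
  have hs0 : 0 < s := by rw [hs]; linarith
  obtain ⟨io, ϖ, m₀, hio, hϖ, hm₀, hqd⟩ := qh_lam k K hK hh hh1 ha h12 h2 hs0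
  obtain ⟨C, hC⟩ : ∃ C : ℝ, C = CB + VD.Cv k K + 2 * (((K : ℝ) + 1) * (k + 1)) + 5 := ⟨_, rfl⟩
  have hKk : (0 : ℝ) ≤ 2 * (((K : ℝ) + 1) * (k + 1)) := by positivity
  have hCv : 1 ≤ VD.Cv k K := by
    unfold VD.Cv
    have h1 : (0 : ℝ) ≤ (K : ℝ) * K := by positivity
    linarith
  obtain ⟨X1, hX1⟩ := hqd C (by rw [hC]; linarith)
  obtain ⟨Lc, hLc⟩ : ∃ Lc : ℝ, Lc = 3 * Real.log (2 * (2 * ((K : ℝ) + 1 + k) +
    (CB + 2 * (((K : ℝ) + 1) * (k + 1))) + 1) + 1) + 3 * Real.log 11 := ⟨_, rfl⟩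
  obtain ⟨ι, hι⟩ : ∃ ι : ℝ, ι = min (io / (2 * (k + 20))) s := ⟨_, rfl⟩
  have hι0 : 0 < ι := by rw [hι]; exact lt_min (by positivity) hs0
  have hι1 : ι * (2 * (k + 20)) ≤ io := by
    have : ι ≤ io / (2 * (k + 20)) := by rw [hι]; exact min_le_left _ _
    rwa [le_div_iff₀ (by positivity)] at this
  have hι2 : ι ≤ s := by rw [hι]; exact min_le_right _ _
  obtain ⟨X2, hX2⟩ := exists_nat_ge (2 * Lc / io)
  obtain ⟨X3, hX3⟩ := exists_nat_ge ((Real.log (2 * ((K + 1) * K) + 2) / Real.log 2) / s)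
  refine ⟨ι, ϖ, m₀, hι0, hϖ, hm₀, max X1 (max X2 X3), ?_⟩
  intro Ω β _ p d ρ₁ ρ₂ ν₁ ν₂ σ₁ σ₂ υ σ' Rj Rx nj nx bj bx V M Bs F e B U hXd H ht hBs hfew hrow
    hF he hm hB hU
  have hp := H.law
  have h0 := hp.nonneg
  obtain ⟨ω₀, hω₀⟩ : ∃ ω₀, 0 < p ω₀ := by
    by_contra hcon
    push Not at hcon
    have : ∑ ω, p ω ≤ 0 := Finset.sum_nonpos fun ω _ => hcon ω
    rw [hp.sum_one] at this
    linarith
  have hXa : X1 ≤ d.X := (le_max_left _ _).trans hXd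
  have hXb : X2 ≤ d.X := (le_max_left _ _).trans ((le_max_right _ _).trans hXd)
  have hXc : X3 ≤ d.X := (le_max_right _ _).trans ((le_max_right _ _).trans hXd)
  have hXR : (0 : ℝ) ≤ d.X := Nat.cast_nonneg _
  have n2 : 2 * Lc ≤ io * d.X := by
    have h1 : 2 * Lc / io ≤ d.X := hX2.trans (by exact_mod_cast hXb)
    rw [div_le_iff₀ hio] at h1
    linarith
  have n3 : Real.log (2 * ((K + 1) * K) + 2) / Real.log 2 ≤ s * d.X := by
    have h1 : (Real.log (2 * ((K + 1) * K) + 2) / Real.log 2) / s ≤ d.X :=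
      hX3.trans (by exact_mod_cast hXc)
    rw [div_le_iff₀ hs0] at h1
    linarith
  have hιX : 0 ≤ ι * d.X := by positivity
  have hιio : ι * d.X * (2 * (k + 20)) ≤ io * d.X := by
    have := mul_le_mul_of_nonneg_right hι1 hXR
    linarith
  have hkm : k * (d.m : ℝ) * Real.log 2 ≤ k * (ι * d.X) := by
    have h2 : k * (d.m : ℝ) ≤ k * (ι * d.X) := mul_le_mul_of_nonneg_left hm hk0
    have h3 : 0 ≤ k * (d.m : ℝ) := by positivity
    exact (mul_le_of_le_one_right h3 hl2').trans h2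
  have hmm : (d.m : ℝ) * Real.log 2 ≤ ι * d.X :=
    (mul_le_of_le_one_right (Nat.cast_nonneg _) hl2').trans hm
  have hkι : 0 ≤ k * (ι * d.X) := by positivity
  have hdd : VD.Dv 3 k d.m e + 3 * VD.Eu k K d.m B + ι * d.X ≤ io * d.X := by
    have h1 := VD.Eu_le (k := k) (K := K) hCB H.B0 hB
    unfold VD.Dv
    push_cast
    rw [hLc] at n2
    linarith
  have hdir := d3h H hω₀ ht (C := C) (U := U) (π₀ := ϖ) (h := h) (dd := io * d.X)
    (fv := ι * d.X) hCB hB hF hBs hfew (fun G hG _ => hrow G hG) (by linarith) (le_of_eq hC.symm)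
    hdd hιX
  obtain ⟨i, lam, lamP, ep, G, g1, g2, g3, g4, g5, g6, g7⟩ :=
    hX1 (d.pic K p ω₀) _ _ _ _ _ _ _ d.X hXa hdir
  have hline : ∀ {ω : Ω}, 0 < p ω → (d.pic K p ω₀).line ω = d.lnL K (d.L K ω) :=
    fun h => VD.lnL_eq h
  refine ⟨i, fun l => lam (d.lnL K l),
    fun y => lamP ((fun i => y.1 i % 2 ^ d.X / 2 ^ d.m), y.2),
    fun l j => plc fun a => 2 ^ d.m * ep (d.lnL K l) a j, G, g1, ?_, fun x l hl => g3 _ l hl,
    fun x l => g4 _ l, fun l j => plc_deg _, ?_, ?_⟩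
  · intro ω hω hG
    have h1 := g2 ω hG
    rw [hline hω] at h1
    exact h1
  · intro ω hω hG
    have h1 := g6 ω hG
    rw [hline hω] at h1
    have e1 : Zn d.m d.X p ω₀ M ω = fun i => M ω i % 2 ^ d.X / 2 ^ d.m := by
      funext i
      unfold Zn
      rw [rr_eq hω]
    exact h1.trans (congrArg (fun z => lamP (z, Bs ω)) e1)
  · intro ω hω hG j
    have hX : (0 : ℝ) < 2 ^ d.X := by positivity
    have hm0 : (0 : ℝ) < 2 ^ d.m := by positivity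
    have h1 := g7 ω hG j
    rw [hline hω] at h1
    have hth := H.th ω hω
    obtain ⟨a, ha'⟩ : ∃ a : Fin (K + 1) → ℝ, a = fun a => ep (d.lnL K (d.L K ω)) a j := ⟨_, rfl⟩
    obtain ⟨v, hv⟩ : ∃ v : Fin 3 → ℝ, v = lam (d.lnL K (d.L K ω)) := ⟨_, rfl⟩
    obtain ⟨bs, hbs⟩ : ∃ bs : ℝ, bs = bs3 h a₂ a₁ i := ⟨_, rfl⟩
    have hbs1 : bs ≤ 1 - a₂ := by
      rw [hbs]
      unfold bs3
      fin_cases i
      · show a₁ ≤ 1 - a₂
        linarith
      · show a₂ - a₁ ≤ 1 - a₂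
        linarith
      · show h / 32 - a₂ ≤ 1 - a₂
        linarith
    have h2 : |(∑ i, v i * d.bb ω i j) / 2 ^ d.m - ∑ i : Fin (K + 1), a i *
        ((⌊(2 : ℝ) ^ d.X * d.th ω⌋ : ℝ) / 2 ^ d.X) ^ (i : ℕ)| ≤
        (2 : ℝ) ^ ((s - bs) * d.X) := by
      have e1 : ∑ i, lam (d.lnL K (d.L K ω)) i *
          (d.pic K p ω₀).E ((d.pic K p ω₀).th ω) j i = (∑ i, v i * d.bb ω i j) / 2 ^ d.m := by
        rw [Finset.sum_div]
        refine Finset.sum_congr rfl fun i _ => ?_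
        show lam (d.lnL K (d.L K ω)) i * (d.bb (rr p ω₀ ω) i j / 2 ^ d.m) = _
        rw [rr_eq hω, hv]
        ring
      have e2 : ((d.pic K p ω₀).tau ((d.pic K p ω₀).th ω) : ℝ) / 2 ^ d.X =
          (⌊(2 : ℝ) ^ d.X * d.th ω⌋ : ℝ) / 2 ^ d.X := by
        show (⌊(2 : ℝ) ^ d.X * d.th (rr p ω₀ ω)⌋ : ℝ) / 2 ^ d.X = _
        rw [rr_eq hω]
      rw [e1, e2] at h1
      rw [ha', hbs]
      exact h1
    have h3 := plc_near (X := d.X) (a := a) (A := (2 : ℝ) ^ ((a₂ + s) * d.X)) (fun i => by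
      rw [ha']
      exact g5 _ i j) hth.1 hth.2
    have h4 : (plc fun a => 2 ^ d.m * ep (d.lnL K (d.L K ω)) a j).eval (d.th ω) =
        2 ^ d.m * (plc a).eval (d.th ω) := by
      rw [plc_eval, plc_eval, Finset.mul_sum, ha']
      exact Finset.sum_congr rfl fun i _ => by ring
    show |∑ i, lam (d.lnL K (d.L K ω)) i * d.bb ω i j -
      (plc fun a => 2 ^ d.m * ep (d.lnL K (d.L K ω)) a j).eval (d.th ω)| ≤ _
    rw [h4, ← hv, ← hbs]
    have h5 : |∑ i, v i * d.bb ω i j - 2 ^ d.m * (plc a).eval (d.th ω)| ≤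
        2 ^ d.m * ((2 : ℝ) ^ ((s - bs) * d.X) +
          (K + 1) * K * ((2 : ℝ) ^ ((a₂ + s) * d.X) / 2 ^ d.X)) := by
      have e1 : ∑ i, v i * d.bb ω i j - 2 ^ d.m * (plc a).eval (d.th ω) =
          2 ^ d.m * ((∑ i, v i * d.bb ω i j) / 2 ^ d.m - (plc a).eval (d.th ω)) := by
        field_simp
      rw [e1, abs_mul, abs_of_pos hm0]
      refine mul_le_mul_of_nonneg_left ?_ hm0.le
      have g1 := abs_le.1 h2
      have g2 := abs_le.1 h3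
      rw [abs_le]
      constructor <;> linarith [g1.1, g1.2, g2.1, g2.2]
    refine h5.trans ?_
    -- the numbers
    have g3 : (2 : ℝ) ^ d.m ≤ 2 ^ (s * d.X) := by
      rw [← Real.rpow_natCast]
      exact Real.rpow_le_rpow_of_exponent_le one_le_two
        (hm.trans (mul_le_mul_of_nonneg_right hι2 hXR))
    have g4 : (2 : ℝ) ^ ((a₂ + s) * d.X) / 2 ^ d.X ≤ 2 ^ ((s - bs) * d.X) := by
      rw [← Real.rpow_natCast, ← Real.rpow_sub two_pos]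
      refine Real.rpow_le_rpow_of_exponent_le one_le_two ?_
      have e3 := mul_le_mul_of_nonneg_right hbs1 hXR
      linarith
    have g5' : (2 : ℝ) * ((K + 1) * K) + 2 ≤ 2 ^ (s * d.X) := by
      rw [div_le_iff₀ hl2] at n3
      have e1 : (0 : ℝ) < 2 * ((K + 1) * K) + 2 := by positivity
      rw [← Real.exp_log e1, Real.rpow_def_of_pos two_pos]
      exact Real.exp_le_exp.2 (by linarith)
    have g6' : (0 : ℝ) < (2 : ℝ) ^ ((s - bs) * d.X) := Real.rpow_pos_of_pos two_pos _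
    have hKK : (0 : ℝ) ≤ (K + 1) * K := by positivity
    have g7' := mul_le_mul_of_nonneg_left g4 hKK
    have g8 := mul_le_mul_of_nonneg_right g5' g6'.le
    have g9 : 0 ≤ ((K : ℝ) + 1) * K * 2 ^ ((s - bs) * d.X) := by positivity
    calc (2 : ℝ) ^ d.m * ((2 : ℝ) ^ ((s - bs) * d.X) + (K + 1) * K *
          ((2 : ℝ) ^ ((a₂ + s) * d.X) / 2 ^ d.X))
        ≤ 2 ^ (s * d.X) * (2 ^ (s * d.X) * (2 : ℝ) ^ ((s - bs) * d.X)) := by
          refine mul_le_mul g3 ?_ (by positivity) (by positivity)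
          linarith
      _ = 2 ^ (s * d.X + (s * d.X + (s - bs) * d.X)) := by
          rw [← Real.rpow_add two_pos, ← Real.rpow_add two_pos]
      _ ≤ 2 ^ ((σ - bs) * d.X) := by
          refine Real.rpow_le_rpow_of_exponent_le one_le_two ?_
          have e1 : 3 * s - bs ≤ σ - bs := by
            rw [hs]
            linarith
          have e2 := mul_le_mul_of_nonneg_right e1 hXR
          linarith

end Pool.DR24
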