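import Pool.Agent.H24.DR3.Num

/-!
# DR3: vectors in the space

`cr` is the vector product, `nz` the normalized vector (maximum norm), `un` the unit vector of the long
column of a matrix. `nsg3`: almost parallel unit vectors agree up to the sign. `nrm_par`: two pairs of
vectors which are almost in one plane have almost parallel normals.
-/

set_option autoImplicit false

namespace Pool.DR24

open Finset Real Matrix

/-- The vector product. -/
def cr (u v : Fin 3 → ℝ) : Fin 3 → ℝ :=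
  ![u 1 * v 2 - u 2 * v 1, u 2 * v 0 - u 0 * v 2, u 0 * v 1 - u 1 * v 0]

/-- The scalar product. -/
def dp (u v : Fin 3 → ℝ) : ℝ := u 0 * v 0 + u 1 * v 1 + u 2 * v 2

/-- Almost parallel vectors. -/
def PA (ρ : ℝ) (u v : Fin 3 → ℝ) : Prop := ∀ i, |cr u v i| ≤ ρ

/-- Unit vectors in the maximum norm. -/
def U3 (u : Fin 3 → ℝ) : Prop := (∀ i, |u i| ≤ 1) ∧ ∃ i, |u i| = 1

theorem cr_comm (u v : Fin 3 → ℝ) (i : Fin 3) : cr v u i = -cr u v i := by
  unfold cr
  fin_cases i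
  all_goals
    simp only [Fin.zero_eta, Fin.mk_one, Fin.reduceFinMk, Matrix.cons_val_zero,
      Matrix.cons_val_one, Matrix.cons_val]
    ring

theorem PA.symm {ρ : ℝ} {u v : Fin 3 → ℝ} (h : PA ρ u v) : PA ρ v u := fun i => by
  rw [cr_comm, abs_neg]
  exact h i

theorem PA.mono {ρ ρ' : ℝ} {u v : Fin 3 → ℝ} (h : PA ρ u v) (hr : ρ ≤ ρ') : PA ρ' u v :=
  fun i => (h i).trans hr

/-- The double vector product. -/
theorem cr_cr (x u v : Fin 3 → ℝ) (i : Fin 3) :
    cr x (cr u v) i = u i * dp x v - v i * dp x u := by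
  unfold cr dp
  fin_cases i
  all_goals
    simp only [Fin.zero_eta, Fin.mk_one, Fin.reduceFinMk, Matrix.cons_val_zero,
      Matrix.cons_val_one, Matrix.cons_val]
    ring

theorem dp_cr_self (u v : Fin 3 → ℝ) : dp (cr u v) u = 0 ∧ dp (cr u v) v = 0 := by
  unfold cr dp
  constructor <;>
  · simp only [Matrix.cons_val_zero, Matrix.cons_val_one, Matrix.cons_val]
    ring

theorem dc_three (V : Fin 3 → Matrix (Fin 3) (Fin 3) ℝ) (a : Fin 3 → Fin 3) :
    dc V a = dp (cr (fun i => V 0 i (a 0)) (fun i => V 1 i (a 1))) (fun i => V 2 i (a 2)) := by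
  unfold dc dp cr
  rw [Matrix.det_fin_three]
  simp only [Matrix.of_apply, Matrix.cons_val_zero, Matrix.cons_val_one, Matrix.cons_val]
  ring

theorem two_ix (v : Fin 3 → ℝ) {ρ : ℝ} (u : Fin 3 → ℝ) (h : PA ρ u v) (i k : Fin 3) :
    |u k * v i - u i * v k| ≤ ρ := by
  have h0 : |u 1 * v 2 - u 2 * v 1| ≤ ρ := h 0
  have h1 : |u 2 * v 0 - u 0 * v 2| ≤ ρ := h 1
  have h2 : |u 0 * v 1 - u 1 * v 0| ≤ ρ := h 2
  have hρ : 0 ≤ ρ := (abs_nonneg _).trans h0
  have e : ∀ x y : ℝ, |x - y| = |y - x| := fun x y => abs_sub_comm x y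
  fin_cases i <;> fin_cases k <;>
    simp only [Fin.zero_eta, Fin.mk_one, Fin.reduceFinMk]
  · rw [sub_self, abs_zero]; exact hρ
  · rw [e]; exact h2
  · exact h1
  · exact h2
  · rw [sub_self, abs_zero]; exact hρ
  · rw [e]; exact h0
  · rw [e]; exact h1
  · exact h0
  · rw [sub_self, abs_zero]; exact hρ

/-- **Almost parallel unit vectors agree up to the sign.** -/
theorem nsg3 {u v : Fin 3 → ℝ} {ρ : ℝ} (hu : U3 u) (hv : U3 v) (h : PA ρ u v) :
    ∃ s : ℝ, (s = 1 ∨ s = -1) ∧ ∀ i, |u i - s * v i| ≤ 2 * ρ := by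
  obtain ⟨hu1, k, hk⟩ := hu
  obtain ⟨hv1, i, hi⟩ := hv
  have hsq : v i * v i = 1 := by
    rcases (abs_eq zero_le_one).1 hi with h1 | h1 <;> rw [h1] <;> norm_num
  have hρ : 0 ≤ ρ := (abs_nonneg _).trans (h 0)
  obtain ⟨t, ht⟩ : ∃ t : ℝ, t = u i * v i := ⟨_, rfl⟩
  have h1 : ∀ j, |u j - t * v j| ≤ ρ := fun j => by
    have e1 : u j - t * v j = v i * (u j * v i - u i * v j) := by
      have : v i * (u j * v i - u i * v j) = u j * (v i * v i) - u i * v i * v j := by ring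
      rw [this, hsq, ht, mul_one]
    rw [e1, abs_mul, hi, one_mul]
    exact two_ix v u h i j
  have ht1 : |t| ≤ 1 := by
    rw [ht, abs_mul, hi, mul_one]
    exact hu1 i
  have ht2 : 1 - |t| ≤ ρ := by
    have h2 := h1 k
    have h3 : |u k| ≤ |u k - t * v k| + |t * v k| := by
      have := abs_add_le (u k - t * v k) (t * v k)
      rwa [sub_add_cancel] at this
    have h4 : |t * v k| ≤ |t| := by
      rw [abs_mul]
      exact mul_le_of_le_one_right (abs_nonneg _) (hv1 k)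
    rw [hk] at h3
    linarith
  obtain ⟨s, hs, hst⟩ : ∃ s : ℝ, (s = 1 ∨ s = -1) ∧ |t - s| ≤ ρ := by
    rcases le_total 0 t with h5 | h5
    · refine ⟨1, Or.inl rfl, ?_⟩
      rw [abs_of_nonneg h5] at ht1 ht2
      rw [abs_le]
      constructor <;> linarith
    · refine ⟨-1, Or.inr rfl, ?_⟩
      rw [abs_of_nonpos h5] at ht1 ht2
      rw [abs_le]
      constructor <;> linarith
  refine ⟨s, hs, fun j => ?_⟩
  have e1 : u j - s * v j = (u j - t * v j) + (t - s) * v j := by ring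
  rw [e1]
  refine (abs_add_le _ _).trans ?_
  have h2 : |(t - s) * v j| ≤ ρ := by
    rw [abs_mul]
    exact (mul_le_of_le_one_right (abs_nonneg _) (hv1 j)).trans hst
  linarith [h1 j]

/-- Near vectors are almost parallel. -/
theorem pa_of_near {u v : Fin 3 → ℝ} {s ρ : ℝ} (_ : s = 1 ∨ s = -1) (hv : ∀ i, |v i| ≤ 1)
    (h : ∀ i, |u i - s * v i| ≤ ρ) : PA (2 * ρ) u v := by
  have hρ : 0 ≤ ρ := (abs_nonneg _).trans (h 0)
  have key : ∀ i j, |u i * v j - u j * v i| ≤ 2 * ρ := fun i j => by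
    have e1 : u i * v j - u j * v i = (u i - s * v i) * v j - (u j - s * v j) * v i := by ring
    rw [e1]
    refine (abs_sub _ _).trans ?_
    rw [abs_mul, abs_mul]
    have h1 := mul_le_mul (h i) (hv j) (abs_nonneg _) hρ
    have h2 := mul_le_mul (h j) (hv i) (abs_nonneg _) hρ
    linarith
  intro i
  unfold cr
  fin_cases i
  · exact key 1 2
  · exact key 2 0
  · exact key 0 1

/-- Transitivity. -/
theorem PA.trans {u v w : Fin 3 → ℝ} {ρ ρ' : ℝ} (hu : U3 u) (hv : U3 v) (hw : U3 w)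
    (h : PA ρ u v) (h' : PA ρ' v w) : PA (4 * (ρ + ρ')) u w := by
  obtain ⟨s, hs, h1⟩ := nsg3 hu hv h
  obtain ⟨s', hs', h2⟩ := nsg3 hv hw h'
  have hs1 : |s| = 1 := by rcases hs with rfl | rfl <;> simp
  refine (pa_of_near (s := s * s') (ρ := 2 * ρ + 2 * ρ') ?_ hw.1 fun i => ?_).mono (by linarith)
  · rcases hs with rfl | rfl <;> rcases hs' with rfl | rfl <;> simp
  · have e1 : u i - s * s' * w i = (u i - s * v i) + s * (v i - s' * w i) := by ring
    rw [e1]
    refine (abs_add_le _ _).trans ?_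
    rw [abs_mul, hs1, one_mul]
    linarith [h1 i, h2 i]

/-! ### Normalized vectors -/

/-- The maximum norm. -/
noncomputable def mx (x : Fin 3 → ℝ) : ℝ := max (max |x 0| |x 1|) |x 2|

theorem le_mx (x : Fin 3 → ℝ) (i : Fin 3) : |x i| ≤ mx x := by
  unfold mx
  fin_cases i
  · exact (le_max_left _ _).trans (le_max_left _ _)
  · exact (le_max_right _ _).trans (le_max_left _ _)
  · exact le_max_right _ _

theorem mx_eq (x : Fin 3 → ℝ) : ∃ i, |x i| = mx x := by
  unfold mx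
  rcases le_total (max |x 0| |x 1|) |x 2| with h | h
  · exact ⟨2, by rw [max_eq_right h]⟩
  · rw [max_eq_left h]
    rcases le_total |x 0| |x 1| with h' | h'
    · exact ⟨1, by rw [max_eq_right h']⟩
    · exact ⟨0, by rw [max_eq_left h']⟩

theorem mx_nonneg (x : Fin 3 → ℝ) : 0 ≤ mx x := (abs_nonneg _).trans (le_mx x 0)

/-- The normalized vector. -/
noncomputable def nz (x : Fin 3 → ℝ) : Fin 3 → ℝ :=
  open Classical in if mx x = 0 then Pi.single 0 1 else fun i => x i / mx x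

theorem nz_u3 (x : Fin 3 → ℝ) : U3 (nz x) := by
  classical
  unfold nz
  split_ifs with h
  · constructor
    · intro i
      fin_cases i <;> simp
    · exact ⟨0, by simp⟩
  · have hm : 0 < mx x := lt_of_le_of_ne (mx_nonneg x) (Ne.symm h)
    constructor
    · intro i
      rw [abs_div, abs_of_pos hm, div_le_one hm]
      exact le_mx x i
    · obtain ⟨i, hi⟩ := mx_eq x
      refine ⟨i, ?_⟩
      rw [abs_div, abs_of_pos hm, hi]
      exact div_self hm.ne'

theorem nz_val {x : Fin 3 → ℝ} (h : 0 < mx x) (i : Fin 3) : nz x i = x i / mx x := by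
  unfold nz
  rw [if_neg h.ne']

theorem dp_nz {x : Fin 3 → ℝ} (h : 0 < mx x) (v : Fin 3 → ℝ) : dp (nz x) v = dp x v / mx x := by
  unfold dp
  rw [nz_val h, nz_val h, nz_val h]
  ring

theorem cr_nz {x y : Fin 3 → ℝ} (hx : 0 < mx x) (hy : 0 < mx y) (i : Fin 3) :
    cr (nz x) (nz y) i = cr x y i / (mx x * mx y) := by
  unfold cr
  fin_cases i
  all_goals
    simp only [Fin.zero_eta, Fin.mk_one, Fin.reduceFinMk, Matrix.cons_val_zero,
      Matrix.cons_val_one, Matrix.cons_val]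
    rw [nz_val hx, nz_val hx, nz_val hy, nz_val hy]
    field_simp

/-- **Two pairs of vectors which are almost in one plane have almost parallel normals.** -/
theorem nrm_par {u v u' v' : Fin 3 → ℝ} {ρ₁ ρ₃ : ℝ} (h1 : 0 < ρ₁) (hu' : ∀ i, |u' i| ≤ 1)
    (hv' : ∀ i, |v' i| ≤ 1) (hx : ρ₁ ≤ mx (cr u v)) (hx' : ρ₁ ≤ mx (cr u' v'))
    (hu : |dp (cr u v) u'| ≤ ρ₃) (hv : |dp (cr u v) v'| ≤ ρ₃) :
    PA (2 * ρ₃ / (ρ₁ * ρ₁)) (nz (cr u v)) (nz (cr u' v')) := by
  have hρ₃ : 0 ≤ ρ₃ := (abs_nonneg _).trans hu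
  have p1 : 0 < mx (cr u v) := h1.trans_le hx
  have p2 : 0 < mx (cr u' v') := h1.trans_le hx'
  intro i
  rw [cr_nz p1 p2, abs_div, abs_of_pos (mul_pos p1 p2)]
  have k1 : |cr (cr u v) (cr u' v') i| ≤ 2 * ρ₃ := by
    rw [cr_cr]
    refine (abs_sub _ _).trans ?_
    rw [abs_mul, abs_mul]
    have e1 := mul_le_mul (hu' i) hv (abs_nonneg _) zero_le_one
    have e2 := mul_le_mul (hv' i) hu (abs_nonneg _) zero_le_one
    linarith
  exact div_le_div₀ (by positivity) k1 (by positivity) (mul_le_mul hx hx' h1.le p1.le)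

/-! ### The long column -/

theorem ex_nb3 (A : Matrix (Fin 3) (Fin 3) ℝ) :
    ∃ z : Fin 3 × Fin 3, ∀ i a, |A i a| ≤ |A z.1 z.2| := by
  obtain ⟨z, -, h⟩ := Finset.exists_max_image univ (fun z : Fin 3 × Fin 3 => |A z.1 z.2|)
    ⟨((0 : Fin 3), (0 : Fin 3)), Finset.mem_univ _⟩
  exact ⟨z, fun i a => h (i, a) (Finset.mem_univ _)⟩

/-- The place of the largest entry. -/
noncomputable def lc (A : Matrix (Fin 3) (Fin 3) ℝ) : Fin 3 × Fin 3 :=
  Classical.choose (ex_nb3 A)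

/-- The largest entry. -/
noncomputable def nb (A : Matrix (Fin 3) (Fin 3) ℝ) : ℝ := |A (lc A).1 (lc A).2|

/-- The unit vector of the long column. -/
noncomputable def un (A : Matrix (Fin 3) (Fin 3) ℝ) : Fin 3 → ℝ := fun i => A i (lc A).2 / nb A

theorem nb_le (A : Matrix (Fin 3) (Fin 3) ℝ) (i a : Fin 3) : |A i a| ≤ nb A :=
  Classical.choose_spec (ex_nb3 A) i a

theorem nb_nonneg (A : Matrix (Fin 3) (Fin 3) ℝ) : 0 ≤ nb A := abs_nonneg _

theorem un_u3 {A : Matrix (Fin 3) (Fin 3) ℝ} (h : 0 < nb A) : U3 (un A) := by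
  constructor
  · intro i
    unfold un
    rw [abs_div, abs_of_pos h, div_le_one h]
    exact nb_le A _ _
  · refine ⟨(lc A).1, ?_⟩
    unfold un
    rw [abs_div, abs_of_pos h]
    exact div_self h.ne'

theorem un_le (A : Matrix (Fin 3) (Fin 3) ℝ) (i : Fin 3) : |un A i| ≤ 1 := by
  rcases (nb_nonneg A).eq_or_lt with h | h
  · unfold un
    rw [← h, div_zero, abs_zero]
    exact zero_le_one
  · exact (un_u3 h).1 i

/-- The determinant of three unit columns. -/
theorem dp_un {A B D : Matrix (Fin 3) (Fin 3) ℝ} {κ ρ : ℝ} (hκ : 0 < κ) (hA : κ ≤ nb A)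
    (hB : κ ≤ nb B) (hD : κ ≤ nb D) (h : ¬ RN ρ ![A, B, D]) :
    |dp (cr (un A) (un B)) (un D)| ≤ ρ / (κ * κ * κ) := by
  have h1 : |dc ![A, B, D] ![(lc A).2, (lc B).2, (lc D).2]| ≤ ρ := by
    by_contra hc
    exact h ⟨_, not_le.1 hc⟩
  have a0 : 0 < nb A := hκ.trans_le hA
  have b0 : 0 < nb B := hκ.trans_le hB
  have d0 : 0 < nb D := hκ.trans_le hD
  have e1 : dp (cr (un A) (un B)) (un D) =
      dc ![A, B, D] ![(lc A).2, (lc B).2, (lc D).2] / (nb A * nb B * nb D) := by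
    rw [dc_three]
    unfold dp cr un
    simp only [Matrix.cons_val_zero, Matrix.cons_val_one, Matrix.cons_val]
    field_simp
  have hρ : 0 ≤ ρ := (abs_nonneg _).trans h1
  rw [e1, abs_div, abs_of_pos (by positivity : 0 < nb A * nb B * nb D)]
  refine div_le_div₀ hρ h1 (by positivity) ?_
  exact mul_le_mul (mul_le_mul hA hB hκ.le a0.le) hD hκ.le (by positivity)

end Pool.DR24
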